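import Mathlib
import Pool.Agent.Lib_helper72.AP.SelbergBound
import Pool.Agent.Lib_helper72.AP.SumLower

set_option autoImplicit false

/-!
A nonnegative sieve majorant `maj z n ≥ 1_{(n, P(z)) = 1}` with explicit divisor-sum weights.
-/

namespace Pool.Agent.Lib_helper72.AS

open Finset ArithmeticFunction BoundingSieve Pool.Agent.Lib_helper72.AP

noncomputable section

/-- The density `1 / d`. -/
def nuI : ArithmeticFunction ℝ := ⟨fun d => 1 / (d : ℝ), by simp⟩

lemma nuI_apply (d : ℕ) : nuI d = 1 / (d : ℝ) := rfl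

lemma nuI_mult : nuI.IsMultiplicative := by
  constructor
  · simp [nuI_apply]
  · intro m n _
    rw [nuI_apply, nuI_apply, nuI_apply]
    push_cast
    rw [one_div_mul_one_div]

/-- An auxiliary sieve problem with density `1 / d`. -/
def s0 (z : ℕ) : BoundingSieve where
  support := ∅
  prodPrimes := primorial z
  prodPrimes_squarefree := squarefree_primorial z
  weights := fun _ => 0
  weights_nonneg := fun _ => le_rfl
  totalMass := 0
  nu := nuI
  nu_mult := nuI_mult
  nu_pos_of_prime := by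
    intro p hp _
    rw [nuI_apply]
    have := hp.pos
    positivity
  nu_lt_one_of_prime := by
    intro p hp _
    rw [nuI_apply, div_lt_one (by exact_mod_cast hp.pos)]
    exact_mod_cast hp.one_lt

/-- The sieve weights. -/
def lam (z d : ℕ) : ℝ := lambdaSquared (selW (s0 z) z) d

/-- The majorant. -/
def maj (z n : ℕ) : ℝ := ∑ d ∈ (primorial z).divisors, if d ∣ n then lam z d else 0

lemma maj_eq (z n : ℕ) : maj z n = ∑ d ∈ (Nat.gcd (primorial z) n).divisors, lam z d := by
  rw [maj, ← Finset.sum_filter]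
  apply Finset.sum_congr _ (fun _ _ => rfl)
  ext x
  simp only [mem_filter, Nat.mem_divisors]
  constructor
  · rintro ⟨⟨h1, h2⟩, h3⟩
    exact ⟨Nat.dvd_gcd h1 h3, fun h => h2 (Nat.eq_zero_of_gcd_eq_zero_left h)⟩
  · rintro ⟨h1, h2⟩
    exact ⟨⟨h1.trans (Nat.gcd_dvd_left _ _), primorial_ne_zero z⟩, h1.trans (Nat.gcd_dvd_right _ _)⟩

lemma maj_ge (z n : ℕ) (hz : 1 ≤ z) :
    (if Nat.gcd (primorial z) n = 1 then (1 : ℝ) else 0) ≤ maj z n := by
  rw [maj_eq]
  exact upperMoebius_lambdaSquared (selW (s0 z) z) (selW_one hz) _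

lemma maj_nonneg (z n : ℕ) (hz : 1 ≤ z) : 0 ≤ maj z n := by
  refine le_trans ?_ (maj_ge z n hz)
  split_ifs <;> norm_num

lemma one_le_maj {z n : ℕ} (hz : 1 ≤ z) (h : Nat.Coprime (primorial z) n) : 1 ≤ maj z n := by
  have h1 := maj_ge z n hz
  rwa [if_pos h] at h1

lemma one_le_maj_of_prime {z p : ℕ} (hz : 1 ≤ z) (hp : p.Prime) (hpz : z < p) : 1 ≤ maj z p := by
  apply one_le_maj hz
  rw [Nat.coprime_comm, Nat.Prime.coprime_iff_not_dvd hp]
  intro h
  have h1 := (Nat.Prime.dvd_primorial_iff hp).1 h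
  omega

/-- Sum of the absolute values of the weights. -/
lemma sum_abs_lam_le (z : ℕ) (hz : 1 ≤ z) :
    ∑ d ∈ (primorial z).divisors, |lam z d| ≤ (z : ℝ) ^ 4 := by
  have hP := primorial_ne_zero z
  have h0 : ∀ d ∈ (primorial z).divisors, |lam z d| ≤
      ∑ d1 ∈ selD (s0 z) z, ∑ d2 ∈ selD (s0 z) z,
        if d = d1.lcm d2 then |selW (s0 z) z d1| * |selW (s0 z) z d2| else 0 := by
    intro d hd
    have hd' := (Nat.mem_divisors.1 hd).1
    have h1 : |lam z d| ≤ ∑ d1 ∈ d.divisors, ∑ d2 ∈ d.divisors,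
        if d = d1.lcm d2 then |selW (s0 z) z d1| * |selW (s0 z) z d2| else 0 := by
      rw [lam, lambdaSquared]
      refine (Finset.abs_sum_le_sum_abs _ _).trans (Finset.sum_le_sum fun d1 _ => ?_)
      refine (Finset.abs_sum_le_sum_abs _ _).trans (Finset.sum_le_sum fun d2 _ => ?_)
      split_ifs
      · rw [abs_mul]
      · simp
    refine h1.trans ?_
    have key : ∀ (f : ℕ → ℝ), (∀ x, 0 ≤ f x) → (∀ x, ¬ x ≤ z → f x = 0) →
        ∑ x ∈ d.divisors, f x ≤ ∑ x ∈ selD (s0 z) z, f x := by
      intro f hf hf0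
      have : ∑ x ∈ d.divisors, f x = ∑ x ∈ d.divisors.filter (fun x => x ≤ z), f x := by
        rw [Finset.sum_filter]
        apply Finset.sum_congr rfl
        intro x _
        split_ifs with h
        · rfl
        · exact hf0 x h
      rw [this]
      apply Finset.sum_le_sum_of_subset_of_nonneg
      · intro x hx
        rw [mem_filter, Nat.mem_divisors] at hx
        exact mem_selD.2 ⟨hx.1.1.trans hd', hx.2⟩
      · intro x _ _
        exact hf x
    refine (Finset.sum_le_sum fun d1 _ => key _ ?_ ?_).trans (key _ ?_ ?_)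
    · intro x
      split_ifs
      · positivity
      · exact le_rfl
    · intro x hx
      rw [selW_eq_zero hx]
      simp
    · intro x
      apply Finset.sum_nonneg
      intro y _
      split_ifs
      · positivity
      · exact le_rfl
    · intro x hx
      apply Finset.sum_eq_zero
      intro y _
      rw [selW_eq_zero hx]
      simp
  refine (Finset.sum_le_sum h0).trans ?_
  rw [Finset.sum_comm]
  have h2 : ∀ d1 ∈ selD (s0 z) z, ∑ d ∈ (primorial z).divisors, ∑ d2 ∈ selD (s0 z) z,
      (if d = d1.lcm d2 then |selW (s0 z) z d1| * |selW (s0 z) z d2| else 0) ≤ (z : ℝ) ^ 3 := by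
    intro d1 hd1
    rw [Finset.sum_comm]
    have hcard : ((selD (s0 z) z).card : ℝ) ≤ z := by
      have : selD (s0 z) z ⊆ Finset.Icc 1 z := by
        intro d hd
        obtain ⟨a, b⟩ := mem_selD.1 hd
        exact Finset.mem_Icc.2 ⟨Nat.pos_of_ne_zero (ne_zero_of_dvd_ne_zero hP a), b⟩
      have := Finset.card_le_card this
      rw [Nat.card_Icc, Nat.add_sub_cancel] at this
      exact_mod_cast this
    have hW : ∀ d ∈ selD (s0 z) z, |selW (s0 z) z d| ≤ z := by
      intro d hd
      obtain ⟨a1, b1⟩ := mem_selD.1 hd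
      refine (abs_selW_le hz a1).trans ?_
      show (nuI d)⁻¹ ≤ z
      rw [nuI_apply, one_div, inv_inv]
      exact_mod_cast b1
    calc ∑ d2 ∈ selD (s0 z) z, ∑ d ∈ (primorial z).divisors,
          (if d = d1.lcm d2 then |selW (s0 z) z d1| * |selW (s0 z) z d2| else 0)
        ≤ ∑ _d2 ∈ selD (s0 z) z, (z : ℝ) ^ 2 := by
          apply Finset.sum_le_sum
          intro d2 hd2
          rw [Finset.sum_ite_eq']
          split_ifs
          · rw [sq]
            exact mul_le_mul (hW d1 hd1) (hW d2 hd2) (abs_nonneg _) (Nat.cast_nonneg _)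
          · positivity
      _ = ((selD (s0 z) z).card : ℝ) * (z : ℝ) ^ 2 := by rw [Finset.sum_const, nsmul_eq_mul]
      _ ≤ z * (z : ℝ) ^ 2 := by gcongr
      _ = (z : ℝ) ^ 3 := by ring
  have hcard : ((selD (s0 z) z).card : ℝ) ≤ z := by
    have : selD (s0 z) z ⊆ Finset.Icc 1 z := by
      intro d hd
      obtain ⟨a, b⟩ := mem_selD.1 hd
      exact Finset.mem_Icc.2 ⟨Nat.pos_of_ne_zero (ne_zero_of_dvd_ne_zero hP a), b⟩
    have := Finset.card_le_card this
    rw [Nat.card_Icc, Nat.add_sub_cancel] at this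
    exact_mod_cast this
  refine (Finset.sum_le_sum h2).trans ?_
  rw [Finset.sum_const, nsmul_eq_mul]
  calc ((selD (s0 z) z).card : ℝ) * (z : ℝ) ^ 3 ≤ z * (z : ℝ) ^ 3 := by gcongr
    _ = (z : ℝ) ^ 4 := by ring

/-- The denominator of the Selberg sieve is at least the harmonic sum. -/
lemma harmonic_le_selS (z : ℕ) : ∑ m ∈ Icc 1 z, (1 : ℝ) / m ≤ selS (s0 z) z := by
  have hset : selD (s0 z) z = (Icc 1 z).filter Squarefree := by
    ext l
    rw [mem_selD, mem_filter, mem_Icc]
    show l ∣ primorial z ∧ l ≤ z ↔ _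
    constructor
    · rintro ⟨h1, h2⟩
      exact ⟨⟨Nat.pos_of_ne_zero (ne_zero_of_dvd_ne_zero (primorial_ne_zero z) h1), h2⟩,
        Squarefree.squarefree_of_dvd h1 (squarefree_primorial z)⟩
    · rintro ⟨⟨_, h2⟩, h3⟩
      exact ⟨h3.dvd_primorial.trans (primorial_dvd_primorial h2), h2⟩
  have hg : ∀ l ∈ selD (s0 z) z, (s0 z).selbergTerms l =
        ∏ p ∈ l.primeFactors, (nuI p / (1 - nuI p)) := by
    intro l hl
    rw [selbergTerms_apply, ← prod_primeFactors_nu (mem_selD.1 hl).1, ← Finset.prod_mul_distrib]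
    rfl
  rw [selS, Finset.sum_congr rfl hg, hset]
  calc ∑ m ∈ Icc 1 z, (1 : ℝ) / m
      = ∑ m ∈ Icc 1 z, ∏ p ∈ m.primeFactors, (1 / (p : ℝ) ^ m.factorization p) := by
        apply Finset.sum_congr rfl
        intro m hm
        rw [mem_Icc] at hm
        rw [Finset.prod_div_distrib, Finset.prod_const_one]
        congr 1
        have h1 := Nat.prod_factorization_pow_eq_self (n := m) (by omega)
        conv_lhs => rw [← h1]
        rw [Finsupp.prod, Nat.support_factorization]
        push_cast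
        rfl
    _ ≤ _ := by
        apply sum_fiber_radical z (fun p a => 1 / (p : ℝ) ^ a)
        · intro p a
          positivity
        · intro p hp _
          have hp1 : (1 : ℝ) < p := by exact_mod_cast hp.one_lt
          have e : nuI p / (1 - nuI p) = 1 / ((p : ℝ) - 1) := by
            rw [nuI_apply]
            have h1 : (p : ℝ) ≠ 0 := by positivity
            have h2 : (p : ℝ) - 1 ≠ 0 := by linarith
            have h3 : 1 - (1 : ℝ) / p ≠ 0 := by
              rw [one_sub_div h1]
              exact div_ne_zero h2 h1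
            field_simp
          rw [e]
          have h3 := sum_geom_le (x := 1 / (p : ℝ)) (by positivity)
            (by rw [div_lt_one (by linarith)]; exact hp1) z
          have h4 : ∑ a ∈ Icc 1 z, (1 : ℝ) / (p : ℝ) ^ a = ∑ a ∈ Icc 1 z, (1 / (p : ℝ)) ^ a := by
            apply Finset.sum_congr rfl
            intro a _
            rw [one_div_pow]
          rw [h4]
          refine h3.trans (le_of_eq ?_)
          have h1 : (p : ℝ) ≠ 0 := by positivity
          have h2 : (p : ℝ) - 1 ≠ 0 := by linarith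
          have h3 : 1 - (1 : ℝ) / p ≠ 0 := by
            rw [one_sub_div h1]
            exact div_ne_zero h2 h1
          field_simp

lemma log_le_selS (z : ℕ) (_hz : 1 ≤ z) : Real.log z ≤ selS (s0 z) z := by
  refine le_trans ?_ (harmonic_le_selS z)
  have h1 := log_add_one_le_harmonic z
  have h2 : ((harmonic z : ℚ) : ℝ) = ∑ m ∈ Icc 1 z, (1 : ℝ) / m := by
    rw [harmonic_eq_sum_Icc]
    push_cast
    apply Finset.sum_congr rfl
    intro m _
    rw [one_div]
  rw [← h2]
  refine le_trans ?_ h1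
  apply Real.log_le_log
  · exact_mod_cast _hz
  · push_cast
    linarith

end

end Pool.Agent.Lib_helper72.AS
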