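import Mathlib
import Pool.Agent.Lib_helper72.AS.Majorant
import Pool.Agent.Lib_helper72.AP.Wt

set_option autoImplicit false

/-!
Sums of the sieve majorant over an interval in a residue class (Brun–Titchmarsh).
-/

namespace Pool.Agent.Lib_helper72.AS

open Finset ArithmeticFunction BoundingSieve Pool.Agent.Lib_helper72.AP

noncomputable section

/-- The main term. -/
def GG (z k : ℕ) : ℝ := ∑ d ∈ (primorial z).divisors, if Nat.Coprime d k then lam z d / d else 0

lemma coprime_mod_iff (n k : ℕ) : Nat.Coprime (n % k) k ↔ Nat.Coprime n k := by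
  have := Nat.ModEq.gcd_eq (Nat.mod_modEq n k)
  rw [Nat.Coprime, Nat.Coprime, this]

lemma card_crt {k d : ℕ} (hk : 0 < k) (hd : 0 < d) (hkd : Nat.Coprime k d) {r : ℕ} (hr : r < k)
    (u L : ℕ) :
    |(((Ico u (u + L)).filter (fun n => n % k = r ∧ d ∣ n)).card : ℝ) - (L : ℝ) / k / d| ≤ 1 := by
  classical
  obtain ⟨s, hs1, hs2⟩ := Nat.chineseRemainder hkd r 0
  have hkd0 : 0 < k * d := Nat.mul_pos hk hd
  have e1 : (Ico u (u + L)).filter (fun n => n % k = r ∧ d ∣ n) =
      (Ico u (u + L)).filter (fun n => n % (k * d) = s % (k * d)) := by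
    apply Finset.filter_congr
    intro n _
    have h1 : n % (k * d) = s % (k * d) ↔ n ≡ s [MOD k] ∧ n ≡ s [MOD d] :=
      (Nat.modEq_and_modEq_iff_modEq_mul hkd).symm
    rw [h1]
    constructor
    · rintro ⟨h2, h3⟩
      constructor
      · refine Nat.ModEq.trans ?_ hs1.symm
        show n % k = r % k
        rw [h2, Nat.mod_eq_of_lt hr]
      · exact ((Nat.modEq_zero_iff_dvd).2 h3).trans hs2.symm
    · rintro ⟨h2, h3⟩
      constructor
      · have h4 : n % k = r % k := h2.trans hs1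
        rw [h4, Nat.mod_eq_of_lt hr]
      · exact (Nat.modEq_zero_iff_dvd).1 (h3.trans hs2)
  rw [e1]
  obtain ⟨h1, h2⟩ := card_mod_bounds hkd0 (Nat.mod_lt s hkd0) L u
  have hkr : (0 : ℝ) < k := by exact_mod_cast hk
  have hdr : (0 : ℝ) < d := by exact_mod_cast hd
  have e2 : (L : ℝ) / k / d = (L : ℝ) / ((k * d : ℕ) : ℝ) := by
    push_cast
    rw [div_div]
  have h3 : ((L / (k * d) : ℕ) : ℝ) ≤ (L : ℝ) / ((k * d : ℕ) : ℝ) := Nat.cast_div_le
  have h4 : (L : ℝ) / ((k * d : ℕ) : ℝ) ≤ ((L / (k * d) : ℕ) : ℝ) + 1 := by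
    rw [div_le_iff₀ (by exact_mod_cast hkd0)]
    have := Nat.lt_div_mul_add (a := L) hkd0
    have h5 : L ≤ (L / (k * d) + 1) * (k * d) := by
      rw [Nat.add_mul, one_mul]
      exact this.le
    exact_mod_cast h5
  have h1' : ((L / (k * d) : ℕ) : ℝ) ≤
      (((Ico u (u + L)).filter (fun n => n % (k * d) = s % (k * d))).card : ℝ) := by
    exact_mod_cast h1
  have h2' : (((Ico u (u + L)).filter (fun n => n % (k * d) = s % (k * d))).card : ℝ) ≤
      ((L / (k * d) : ℕ) : ℝ) + 1 := by
    exact_mod_cast h2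
  rw [e2, abs_le]
  constructor <;> linarith

/-- Class sums of the majorant. -/
theorem class_sum {z k : ℕ} (hz : 1 ≤ z) (hk : 0 < k) {r : ℕ} (hr : r < k)
    (hrk : Nat.Coprime r k) (u L : ℕ) :
    |∑ n ∈ (Ico u (u + L)).filter (fun n => n % k = r), maj z n - (L : ℝ) / k * GG z k| ≤
      (z : ℝ) ^ 4 := by
  classical
  have e1 : ∑ n ∈ (Ico u (u + L)).filter (fun n => n % k = r), maj z n =
      ∑ d ∈ (primorial z).divisors,
        lam z d * (((Ico u (u + L)).filter (fun n => n % k = r ∧ d ∣ n)).card : ℝ) := by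
    simp only [maj]
    rw [Finset.sum_comm]
    apply Finset.sum_congr rfl
    intro d _
    rw [← Finset.sum_filter, Finset.sum_const, nsmul_eq_mul, mul_comm, Finset.filter_filter]
  have e2 : (L : ℝ) / k * GG z k = ∑ d ∈ (primorial z).divisors,
      (if Nat.Coprime d k then lam z d * ((L : ℝ) / k / d) else 0) := by
    rw [GG, Finset.mul_sum]
    apply Finset.sum_congr rfl
    intro d _
    split_ifs
    · ring
    · ring
  rw [e1, e2, ← Finset.sum_sub_distrib]
  refine (Finset.abs_sum_le_sum_abs _ _).trans ?_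
  refine le_trans (Finset.sum_le_sum ?_) (sum_abs_lam_le z hz)
  intro d hd
  have hd0 : 0 < d := Nat.pos_of_mem_divisors hd
  split_ifs with h
  · rw [← mul_sub, abs_mul]
    have := card_crt hk hd0 h.symm hr u L
    calc |lam z d| * _ ≤ |lam z d| * 1 := mul_le_mul_of_nonneg_left this (abs_nonneg _)
      _ = |lam z d| := mul_one _
  · have e3 : (Ico u (u + L)).filter (fun n => n % k = r ∧ d ∣ n) = ∅ := by
      rw [Finset.filter_eq_empty_iff]
      rintro n _ ⟨h1, h2⟩
      apply h
      have h3 : Nat.Coprime n k := (coprime_mod_iff n k).1 (by rw [h1]; exact hrk)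
      exact Nat.Coprime.coprime_dvd_left h2 h3
    rw [e3]
    simp

lemma GG_one {z : ℕ} (hz : 1 ≤ z) : GG z 1 = (selS (s0 z) z)⁻¹ := by
  rw [← mainSum_selW (s := s0 z) hz, GG]
  unfold BoundingSieve.mainSum
  apply Finset.sum_congr rfl
  intro d _
  rw [if_pos (Nat.coprime_one_right d)]
  show lam z d / d = _ * nuI d
  rw [nuI_apply]
  show lam z d / d = lam z d * (1 / d)
  ring

lemma filter_mod_one (u L : ℕ) : (Ico u (u + L)).filter (fun n => n % 1 = 0) = Ico u (u + L) := by
  apply Finset.filter_true_of_mem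
  intro n _
  exact Nat.mod_one n

lemma card_units_range (k : ℕ) :
    ((range k).filter (fun r => Nat.Coprime r k)).card = k.totient := by
  rw [Nat.totient]
  congr 1
  apply Finset.filter_congr
  intro x _
  exact Nat.coprime_comm

lemma GG_le {z k : ℕ} (hz : 1 ≤ z) (hk : 0 < k) :
    GG z k ≤ (k : ℝ) / k.totient * (selS (s0 z) z)⁻¹ := by
  classical
  have hkr : (0 : ℝ) < k := by exact_mod_cast hk
  have hφ : (0 : ℝ) < k.totient := by exact_mod_cast Nat.totient_pos.2 hk
  set S := (selS (s0 z) z)⁻¹ with hS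
  set E : ℝ := (k.totient + 1) * (z : ℝ) ^ 4 with hE
  have key : ∀ L : ℕ, (L : ℝ) * (k.totient * (GG z k / k) - S) ≤ E := by
    intro L
    have h1 : ∀ r ∈ (range k).filter (fun r => Nat.Coprime r k),
        (L : ℝ) / k * GG z k - (z : ℝ) ^ 4 ≤
        ∑ n ∈ (Ico 0 (0 + L)).filter (fun n => n % k = r), maj z n := by
      intro r hr
      rw [mem_filter, mem_range] at hr
      have := (abs_le.1 (class_sum hz hk hr.1 hr.2 0 L)).1
      linarith
    have h2 := Finset.sum_le_sum h1
    rw [Finset.sum_const, card_units_range, nsmul_eq_mul] at h2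
    have h3 : ∑ r ∈ (range k).filter (fun r => Nat.Coprime r k),
        ∑ n ∈ (Ico 0 (0 + L)).filter (fun n => n % k = r), maj z n ≤
        ∑ n ∈ Ico 0 (0 + L), maj z n := by
      rw [← Finset.sum_fiberwise_of_maps_to (s := Ico 0 (0 + L)) (t := range k)
        (g := fun n => n % k) (fun n _ => mem_range.2 (Nat.mod_lt _ hk))]
      apply Finset.sum_le_sum_of_subset_of_nonneg (Finset.filter_subset _ _)
      intro r _ _
      exact Finset.sum_nonneg (fun n _ => maj_nonneg z n hz)
    have h4 := (abs_le.1 (class_sum (k := 1) hz one_pos (r := 0) one_pos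
      (Nat.coprime_one_right 0) 0 L)).2
    rw [filter_mod_one, GG_one hz] at h4
    have h5 : (k.totient : ℝ) * ((L : ℝ) / k * GG z k - (z : ℝ) ^ 4) ≤
        (L : ℝ) * S + (z : ℝ) ^ 4 := by
      have : (L : ℝ) / ((1 : ℕ) : ℝ) * (selS (s0 z) z)⁻¹ = L * S := by
        rw [Nat.cast_one, div_one]
      rw [this] at h4
      linarith
    have e : (L : ℝ) * (k.totient * (GG z k / k) - S) =
        (k.totient : ℝ) * ((L : ℝ) / k * GG z k) - L * S := by
      field_simp
    rw [e, hE]
    linarith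
  have h0 : (k.totient : ℝ) * (GG z k / k) - S ≤ 0 := by
    by_contra hcon
    push Not at hcon
    obtain ⟨L, hL⟩ := exists_nat_gt (E / (k.totient * (GG z k / k) - S))
    rw [div_lt_iff₀ hcon] at hL
    have := key L
    linarith
  have h1 : (k.totient : ℝ) * (GG z k / k) ≤ S := by linarith
  have h2 : GG z k = (k : ℝ) / k.totient * (k.totient * (GG z k / k)) := by
    field_simp
  rw [h2]
  exact mul_le_mul_of_nonneg_left h1 (by positivity)

/-- The Brun–Titchmarsh inequality for the majorant. -/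
theorem class_sum_le {z k : ℕ} (hz : 1 ≤ z) (hk : 0 < k) {r : ℕ} (hr : r < k)
    (hrk : Nat.Coprime r k) (u L : ℕ) :
    ∑ n ∈ (Ico u (u + L)).filter (fun n => n % k = r), maj z n ≤
      (L : ℝ) / (k.totient * selS (s0 z) z) + (z : ℝ) ^ 4 := by
  have h1 := (abs_le.1 (class_sum hz hk hr hrk u L)).2
  have h2 := GG_le hz hk
  have hkr : (0 : ℝ) < k := by exact_mod_cast hk
  have hφ : (0 : ℝ) < k.totient := by exact_mod_cast Nat.totient_pos.2 hk
  have hS : 0 < selS (s0 z) z := selS_pos hz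
  have h3 : (L : ℝ) / k * GG z k ≤ (L : ℝ) / k * ((k : ℝ) / k.totient * (selS (s0 z) z)⁻¹) :=
    mul_le_mul_of_nonneg_left h2 (by positivity)
  have h4 : (L : ℝ) / k * ((k : ℝ) / k.totient * (selS (s0 z) z)⁻¹) =
      (L : ℝ) / (k.totient * selS (s0 z) z) := by
    field_simp
  linarith

end

end Pool.Agent.Lib_helper72.AS
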