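import Mathlib
import Pool.Agent.Lib_helper72.AS.ClassSum
import Pool.Agent.Lib_helper72.AP.LargeSieve

set_option autoImplicit false

/-!
A dual large sieve weighted with the sieve majorant, for a family of moduli most pairs of which
are coprime.
-/

namespace Pool.Agent.Lib_helper72.AS

open Finset ArithmeticFunction BoundingSieve Pool.Agent.Lib_helper72.AP

noncomputable section

lemma sum_dvd_Ico {d : ℕ} (hd : 0 < d) (u v : ℕ) (F : ℕ → ℝ) :
    ∑ n ∈ (Ico u v).filter (fun n => d ∣ n), F n =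
      ∑ e ∈ Ico ((u + d - 1) / d) ((v + d - 1) / d), F (d * e) := by
  have key : ∀ w e : ℕ, (w + d - 1) / d ≤ e ↔ w ≤ d * e := by
    intro w e
    rw [← Nat.lt_succ_iff, Nat.div_lt_iff_lt_mul hd]
    have : (e.succ) * d = d * e + d := by
      rw [Nat.succ_mul, Nat.mul_comm]
    rw [this]
    omega
  apply Finset.sum_nbij' (fun n => n / d) (fun e => d * e)
  · intro n hn
    rw [mem_filter, mem_Ico] at hn
    obtain ⟨⟨h1, h2⟩, e, rfl⟩ := hn
    rw [Nat.mul_div_cancel_left _ hd, mem_Ico, key]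
    refine ⟨h1, ?_⟩
    by_contra hcon
    rw [not_lt, key] at hcon
    omega
  · intro e he
    rw [mem_Ico, key] at he
    rw [mem_filter, mem_Ico]
    refine ⟨⟨he.1, ?_⟩, dvd_mul_right _ _⟩
    by_contra hcon
    rw [not_lt, ← key] at hcon
    omega
  · intro n hn
    rw [mem_filter] at hn
    exact Nat.mul_div_cancel' hn.2
  · intro e _
    exact Nat.mul_div_cancel_left _ hd
  · intro n hn
    rw [mem_filter] at hn
    rw [Nat.mul_div_cancel' hn.2]

/-- Correlations along multiples of `d`. -/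
lemma corr_dvd {a b : ℕ} (ha : 0 < a) (hb : 0 < b) (hab : Nat.Coprime a b) (f g : ℕ → ℝ)
    (hf : ∑ r ∈ range a, f r = 0) (hf0 : ∀ r, ¬ Nat.Coprime r a → f r = 0)
    (hg0 : ∀ r, ¬ Nat.Coprime r b → g r = 0) {d : ℕ} (hd : 0 < d) (u v : ℕ) :
    |∑ n ∈ (Ico u v).filter (fun n => d ∣ n), f (n % a) * g (n % b)| ≤
      (∑ r ∈ range a, |f r|) * (∑ r ∈ range b, |g r|) := by
  classical
  have hT : 0 ≤ (∑ r ∈ range a, |f r|) * (∑ r ∈ range b, |g r|) :=
    mul_nonneg (Finset.sum_nonneg fun _ _ => abs_nonneg _)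
      (Finset.sum_nonneg fun _ _ => abs_nonneg _)
  by_cases hda : Nat.Coprime d a
  swap
  · have : ∑ n ∈ (Ico u v).filter (fun n => d ∣ n), f (n % a) * g (n % b) = 0 := by
      apply Finset.sum_eq_zero
      intro n hn
      rw [mem_filter] at hn
      have h1 : ¬ Nat.Coprime (n % a) a := by
        rw [coprime_mod_iff]
        intro h
        exact hda (Nat.Coprime.coprime_dvd_left hn.2 h)
      rw [hf0 _ h1, zero_mul]
    rw [this, abs_zero]
    exact hT
  by_cases hdb : Nat.Coprime d b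
  swap
  · have : ∑ n ∈ (Ico u v).filter (fun n => d ∣ n), f (n % a) * g (n % b) = 0 := by
      apply Finset.sum_eq_zero
      intro n hn
      rw [mem_filter] at hn
      have h1 : ¬ Nat.Coprime (n % b) b := by
        rw [coprime_mod_iff]
        intro h
        exact hdb (Nat.Coprime.coprime_dvd_left hn.2 h)
      rw [hg0 _ h1, mul_zero]
    rw [this, abs_zero]
    exact hT
  have : NeZero a := ⟨ha.ne'⟩
  have : NeZero b := ⟨hb.ne'⟩
  rw [sum_dvd_Ico hd]
  generalize (u + d - 1) / d = u'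
  generalize (v + d - 1) / d = v'
  have hua : IsUnit (d : ZMod a) := (ZMod.isUnit_iff_coprime d a).2 hda
  have hub : IsUnit (d : ZMod b) := (ZMod.isUnit_iff_coprime d b).2 hdb
  have hbij : ∀ (m : ℕ) [NeZero m] (hm : IsUnit (d : ZMod m)) (h : ℕ → ℝ),
      ∑ x : ZMod m, h ((d : ZMod m) * x).val = ∑ r ∈ range m, h r := by
    intro m _ hm h
    rw [← sum_zmod_val (a := m) h]
    have hb : Function.Bijective (fun x : ZMod m => (d : ZMod m) * x) := by
      have : Function.Injective (fun x : ZMod m => (d : ZMod m) * x) := fun x y hxy =>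
        hm.mul_left_cancel hxy
      exact Finite.injective_iff_bijective.1 this
    exact Function.Bijective.sum_comp hb (fun y : ZMod m => h y.val)
  have hval : ∀ (m : ℕ) [NeZero m] (e : ℕ),
      ((d : ZMod m) * (e : ZMod m)).val = (d * e) % m := by
    intro m _ e
    rw [← Nat.cast_mul, ZMod.val_natCast]
  rcases le_or_gt u' v' with huv | huv
  · have h := abs_sum_pair_le hab (fun x : ZMod a => f ((d : ZMod a) * x).val)
      (fun x : ZMod b => g ((d : ZMod b) * x).val) (by rw [hbij a hua f, hf]) (v' - u') u'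
    rw [hbij a hua (fun r => |f r|), hbij b hub (fun r => |g r|)] at h
    have e1 : u' + (v' - u') = v' := by omega
    rw [e1] at h
    simp only [hval] at h
    exact h
  · rw [Finset.Ico_eq_empty (by omega)]
    simpa using hT

/-- Off-diagonal correlations with the majorant. -/
lemma corr_maj {z : ℕ} (hz : 1 ≤ z) {a b : ℕ} (ha : 0 < a) (hb : 0 < b) (hab : Nat.Coprime a b)
    (f g : ℕ → ℝ) (hf : ∑ r ∈ range a, f r = 0) (hf0 : ∀ r, ¬ Nat.Coprime r a → f r = 0)
    (hg0 : ∀ r, ¬ Nat.Coprime r b → g r = 0) (u v : ℕ) :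
    |∑ n ∈ Ico u v, maj z n * (f (n % a) * g (n % b))| ≤
      (z : ℝ) ^ 4 * ((∑ r ∈ range a, |f r|) * (∑ r ∈ range b, |g r|)) := by
  classical
  have e1 : ∑ n ∈ Ico u v, maj z n * (f (n % a) * g (n % b)) =
      ∑ d ∈ (primorial z).divisors,
        lam z d * ∑ n ∈ (Ico u v).filter (fun n => d ∣ n), f (n % a) * g (n % b) := by
    simp only [maj, Finset.sum_mul]
    rw [Finset.sum_comm]
    apply Finset.sum_congr rfl
    intro d _
    rw [Finset.mul_sum, Finset.sum_filter]
    apply Finset.sum_congr rfl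
    intro n _
    split_ifs
    · ring
    · ring
  rw [e1]
  have hT : 0 ≤ (∑ r ∈ range a, |f r|) * (∑ r ∈ range b, |g r|) :=
    mul_nonneg (Finset.sum_nonneg fun _ _ => abs_nonneg _)
      (Finset.sum_nonneg fun _ _ => abs_nonneg _)
  refine (Finset.abs_sum_le_sum_abs _ _).trans ?_
  calc ∑ d ∈ (primorial z).divisors,
        |lam z d * ∑ n ∈ (Ico u v).filter (fun n => d ∣ n), f (n % a) * g (n % b)|
      ≤ ∑ d ∈ (primorial z).divisors,
        |lam z d| * ((∑ r ∈ range a, |f r|) * (∑ r ∈ range b, |g r|)) := by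
        apply Finset.sum_le_sum
        intro d hd
        rw [abs_mul]
        apply mul_le_mul_of_nonneg_left _ (abs_nonneg _)
        exact corr_dvd ha hb hab f g hf hf0 hg0 (Nat.pos_of_mem_divisors hd) u v
    _ = (∑ d ∈ (primorial z).divisors, |lam z d|) *
          ((∑ r ∈ range a, |f r|) * (∑ r ∈ range b, |g r|)) := by
        generalize (∑ r ∈ range a, |f r|) * (∑ r ∈ range b, |g r|) = Z
        rw [Finset.sum_mul]
    _ ≤ _ := mul_le_mul_of_nonneg_right (sum_abs_lam_le z hz) hT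

/-- Diagonal terms. -/
lemma diag_maj {z : ℕ} (hz : 1 ≤ z) {k : ℕ} (hk : 0 < k) (f : ℕ → ℝ)
    (hf0 : ∀ r, ¬ Nat.Coprime r k → f r = 0) (u L : ℕ) :
    ∑ n ∈ Ico u (u + L), maj z n * (f (n % k)) ^ 2 ≤
      ((L : ℝ) / (k.totient * selS (s0 z) z) + (z : ℝ) ^ 4) * ∑ r ∈ range k, (f r) ^ 2 := by
  classical
  rw [← Finset.sum_fiberwise_of_maps_to (s := Ico u (u + L)) (t := range k)
        (g := fun n => n % k) (fun n _ => mem_range.2 (Nat.mod_lt _ hk)), Finset.mul_sum]
  apply Finset.sum_le_sum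
  intro r hr
  rw [mem_range] at hr
  have e1 : ∑ n ∈ (Ico u (u + L)).filter (fun n => n % k = r), maj z n * (f (n % k)) ^ 2 =
      (∑ n ∈ (Ico u (u + L)).filter (fun n => n % k = r), maj z n) * (f r) ^ 2 := by
    rw [Finset.sum_mul]
    apply Finset.sum_congr rfl
    intro n hn
    rw [(mem_filter.1 hn).2]
  rw [e1]
  by_cases hrk : Nat.Coprime r k
  · exact mul_le_mul_of_nonneg_right (class_sum_le hz hk hr hrk u L) (sq_nonneg _)
  · rw [hf0 r hrk]
    simp

/-- The dual large sieve with majorant. -/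
theorem dual_maj {z : ℕ} (hz : 1 ≤ z) (K : Finset ℕ) (hK : ∀ k ∈ K, 0 < k) {A₀ A₁ : ℝ}
    (hA₀ : 0 < A₀) (h0 : ∀ k ∈ K, A₀ ≤ (k.totient : ℝ)) (h1 : ∀ k ∈ K, (k : ℝ) ≤ A₁)
    {R : ℕ} (hR : ∀ k ∈ K, (K.filter (fun k' => ¬ Nat.Coprime k k')).card ≤ R)
    (C : ℕ → ℕ → ℝ) (hC : ∀ k ∈ K, ∑ r ∈ range k, C k r = 0)
    (hC0 : ∀ k ∈ K, ∀ r, ¬ Nat.Coprime r k → C k r = 0) (u L : ℕ) :
    ∑ n ∈ Ico u (u + L), maj z n * (∑ k ∈ K, C k (n % k)) ^ 2 ≤
      (R * ((L : ℝ) / (A₀ * selS (s0 z) z) + (z : ℝ) ^ 4) + (z : ℝ) ^ 4 * (K.card * A₁)) *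
        ∑ k ∈ K, ∑ r ∈ range k, (C k r) ^ 2 := by
  classical
  set Q : ℕ → ℝ := fun k => ∑ r ∈ range k, (C k r) ^ 2 with hQ
  set T : ℕ → ℝ := fun k => ∑ r ∈ range k, |C k r| with hT
  have hQ0 : ∀ k, 0 ≤ Q k := fun k => Finset.sum_nonneg fun r _ => sq_nonneg _
  have hT0 : ∀ k, 0 ≤ T k := fun k => Finset.sum_nonneg fun r _ => abs_nonneg _
  have hS : 0 < selS (s0 z) z := selS_pos hz
  have hTQ : ∀ k ∈ K, T k ^ 2 ≤ A₁ * Q k := by
    intro k hk
    have h := sq_sum_le_card_mul_sum_sq (s := range k) (f := fun r => |C k r|)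
    simp only [card_range, sq_abs] at h
    exact h.trans (mul_le_mul_of_nonneg_right (h1 k hk) (hQ0 k))
  set w : ℝ := (L : ℝ) / (A₀ * selS (s0 z) z) + (z : ℝ) ^ 4 with hw
  have hw0 : 0 ≤ w := by positivity
  -- diagonal quantities
  set D : ℕ → ℝ := fun k => ∑ n ∈ Ico u (u + L), maj z n * (C k (n % k)) ^ 2 with hD
  have hDQ : ∀ k ∈ K, D k ≤ w * Q k := by
    intro k hk
    refine (diag_maj hz (hK k hk) (C k) (hC0 k hk) u L).trans ?_
    apply mul_le_mul_of_nonneg_right _ (hQ0 k)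
    apply add_le_add_left
    apply div_le_div_of_nonneg_left (Nat.cast_nonneg _) (by positivity)
    exact mul_le_mul_of_nonneg_right (h0 k hk) hS.le
  have hD0 : ∀ k, 0 ≤ D k := fun k => Finset.sum_nonneg fun n _ =>
    mul_nonneg (maj_nonneg z n hz) (sq_nonneg _)
  have hexp : ∑ n ∈ Ico u (u + L), maj z n * (∑ k ∈ K, C k (n % k)) ^ 2 =
      ∑ a ∈ K, ∑ b ∈ K, ∑ n ∈ Ico u (u + L), maj z n * (C a (n % a) * C b (n % b)) := by
    have e1 : ∀ n ∈ Ico u (u + L), maj z n * (∑ k ∈ K, C k (n % k)) ^ 2 =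
        ∑ a ∈ K, ∑ b ∈ K, maj z n * (C a (n % a) * C b (n % b)) := by
      intro n _
      rw [sq, Finset.sum_mul_sum, Finset.mul_sum]
      apply Finset.sum_congr rfl
      intro a _
      rw [Finset.mul_sum]
    rw [Finset.sum_congr rfl e1, Finset.sum_comm]
    apply Finset.sum_congr rfl
    intro a _
    rw [Finset.sum_comm]
  have hterm : ∀ a ∈ K, ∀ b ∈ K,
      ∑ n ∈ Ico u (u + L), maj z n * (C a (n % a) * C b (n % b)) ≤
      (if ¬ Nat.Coprime a b then (D a + D b) / 2 else 0) + (z : ℝ) ^ 4 * (T a * T b) := by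
    intro a ha b hb
    by_cases hab : Nat.Coprime a b
    · rw [if_neg (by simpa using hab), zero_add]
      exact (le_abs_self _).trans (corr_maj hz (hK a ha) (hK b hb) hab (C a) (C b) (hC a ha)
        (hC0 a ha) (hC0 b hb) u (u + L))
    · rw [if_pos hab]
      have h2 : ∑ n ∈ Ico u (u + L), maj z n * (C a (n % a) * C b (n % b)) ≤
          (D a + D b) / 2 := by
        rw [hD]
        simp only
        rw [← Finset.sum_add_distrib, Finset.sum_div]
        apply Finset.sum_le_sum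
        intro n _
        have h3 := maj_nonneg z n hz
        have h4 : C a (n % a) * C b (n % b) ≤ ((C a (n % a)) ^ 2 + (C b (n % b)) ^ 2) / 2 := by
          nlinarith [sq_nonneg (C a (n % a) - C b (n % b))]
        have h5 := mul_le_mul_of_nonneg_left h4 h3
        linarith
      have h3 : 0 ≤ (z : ℝ) ^ 4 * (T a * T b) :=
        mul_nonneg (by positivity) (mul_nonneg (hT0 a) (hT0 b))
      linarith
  rw [hexp]
  have hcard : ∀ a ∈ K, ∑ b ∈ K, (if ¬ Nat.Coprime a b then D a else 0) ≤ R * D a := by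
    intro a ha
    rw [← Finset.sum_filter, Finset.sum_const, nsmul_eq_mul]
    exact mul_le_mul_of_nonneg_right (by exact_mod_cast hR a ha) (hD0 a)
  have hnc : ∑ a ∈ K, ∑ b ∈ K, (if ¬ Nat.Coprime a b then (D a + D b) / 2 else 0) ≤
      R * ∑ a ∈ K, D a := by
    have e1 : ∑ a ∈ K, ∑ b ∈ K, (if ¬ Nat.Coprime a b then (D a + D b) / 2 else 0) =
        (∑ a ∈ K, ∑ b ∈ K, (if ¬ Nat.Coprime a b then D a else 0)) / 2 +
        (∑ a ∈ K, ∑ b ∈ K, (if ¬ Nat.Coprime a b then D b else 0)) / 2 := by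
      rw [← add_div, ← Finset.sum_add_distrib, Finset.sum_div]
      apply Finset.sum_congr rfl
      intro a _
      rw [← Finset.sum_add_distrib, Finset.sum_div]
      apply Finset.sum_congr rfl
      intro b _
      split_ifs
      · ring
      · ring
    have e2 : ∑ a ∈ K, ∑ b ∈ K, (if ¬ Nat.Coprime a b then D b else 0) =
        ∑ a ∈ K, ∑ b ∈ K, (if ¬ Nat.Coprime a b then D a else 0) := by
      rw [Finset.sum_comm]
      apply Finset.sum_congr rfl
      intro a _
      apply Finset.sum_congr rfl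
      intro b _
      have h : Nat.Coprime b a ↔ Nat.Coprime a b := Nat.coprime_comm
      simp only [h]
    rw [e1, e2, add_halves, Finset.mul_sum]
    exact Finset.sum_le_sum hcard
  calc ∑ a ∈ K, ∑ b ∈ K, ∑ n ∈ Ico u (u + L), maj z n * (C a (n % a) * C b (n % b))
      ≤ ∑ a ∈ K, ∑ b ∈ K, ((if ¬ Nat.Coprime a b then (D a + D b) / 2 else 0) +
          (z : ℝ) ^ 4 * (T a * T b)) :=
        Finset.sum_le_sum fun a ha => Finset.sum_le_sum fun b hb => hterm a ha b hb
    _ = ∑ a ∈ K, ∑ b ∈ K, (if ¬ Nat.Coprime a b then (D a + D b) / 2 else 0) +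
          (z : ℝ) ^ 4 * (∑ a ∈ K, T a) ^ 2 := by
        simp only [Finset.sum_add_distrib]
        congr 1
        rw [sq, Finset.sum_mul_sum, Finset.mul_sum]
        apply Finset.sum_congr rfl
        intro a _
        rw [Finset.mul_sum]
    _ ≤ R * ∑ a ∈ K, D a + (z : ℝ) ^ 4 * (K.card * ∑ a ∈ K, T a ^ 2) := by
        apply add_le_add hnc
        exact mul_le_mul_of_nonneg_left (sq_sum_le_card_mul_sum_sq (s := K) (f := T))
          (by positivity)
    _ ≤ R * (w * ∑ a ∈ K, Q a) + (z : ℝ) ^ 4 * (K.card * (A₁ * ∑ a ∈ K, Q a)) := by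
        apply add_le_add
        · apply mul_le_mul_of_nonneg_left _ (Nat.cast_nonneg _)
          rw [Finset.mul_sum]
          exact Finset.sum_le_sum hDQ
        · apply mul_le_mul_of_nonneg_left _ (by positivity)
          apply mul_le_mul_of_nonneg_left _ (Nat.cast_nonneg _)
          rw [Finset.mul_sum]
          exact Finset.sum_le_sum hTQ
    _ = _ := by ring

end

end Pool.Agent.Lib_helper72.AS
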