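import Mathlib
import Pool.Agent.Lib_helper72.AS.Dual

set_option autoImplicit false

/-!
Variances over reduced residue classes: large sieve for sequences supported on integers without
small prime factors, and bilinear forms.
-/

namespace Pool.Agent.Lib_helper72.AS

open Finset ArithmeticFunction BoundingSieve Pool.Agent.Lib_helper72.AP

noncomputable section

/-- The sum over a residue class. -/
def cl (S : Finset ℕ) (f : ℕ → ℝ) (k r : ℕ) : ℝ := ∑ n ∈ S.filter (fun n => n % k = r), f n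

/-- The mean over the reduced classes. -/
def mn (S : Finset ℕ) (f : ℕ → ℝ) (k : ℕ) : ℝ :=
  (∑ n ∈ S.filter (fun n => Nat.Coprime n k), f n) / (k.totient : ℝ)

/-- The deviation. -/
def dv (S : Finset ℕ) (f : ℕ → ℝ) (k r : ℕ) : ℝ :=
  if Nat.Coprime r k then cl S f k r - mn S f k else 0

/-- The variance. -/
def VV (S : Finset ℕ) (f : ℕ → ℝ) (k : ℕ) : ℝ := ∑ r ∈ range k, (dv S f k r) ^ 2

lemma VV_nonneg (S : Finset ℕ) (f : ℕ → ℝ) (k : ℕ) : 0 ≤ VV S f k :=
  Finset.sum_nonneg fun _ _ => sq_nonneg _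

lemma sum_cl_mul (S : Finset ℕ) (f : ℕ → ℝ) {k : ℕ} (hk : 0 < k) (g : ℕ → ℝ) :
    ∑ r ∈ range k, cl S f k r * g r = ∑ n ∈ S, f n * g (n % k) := by
  classical
  rw [← Finset.sum_fiberwise_of_maps_to (s := S) (t := range k) (g := fun n => n % k)
    (fun n _ => mem_range.2 (Nat.mod_lt _ hk))]
  apply Finset.sum_congr rfl
  intro r _
  rw [cl, Finset.sum_mul]
  apply Finset.sum_congr rfl
  intro n hn
  rw [(mem_filter.1 hn).2]

lemma sum_dv (S : Finset ℕ) (f : ℕ → ℝ) {k : ℕ} (hk : 0 < k) :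
    ∑ r ∈ range k, dv S f k r = 0 := by
  classical
  have h1 : ∀ r ∈ range k, dv S f k r = cl S f k r * (if Nat.Coprime r k then 1 else 0) -
      (if Nat.Coprime r k then mn S f k else 0) := by
    intro r _
    rw [dv]
    split_ifs <;> ring
  rw [Finset.sum_congr rfl h1, Finset.sum_sub_distrib, sum_cl_mul S f hk, ← Finset.sum_filter,
    Finset.sum_const, card_units_range, nsmul_eq_mul, mn]
  have hφ : (0 : ℝ) < k.totient := by exact_mod_cast Nat.totient_pos.2 hk
  rw [mul_div_cancel₀ _ hφ.ne', Finset.sum_filter, sub_eq_zero]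
  apply Finset.sum_congr rfl
  intro n _
  simp only [coprime_mod_iff]
  split_ifs <;> simp

lemma VV_eq (S : Finset ℕ) (f : ℕ → ℝ) {k : ℕ} (hk : 0 < k) :
    VV S f k = ∑ n ∈ S, f n * dv S f k (n % k) := by
  classical
  rw [← sum_cl_mul S f hk, VV]
  have h1 : ∀ r ∈ range k, (dv S f k r) ^ 2 =
      cl S f k r * dv S f k r - mn S f k * dv S f k r := by
    intro r _
    rw [dv]
    split_ifs <;> ring
  rw [Finset.sum_congr rfl h1, Finset.sum_sub_distrib, ← Finset.mul_sum, sum_dv S f hk, mul_zero,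
    sub_zero]

/-- The large sieve for sequences supported on integers without small prime factors. -/
theorem primal_maj {z : ℕ} (hz : 1 ≤ z) (K : Finset ℕ) (hK : ∀ k ∈ K, 0 < k) {A₀ A₁ : ℝ}
    (hA₀ : 0 < A₀) (h0 : ∀ k ∈ K, A₀ ≤ (k.totient : ℝ)) (h1 : ∀ k ∈ K, (k : ℝ) ≤ A₁)
    (hA₁ : 0 ≤ A₁)
    {R : ℕ} (hR : ∀ k ∈ K, (K.filter (fun k' => ¬ Nat.Coprime k k')).card ≤ R)
    (u L : ℕ) (f : ℕ → ℝ) (hf : ∀ n, f n ≠ 0 → 1 ≤ maj z n) :
    ∑ k ∈ K, VV (Ico u (u + L)) f k ≤
      (R * ((L : ℝ) / (A₀ * selS (s0 z) z) + (z : ℝ) ^ 4) + (z : ℝ) ^ 4 * (K.card * A₁)) *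
        ∑ n ∈ Ico u (u + L), (f n) ^ 2 := by
  classical
  set I := Ico u (u + L) with hI
  set D : ℝ := R * ((L : ℝ) / (A₀ * selS (s0 z) z) + (z : ℝ) ^ 4) +
    (z : ℝ) ^ 4 * (K.card * A₁) with hD
  set W : ℝ := ∑ k ∈ K, VV I f k with hW
  set N : ℝ := ∑ n ∈ I, (f n) ^ 2 with hN
  have hS : 0 < selS (s0 z) z := selS_pos hz
  have hW0 : 0 ≤ W := Finset.sum_nonneg fun k _ => VV_nonneg _ _ _
  have hN0 : 0 ≤ N := Finset.sum_nonneg fun r _ => sq_nonneg _
  have hD0 : 0 ≤ D := by positivity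
  have hWeq : W = ∑ n ∈ I, f n * ∑ k ∈ K, dv I f k (n % k) := by
    rw [hW]
    simp only [Finset.mul_sum]
    rw [Finset.sum_comm]
    apply Finset.sum_congr rfl
    intro k hk
    exact VV_eq I f (hK k hk)
  have hdual := dual_maj hz K hK hA₀ h0 h1 hR (dv I f) (fun k hk => sum_dv I f (hK k hk))
    (fun k _ r hr => by rw [dv, if_neg hr]) u L
  rw [← hI, ← hD] at hdual
  have hW2 : ∑ k ∈ K, ∑ r ∈ range k, (dv I f k r) ^ 2 = W := rfl
  rw [hW2] at hdual
  have hCS : W ^ 2 ≤ N * (D * W) := by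
    have e1 : W = ∑ n ∈ I.filter (fun n => f n ≠ 0), f n * ∑ k ∈ K, dv I f k (n % k) := by
      rw [hWeq, Finset.sum_filter]
      apply Finset.sum_congr rfl
      intro n _
      split_ifs with h
      · rfl
      · rw [not_not.1 h, zero_mul]
    have e2 : ∑ n ∈ I.filter (fun n => f n ≠ 0), (f n) ^ 2 ≤ N := by
      apply Finset.sum_le_sum_of_subset_of_nonneg (Finset.filter_subset _ _)
      intro n _ _
      exact sq_nonneg _
    have e3 : ∑ n ∈ I.filter (fun n => f n ≠ 0), (∑ k ∈ K, dv I f k (n % k)) ^ 2 ≤ D * W := by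
      refine le_trans ?_ hdual
      rw [Finset.sum_filter]
      apply Finset.sum_le_sum
      intro n _
      have h2 := maj_nonneg z n hz
      have h3 : 0 ≤ (∑ k ∈ K, dv I f k (n % k)) ^ 2 := sq_nonneg _
      split_ifs with h
      · have := hf n h
        nlinarith
      · exact mul_nonneg h2 h3
    calc W ^ 2 = (∑ n ∈ I.filter (fun n => f n ≠ 0), f n * ∑ k ∈ K, dv I f k (n % k)) ^ 2 := by
          rw [← e1]
      _ ≤ _ := Finset.sum_mul_sq_le_sq_mul_sq _ _ _
      _ ≤ N * (D * W) := mul_le_mul e2 e3 (Finset.sum_nonneg fun _ _ => sq_nonneg _) hN0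
  rcases hW0.eq_or_lt with h | h
  · rw [← h]
    exact mul_nonneg hD0 hN0
  · nlinarith

/-- Crude bound for the variance. -/
lemma VV_le_sq (S : Finset ℕ) (f : ℕ → ℝ) (hf : ∀ n ∈ S, 0 ≤ f n) {k : ℕ} (hk : 0 < k) :
    VV S f k ≤ (2 * ∑ n ∈ S, f n) ^ 2 := by
  classical
  have hcl : ∀ r, 0 ≤ cl S f k r := fun r =>
    Finset.sum_nonneg fun n hn => hf n (mem_filter.1 hn).1
  have hφ : (0 : ℝ) < k.totient := by exact_mod_cast Nat.totient_pos.2 hk
  have hsub : ∑ n ∈ S.filter (fun n => Nat.Coprime n k), f n ≤ ∑ n ∈ S, f n :=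
    Finset.sum_le_sum_of_subset_of_nonneg (Finset.filter_subset _ _) (fun n hn _ => hf n hn)
  have hmn : 0 ≤ mn S f k := by
    apply div_nonneg _ hφ.le
    exact Finset.sum_nonneg fun n hn => hf n (mem_filter.1 hn).1
  have h1 : VV S f k ≤ (∑ r ∈ range k, |dv S f k r|) ^ 2 := by
    rw [VV]
    have h2 : ∀ r ∈ range k, (dv S f k r) ^ 2 ≤ |dv S f k r| * ∑ r ∈ range k, |dv S f k r| := by
      intro r hr
      rw [← sq_abs, sq]
      apply mul_le_mul_of_nonneg_left _ (abs_nonneg _)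
      exact Finset.single_le_sum (f := fun r => |dv S f k r|) (fun _ _ => abs_nonneg _) hr
    refine (Finset.sum_le_sum h2).trans (le_of_eq ?_)
    rw [← Finset.sum_mul, sq]
  refine h1.trans ?_
  apply pow_le_pow_left₀ (Finset.sum_nonneg fun _ _ => abs_nonneg _)
  have h3 : ∀ r ∈ range k, |dv S f k r| ≤ cl S f k r * 1 +
      (if Nat.Coprime r k then mn S f k else 0) := by
    intro r _
    rw [dv]
    split_ifs
    · refine (abs_sub _ _).trans ?_
      rw [abs_of_nonneg (hcl r), abs_of_nonneg hmn, mul_one]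
    · rw [abs_zero]
      have := hcl r
      linarith
  refine (Finset.sum_le_sum h3).trans ?_
  rw [Finset.sum_add_distrib, sum_cl_mul S f hk (fun _ => 1), ← Finset.sum_filter,
    Finset.sum_const, card_units_range, nsmul_eq_mul, mn, mul_div_cancel₀ _ hφ.ne']
  simp only [mul_one]
  linarith

lemma dv_add (S : Finset ℕ) (f g : ℕ → ℝ) (k r : ℕ) :
    dv S (fun n => f n + g n) k r = dv S f k r + dv S g k r := by
  rw [dv, dv, dv]
  split_ifs
  · simp only [cl, mn, Finset.sum_add_distrib]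
    ring
  · simp

lemma VV_add_le (S : Finset ℕ) (f g : ℕ → ℝ) (k : ℕ) :
    VV S (fun n => f n + g n) k ≤ 2 * VV S f k + 2 * VV S g k := by
  rw [VV, VV, VV, Finset.mul_sum, Finset.mul_sum, ← Finset.sum_add_distrib]
  apply Finset.sum_le_sum
  intro r _
  rw [dv_add]
  nlinarith [sq_nonneg (dv S f k r - dv S g k r)]

/-! ### The discrepancy weight -/

/-- The discrepancy weight of the class of `c` modulo `k`. -/
def wk (k : ℕ) (c : ℤ) (n : ℕ) : ℝ :=
  (if (n : ZMod k) = (c : ZMod k) then 1 else 0) -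
    (if Nat.Coprime n k then 1 else 0) / (k.totient : ℝ)

/-- The class `c / m`. -/
def sg (k : ℕ) (c : ℤ) (m : ℕ) : ℕ := ((c : ZMod k) * (m : ZMod k)⁻¹).val

section

variable {k : ℕ} {c : ℤ}

lemma cast_eq_iff_sg (hk : 0 < k) {m : ℕ} (hm : Nat.Coprime m k) (n : ℕ) :
    (((m * n : ℕ) : ZMod k)) = (c : ZMod k) ↔ n % k = sg k c m := by
  have : NeZero k := ⟨hk.ne'⟩
  have hu : IsUnit (m : ZMod k) := (ZMod.isUnit_iff_coprime m k).2 hm
  have h1 : (m : ZMod k) * (m : ZMod k)⁻¹ = 1 := ZMod.coe_mul_inv_eq_one m hm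
  rw [sg, Nat.cast_mul]
  constructor
  · intro h
    have h2 : (n : ZMod k) = (c : ZMod k) * ((m : ZMod k))⁻¹ := by
      rw [← h]
      calc (n : ZMod k) = n * ((m : ZMod k) * (m : ZMod k)⁻¹) := by rw [h1, mul_one]
        _ = _ := by ring
    rw [← h2, ZMod.val_natCast]
  · intro h
    have h2 : (n : ZMod k) = (c : ZMod k) * ((m : ZMod k))⁻¹ := by
      rw [← ZMod.natCast_zmod_val ((c : ZMod k) * ((m : ZMod k))⁻¹), ← h, ZMod.natCast_mod]
    rw [h2]
    calc (m : ZMod k) * ((c : ZMod k) * (m : ZMod k)⁻¹) =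
          c * ((m : ZMod k) * (m : ZMod k)⁻¹) := by ring
      _ = c := by rw [h1, mul_one]

lemma sg_lt (hk : 0 < k) (m : ℕ) : sg k c m < k := by
  have : NeZero k := ⟨hk.ne'⟩
  exact ZMod.val_lt _

lemma sg_coprime (hk : 0 < k) (hc : IsUnit (c : ZMod k)) {m : ℕ} (hm : Nat.Coprime m k) :
    Nat.Coprime (sg k c m) k := by
  have : NeZero k := ⟨hk.ne'⟩
  rw [← ZMod.isUnit_iff_coprime, sg, ZMod.natCast_zmod_val]
  obtain ⟨um, hum⟩ := (ZMod.isUnit_iff_coprime m k).2 hm
  rw [← hum, ZMod.inv_coe_unit]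
  exact hc.mul (Units.isUnit _)

lemma sg_sg (hk : 0 < k) (hc : IsUnit (c : ZMod k)) {m : ℕ} (hm : Nat.Coprime m k)
    (hmk : m < k) : sg k c (sg k c m) = m := by
  have : NeZero k := ⟨hk.ne'⟩
  obtain ⟨um, hum⟩ := (ZMod.isUnit_iff_coprime m k).2 hm
  obtain ⟨uc, huc⟩ := hc
  have h1 : ((sg k c m : ℕ) : ZMod k) = ((uc * um⁻¹ : (ZMod k)ˣ) : ZMod k) := by
    rw [sg, ZMod.natCast_zmod_val, ← hum, ZMod.inv_coe_unit, ← huc, Units.val_mul]
  have h2 : (c : ZMod k) * ((sg k c m : ℕ) : ZMod k)⁻¹ = (m : ZMod k) := by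
    rw [h1, ZMod.inv_coe_unit, ← huc, ← Units.val_mul, ← hum]
    congr 1
    rw [mul_inv, inv_inv, ← mul_assoc, mul_inv_cancel, one_mul]
  rw [sg, h2]
  exact ZMod.val_cast_of_lt hmk

lemma sg_mod (m : ℕ) : sg k c (m % k) = sg k c m := by
  rw [sg, sg, ZMod.natCast_mod]

/-- Products with a fixed first factor. -/
lemma sum_wk_eq (hk : 0 < k) (hc : IsUnit (c : ZMod k)) (T : Finset ℕ) (g : ℕ → ℝ) (m : ℕ) :
    ∑ n ∈ T, g n * wk k c (m * n) =
      if Nat.Coprime m k then dv T g k (sg k c m) else 0 := by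
  classical
  split_ifs with hm
  · have h1 : ∀ n ∈ T, g n * wk k c (m * n) = (if n % k = sg k c m then g n else 0) -
        (if Nat.Coprime n k then g n else 0) / (k.totient : ℝ) := by
      intro n _
      have e1 : ((((m * n : ℕ) : ZMod k)) = (c : ZMod k)) = (n % k = sg k c m) :=
        propext (cast_eq_iff_sg hk hm n)
      have e2 : Nat.Coprime (m * n) k = Nat.Coprime n k := propext
        (by rw [Nat.coprime_mul_iff_left]; exact ⟨fun h => h.2, fun h => ⟨hm, h⟩⟩)
      rw [wk]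
      simp only [e1, e2]
      split_ifs <;> ring
    rw [Finset.sum_congr rfl h1, Finset.sum_sub_distrib, ← Finset.sum_div, dv,
      if_pos (sg_coprime hk hc hm), cl, mn, Finset.sum_filter, Finset.sum_filter]
  · apply Finset.sum_eq_zero
    intro n _
    have h1 : ¬ Nat.Coprime (m * n) k := by
      rw [Nat.coprime_mul_iff_left]
      exact fun h => hm h.1
    have h2 : ¬ (((m * n : ℕ) : ZMod k)) = (c : ZMod k) := by
      intro h
      apply h1
      rw [← ZMod.isUnit_iff_coprime, h]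
      exact hc
    rw [wk, if_neg h1, if_neg h2]
    simp

/-- Bilinear forms in the discrepancy weight. -/
theorem bil_sq_le (hk : 0 < k) (hc : IsUnit (c : ZMod k)) (S T : Finset ℕ) (f g : ℕ → ℝ) :
    (∑ m ∈ S, f m * ∑ n ∈ T, g n * wk k c (m * n)) ^ 2 ≤ VV S f k * VV T g k := by
  classical
  set h : ℕ → ℝ := fun r => if Nat.Coprime r k then dv T g k (sg k c r) else 0 with hh
  have e1 : ∑ m ∈ S, f m * ∑ n ∈ T, g n * wk k c (m * n) = ∑ m ∈ S, f m * h (m % k) := by
    apply Finset.sum_congr rfl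
    intro m _
    rw [sum_wk_eq hk hc, hh]
    simp only [coprime_mod_iff, sg_mod]
  have hinv : ∀ F : ℕ → ℝ, ∑ r ∈ (range k).filter (fun r => Nat.Coprime r k), F (sg k c r) =
      ∑ r ∈ (range k).filter (fun r => Nat.Coprime r k), F r := by
    intro F
    apply Finset.sum_nbij' (fun r => sg k c r) (fun r => sg k c r)
    · intro r hr
      rw [mem_filter, mem_range] at hr ⊢
      exact ⟨sg_lt hk r, sg_coprime hk hc hr.2⟩
    · intro r hr
      rw [mem_filter, mem_range] at hr ⊢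
      exact ⟨sg_lt hk r, sg_coprime hk hc hr.2⟩
    · intro r hr
      rw [mem_filter, mem_range] at hr
      exact sg_sg hk hc hr.2 hr.1
    · intro r hr
      rw [mem_filter, mem_range] at hr
      exact sg_sg hk hc hr.2 hr.1
    · intro r _
      rfl
  have hsum0 : ∑ r ∈ range k, h r = 0 := by
    rw [hh]
    simp only
    rw [← Finset.sum_filter, hinv (dv T g k), Finset.sum_filter]
    refine Eq.trans ?_ (sum_dv T g hk)
    apply Finset.sum_congr rfl
    intro r _
    by_cases h1 : Nat.Coprime r k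
    · rw [if_pos h1]
    · rw [if_neg h1, dv, if_neg h1]
  have hsumsq : ∑ r ∈ range k, (h r) ^ 2 = VV T g k := by
    have e2 : ∑ r ∈ range k, (h r) ^ 2 =
        ∑ r ∈ (range k).filter (fun r => Nat.Coprime r k), (dv T g k (sg k c r)) ^ 2 := by
      rw [Finset.sum_filter]
      apply Finset.sum_congr rfl
      intro r _
      rw [hh]
      simp only
      split_ifs <;> simp
    rw [e2, hinv (fun r => (dv T g k r) ^ 2), VV, Finset.sum_filter]
    apply Finset.sum_congr rfl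
    intro r _
    split_ifs with h1
    · rfl
    · rw [dv, if_neg h1]
      simp
  have e3 : ∑ m ∈ S, f m * h (m % k) = ∑ r ∈ range k, dv S f k r * h r := by
    rw [← sum_cl_mul S f hk]
    have e4 : ∀ r ∈ range k, cl S f k r * h r = dv S f k r * h r + mn S f k * h r := by
      intro r _
      rw [dv]
      split_ifs with h1
      · ring
      · rw [hh]
        simp only [h1, if_false]
        ring
    rw [Finset.sum_congr rfl e4, Finset.sum_add_distrib, ← Finset.mul_sum, hsum0, mul_zero,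
      add_zero]
  rw [e1, e3]
  refine (Finset.sum_mul_sq_le_sq_mul_sq _ _ _).trans (le_of_eq ?_)
  rw [hsumsq]
  rfl

end

end

end Pool.Agent.Lib_helper72.AS
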