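import Mathlib
import Pool.Agent.Lib_helper72.AS.Dev
import Pool.Agent.Lib_helper72.AP.TypeIITotal

set_option autoImplicit false

/-!
Selberg's identity `Λ log + Λ * Λ = μ * log²` and the sum of its right side in a residue class.
-/

namespace Pool.Agent.Lib_helper72.AS

open Finset ArithmeticFunction BoundingSieve Pool.Agent.Lib_helper72.AP
open scoped ArithmeticFunction.zeta ArithmeticFunction.Moebius

noncomputable section

lemma abs_dv_one_le {k : ℕ} (hk : 0 < k) {r : ℕ} (hr : r < k) (u L : ℕ) :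
    |dv (Ico u (u + L)) (fun _ => 1) k r| ≤ 1 := by
  classical
  rw [dv]
  split_ifs with h
  swap
  · simp
  have hcl : ∀ s, cl (Ico u (u + L)) (fun _ => 1) k s =
      (((Ico u (u + L)).filter (fun n => n % k = s)).card : ℝ) := by
    intro s
    rw [cl]
    simp
  have hφ : (0 : ℝ) < k.totient := by exact_mod_cast Nat.totient_pos.2 hk
  have hmean : (k.totient : ℝ) * mn (Ico u (u + L)) (fun _ => 1) k =
      ∑ s ∈ (range k).filter (fun r => Nat.Coprime r k),
        (((Ico u (u + L)).filter (fun n => n % k = s)).card : ℝ) := by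
    rw [mn, mul_div_cancel₀ _ hφ.ne']
    have h1 := sum_cl_mul (Ico u (u + L)) (fun _ => 1) hk
      (fun r => if Nat.Coprime r k then (1 : ℝ) else 0)
    have h2 : ∑ n ∈ (Ico u (u + L)).filter (fun n => Nat.Coprime n k), (1 : ℝ) =
        ∑ n ∈ Ico u (u + L), 1 * (if Nat.Coprime (n % k) k then (1 : ℝ) else 0) := by
      rw [Finset.sum_filter]
      apply Finset.sum_congr rfl
      intro n _
      simp only [coprime_mod_iff, one_mul]
    rw [h2, ← h1, Finset.sum_filter]
    apply Finset.sum_congr rfl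
    intro s _
    rw [hcl]
    split_ifs <;> simp
  have hlo : ((L / k : ℕ) : ℝ) ≤ mn (Ico u (u + L)) (fun _ => 1) k := by
    have h3 : (k.totient : ℝ) * ((L / k : ℕ) : ℝ) ≤
        (k.totient : ℝ) * mn (Ico u (u + L)) (fun _ => 1) k := by
      rw [hmean]
      have h4 : (k.totient : ℝ) * ((L / k : ℕ) : ℝ) =
          ∑ s ∈ (range k).filter (fun r => Nat.Coprime r k), ((L / k : ℕ) : ℝ) := by
        rw [Finset.sum_const, card_units_range, nsmul_eq_mul]
      rw [h4]
      apply Finset.sum_le_sum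
      intro s hs
      rw [mem_filter, mem_range] at hs
      exact_mod_cast (card_mod_bounds hk hs.1 L u).1
    exact le_of_mul_le_mul_left h3 hφ
  have hhi : mn (Ico u (u + L)) (fun _ => 1) k ≤ ((L / k : ℕ) : ℝ) + 1 := by
    have h3 : (k.totient : ℝ) * mn (Ico u (u + L)) (fun _ => 1) k ≤
        (k.totient : ℝ) * (((L / k : ℕ) : ℝ) + 1) := by
      rw [hmean]
      have h4 : (k.totient : ℝ) * (((L / k : ℕ) : ℝ) + 1) =
          ∑ s ∈ (range k).filter (fun r => Nat.Coprime r k), (((L / k : ℕ) : ℝ) + 1) := by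
        rw [Finset.sum_const, card_units_range, nsmul_eq_mul]
      rw [h4]
      apply Finset.sum_le_sum
      intro s hs
      rw [mem_filter, mem_range] at hs
      exact_mod_cast (card_mod_bounds hk hs.1 L u).2
    exact le_of_mul_le_mul_left h3 hφ
  have hr2 := card_mod_bounds hk hr L u
  have hr3 : ((L / k : ℕ) : ℝ) ≤ cl (Ico u (u + L)) (fun _ => 1) k r := by
    rw [hcl]; exact_mod_cast hr2.1
  have hr4 : cl (Ico u (u + L)) (fun _ => 1) k r ≤ ((L / k : ℕ) : ℝ) + 1 := by
    rw [hcl]; exact_mod_cast hr2.2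
  rw [abs_le]
  constructor <;> linarith

variable {k : ℕ} {c : ℤ}

/-- Interval sums of the discrepancy weight. -/
lemma abs_sum_wk_le (hk : 0 < k) (hc : IsUnit (c : ZMod k)) (m u L : ℕ) :
    |∑ n ∈ Ico u (u + L), wk k c (m * n)| ≤ 1 := by
  have h := sum_wk_eq hk hc (Ico u (u + L)) (fun _ => 1) m
  simp only [one_mul] at h
  rw [h]
  split_ifs
  · exact abs_dv_one_le hk (sg_lt hk m) u L
  · simp

/-- Abel summation with a monotone weight. -/
lemma abs_sum_mul_wk_le (hk : 0 < k) (hc : IsUnit (c : ZMod k))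
    (δ : ℕ → ℝ) (hδ : ∀ j, 0 ≤ δ j) (m u v : ℕ) :
    |∑ n ∈ Ico u v, (∑ j ∈ range n, δ j) * wk k c (m * n)| ≤ ∑ j ∈ range v, δ j := by
  classical
  have h1 : ∑ n ∈ Ico u v, (∑ j ∈ range n, δ j) * wk k c (m * n) =
      ∑ j ∈ range v, δ j * ∑ n ∈ Ico (max u (j + 1)) v, wk k c (m * n) := by
    have h2 : ∀ n ∈ Ico u v, (∑ j ∈ range n, δ j) * wk k c (m * n) =
        ∑ j ∈ range v, if j < n then δ j * wk k c (m * n) else 0 := by
      intro n hn
      rw [mem_Ico] at hn
      rw [Finset.sum_mul, ← Finset.sum_filter]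
      apply Finset.sum_congr _ (fun _ _ => rfl)
      ext j
      simp only [mem_range, mem_filter]
      omega
    rw [Finset.sum_congr rfl h2, Finset.sum_comm]
    apply Finset.sum_congr rfl
    intro j _
    rw [Finset.mul_sum, ← Finset.sum_filter]
    apply Finset.sum_congr _ (fun _ _ => rfl)
    ext n
    simp only [mem_filter, mem_Ico]
    omega
  rw [h1]
  refine (Finset.abs_sum_le_sum_abs _ _).trans (Finset.sum_le_sum fun j _ => ?_)
  rw [abs_mul, abs_of_nonneg (hδ j)]
  have h3 : |∑ n ∈ Ico (max u (j + 1)) v, wk k c (m * n)| ≤ 1 := by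
    by_cases h : max u (j + 1) ≤ v
    · have e : v = max u (j + 1) + (v - max u (j + 1)) := by omega
      rw [e]
      exact abs_sum_wk_le hk hc m _ _
    · rw [Finset.Ico_eq_empty (by omega)]
      simp
  calc δ j * |∑ n ∈ Ico (max u (j + 1)) v, wk k c (m * n)| ≤ δ j * 1 :=
        mul_le_mul_of_nonneg_left h3 (hδ j)
    _ = δ j := mul_one _

/-- Increments of `log²`. -/
def dlog2 (j : ℕ) : ℝ := if j = 0 then 0 else Real.log (j + 1) ^ 2 - Real.log j ^ 2

lemma dlog2_nonneg (j : ℕ) : 0 ≤ dlog2 j := by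
  rw [dlog2]
  split_ifs with h
  · exact le_rfl
  · have h1 : (1 : ℝ) ≤ j := by exact_mod_cast Nat.pos_of_ne_zero h
    have h2 := Real.log_le_log (by linarith) (by linarith : (j : ℝ) ≤ j + 1)
    have h3 := Real.log_nonneg h1
    nlinarith

lemma sum_dlog2 {n : ℕ} (hn : 1 ≤ n) : ∑ j ∈ range n, dlog2 j = Real.log n ^ 2 := by
  induction n, hn using Nat.le_induction with
  | base => simp [dlog2]
  | succ n hn ih =>
    rw [Finset.sum_range_succ, ih, dlog2, if_neg (by omega)]
    push_cast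
    ring

lemma abs_sum_log2_wk_le (hk : 0 < k) (hc : IsUnit (c : ZMod k)) (m u v : ℕ) (hu : 1 ≤ u)
    (hv : 1 ≤ v) :
    |∑ n ∈ Ico u v, Real.log n ^ 2 * wk k c (m * n)| ≤ Real.log v ^ 2 := by
  have h := abs_sum_mul_wk_le hk hc dlog2 dlog2_nonneg m u v
  rw [sum_dlog2 hv] at h
  have e : ∑ n ∈ Ico u v, Real.log n ^ 2 * wk k c (m * n) =
      ∑ n ∈ Ico u v, (∑ j ∈ range n, dlog2 j) * wk k c (m * n) := by
    apply Finset.sum_congr rfl
    intro n hn
    rw [mem_Ico] at hn
    rw [sum_dlog2 (by omega)]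
  rw [e]
  exact h

/-- Absolute sums of the discrepancy weight. -/
lemma sum_mul_abs_wk_le (hk : 0 < k) (hc : IsUnit (c : ZMod k)) (S : Finset ℕ) (g : ℕ → ℝ)
    (hg : ∀ n ∈ S, 0 ≤ g n) (m : ℕ) :
    ∑ n ∈ S, g n * |wk k c (m * n)| ≤
      if Nat.Coprime m k then cl S g k (sg k c m) + (∑ n ∈ S, g n) / k.totient else 0 := by
  classical
  have hφ : (0 : ℝ) < k.totient := by exact_mod_cast Nat.totient_pos.2 hk
  split_ifs with hm
  · have h1 : ∀ n ∈ S, g n * |wk k c (m * n)| ≤ (if n % k = sg k c m then g n else 0) +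
        g n / k.totient := by
      intro n hn
      have e1 : ((((m * n : ℕ) : ZMod k)) = (c : ZMod k)) = (n % k = sg k c m) :=
        propext (cast_eq_iff_sg hk hm n)
      have hgn := hg n hn
      have h2 : |wk k c (m * n)| ≤ (if n % k = sg k c m then 1 else 0) + 1 / (k.totient : ℝ) := by
        rw [wk]
        refine (abs_sub _ _).trans ?_
        apply add_le_add
        · simp only [e1]
          split_ifs <;> simp
        · rw [abs_div, abs_of_pos hφ]
          apply div_le_div_of_nonneg_right _ hφ.le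
          split_ifs <;> simp
      calc g n * |wk k c (m * n)| ≤
            g n * ((if n % k = sg k c m then 1 else 0) + 1 / (k.totient : ℝ)) :=
            mul_le_mul_of_nonneg_left h2 hgn
        _ = _ := by
          split_ifs <;> ring
    refine (Finset.sum_le_sum h1).trans (le_of_eq ?_)
    rw [Finset.sum_add_distrib, ← Finset.sum_div, cl, Finset.sum_filter]
  · apply le_of_eq
    apply Finset.sum_eq_zero
    intro n _
    have h1 : ¬ Nat.Coprime (m * n) k := by
      rw [Nat.coprime_mul_iff_left]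
      exact fun h => hm h.1
    have h2 : ¬ (((m * n : ℕ) : ZMod k)) = (c : ZMod k) := by
      intro h
      apply h1
      rw [← ZMod.isUnit_iff_coprime, h]
      exact hc
    rw [wk, if_neg h1, if_neg h2]
    simp

/-! ### Selberg's identity -/

/-- `log²` as an arithmetic function. -/
def L2 : ArithmeticFunction ℝ := ⟨fun n => Real.log n ^ 2, by simp⟩

/-- `Λ log` as an arithmetic function. -/
def LL : ArithmeticFunction ℝ := ⟨fun n => Λ n * Real.log n, by simp⟩

lemma L2_apply (n : ℕ) : L2 n = Real.log n ^ 2 := rfl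

lemma LL_apply (n : ℕ) : LL n = Λ n * Real.log n := rfl

theorem L2_eq : L2 = (ζ : ArithmeticFunction ℝ) * (LL + Λ * Λ) := by
  classical
  have h1 : L2 = ArithmeticFunction.log * Λ + (ζ : ArithmeticFunction ℝ) * LL := by
    ext n
    rcases Nat.eq_zero_or_pos n with rfl | hn
    · simp
    rw [ArithmeticFunction.add_apply, L2_apply, mul_apply, mul_apply, ← Finset.sum_add_distrib]
    have h2 : Real.log n ^ 2 = ∑ x ∈ n.divisorsAntidiagonal, Λ x.2 * Real.log n := by
      rw [← Finset.sum_mul, Nat.sum_divisorsAntidiagonal' (f := fun _ y => Λ y), vonMangoldt_sum,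
        sq]
    rw [h2]
    apply Finset.sum_congr rfl
    rintro ⟨a, b⟩ hab
    rw [Nat.mem_divisorsAntidiagonal] at hab
    obtain ⟨hab, hn0⟩ := hab
    simp only at hab ⊢
    have ha : a ≠ 0 := by
      rintro rfl
      simp at hab
      omega
    have hb : b ≠ 0 := by
      rintro rfl
      simp at hab
      omega
    have hlog : Real.log n = Real.log a + Real.log b := by
      rw [← hab]
      push_cast
      rw [Real.log_mul (by exact_mod_cast ha) (by exact_mod_cast hb)]
    rw [hlog, LL_apply, ArithmeticFunction.log_apply, natCoe_apply, zeta_apply, if_neg ha]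
    push_cast
    ring
  have h2 : ArithmeticFunction.log = (ζ : ArithmeticFunction ℝ) * Λ := by
    rw [mul_comm]
    exact vonMangoldt_mul_zeta.symm
  rw [h1, h2]
  ring

theorem selberg_identity : LL + Λ * Λ = muR * L2 := by
  have h1 : muR * (ζ : ArithmeticFunction ℝ) = 1 := coe_moebius_mul_coe_zeta
  rw [L2_eq, ← mul_assoc, h1, one_mul]

lemma sum_inv_sqrt_le (D : ℕ) : ∑ m ∈ Ioc 0 D, 1 / Real.sqrt m ≤ 2 * Real.sqrt D := by
  induction D with
  | zero => simp
  | succ D ih =>
    rw [← Finset.sum_Ioc_consecutive _ (Nat.zero_le D) (Nat.le_succ D)]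
    have e : Ioc D (D + 1) = {D + 1} := by
      ext x
      simp only [mem_Ioc, mem_singleton]
      omega
    rw [e, Finset.sum_singleton]
    have h1 : 0 ≤ Real.sqrt D := Real.sqrt_nonneg _
    have h2 : 0 < Real.sqrt ((D + 1 : ℕ) : ℝ) := Real.sqrt_pos.2 (by positivity)
    have h3 : Real.sqrt D * Real.sqrt D = D := Real.mul_self_sqrt (Nat.cast_nonneg _)
    have h4 : Real.sqrt ((D + 1 : ℕ) : ℝ) * Real.sqrt ((D + 1 : ℕ) : ℝ) = D + 1 := by
      rw [Real.mul_self_sqrt (Nat.cast_nonneg _)]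
      push_cast
      ring
    have h5 : 1 / Real.sqrt ((D + 1 : ℕ) : ℝ) ≤
        2 * Real.sqrt ((D + 1 : ℕ) : ℝ) - 2 * Real.sqrt D := by
      rw [div_le_iff₀ h2]
      nlinarith [sq_nonneg (Real.sqrt ((D + 1 : ℕ) : ℝ) - Real.sqrt D)]
    linarith

lemma log_sq_le {t : ℝ} (ht : 1 ≤ t) : Real.log t ^ 2 ≤ 16 * Real.sqrt t := by
  have h1 := Real.log_le_rpow_div (x := t) (ε := 1 / 4) (by linarith) (by norm_num)
  have h2 := Real.log_nonneg ht
  have h3 : (t ^ (1 / 4 : ℝ)) ^ 2 = Real.sqrt t := by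
    rw [← Real.rpow_natCast, ← Real.rpow_mul (by linarith), Real.sqrt_eq_rpow]
    norm_num
  have h4 : Real.log t ≤ 4 * t ^ (1 / 4 : ℝ) := by
    refine h1.trans (le_of_eq ?_)
    ring
  calc Real.log t ^ 2 ≤ (4 * t ^ (1 / 4 : ℝ)) ^ 2 := pow_le_pow_left₀ h2 h4 2
    _ = 16 * Real.sqrt t := by rw [mul_pow, h3]; norm_num

/-- The right side of Selberg's identity in a residue class. -/
theorem sum_selberg_le (hk : 0 < k) (hc : IsUnit (c : ZMod k)) {x Y : ℕ} (hY : 1 ≤ Y)
    (hYx : Y ≤ x) :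
    |∑ n ∈ Ioc 0 x, (muR * L2) n * wk k c n| ≤
      46 * (x / Real.sqrt Y) +
        Real.log Y ^ 2 * (2 * x / k.totient * (1 + Real.log Y) + Y) := by
  classical
  have hφ : (0 : ℝ) < k.totient := by exact_mod_cast Nat.totient_pos.2 hk
  have hYr : (1 : ℝ) ≤ Y := by exact_mod_cast hY
  have hxr : (1 : ℝ) ≤ x := by exact_mod_cast hY.trans hYx
  have hlogY := Real.log_nonneg hYr
  set D := x / Y with hD
  have hDx : D ≤ x := Nat.div_le_self _ _
  rw [sum_conv_weight]
  simp only [Nat.zero_div]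
  set In : ℕ → ℝ := fun m => ∑ n ∈ Ioc 0 (x / m), L2 n * wk k c (m * n) with hIn
  rw [← Finset.sum_Ioc_consecutive _ (Nat.zero_le D) hDx]
  refine (abs_add_le _ _).trans (add_le_add ?_ ?_)
  · -- small m
    have h1 : ∀ m ∈ Ioc 0 D, |muR m * In m| ≤ 23 * (Real.sqrt x * (1 / Real.sqrt m)) := by
      intro m hm
      rw [mem_Ioc] at hm
      have hm0 : (0 : ℝ) < m := by exact_mod_cast hm.1
      have hmx : (m : ℝ) ≤ x := by exact_mod_cast hm.2.trans hDx
      rw [abs_mul]
      have h2 : |In m| ≤ Real.log ((x / m + 1 : ℕ) : ℝ) ^ 2 := by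
        rw [hIn]
        simp only [L2_apply]
        rw [Ioc_eq_Ico_succ]
        exact abs_sum_log2_wk_le hk hc m _ _ (Nat.le_add_left 1 _) (Nat.le_add_left 1 _)
      have h3 : ((x / m + 1 : ℕ) : ℝ) ≤ 2 * (x / m) := by
        have e1 : ((x / m : ℕ) : ℝ) ≤ x / m := Nat.cast_div_le
        have e2 : (1 : ℝ) ≤ x / m := by rwa [one_le_div hm0]
        push_cast
        linarith
      have h4 : (1 : ℝ) ≤ ((x / m + 1 : ℕ) : ℝ) := by
        exact_mod_cast Nat.le_add_left 1 _
      have h5 := log_sq_le h4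
      have h6 : Real.sqrt ((x / m + 1 : ℕ) : ℝ) ≤ Real.sqrt 2 * (Real.sqrt x / Real.sqrt m) := by
        rw [← Real.sqrt_div (by linarith), ← Real.sqrt_mul (by norm_num)]
        exact Real.sqrt_le_sqrt h3
      have h7 : Real.sqrt 2 ≤ 23 / 16 := by
        rw [Real.sqrt_le_left (by norm_num)]
        norm_num
      have h8 : 0 ≤ Real.sqrt x / Real.sqrt m := by positivity
      have h9 : |muR m| ≤ 1 := abs_muR_le m
      calc |muR m| * |In m| ≤ 1 * Real.log ((x / m + 1 : ℕ) : ℝ) ^ 2 :=
            mul_le_mul h9 h2 (abs_nonneg _) zero_le_one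
        _ ≤ 16 * Real.sqrt ((x / m + 1 : ℕ) : ℝ) := by rw [one_mul]; exact h5
        _ ≤ 16 * (Real.sqrt 2 * (Real.sqrt x / Real.sqrt m)) := by linarith
        _ ≤ 16 * (23 / 16 * (Real.sqrt x / Real.sqrt m)) := by gcongr
        _ = 23 * (Real.sqrt x * (1 / Real.sqrt m)) := by ring
    refine (Finset.abs_sum_le_sum_abs _ _).trans ((Finset.sum_le_sum h1).trans ?_)
    rw [← Finset.mul_sum, ← Finset.mul_sum]
    have h2 := sum_inv_sqrt_le D
    have h3 : Real.sqrt D ≤ Real.sqrt x / Real.sqrt Y := by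
      rw [← Real.sqrt_div (by linarith)]
      apply Real.sqrt_le_sqrt
      exact Nat.cast_div_le
    have h4 : Real.sqrt x * Real.sqrt x = x := Real.mul_self_sqrt (by linarith)
    have h5 : 0 ≤ Real.sqrt x := Real.sqrt_nonneg _
    calc 23 * (Real.sqrt x * ∑ m ∈ Ioc 0 D, 1 / Real.sqrt m) ≤
          23 * (Real.sqrt x * (2 * Real.sqrt D)) := by gcongr
      _ ≤ 23 * (Real.sqrt x * (2 * (Real.sqrt x / Real.sqrt Y))) := by gcongr
      _ = 46 * (Real.sqrt x * Real.sqrt x / Real.sqrt Y) := by ring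
      _ = 46 * (x / Real.sqrt Y) := by rw [h4]
  · -- large m
    have h1 : ∀ m ∈ Ioc D x, |muR m * In m| ≤
        ∑ n ∈ Ioc 0 Y, if m * n ≤ x then Real.log Y ^ 2 * |wk k c (m * n)| else 0 := by
      intro m hm
      rw [mem_Ioc] at hm
      have hm0 : 0 < m := Nat.lt_of_le_of_lt (Nat.zero_le _) hm.1
      rw [abs_mul]
      have h9 : |muR m| ≤ 1 := abs_muR_le m
      have hle : x / m ≤ Y := div_le_of_lt hY hm.1
      have h2 : |In m| ≤ ∑ n ∈ Ioc 0 (x / m), Real.log Y ^ 2 * |wk k c (m * n)| := by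
        rw [hIn]
        refine (Finset.abs_sum_le_sum_abs _ _).trans (Finset.sum_le_sum ?_)
        intro n hn
        rw [mem_Ioc] at hn
        rw [abs_mul, L2_apply, abs_of_nonneg (sq_nonneg _)]
        apply mul_le_mul_of_nonneg_right _ (abs_nonneg _)
        have hn1 : (1 : ℝ) ≤ n := by exact_mod_cast hn.1
        apply pow_le_pow_left₀ (Real.log_nonneg hn1)
        apply Real.log_le_log (by linarith)
        exact_mod_cast hn.2.trans hle
      have h3 : ∑ n ∈ Ioc 0 (x / m), Real.log Y ^ 2 * |wk k c (m * n)| =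
          ∑ n ∈ Ioc 0 Y, if m * n ≤ x then Real.log Y ^ 2 * |wk k c (m * n)| else 0 := by
        rw [← Finset.sum_filter]
        apply Finset.sum_congr _ (fun _ _ => rfl)
        ext n
        rw [mem_filter, mem_Ioc, mem_Ioc, Nat.le_div_iff_mul_le hm0, mul_comm n m]
        constructor
        · rintro ⟨h4, h5⟩
          refine ⟨⟨h4, ?_⟩, h5⟩
          have : n ≤ x / m := by rw [Nat.le_div_iff_mul_le hm0, mul_comm]; exact h5
          exact this.trans hle
        · rintro ⟨⟨h4, _⟩, h5⟩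
          exact ⟨h4, h5⟩
      calc |muR m| * |In m| ≤ 1 * |In m| := mul_le_mul_of_nonneg_right h9 (abs_nonneg _)
        _ ≤ _ := by rw [one_mul, ← h3]; exact h2
    refine (Finset.abs_sum_le_sum_abs _ _).trans ((Finset.sum_le_sum h1).trans ?_)
    rw [Finset.sum_comm]
    have h2 : ∀ n ∈ Ioc 0 Y, ∑ m ∈ Ioc D x,
        (if m * n ≤ x then Real.log Y ^ 2 * |wk k c (m * n)| else 0) ≤
        Real.log Y ^ 2 * (2 * x / k.totient * (1 / n) + 1) := by
      intro n hn
      rw [mem_Ioc] at hn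
      have hn0 : (0 : ℝ) < n := by exact_mod_cast hn.1
      have h3 : ∑ m ∈ Ioc D x,
          (if m * n ≤ x then Real.log Y ^ 2 * |wk k c (m * n)| else 0) ≤
          ∑ m ∈ Ioc 0 (x / n), Real.log Y ^ 2 * |wk k c (n * m)| := by
        rw [← Finset.sum_filter]
        have h4 : ∀ m ∈ (Ioc D x).filter (fun m => m * n ≤ x),
            Real.log Y ^ 2 * |wk k c (m * n)| = Real.log Y ^ 2 * |wk k c (n * m)| := by
          intro m _
          rw [mul_comm m n]
        rw [Finset.sum_congr rfl h4]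
        apply Finset.sum_le_sum_of_subset_of_nonneg
        · intro m hm
          rw [mem_filter, mem_Ioc] at hm
          rw [mem_Ioc, Nat.le_div_iff_mul_le hn.1]
          exact ⟨Nat.lt_of_le_of_lt (Nat.zero_le _) hm.1.1, hm.2⟩
        · intro m _ _
          positivity
      refine h3.trans ?_
      rw [← Finset.mul_sum]
      apply mul_le_mul_of_nonneg_left _ (sq_nonneg _)
      have h5 := sum_mul_abs_wk_le hk hc (Ioc 0 (x / n)) (fun _ => 1) (fun _ _ => zero_le_one) n
      simp only [one_mul] at h5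
      refine h5.trans ?_
      split_ifs
      · have e1 : cl (Ioc 0 (x / n)) (fun _ => 1) k (sg k c n) ≤ ((x / n : ℕ) : ℝ) / k + 1 := by
          rw [cl, Finset.sum_const, nsmul_eq_mul, mul_one, Ioc_eq_Ico_succ]
          have e2 : (0 + 1) + (x / n) = x / n + 1 := by omega
          have e3 := (card_mod_bounds hk (sg_lt (c := c) hk n) (x / n) (0 + 1)).2
          rw [e2] at e3
          have e4 : ((x / n / k : ℕ) : ℝ) ≤ ((x / n : ℕ) : ℝ) / k := Nat.cast_div_le
          have e5 : (((Ico (0 + 1) (x / n + 1)).filter (fun m => m % k = sg k c n)).card : ℝ) ≤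
              ((x / n / k : ℕ) : ℝ) + 1 := by exact_mod_cast e3
          linarith
        have e6 : (∑ m ∈ Ioc 0 (x / n), (1 : ℝ)) = ((x / n : ℕ) : ℝ) := by simp
        rw [e6]
        have e7 : ((x / n : ℕ) : ℝ) ≤ x / n := Nat.cast_div_le
        have e8 : ((x / n : ℕ) : ℝ) / k ≤ (x / n) / k.totient := by
          apply div_le_div₀ (by positivity) e7 hφ
          exact_mod_cast Nat.totient_le k
        have e9 : ((x / n : ℕ) : ℝ) / k.totient ≤ (x / n) / k.totient :=
          div_le_div_of_nonneg_right e7 hφ.le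
        have e10 : 2 * (x : ℝ) / k.totient * (1 / n) = (x / n) / k.totient + (x / n) / k.totient := by
          field_simp
          ring
        rw [e10]
        linarith
      · positivity
    refine (Finset.sum_le_sum h2).trans ?_
    rw [← Finset.mul_sum]
    apply mul_le_mul_of_nonneg_left _ (sq_nonneg _)
    rw [Finset.sum_add_distrib, ← Finset.mul_sum, Finset.sum_const, Nat.card_Ioc, nsmul_eq_mul,
      mul_one, Nat.sub_zero]
    apply add_le_add_left
    apply mul_le_mul_of_nonneg_left _ (by positivity)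
    exact sum_one_div_le_log Y

end

end Pool.Agent.Lib_helper72.AS
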