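import Mathlib
import Pool.Agent.Lib_helper72.AS.SelbergId

set_option autoImplicit false

/-!
The von Mangoldt function in short intervals: Brun–Titchmarsh in residue classes and the
variance over a family of moduli.
-/

namespace Pool.Agent.Lib_helper72.AS

open Finset ArithmeticFunction BoundingSieve Pool.Agent.Lib_helper72.AP
open scoped ArithmeticFunction.zeta ArithmeticFunction.Moebius

noncomputable section

lemma exists_root16 (L : ℕ) : ∃ z : ℕ, z ^ 16 ≤ L ∧ L < (z + 1) ^ 16 := by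
  have hex : ∃ u : ℕ, L < (u + 1) ^ 16 := by
    refine ⟨L, ?_⟩
    calc L < L + 1 := Nat.lt_succ_self L
      _ ≤ (L + 1) ^ 16 := Nat.le_self_pow (by norm_num) _
  classical
  refine ⟨Nat.find hex, ?_, Nat.find_spec hex⟩
  rcases Nat.eq_zero_or_pos (Nat.find hex) with h | h
  · rw [h]; simp
  · have h2 := Nat.find_min hex (show Nat.find hex - 1 < Nat.find hex by omega)
    have h3 : Nat.find hex - 1 + 1 = Nat.find hex := by omega
    rw [h3] at h2
    omega

lemma psi_nat (n : ℕ) : ∑ m ∈ Ioc 0 n, Λ m = Chebyshev.psi (n : ℝ) := by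
  rw [Chebyshev.psi, Nat.floor_natCast]

lemma psi_nat_le (n : ℕ) : ∑ m ∈ Ioc 0 n, Λ m ≤ 6 * n := by
  rw [psi_nat]
  have h1 := Chebyshev.psi_le_const_mul_self (x := (n : ℝ)) (Nat.cast_nonneg _)
  have h4 : Real.log 4 = 2 * Real.log 2 := by
    rw [show (4 : ℝ) = 2 ^ 2 by norm_num, Real.log_pow]
    norm_num
  have h5 := Real.log_two_lt_d9
  have h6 : (0 : ℝ) ≤ n := Nat.cast_nonneg _
  nlinarith

/-- Upper bound in Mertens' theorem. -/
theorem mertens_le {x : ℕ} (hx : 1 ≤ x) : ∑ m ∈ Ioc 0 x, Λ m / m ≤ Real.log x + 6 := by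
  have hxr : (1 : ℝ) ≤ x := by exact_mod_cast hx
  have h1 := sum_conv_weight (Λ : ArithmeticFunction ℝ) (ζ : ArithmeticFunction ℝ)
    (fun _ => 1) 0 x
  simp only [Nat.zero_div, mul_one] at h1
  have h2 : ∑ n ∈ Ioc 0 x, ((Λ : ArithmeticFunction ℝ) * (ζ : ArithmeticFunction ℝ)) n ≤
      x * Real.log x := by
    rw [vonMangoldt_mul_zeta]
    have : ∀ n ∈ Ioc 0 x, (ArithmeticFunction.log : ArithmeticFunction ℝ) n ≤ Real.log x := by
      intro n hn
      rw [mem_Ioc] at hn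
      rw [ArithmeticFunction.log_apply]
      apply Real.log_le_log (by exact_mod_cast hn.1)
      exact_mod_cast hn.2
    refine (Finset.sum_le_sum this).trans (le_of_eq ?_)
    rw [Finset.sum_const, Nat.card_Ioc, nsmul_eq_mul, Nat.sub_zero]
  have h3 : ∑ m ∈ Ioc 0 x, Λ m * ∑ k ∈ Ioc 0 (x / m), (ζ : ArithmeticFunction ℝ) k =
      ∑ m ∈ Ioc 0 x, Λ m * ((x / m : ℕ) : ℝ) := by
    apply Finset.sum_congr rfl
    intro m _
    congr 1
    have : ∀ k ∈ Ioc 0 (x / m), (ζ : ArithmeticFunction ℝ) k = 1 := by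
      intro k hk
      rw [mem_Ioc] at hk
      have hk0 : k ≠ 0 := by
        have := hk.1
        exact Nat.pos_iff_ne_zero.1 this
      simp [hk0]
    rw [Finset.sum_congr rfl this, Finset.sum_const, Nat.card_Ioc, nsmul_eq_mul, mul_one,
      Nat.sub_zero]
  have h4 : ∑ m ∈ Ioc 0 x, Λ m * ((x : ℝ) / m - 1) ≤ ∑ m ∈ Ioc 0 x, Λ m * ((x / m : ℕ) : ℝ) := by
    apply Finset.sum_le_sum
    intro m hm
    rw [mem_Ioc] at hm
    have hm0 : (0 : ℝ) < m := by exact_mod_cast hm.1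
    apply mul_le_mul_of_nonneg_left _ vonMangoldt_nonneg
    have h5 : (x : ℝ) / m ≤ ((x / m : ℕ) : ℝ) + 1 := by
      rw [div_le_iff₀ hm0]
      have := Nat.lt_div_mul_add (a := x) hm.1
      have h5 : x ≤ (x / m + 1) * m := by
        rw [Nat.add_mul, one_mul]
        exact this.le
      exact_mod_cast h5
    linarith
  have h5 : ∑ m ∈ Ioc 0 x, Λ m * ((x : ℝ) / m - 1) =
      x * ∑ m ∈ Ioc 0 x, Λ m / m - ∑ m ∈ Ioc 0 x, Λ m := by
    rw [Finset.mul_sum, ← Finset.sum_sub_distrib]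
    apply Finset.sum_congr rfl
    intro m _
    ring
  have h6 := psi_nat_le x
  have h7 : (x : ℝ) * ∑ m ∈ Ioc 0 x, Λ m / m ≤ x * (Real.log x + 6) := by
    rw [h3] at h1
    linarith
  exact le_of_mul_le_mul_left h7 (by linarith)

/-- The part of the von Mangoldt function on primes above `z`. -/
def fP (z n : ℕ) : ℝ := if n.Prime ∧ z < n then Λ n else 0

/-- The rest. -/
def fE (z n : ℕ) : ℝ := if n.Prime ∧ z < n then 0 else Λ n

lemma fP_add_fE (z n : ℕ) : Λ n = fP z n + fE z n := by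
  rw [fP, fE]
  split_ifs <;> simp

lemma fP_nonneg (z n : ℕ) : 0 ≤ fP z n := by
  rw [fP]
  split_ifs
  · exact vonMangoldt_nonneg
  · exact le_rfl

lemma fE_nonneg (z n : ℕ) : 0 ≤ fE z n := by
  rw [fE]
  split_ifs
  · exact le_rfl
  · exact vonMangoldt_nonneg

lemma fP_le_maj {z n N : ℕ} (hz : 1 ≤ z) (hn : n ≤ N) (hN : 1 ≤ N) :
    fP z n ≤ Real.log N * maj z n := by
  have hlog : 0 ≤ Real.log N := Real.log_nonneg (by exact_mod_cast hN)
  have hm := maj_nonneg z n hz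
  rw [fP]
  split_ifs with h
  · have h1 := one_le_maj_of_prime hz h.1 h.2
    have h2 : Λ n ≤ Real.log N := by
      refine vonMangoldt_le_log.trans ?_
      apply Real.log_le_log (by exact_mod_cast h.1.pos)
      exact_mod_cast hn
    nlinarith
  · positivity

lemma fP_sq_le_maj {z n N : ℕ} (hz : 1 ≤ z) (hn : n ≤ N) (hN : 1 ≤ N) :
    fP z n ^ 2 ≤ Real.log N ^ 2 * maj z n := by
  have hlog : 0 ≤ Real.log N := Real.log_nonneg (by exact_mod_cast hN)
  have hm := maj_nonneg z n hz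
  rw [fP]
  split_ifs with h
  · have h1 := one_le_maj_of_prime hz h.1 h.2
    have h2 : Λ n ≤ Real.log N := by
      refine vonMangoldt_le_log.trans ?_
      apply Real.log_le_log (by exact_mod_cast h.1.pos)
      exact_mod_cast hn
    have h3 : (Λ n) ^ 2 ≤ Real.log N ^ 2 := pow_le_pow_left₀ vonMangoldt_nonneg h2 2
    have h4 : 0 ≤ Real.log N ^ 2 := sq_nonneg _
    nlinarith
  · rw [zero_pow (by norm_num)]
    positivity

lemma sum_fE_le {z N : ℕ} (hzN : z ≤ N) (hN : 1 ≤ N) (S : Finset ℕ) (hS : ∀ n ∈ S, n ≤ N) :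
    ∑ n ∈ S, fE z n ≤ 6 * z + 2 * Real.sqrt N * Real.log N := by
  classical
  have h1 : ∑ n ∈ S, fE z n ≤ ∑ n ∈ Ioc 0 N, fE z n := by
    have e1 : ∑ n ∈ S, fE z n = ∑ n ∈ S.filter (fun n => n ≠ 0), fE z n := by
      rw [Finset.sum_filter]
      apply Finset.sum_congr rfl
      intro n _
      split_ifs with h
      · rfl
      · rw [not_not.1 h, fE]
        simp
    rw [e1]
    apply Finset.sum_le_sum_of_subset_of_nonneg
    · intro n hn
      rw [mem_filter] at hn
      rw [mem_Ioc]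
      exact ⟨Nat.pos_of_ne_zero hn.2, hS n hn.1⟩
    · intro n _ _
      exact fE_nonneg z n
  have h2 : ∀ n ∈ Ioc 0 N, fE z n ≤ (if n ≤ z then Λ n else 0) +
      (if ¬ n.Prime then Λ n else 0) := by
    intro n _
    have h0 : (0 : ℝ) ≤ Λ n := vonMangoldt_nonneg
    rw [fE]
    by_cases hp : n.Prime
    · by_cases hz : n ≤ z
      · have : ¬ (n.Prime ∧ z < n) := fun h => by omega
        rw [if_neg this, if_pos hz]
        split_ifs <;> linarith
      · rw [if_pos ⟨hp, by omega⟩, if_neg hz]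
        split_ifs <;> linarith
    · have : ¬ (n.Prime ∧ z < n) := fun h => hp h.1
      rw [if_neg this, if_pos hp]
      split_ifs <;> linarith
  refine h1.trans ((Finset.sum_le_sum h2).trans ?_)
  rw [Finset.sum_add_distrib]
  apply add_le_add
  · rw [← Finset.sum_filter]
    have : (Ioc 0 N).filter (fun n => n ≤ z) = Ioc 0 z := by
      ext n
      rw [mem_filter, mem_Ioc, mem_Ioc]
      omega
    rw [this]
    exact psi_nat_le z
  · rw [← Finset.sum_filter]
    have h3 := Chebyshev.psi_sub_theta_le (x := (N : ℝ)) (by exact_mod_cast hN)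
    have h4 := Chebyshev.psi_sub_theta_eq_sum_not_prime (x := (N : ℝ))
    rw [Nat.floor_natCast] at h4
    rw [← h4]
    exact h3

/-- Admissible intervals. -/
structure IvOK (A u L : ℕ) : Prop where
  hL : A ^ 9 ≤ L
  hu : (u + L) ^ 4 ≤ L ^ 5

/-- The parameters attached to an admissible interval. -/
lemma IvOK.level {A u L : ℕ} (hA : 10 ^ 6 ≤ A) (h : IvOK A u L) : ∃ z : ℕ, 1000 ≤ z ∧
    z ^ 16 ≤ L ∧ A ≤ 2 * z ^ 2 ∧ z ≤ u + L ∧ 1 ≤ u + L ∧
    Real.log (u + L : ℕ) ≤ 40 * selS (s0 z) z ∧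
    Real.log (u + L : ℕ) ≤ 40 * z ∧
    6 * (z : ℝ) + 2 * Real.sqrt (u + L : ℕ) * Real.log (u + L : ℕ) ≤ z ^ 12 := by
  obtain ⟨z, hz1, hz2⟩ := exists_root16 L
  have hLbig : (10 ^ 6) ^ 9 ≤ L := (Nat.pow_le_pow_left hA 9).trans h.hL
  have hz : 1000 ≤ z := by
    by_contra hcon
    push Not at hcon
    have h1 : (z + 1) ^ 16 ≤ 1000 ^ 16 := Nat.pow_le_pow_left (by omega) 16
    have h2 : (10 ^ 6) ^ 9 < 1000 ^ 16 := lt_of_le_of_lt hLbig (lt_of_lt_of_le hz2 h1)
    norm_num at h2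
  clear hLbig
  have hzr : (1000 : ℝ) ≤ z := by exact_mod_cast hz
  have hAz : A ≤ 2 * z ^ 2 := by
    have h1 : A ^ 9 < (z + 1) ^ 18 := by
      calc A ^ 9 ≤ L := h.hL
        _ < (z + 1) ^ 16 := hz2
        _ ≤ (z + 1) ^ 18 := Nat.pow_le_pow_right (by omega) (by norm_num)
    have h2 : A ^ 9 < ((z + 1) ^ 2) ^ 9 := by
      calc A ^ 9 < (z + 1) ^ 18 := h1
        _ = ((z + 1) ^ 2) ^ 9 := by ring
    have h3 : A < (z + 1) ^ 2 := lt_of_pow_lt_pow_left₀ 9 (Nat.zero_le _) h2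
    have h4 : (z + 1) ^ 2 = z ^ 2 + 2 * z + 1 := by ring
    have h5 : 1000 * z ≤ z ^ 2 := by
      rw [sq]
      exact Nat.mul_le_mul_right z hz
    omega
  have hzL : z ≤ L := (Nat.le_self_pow (by norm_num) z).trans hz1
  have hL0 : 1 ≤ L := by omega
  have hlogz : 0 < Real.log z := Real.log_pos (by linarith)
  have hL32 : Real.log L ≤ 32 * Real.log z := by
    have h1 : (L : ℝ) ≤ (z : ℝ) ^ 32 := by
      have h2 : L ≤ z ^ 32 := by
        calc L ≤ (z + 1) ^ 16 := hz2.le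
          _ ≤ (z ^ 2) ^ 16 := Nat.pow_le_pow_left (by
              have h5 : 1000 * z ≤ z ^ 2 := by
                rw [sq]
                exact Nat.mul_le_mul_right z hz
              omega) 16
          _ = z ^ 32 := by ring
      exact_mod_cast h2
    have h3 := Real.log_le_log (by exact_mod_cast hL0) h1
    rw [Real.log_pow] at h3
    exact_mod_cast h3
  have huL : Real.log (u + L : ℕ) ≤ 5 / 4 * Real.log L := by
    have h1 : ((u + L : ℕ) : ℝ) ^ 4 ≤ (L : ℝ) ^ 5 := by exact_mod_cast h.hu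
    have h2 : (0 : ℝ) < ((u + L : ℕ) : ℝ) := by
      have : 0 < u + L := by omega
      exact_mod_cast this
    have h3 := Real.log_le_log (by positivity) h1
    rw [Real.log_pow, Real.log_pow] at h3
    push_cast at h3 ⊢
    linarith
  have hS := log_le_selS z (by omega)
  have hzlog : Real.log z ≤ z := (Real.log_le_sub_one_of_pos (by linarith)).trans (by linarith)
  refine ⟨z, hz, hz1, hAz, by omega, by omega, by linarith, by linarith, ?_⟩
  -- the error
  have h1 : Real.sqrt ((u + L : ℕ) : ℝ) ≤ 2 * (z : ℝ) ^ 10 := by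
    rw [Real.sqrt_le_left (by positivity)]
    have h2 : u + L < (z + 1) ^ 20 := by
      have h3 : (u + L) ^ 4 < ((z + 1) ^ 20) ^ 4 := by
        calc (u + L) ^ 4 ≤ L ^ 5 := h.hu
          _ < ((z + 1) ^ 16) ^ 5 := Nat.pow_lt_pow_left hz2 (by norm_num)
          _ = ((z + 1) ^ 20) ^ 4 := by ring
      exact lt_of_pow_lt_pow_left₀ 4 (Nat.zero_le _) h3
    have h4 : ((u + L : ℕ) : ℝ) ≤ ((z : ℝ) + 1) ^ 20 := by exact_mod_cast h2.le
    have h5 : (z : ℝ) + 1 ≤ 1001 / 1000 * z := by linarith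
    calc ((u + L : ℕ) : ℝ) ≤ ((z : ℝ) + 1) ^ 20 := h4
      _ ≤ (1001 / 1000 * z) ^ 20 := by gcongr
      _ = (1001 / 1000) ^ 20 * (z : ℝ) ^ 20 := by ring
      _ ≤ 4 * (z : ℝ) ^ 20 := by
        apply mul_le_mul_of_nonneg_right _ (by positivity)
        norm_num
      _ = (2 * (z : ℝ) ^ 10) ^ 2 := by ring
  have h6 : Real.log (u + L : ℕ) ≤ 40 * z := by linarith
  have h7 : 0 ≤ Real.log (u + L : ℕ) := Real.log_natCast_nonneg _
  have h8 : 2 * Real.sqrt ((u + L : ℕ) : ℝ) * Real.log (u + L : ℕ) ≤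
      2 * (2 * (z : ℝ) ^ 10) * (40 * z) := by gcongr
  have h9 : (z : ℝ) ≤ (z : ℝ) ^ 11 := by
    calc (z : ℝ) = (z : ℝ) ^ 1 := (pow_one _).symm
      _ ≤ (z : ℝ) ^ 11 := pow_le_pow_right₀ (by linarith) (by norm_num)
  have h10 : (z : ℝ) ^ 12 = z * (z : ℝ) ^ 11 := by ring
  have h11 : 2 * (2 * (z : ℝ) ^ 10) * (40 * z) = 160 * (z : ℝ) ^ 11 := by ring
  have h12 : 0 ≤ (z : ℝ) ^ 11 := by positivity
  have h13 : 1000 * (z : ℝ) ^ 11 ≤ z * (z : ℝ) ^ 11 := mul_le_mul_of_nonneg_right hzr h12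
  rw [h10]
  linarith

/-- Brun–Titchmarsh for the von Mangoldt function. -/
theorem bt_vonMangoldt {A u L : ℕ} (hA : 10 ^ 6 ≤ A) (h : IvOK A u L) {k : ℕ} (hk : 0 < k)
    (hkA : k ≤ 4 * A) {r : ℕ} (hr : r < k) (hrk : Nat.Coprime r k) :
    cl (Ico u (u + L)) (fun n => Λ n) k r ≤ 42 * L / k.totient := by
  classical
  obtain ⟨z, hz, hz16, hAz, hzN, hN1, hlogS, hlogz, herr⟩ := h.level hA
  have hz1 : 1 ≤ z := by omega
  have hzr : (1000 : ℝ) ≤ z := by exact_mod_cast hz
  set N := u + L with hN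
  have hφ : (0 : ℝ) < k.totient := by exact_mod_cast Nat.totient_pos.2 hk
  have hS : 0 < selS (s0 z) z := selS_pos hz1
  have hlog0 : 0 ≤ Real.log (N : ℕ) := Real.log_natCast_nonneg _
  have h1 : cl (Ico u N) (fun n => Λ n) k r ≤
      Real.log N * ∑ n ∈ (Ico u N).filter (fun n => n % k = r), maj z n +
        ∑ n ∈ (Ico u N).filter (fun n => n % k = r), fE z n := by
    rw [cl, Finset.mul_sum, ← Finset.sum_add_distrib]
    apply Finset.sum_le_sum
    intro n hn
    rw [mem_filter, mem_Ico] at hn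
    have e1 := fP_add_fE z n
    have e2 := fP_le_maj (z := z) (n := n) (N := N) hz1 (by omega) hN1
    linarith
  have h2 := class_sum_le hz1 hk hr hrk u L
  rw [← hN] at h2
  have h3 := sum_fE_le (z := z) (N := N) hzN hN1
    ((Ico u N).filter (fun n => n % k = r)) (fun n hn => by
      rw [mem_filter, mem_Ico] at hn
      omega)
  have h4 : Real.log N * ((L : ℝ) / (k.totient * selS (s0 z) z) + (z : ℝ) ^ 4) ≤
      40 * (L / k.totient) + 40 * (z : ℝ) ^ 5 := by
    rw [mul_add]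
    apply add_le_add
    · have e1 : Real.log N * ((L : ℝ) / (k.totient * selS (s0 z) z)) =
          (Real.log N / selS (s0 z) z) * (L / k.totient) := by
        field_simp
      rw [e1]
      apply mul_le_mul_of_nonneg_right _ (by positivity)
      rw [div_le_iff₀ hS]
      exact hlogS
    · calc Real.log N * (z : ℝ) ^ 4 ≤ (40 * z) * (z : ℝ) ^ 4 := by gcongr
        _ = 40 * (z : ℝ) ^ 5 := by ring
  have h5 : Real.log N * ∑ n ∈ (Ico u N).filter (fun n => n % k = r), maj z n ≤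
      40 * (L / k.totient) + 40 * (z : ℝ) ^ 5 :=
    (mul_le_mul_of_nonneg_left h2 hlog0).trans h4
  -- comparison with L / φ(k)
  have h6 : (z : ℝ) ^ 14 / 8 ≤ L / k.totient := by
    have e1 : (k.totient : ℝ) ≤ 8 * (z : ℝ) ^ 2 := by
      have : k.totient ≤ 8 * z ^ 2 := by
        calc k.totient ≤ k := Nat.totient_le k
          _ ≤ 4 * A := hkA
          _ ≤ 8 * z ^ 2 := by omega
      exact_mod_cast this
    have e2 : (z : ℝ) ^ 16 ≤ L := by exact_mod_cast hz16
    rw [div_le_div_iff₀ (by norm_num) hφ]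
    calc (z : ℝ) ^ 14 * k.totient ≤ (z : ℝ) ^ 14 * (8 * (z : ℝ) ^ 2) := by gcongr
      _ = (z : ℝ) ^ 16 * 8 := by ring
      _ ≤ L * 8 := by gcongr
  have h7 : 40 * (z : ℝ) ^ 5 + (z : ℝ) ^ 12 ≤ 2 * ((z : ℝ) ^ 14 / 8) := by
    have e1 : (z : ℝ) ^ 14 = (z : ℝ) ^ 2 * (z : ℝ) ^ 12 := by ring
    have e2 : (z : ℝ) ^ 5 ≤ (z : ℝ) ^ 12 := pow_le_pow_right₀ (by linarith) (by norm_num)
    have e3 : (0 : ℝ) ≤ (z : ℝ) ^ 12 := by positivity
    have e4 : (1000000 : ℝ) ≤ (z : ℝ) ^ 2 := by nlinarith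
    rw [e1]
    nlinarith
  calc cl (Ico u N) (fun n => Λ n) k r ≤ _ := h1
    _ ≤ (40 * (L / k.totient) + 40 * (z : ℝ) ^ 5) + (z : ℝ) ^ 12 := by
      apply add_le_add h5 (h3.trans herr)
    _ ≤ 42 * (L / k.totient) := by linarith
    _ = 42 * L / k.totient := by ring

/-- A family of moduli. -/
structure Fam (A : ℕ) (K : Finset ℕ) (R : ℕ) (c : ℤ) : Prop where
  hA : 10 ^ 6 ≤ A
  gt : ∀ k ∈ K, A < k
  le : ∀ k ∈ K, k ≤ 4 * A
  tot : ∀ k ∈ K, (A : ℝ) / 2 ≤ k.totient
  R1 : 1 ≤ R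
  R2 : R ≤ 3 * A
  hR : ∀ k ∈ K, (K.filter (fun k' => ¬ Nat.Coprime k k')).card ≤ R
  unit : ∀ k ∈ K, IsUnit (c : ZMod k)

lemma Fam.pos {A : ℕ} {K : Finset ℕ} {R : ℕ} {c : ℤ} (h : Fam A K R c) : ∀ k ∈ K, 0 < k :=
  fun k hk => Nat.lt_of_le_of_lt (Nat.zero_le _) (h.gt k hk)

lemma Fam.card {A : ℕ} {K : Finset ℕ} {R : ℕ} {c : ℤ} (h : Fam A K R c) : K.card ≤ 3 * A := by
  have hsub : K ⊆ Ioc A (4 * A) := by
    intro a ha
    rw [mem_Ioc]
    exact ⟨h.gt a ha, h.le a ha⟩
  have := Finset.card_le_card hsub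
  rw [Nat.card_Ioc] at this
  omega

/-- The variance of the von Mangoldt function over a family of moduli. -/
theorem var_vonMangoldt {A : ℕ} {K : Finset ℕ} {R : ℕ} {c : ℤ} (hF : Fam A K R c) {u L : ℕ}
    (h : IvOK A u L) :
    ∑ k ∈ K, VV (Ico u (u + L)) (fun n => Λ n) k ≤ 6728 * R * L ^ 2 / A := by
  classical
  obtain ⟨z, hz, hz16, hAz, hzN, hN1, hlogS, hlogz, herr⟩ := h.level hF.hA
  have hz1 : 1 ≤ z := by omega
  have hzr : (1000 : ℝ) ≤ z := by exact_mod_cast hz
  set N := u + L with hN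
  have hS : 0 < selS (s0 z) z := selS_pos hz1
  have hlog0 : 0 ≤ Real.log (N : ℕ) := Real.log_natCast_nonneg _
  have hAr : (10 ^ 6 : ℝ) ≤ A := by exact_mod_cast hF.hA
  have hA0 : (0 : ℝ) < A := by linarith
  have hAz' : (A : ℝ) ≤ 2 * (z : ℝ) ^ 2 := by exact_mod_cast hAz
  have hLz : (z : ℝ) ^ 16 ≤ L := by exact_mod_cast hz16
  have hL0 : (0 : ℝ) ≤ L := Nat.cast_nonneg _
  have hR1 : (1 : ℝ) ≤ R := by exact_mod_cast hF.R1
  have hR2 : (R : ℝ) ≤ 3 * A := by exact_mod_cast hF.R2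
  have hcard : (K.card : ℝ) ≤ 3 * A := by exact_mod_cast hF.card
  have hcard0 : (0 : ℝ) ≤ K.card := Nat.cast_nonneg _
  -- the primes
  have hP := primal_maj hz1 K hF.pos (A₀ := (A : ℝ) / 2) (A₁ := 4 * A) (by positivity) hF.tot
    (fun k hk => by exact_mod_cast hF.le k hk) (by positivity) hF.hR u L (fP z)
    (by
      intro n hn
      rw [fP] at hn
      by_cases hc : n.Prime ∧ z < n
      · exact one_le_maj_of_prime hz1 hc.1 hc.2
      · rw [if_neg hc] at hn
        exact absurd rfl hn)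
  rw [← hN] at hP
  have hsq : ∑ n ∈ Ico u N, (fP z n) ^ 2 ≤
      Real.log N ^ 2 * (L / selS (s0 z) z + (z : ℝ) ^ 4) := by
    have h1 : ∑ n ∈ Ico u N, (fP z n) ^ 2 ≤ Real.log N ^ 2 * ∑ n ∈ Ico u N, maj z n := by
      rw [Finset.mul_sum]
      apply Finset.sum_le_sum
      intro n hn
      rw [mem_Ico] at hn
      exact fP_sq_le_maj hz1 (by omega) hN1
    refine h1.trans (mul_le_mul_of_nonneg_left ?_ (sq_nonneg _))
    have h2 := class_sum_le (k := 1) hz1 one_pos (r := 0) one_pos (Nat.coprime_one_right 0) u L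
    rw [filter_mod_one, Nat.totient_one, Nat.cast_one, one_mul, ← hN] at h2
    exact h2
  have hz14 : (1 : ℝ) ≤ (z : ℝ) ^ 14 := one_le_pow₀ (by linarith)
  -- L/A large
  have hLA : (z : ℝ) ^ 14 ≤ 2 * (L / A) := by
    rw [← mul_div_assoc, le_div_iff₀ hA0]
    calc (z : ℝ) ^ 14 * A ≤ (z : ℝ) ^ 14 * (2 * (z : ℝ) ^ 2) := by gcongr
      _ = 2 * (z : ℝ) ^ 16 := by ring
      _ ≤ 2 * L := by gcongr
  have hmain : ∑ k ∈ K, VV (Ico u N) (fP z) k ≤ 3362 * R * L ^ 2 / A := by
    refine hP.trans ?_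
    set D : ℝ := R * ((L : ℝ) / (A / 2 * selS (s0 z) z) + (z : ℝ) ^ 4) +
      (z : ℝ) ^ 4 * (K.card * (4 * A)) with hD
    have hD0 : 0 ≤ D := by positivity
    calc D * ∑ n ∈ Ico u N, (fP z n) ^ 2 ≤
          D * (Real.log N ^ 2 * (L / selS (s0 z) z + (z : ℝ) ^ 4)) :=
          mul_le_mul_of_nonneg_left hsq hD0
      _ = (Real.log N * D) * (Real.log N * (L / selS (s0 z) z + (z : ℝ) ^ 4)) := by ring
      _ ≤ (82 * R * (L / A)) * (41 * L) := by
        apply mul_le_mul _ _ (by positivity) (by positivity)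
        · have e1 : Real.log N * D = (Real.log N / selS (s0 z) z) * (2 * R * (L / A)) +
              Real.log N * ((R + K.card * (4 * A)) * (z : ℝ) ^ 4) := by
            rw [hD]
            field_simp
            ring
          rw [e1]
          have e2 : Real.log N / selS (s0 z) z ≤ 40 := by
            rw [div_le_iff₀ hS]
            exact hlogS
          have e3 : (Real.log N / selS (s0 z) z) * (2 * R * (L / A)) ≤ 80 * R * (L / A) := by
            calc (Real.log N / selS (s0 z) z) * (2 * R * (L / A)) ≤ 40 * (2 * R * (L / A)) := by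
                  gcongr
              _ = _ := by ring
          have e4 : Real.log N * ((R + K.card * (4 * A)) * (z : ℝ) ^ 4) ≤ 2 * R * (L / A) := by
            have e5 : (R : ℝ) + K.card * (4 * A) ≤ 15 * (A : ℝ) ^ 2 := by
              have : (R : ℝ) ≤ 3 * (A : ℝ) ^ 2 := by nlinarith
              have e6 : (K.card : ℝ) * (4 * A) ≤ (3 * A) * (4 * A) := by gcongr
              nlinarith
            have e7 : Real.log N * ((R + K.card * (4 * A)) * (z : ℝ) ^ 4) ≤
                (40 * z) * ((15 * (2 * (z : ℝ) ^ 2) ^ 2) * (z : ℝ) ^ 4) := by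
              apply mul_le_mul hlogz _ (by positivity) (by positivity)
              apply mul_le_mul_of_nonneg_right _ (by positivity)
              refine e5.trans ?_
              gcongr
            have e8 : (40 * z) * ((15 * (2 * (z : ℝ) ^ 2) ^ 2) * (z : ℝ) ^ 4) =
                2400 * (z : ℝ) ^ 9 := by ring
            have e9 : 2400 * (z : ℝ) ^ 9 ≤ (z : ℝ) ^ 14 := by
              have e10 : (z : ℝ) ^ 14 = (z : ℝ) ^ 5 * (z : ℝ) ^ 9 := by ring
              rw [e10]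
              apply mul_le_mul_of_nonneg_right _ (by positivity)
              calc (2400 : ℝ) ≤ 1000 ^ 5 := by norm_num
                _ ≤ (z : ℝ) ^ 5 := by gcongr
            have e11 : 2 * (L / A : ℝ) ≤ 2 * R * (L / A) := by
              have : (0 : ℝ) ≤ L / A := by positivity
              nlinarith
            linarith
          linarith
        · have e1 : Real.log N * (L / selS (s0 z) z + (z : ℝ) ^ 4) =
              (Real.log N / selS (s0 z) z) * L + Real.log N * (z : ℝ) ^ 4 := by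
            field_simp
          rw [e1]
          have e2 : Real.log N / selS (s0 z) z ≤ 40 := by
            rw [div_le_iff₀ hS]
            exact hlogS
          have e3 : (Real.log N / selS (s0 z) z) * L ≤ 40 * L := by gcongr
          have e4 : Real.log N * (z : ℝ) ^ 4 ≤ L := by
            calc Real.log N * (z : ℝ) ^ 4 ≤ (40 * z) * (z : ℝ) ^ 4 := by gcongr
              _ = 40 * (z : ℝ) ^ 5 := by ring
              _ ≤ (z : ℝ) ^ 11 * (z : ℝ) ^ 5 := by
                apply mul_le_mul_of_nonneg_right _ (by positivity)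
                calc (40 : ℝ) ≤ 1000 ^ 11 := by norm_num
                  _ ≤ (z : ℝ) ^ 11 := by gcongr
              _ = (z : ℝ) ^ 16 := by ring
              _ ≤ L := hLz
          linarith
      _ = 3362 * R * L ^ 2 / A := by ring
  -- the rest
  have hrest : ∑ k ∈ K, VV (Ico u N) (fE z) k ≤ R * L ^ 2 / A := by
    have h1 : ∀ k ∈ K, VV (Ico u N) (fE z) k ≤ (2 * (z : ℝ) ^ 12) ^ 2 := by
      intro k hk
      refine (VV_le_sq _ _ (fun n _ => fE_nonneg z n) (hF.pos k hk)).trans ?_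
      apply pow_le_pow_left₀ (mul_nonneg (by norm_num)
        (Finset.sum_nonneg fun n _ => fE_nonneg z n))
      apply mul_le_mul_of_nonneg_left _ (by norm_num)
      exact (sum_fE_le hzN hN1 (Ico u N) (fun n hn => by
        rw [mem_Ico] at hn
        omega)).trans herr
    refine (Finset.sum_le_sum h1).trans ?_
    rw [Finset.sum_const, nsmul_eq_mul]
    calc (K.card : ℝ) * (2 * (z : ℝ) ^ 12) ^ 2 ≤ (3 * (2 * (z : ℝ) ^ 2)) * (2 * (z : ℝ) ^ 12) ^ 2 := by
          apply mul_le_mul_of_nonneg_right _ (by positivity)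
          linarith
      _ = 24 * (z : ℝ) ^ 26 := by ring
      _ ≤ (z : ℝ) ^ 4 / 2 * (z : ℝ) ^ 26 := by
          apply mul_le_mul_of_nonneg_right _ (by positivity)
          have : (1000 : ℝ) ^ 4 ≤ (z : ℝ) ^ 4 := by gcongr
          norm_num at this
          linarith
      _ = (z : ℝ) ^ 14 / 2 * (z : ℝ) ^ 16 := by ring
      _ ≤ (L / A) * L := by
          apply mul_le_mul _ hLz (by positivity) (by positivity)
          linarith
      _ ≤ (L / A) * L * R := le_mul_of_one_le_right (by positivity) hR1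
      _ = R * L ^ 2 / A := by ring
  have hfun : (fun n => Λ n) = (fun n => fP z n + fE z n) := by
    funext n
    exact fP_add_fE z n
  have hk : ∀ k ∈ K, VV (Ico u N) (fun n => Λ n) k ≤
      2 * VV (Ico u N) (fP z) k + 2 * VV (Ico u N) (fE z) k := by
    intro k _
    rw [hfun]
    exact VV_add_le _ _ _ _
  refine (Finset.sum_le_sum hk).trans ?_
  rw [Finset.sum_add_distrib, ← Finset.mul_sum, ← Finset.mul_sum]
  have e : 6728 * (R : ℝ) * L ^ 2 / A = 2 * (3362 * R * L ^ 2 / A) + 4 * (R * L ^ 2 / A) := by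
    ring
  rw [e]
  have hnn : 0 ≤ (R : ℝ) * L ^ 2 / A := by positivity
  linarith

end

end Pool.Agent.Lib_helper72.AS
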