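import Mathlib
import Pool.Agent.Lib_helper72.AS.Primes

set_option autoImplicit false

/-!
The convolution `Λ * Λ` in a residue class, on average over a family of moduli.
-/

namespace Pool.Agent.Lib_helper72.AS

open Finset ArithmeticFunction BoundingSieve Pool.Agent.Lib_helper72.AP
open scoped ArithmeticFunction.zeta ArithmeticFunction.Moebius

noncomputable section

lemma ivOK_one {A y : ℕ} (hA : 10 ^ 6 ≤ A) (hy : A ^ 9 ≤ y) : IvOK A 1 y := by
  refine ⟨hy, ?_⟩
  have h1 : 16 ≤ y := by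
    have h2 : A ≤ A ^ 9 := Nat.le_self_pow (by norm_num) A
    omega
  calc (1 + y) ^ 4 ≤ (2 * y) ^ 4 := Nat.pow_le_pow_left (by omega) 4
    _ = 16 * y ^ 4 := by ring
    _ ≤ y * y ^ 4 := Nat.mul_le_mul_right _ h1
    _ = y ^ 5 := by ring

lemma ivOK_of_le {A u L : ℕ} (hA : 10 ^ 6 ≤ A) (hL : A ^ 9 ≤ L) (hu : u + L ≤ 4 * A * L) :
    IvOK A u L := by
  refine ⟨hL, ?_⟩
  have h1 : 256 * A ^ 4 ≤ L := by
    calc 256 * A ^ 4 ≤ A ^ 5 * A ^ 4 := by
          apply Nat.mul_le_mul_right
          have : A ≤ A ^ 5 := Nat.le_self_pow (by norm_num) A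
          omega
      _ = A ^ 9 := by ring
      _ ≤ L := hL
  calc (u + L) ^ 4 ≤ (4 * A * L) ^ 4 := Nat.pow_le_pow_left hu 4
    _ = 256 * A ^ 4 * L ^ 4 := by ring
    _ ≤ L * L ^ 4 := Nat.mul_le_mul_right _ h1
    _ = L ^ 5 := by ring

lemma ivOK_block {A v : ℕ} (hA : 10 ^ 6 ≤ A) (hv : A ^ 10 ≤ v) : IvOK A v (v / A) := by
  have hA0 : 0 < A := by omega
  have hL : A ^ 9 ≤ v / A := by
    rw [Nat.le_div_iff_mul_le hA0]
    calc A ^ 9 * A = A ^ 10 := by ring
      _ ≤ v := hv
  apply ivOK_of_le hA hL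
  have h1 : 1 ≤ v / A := le_trans (Nat.one_le_pow _ _ hA0) hL
  have h2 : v < (v / A + 1) * A := by
    have := Nat.lt_div_mul_add (a := v) hA0
    rw [Nat.add_mul, one_mul]
    exact this
  have h3 : (v / A + 1) * A ≤ 2 * (v / A) * A := Nat.mul_le_mul_right A (by omega)
  have h4 : v / A ≤ v := Nat.div_le_self _ _
  have h5 : 4 * A * (v / A) = 2 * (2 * (v / A) * A) := by ring
  omega

variable {A : ℕ} {K : Finset ℕ} {R : ℕ} {c : ℤ}

/-- Absolute sums of `Λ` against the discrepancy weight over admissible intervals. -/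
lemma abs_iv_le (hF : Fam A K R c) {k : ℕ} (hk : k ∈ K) {u L : ℕ} (h : IvOK A u L) (m : ℕ) :
    ∑ n ∈ Ico u (u + L), Λ n * |wk k c (m * n)| ≤ 168 * (L / A) := by
  classical
  have hk0 := hF.pos k hk
  have hφ : (0 : ℝ) < k.totient := by exact_mod_cast Nat.totient_pos.2 hk0
  have hA0 : (0 : ℝ) < A := by
    have := hF.hA
    exact_mod_cast (show 0 < A by omega)
  have h1 := sum_mul_abs_wk_le hk0 (hF.unit k hk) (Ico u (u + L)) (fun n => Λ n)
    (fun _ _ => vonMangoldt_nonneg) m
  refine h1.trans ?_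
  split_ifs with hm
  · have h2 := bt_vonMangoldt hF.hA h hk0 (hF.le k hk) (sg_lt (c := c) hk0 m)
      (sg_coprime hk0 (hF.unit k hk) hm)
    have h3 := bt_vonMangoldt hF.hA h (k := 1) one_pos (by have := hF.hA; omega) (r := 0) one_pos
      (Nat.coprime_one_right 0)
    rw [cl, filter_mod_one, Nat.totient_one, Nat.cast_one, div_one] at h3
    have h4 : (∑ n ∈ Ico u (u + L), Λ n) / (k.totient : ℝ) ≤ 42 * L / k.totient :=
      div_le_div_of_nonneg_right h3 hφ.le
    have h5 := hF.tot k hk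
    have h6 : 42 * (L : ℝ) / k.totient ≤ 84 * (L / A) := by
      rw [div_le_iff₀ hφ]
      have h7 : 42 * (L : ℝ) = 84 * (L / A) * (A / 2) := by field_simp; ring
      rw [h7]
      exact mul_le_mul_of_nonneg_left h5 (by positivity)
    linarith
  · positivity

/-- Small first variable. -/
lemma small_le (hF : Fam A K R c) {k : ℕ} (hk : k ∈ K) {x T : ℕ} (hT : 1 ≤ T)
    (hx : A ^ 9 * T ≤ x) :
    ∑ m ∈ Ioc 0 T, Λ m * ∑ n ∈ Ioc 0 (x / m), Λ n * |wk k c (m * n)| ≤
      168 * (x / A) * (Real.log T + 6) := by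
  have hA0 : (0 : ℝ) < A := by
    have := hF.hA
    exact_mod_cast (show 0 < A by omega)
  have h1 : ∀ m ∈ Ioc 0 T, Λ m * ∑ n ∈ Ioc 0 (x / m), Λ n * |wk k c (m * n)| ≤
      168 * (x / A) * (Λ m / m) := by
    intro m hm
    rw [mem_Ioc] at hm
    have hm0 : (0 : ℝ) < m := by exact_mod_cast hm.1
    have h2 : A ^ 9 ≤ x / m := by
      rw [Nat.le_div_iff_mul_le hm.1]
      exact (Nat.mul_le_mul_left _ hm.2).trans hx
    have h3 := abs_iv_le hF hk (ivOK_one hF.hA h2) m
    have e : Ico 1 (1 + x / m) = Ioc 0 (x / m) := by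
      ext n
      rw [mem_Ico, mem_Ioc]
      omega
    rw [e] at h3
    have h4 : ((x / m : ℕ) : ℝ) ≤ x / m := Nat.cast_div_le
    calc Λ m * ∑ n ∈ Ioc 0 (x / m), Λ n * |wk k c (m * n)| ≤
          Λ m * (168 * (((x / m : ℕ) : ℝ) / A)) := mul_le_mul_of_nonneg_left h3 vonMangoldt_nonneg
      _ ≤ Λ m * (168 * ((x / m) / A)) := by
          apply mul_le_mul_of_nonneg_left _ vonMangoldt_nonneg
          gcongr
      _ = _ := by
          field_simp
  refine (Finset.sum_le_sum h1).trans ?_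
  rw [← Finset.mul_sum]
  exact mul_le_mul_of_nonneg_left (mertens_le hT) (by positivity)

/-- Short ranges of the second variable. -/
lemma short_le (hF : Fam A K R c) {k : ℕ} (hk : k ∈ K) {x v m : ℕ} (hv : 0 < v)
    (hvm : v ≤ m) (hmv : m ≤ v + v / A) (hx : A ^ 10 * v ≤ x) :
    ∑ n ∈ Ioc (x / m) (x / v), Λ n * |wk k c (m * n)| ≤ 672 * (x / (A : ℝ) ^ 2) * (1 / m) := by
  have hA := hF.hA
  have hAn : 0 < A := by omega
  have hA0 : (0 : ℝ) < A := by exact_mod_cast hAn
  have hAr : (10 ^ 6 : ℝ) ≤ A := by exact_mod_cast hA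
  have hm : 0 < m := by omega
  have hm0 : (0 : ℝ) < m := by exact_mod_cast hm
  have hv0 : (0 : ℝ) < v := by exact_mod_cast hv
  set y := x / v with hy
  set L := y / A + 3 with hL
  have hyA : A ^ 10 ≤ y := by
    rw [hy, Nat.le_div_iff_mul_le hv]
    exact hx
  have hL9 : A ^ 9 ≤ y / A := by
    rw [Nat.le_div_iff_mul_le hAn]
    calc A ^ 9 * A = A ^ 10 := by ring
      _ ≤ y := hyA
  have hyL : y < (y / A + 1) * A := by
    have := Nat.lt_div_mul_add (a := y) hAn
    rw [Nat.add_mul, one_mul]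
    exact this
  have hxm : x / m ≤ y := Nat.div_le_div_left hvm hv
  have hiv : IvOK A (x / m + 1) L := by
    apply ivOK_of_le hA (by omega)
    have h1 : (y / A + 1) * A ≤ A * L := by
      rw [mul_comm]
      exact Nat.mul_le_mul_left A (by omega)
    have h2 : L ≤ A * L := Nat.le_mul_of_pos_left L hAn
    have h3 : 4 * A * L = 4 * (A * L) := by ring
    omega
  -- covering
  have hcov : y ≤ x / m + L := by
    have h1 : ((x / m : ℕ) : ℝ) ≥ x / m - 1 := by
      have h5 : (x : ℝ) / m ≤ ((x / m : ℕ) : ℝ) + 1 := by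
        rw [div_le_iff₀ hm0]
        have := Nat.lt_div_mul_add (a := x) hm
        have h5 : x ≤ (x / m + 1) * m := by
          rw [Nat.add_mul, one_mul]
          exact this.le
        exact_mod_cast h5
      linarith
    have h2 : (y : ℝ) ≤ x / v := Nat.cast_div_le
    have h3 : (x : ℝ) / v - x / m ≤ x / v / A := by
      have e1 : (m : ℝ) - v ≤ v / A := by
        have e2 : ((v / A : ℕ) : ℝ) ≤ v / A := Nat.cast_div_le
        have e3 : (m : ℝ) ≤ v + ((v / A : ℕ) : ℝ) := by exact_mod_cast hmv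
        linarith
      have e4 : (x : ℝ) / v - x / m = x / v * ((m - v) / m) := by
        field_simp
      rw [e4]
      have e5 : ((m : ℝ) - v) / m ≤ 1 / A := by
        rw [div_le_div_iff₀ hm0 hA0, one_mul]
        have e6 : (m - v) * A ≤ (v : ℝ) := by
          have := mul_le_mul_of_nonneg_right e1 hA0.le
          rwa [div_mul_cancel₀ _ hA0.ne'] at this
        have e7 : (v : ℝ) ≤ m := by exact_mod_cast hvm
        linarith
      calc (x : ℝ) / v * ((m - v) / m) ≤ x / v * (1 / A) :=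
            mul_le_mul_of_nonneg_left e5 (by positivity)
        _ = x / v / A := by ring
    have h4 : (x : ℝ) / v / A ≤ ((y / A : ℕ) : ℝ) + 2 := by
      have e1 : (x : ℝ) / v ≤ y + 1 := by
        rw [div_le_iff₀ hv0]
        have := Nat.lt_div_mul_add (a := x) hv
        have h5 : x ≤ (x / v + 1) * v := by
          rw [Nat.add_mul, one_mul]
          exact this.le
        exact_mod_cast h5
      have e2 : (y : ℝ) ≤ (((y / A : ℕ) : ℝ) + 1) * A := by exact_mod_cast hyL.le
      rw [div_le_iff₀ hA0]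
      nlinarith
    have h5 : (y : ℝ) ≤ ((x / m : ℕ) : ℝ) + L := by
      rw [hL]
      push_cast
      linarith
    exact_mod_cast h5
  have hsub : Ioc (x / m) y ⊆ Ico (x / m + 1) (x / m + 1 + L) := by
    intro n hn
    rw [mem_Ioc] at hn
    rw [mem_Ico]
    omega
  have h1 : ∑ n ∈ Ioc (x / m) y, Λ n * |wk k c (m * n)| ≤
      ∑ n ∈ Ico (x / m + 1) (x / m + 1 + L), Λ n * |wk k c (m * n)| := by
    apply Finset.sum_le_sum_of_subset_of_nonneg hsub
    intro n _ _
    exact mul_nonneg vonMangoldt_nonneg (abs_nonneg _)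
  refine h1.trans ((abs_iv_le hF hk hiv m).trans ?_)
  have h2 : (L : ℝ) ≤ 4 * (x / A) * (1 / m) := by
    have e1 : ((y / A : ℕ) : ℝ) ≤ y / A := Nat.cast_div_le
    have e2 : (y : ℝ) ≤ x / v := Nat.cast_div_le
    have e3 : (3 : ℝ) ≤ y / A := by
      have : 3 ≤ y / A := by
        have h3 : A ≤ A ^ 9 := Nat.le_self_pow (by norm_num) A
        omega
      have h4 : (3 : ℝ) ≤ ((y / A : ℕ) : ℝ) := by exact_mod_cast this
      linarith
    have e4 : (m : ℝ) ≤ 2 * v := by
      have : m ≤ 2 * v := by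
        have := Nat.div_le_self v A
        omega
      exact_mod_cast this
    have e5 : (x : ℝ) / v ≤ 2 * x / m := by
      rw [div_le_div_iff₀ hv0 hm0]
      have : (0 : ℝ) ≤ x := Nat.cast_nonneg _
      nlinarith
    have e6 : (L : ℝ) ≤ 2 * (y / A) := by
      rw [hL]
      push_cast
      linarith
    calc (L : ℝ) ≤ 2 * (y / A) := e6
      _ ≤ 2 * ((2 * x / m) / A) := by
        gcongr
        exact e2.trans e5
      _ = _ := by ring
  calc 168 * ((L : ℝ) / A) ≤ 168 * (4 * (x / A) * (1 / m) / A) := by gcongr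
    _ = _ := by ring

/-- One block. -/
lemma block_le (hF : Fam A K R c) {x v : ℕ} (hv : A ^ 10 ≤ v) (hx : A ^ 10 * v ≤ x) :
    ∑ k ∈ K, |∑ m ∈ Ico v (v + v / A), Λ m * ∑ n ∈ Ioc 0 (x / m), Λ n * wk k c (m * n)| ≤
      6728 * R * (x / A) * (((v / A : ℕ) : ℝ) / v) +
        K.card * (672 * (x / (A : ℝ) ^ 2) * ∑ m ∈ Ico v (v + v / A), Λ m / m) := by
  classical
  have hA := hF.hA
  have hAn : 0 < A := by omega
  have hA0 : (0 : ℝ) < A := by exact_mod_cast hAn
  have hv0 : 0 < v := by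
    have : A ≤ A ^ 10 := Nat.le_self_pow (by norm_num) A
    omega
  have hv0r : (0 : ℝ) < v := by exact_mod_cast hv0
  set I := Ico v (v + v / A) with hI
  set J := Ioc 0 (x / v) with hJ
  -- split
  have h1 : ∀ k ∈ K, |∑ m ∈ I, Λ m * ∑ n ∈ Ioc 0 (x / m), Λ n * wk k c (m * n)| ≤
      Real.sqrt (VV I (fun n => Λ n) k) * Real.sqrt (VV J (fun n => Λ n) k) +
        672 * (x / (A : ℝ) ^ 2) * ∑ m ∈ I, Λ m / m := by
    intro k hk
    have hk0 := hF.pos k hk
    have e1 : ∑ m ∈ I, Λ m * ∑ n ∈ Ioc 0 (x / m), Λ n * wk k c (m * n) =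
        ∑ m ∈ I, Λ m * ∑ n ∈ J, Λ n * wk k c (m * n) -
          ∑ m ∈ I, Λ m * ∑ n ∈ Ioc (x / m) (x / v), Λ n * wk k c (m * n) := by
      rw [← Finset.sum_sub_distrib]
      apply Finset.sum_congr rfl
      intro m hm
      rw [hI, mem_Ico] at hm
      rw [hJ, ← Finset.sum_Ioc_consecutive _ (Nat.zero_le (x / m))
        (Nat.div_le_div_left hm.1 hv0)]
      ring
    rw [e1]
    refine (abs_sub _ _).trans (add_le_add ?_ ?_)
    · rw [← Real.sqrt_mul (VV_nonneg _ _ _)]
      apply Real.le_sqrt_of_sq_le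
      rw [sq_abs]
      exact bil_sq_le hk0 (hF.unit k hk) I J (fun n => Λ n) (fun n => Λ n)
    · refine (Finset.abs_sum_le_sum_abs _ _).trans ?_
      rw [Finset.mul_sum]
      apply Finset.sum_le_sum
      intro m hm
      rw [hI, mem_Ico] at hm
      rw [abs_mul, abs_of_nonneg (vonMangoldt_nonneg (n := m))]
      have e2 : |∑ n ∈ Ioc (x / m) (x / v), Λ n * wk k c (m * n)| ≤
          ∑ n ∈ Ioc (x / m) (x / v), Λ n * |wk k c (m * n)| := by
        refine (Finset.abs_sum_le_sum_abs _ _).trans (le_of_eq ?_)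
        apply Finset.sum_congr rfl
        intro n _
        rw [abs_mul, abs_of_nonneg (vonMangoldt_nonneg (n := n))]
      have e3 := short_le hF hk hv0 hm.1 hm.2.le hx
      calc Λ m * |∑ n ∈ Ioc (x / m) (x / v), Λ n * wk k c (m * n)| ≤
            Λ m * (672 * (x / (A : ℝ) ^ 2) * (1 / m)) :=
            mul_le_mul_of_nonneg_left (e2.trans e3) vonMangoldt_nonneg
        _ = 672 * (x / (A : ℝ) ^ 2) * (Λ m / m) := by ring
  refine (Finset.sum_le_sum h1).trans ?_
  rw [Finset.sum_add_distrib, Finset.sum_const, nsmul_eq_mul]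
  apply add_le_add_left
  -- the main part
  have h2 := Real.sum_sqrt_mul_sqrt_le K (f := fun k => VV I (fun n => Λ n) k)
    (g := fun k => VV J (fun n => Λ n) k) (fun k => VV_nonneg _ _ _) (fun k => VV_nonneg _ _ _)
  refine h2.trans ?_
  have h3 := var_vonMangoldt hF (ivOK_block hA hv)
  have hy : A ^ 9 ≤ x / v := by
    rw [Nat.le_div_iff_mul_le hv0]
    refine le_trans (Nat.mul_le_mul_right v ?_) hx
    exact Nat.pow_le_pow_right hAn (by norm_num)
  have h4 := var_vonMangoldt hF (ivOK_one hA hy)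
  have e : Ico 1 (1 + x / v) = J := by
    ext n
    rw [hJ, mem_Ico, mem_Ioc]
    omega
  rw [e] at h4
  rw [← hI] at h3
  have h5 : ((x / v : ℕ) : ℝ) ≤ x / v := Nat.cast_div_le
  have hR0 : (0 : ℝ) ≤ R := Nat.cast_nonneg _
  have h6 : Real.sqrt (∑ k ∈ K, VV I (fun n => Λ n) k) *
      Real.sqrt (∑ k ∈ K, VV J (fun n => Λ n) k) ≤
      Real.sqrt (6728 * R * ((v / A : ℕ) : ℝ) ^ 2 / A) *
        Real.sqrt (6728 * R * ((x / v : ℕ) : ℝ) ^ 2 / A) :=
    mul_le_mul (Real.sqrt_le_sqrt h3) (Real.sqrt_le_sqrt h4) (Real.sqrt_nonneg _)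
      (Real.sqrt_nonneg _)
  refine h6.trans ?_
  rw [← Real.sqrt_mul (by positivity)]
  have e2 : 6728 * (R : ℝ) * ((v / A : ℕ) : ℝ) ^ 2 / A *
      (6728 * R * ((x / v : ℕ) : ℝ) ^ 2 / A) =
      (6728 * R * ((v / A : ℕ) : ℝ) * ((x / v : ℕ) : ℝ) / A) ^ 2 := by
    field_simp
  rw [e2, Real.sqrt_sq (by positivity)]
  calc 6728 * (R : ℝ) * ((v / A : ℕ) : ℝ) * ((x / v : ℕ) : ℝ) / A ≤
        6728 * R * ((v / A : ℕ) : ℝ) * (x / v) / A := by gcongr
    _ = _ := by ring

/-- The convolution `Λ * Λ` on average. -/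
theorem lamlam_le (hF : Fam A K R c) {x : ℕ} (hx : 3 * (A ^ 10) ^ 2 ≤ x) :
    ∑ k ∈ K, |∑ n ∈ Ioc 0 x, ((Λ : ArithmeticFunction ℝ) * Λ) n * wk k c n| ≤
      x / A * (K.card * (336 * (Real.log (2 * (A : ℝ) ^ 10) + 6)) +
        13456 * R * (1 + Real.log x) + K.card * (672 * (Real.log x + 6) / A)) := by
  classical
  have hA := hF.hA
  have hAn : 0 < A := by omega
  have hA0 : (0 : ℝ) < A := by exact_mod_cast hAn
  set T := A ^ 10 with hT
  have hTA : A ≤ T := Nat.le_self_pow (by norm_num) A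
  have hT0 : 0 < T := by omega
  have hTT : T ≤ T ^ 2 := Nat.le_self_pow (by norm_num) T
  set W := x / T with hW
  have hWx : W ≤ x := Nat.div_le_self _ _
  have hWT : 3 * T ≤ W := by
    rw [hW, Nat.le_div_iff_mul_le hT0]
    calc 3 * T * T = 3 * T ^ 2 := by ring
      _ ≤ x := hx
  -- the number of blocks
  have hex : ∃ N, W < blk T A (N + 1) := by
    have h1 := blk_pow (V := T) (B := A) (by omega) hTA W
    refine ⟨2 * A * W, ?_⟩
    have h2 : W < 2 ^ W := Nat.lt_two_pow_self
    have h3 := blk_le_succ T A (2 * A * W)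
    omega
  set N := Nat.find hex with hN
  have hN1 : W < blk T A (N + 1) := Nat.find_spec hex
  have hN2 : blk T A N ≤ W := by
    rcases Nat.eq_zero_or_pos N with h | h
    · rw [h]
      show T + 1 ≤ W
      omega
    · have h2 := Nat.find_min hex (m := N - 1) (by omega)
      have h3 : N - 1 + 1 = N := by omega
      rw [h3] at h2
      omega
  have hblk1 : ∀ j, T + 1 ≤ blk T A j := blk_ge T A
  have hNW : x / blk T A N ≤ 2 * T := by
    have h1 : blk T A (N + 1) ≤ 2 * blk T A N := by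
      rw [blk_succ]
      have := Nat.div_le_self (blk T A N) A
      omega
    have h2 : x < (W + 1) * T := by
      have := Nat.lt_div_mul_add (a := x) hT0
      rw [Nat.add_mul, one_mul]
      exact this
    have h3 : (W + 1) * T ≤ 2 * blk T A N * T := Nat.mul_le_mul_right T (by omega)
    have h4 : x / blk T A N < 2 * T + 1 := by
      rw [Nat.div_lt_iff_lt_mul (by have := hblk1 N; omega)]
      have h5 : (2 * T + 1) * blk T A N = 2 * blk T A N * T + blk T A N := by ring
      omega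
    omega
  -- pointwise decomposition
  set G : ℕ → ℕ → ℝ := fun k m => ∑ n ∈ Ioc 0 (x / m), Λ n * wk k c (m * n) with hG
  set Ga : ℕ → ℕ → ℝ := fun k m => ∑ n ∈ Ioc 0 (x / m), Λ n * |wk k c (m * n)| with hGa
  have hGGa : ∀ k m, |G k m| ≤ Ga k m := by
    intro k m
    rw [hG, hGa]
    refine (Finset.abs_sum_le_sum_abs _ _).trans (le_of_eq ?_)
    apply Finset.sum_congr rfl
    intro n _
    rw [abs_mul, abs_of_nonneg (vonMangoldt_nonneg (n := n))]
  have hGa0 : ∀ k m, 0 ≤ Ga k m := fun k m =>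
    Finset.sum_nonneg fun n _ => mul_nonneg vonMangoldt_nonneg (abs_nonneg _)
  have hdec : ∀ k, ∑ n ∈ Ioc 0 x, ((Λ : ArithmeticFunction ℝ) * Λ) n * wk k c n =
      ∑ m ∈ Ioc 0 T, Λ m * G k m + ∑ m ∈ Ico (T + 1) (blk T A N), Λ m * G k m +
        ∑ m ∈ Ico (blk T A N) (x + 1), Λ m * G k m := by
    intro k
    rw [sum_conv_weight]
    simp only [Nat.zero_div]
    have e1 : Ioc 0 T = Ico 1 (T + 1) := by
      ext n
      rw [mem_Ico, mem_Ioc]
      omega
    have e2 : Ioc 0 x = Ico 1 (x + 1) := by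
      ext n
      rw [mem_Ico, mem_Ioc]
      omega
    rw [e1, e2, Finset.sum_Ico_consecutive _ (by omega) (hblk1 N),
      Finset.sum_Ico_consecutive _ (by have := hblk1 N; omega) (by omega)]
  -- the three parts
  have hp1 : ∀ k ∈ K, |∑ m ∈ Ioc 0 T, Λ m * G k m| ≤
      168 * (x / A) * (Real.log (2 * (A : ℝ) ^ 10) + 6) := by
    intro k hk
    have h1 : |∑ m ∈ Ioc 0 T, Λ m * G k m| ≤ ∑ m ∈ Ioc 0 (2 * T), Λ m * Ga k m := by
      refine (Finset.abs_sum_le_sum_abs _ _).trans ?_
      have h2 : ∀ m ∈ Ioc 0 T, |Λ m * G k m| ≤ Λ m * Ga k m := by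
        intro m _
        rw [abs_mul, abs_of_nonneg (vonMangoldt_nonneg (n := m))]
        exact mul_le_mul_of_nonneg_left (hGGa k m) vonMangoldt_nonneg
      refine (Finset.sum_le_sum h2).trans ?_
      apply Finset.sum_le_sum_of_subset_of_nonneg
      · intro m hm
        rw [mem_Ioc] at hm ⊢
        omega
      · intro m _ _
        exact mul_nonneg vonMangoldt_nonneg (hGa0 k m)
    have h3 := small_le hF hk (x := x) (T := 2 * T) (by omega) (by
      calc A ^ 9 * (2 * T) ≤ T * (2 * T) := by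
            apply Nat.mul_le_mul_right
            rw [hT]
            exact Nat.pow_le_pow_right hAn (by norm_num)
        _ = 2 * T ^ 2 := by ring
        _ ≤ x := by omega)
    have e : ((2 * T : ℕ) : ℝ) = 2 * (A : ℝ) ^ 10 := by rw [hT]; push_cast; ring
    rw [e] at h3
    exact h1.trans h3
  have hp3 : ∀ k ∈ K, |∑ m ∈ Ico (blk T A N) (x + 1), Λ m * G k m| ≤
      168 * (x / A) * (Real.log (2 * (A : ℝ) ^ 10) + 6) := by
    intro k hk
    have h3 := small_le hF hk (x := x) (T := 2 * T) (by omega) (by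
      calc A ^ 9 * (2 * T) ≤ T * (2 * T) := by
            apply Nat.mul_le_mul_right
            rw [hT]
            exact Nat.pow_le_pow_right hAn (by norm_num)
        _ = 2 * T ^ 2 := by ring
        _ ≤ x := by omega)
    have e : ((2 * T : ℕ) : ℝ) = 2 * (A : ℝ) ^ 10 := by rw [hT]; push_cast; ring
    rw [e] at h3
    refine le_trans ?_ h3
    refine (Finset.abs_sum_le_sum_abs _ _).trans ?_
    have h2 : ∀ m ∈ Ico (blk T A N) (x + 1), |Λ m * G k m| ≤
        ∑ n ∈ Ioc 0 (2 * T), if m * n ≤ x then Λ n * (Λ m * |wk k c (n * m)|) else 0 := by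
      intro m hm
      rw [mem_Ico] at hm
      have hb := hblk1 N
      have hm0 : 0 < m := by omega
      rw [abs_mul, abs_of_nonneg (vonMangoldt_nonneg (n := m))]
      refine (mul_le_mul_of_nonneg_left (hGGa k m) vonMangoldt_nonneg).trans (le_of_eq ?_)
      rw [hGa]
      simp only
      rw [Finset.mul_sum, ← Finset.sum_filter]
      have hxm : x / m ≤ 2 * T := (Nat.div_le_div_left hm.1 (by omega)).trans hNW
      have hset : Ioc 0 (x / m) = (Ioc 0 (2 * T)).filter (fun n => m * n ≤ x) := by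
        ext n
        rw [mem_filter, mem_Ioc, mem_Ioc, Nat.le_div_iff_mul_le hm0, mul_comm n m]
        constructor
        · rintro ⟨h4, h5⟩
          refine ⟨⟨h4, ?_⟩, h5⟩
          have : n ≤ x / m := by rw [Nat.le_div_iff_mul_le hm0, mul_comm]; exact h5
          exact this.trans hxm
        · rintro ⟨⟨h4, _⟩, h5⟩
          exact ⟨h4, h5⟩
      rw [hset]
      apply Finset.sum_congr rfl
      intro n _
      rw [mul_comm m n]
      ring
    refine (Finset.sum_le_sum h2).trans ?_
    rw [Finset.sum_comm]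
    apply Finset.sum_le_sum
    intro n hn
    rw [mem_Ioc] at hn
    rw [← Finset.sum_filter, ← Finset.mul_sum]
    apply mul_le_mul_of_nonneg_left _ vonMangoldt_nonneg
    apply Finset.sum_le_sum_of_subset_of_nonneg
    · intro m hm
      rw [mem_filter, mem_Ico] at hm
      have hb := hblk1 N
      rw [mem_Ioc, Nat.le_div_iff_mul_le hn.1]
      exact ⟨by omega, hm.2⟩
    · intro m _ _
      exact mul_nonneg vonMangoldt_nonneg (abs_nonneg _)
  -- the blocks
  have hp2 : ∑ k ∈ K, |∑ m ∈ Ico (T + 1) (blk T A N), Λ m * G k m| ≤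
      x / A * (13456 * R * (1 + Real.log x) + K.card * (672 * (Real.log x + 6) / A)) := by
    have h1 : ∀ k ∈ K, |∑ m ∈ Ico (T + 1) (blk T A N), Λ m * G k m| ≤
        ∑ j ∈ range N, |∑ m ∈ Ico (blk T A j) (blk T A j + blk T A j / A), Λ m * G k m| := by
      intro k _
      rw [sum_blocks T A N (fun m => Λ m * G k m)]
      exact Finset.abs_sum_le_sum_abs _ _
    refine (Finset.sum_le_sum h1).trans ?_
    rw [Finset.sum_comm]
    have h2 : ∀ j ∈ range N, ∑ k ∈ K,
        |∑ m ∈ Ico (blk T A j) (blk T A j + blk T A j / A), Λ m * G k m| ≤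
        ∑ m ∈ Ico (blk T A j) (blk T A j + blk T A j / A),
          (13456 * R * (x / A) * (1 / m) + K.card * (672 * (x / (A : ℝ) ^ 2)) * (Λ m / m)) := by
      intro j hj
      rw [mem_range] at hj
      have hbj := hblk1 j
      have hbW : blk T A j ≤ W := (blk_mono T A hj.le).trans hN2
      have h3 := block_le hF (x := x) (v := blk T A j) (by omega) (by
        have : T * blk T A j ≤ T * W := Nat.mul_le_mul_left T hbW
        have h4 : T * W ≤ x := by
          rw [mul_comm, hW]
          exact Nat.div_mul_le_self x T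
        exact this.trans h4)
      refine h3.trans ?_
      rw [Finset.sum_add_distrib, ← Finset.mul_sum, ← Finset.mul_sum]
      apply add_le_add
      · have hv0 : (0 : ℝ) < blk T A j := by
          have : 0 < blk T A j := by omega
          exact_mod_cast this
        have h4 : ((blk T A j / A : ℕ) : ℝ) / blk T A j ≤
            2 * ∑ m ∈ Ico (blk T A j) (blk T A j + blk T A j / A), (1 : ℝ) / m := by
          have e1 : ((blk T A j / A : ℕ) : ℝ) / blk T A j =
              ∑ m ∈ Ico (blk T A j) (blk T A j + blk T A j / A), (1 : ℝ) / blk T A j := by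
            rw [Finset.sum_const, Nat.card_Ico, nsmul_eq_mul, Nat.add_sub_cancel_left]
            ring
          rw [e1, Finset.mul_sum]
          apply Finset.sum_le_sum
          intro m hm
          rw [mem_Ico] at hm
          have hm2 : m ≤ 2 * blk T A j := by
            have := Nat.div_le_self (blk T A j) A
            omega
          have hm0 : (0 : ℝ) < m := by
            have : 0 < m := by omega
            exact_mod_cast this
          have hm2r : (m : ℝ) ≤ 2 * blk T A j := by exact_mod_cast hm2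
          rw [← mul_div_assoc, mul_one, div_le_div_iff₀ hv0 hm0]
          linarith
        calc 6728 * (R : ℝ) * (x / A) * (((blk T A j / A : ℕ) : ℝ) / blk T A j) ≤
              6728 * R * (x / A) *
              (2 * ∑ m ∈ Ico (blk T A j) (blk T A j + blk T A j / A), (1 : ℝ) / m) :=
              mul_le_mul_of_nonneg_left h4 (by positivity)
          _ = _ := by ring
      · apply le_of_eq
        ring
    refine (Finset.sum_le_sum h2).trans ?_
    rw [← sum_blocks T A N, Finset.sum_add_distrib, ← Finset.mul_sum, ← Finset.mul_sum]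
    have hsub : Ico (T + 1) (blk T A N) ⊆ Ioc 0 x := by
      intro m hm
      rw [mem_Ico] at hm
      rw [mem_Ioc]
      omega
    have h3 : ∑ m ∈ Ico (T + 1) (blk T A N), (1 : ℝ) / m ≤ 1 + Real.log x := by
      refine le_trans ?_ (sum_one_div_le_log x)
      apply Finset.sum_le_sum_of_subset_of_nonneg hsub
      intro m _ _
      positivity
    have h4 : ∑ m ∈ Ico (T + 1) (blk T A N), Λ m / m ≤ Real.log x + 6 := by
      refine le_trans ?_ (mertens_le (x := x) (by omega))
      apply Finset.sum_le_sum_of_subset_of_nonneg hsub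
      intro m _ _
      exact div_nonneg vonMangoldt_nonneg (Nat.cast_nonneg _)
    calc 13456 * (R : ℝ) * (x / A) * ∑ m ∈ Ico (T + 1) (blk T A N), (1 : ℝ) / m +
          K.card * (672 * (x / (A : ℝ) ^ 2)) * ∑ m ∈ Ico (T + 1) (blk T A N), Λ m / m ≤
          13456 * R * (x / A) * (1 + Real.log x) +
          K.card * (672 * (x / (A : ℝ) ^ 2)) * (Real.log x + 6) := by
            gcongr
      _ = _ := by
        field_simp
  -- assembling
  have hfin : ∑ k ∈ K, |∑ n ∈ Ioc 0 x, ((Λ : ArithmeticFunction ℝ) * Λ) n * wk k c n| ≤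
      ∑ k ∈ K, (168 * (x / A) * (Real.log (2 * (A : ℝ) ^ 10) + 6) +
        |∑ m ∈ Ico (T + 1) (blk T A N), Λ m * G k m| +
        168 * (x / A) * (Real.log (2 * (A : ℝ) ^ 10) + 6)) := by
    apply Finset.sum_le_sum
    intro k hk
    rw [hdec k]
    refine (abs_add_le _ _).trans (add_le_add ?_ (hp3 k hk))
    exact (abs_add_le _ _).trans (add_le_add (hp1 k hk) le_rfl)
  refine hfin.trans ?_
  rw [Finset.sum_add_distrib, Finset.sum_add_distrib, Finset.sum_const, nsmul_eq_mul]
  have e : x / A * (K.card * (336 * (Real.log (2 * (A : ℝ) ^ 10) + 6)) +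
        13456 * R * (1 + Real.log x) + K.card * (672 * (Real.log x + 6) / A)) =
      K.card * (168 * (x / A) * (Real.log (2 * (A : ℝ) ^ 10) + 6)) +
      x / A * (13456 * R * (1 + Real.log x) + K.card * (672 * (Real.log x + 6) / A)) +
      K.card * (168 * (x / A) * (Real.log (2 * (A : ℝ) ^ 10) + 6)) := by ring
  rw [e]
  linarith

end

end Pool.Agent.Lib_helper72.AS
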