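import Mathlib
import Pool.Agent.Lib_helper72.AS.LamLam
import Pool.Agent.Lib_helper72.AP.FirstMoment

set_option autoImplicit false

/-!
Lower bound for the number of primes in a fixed residue class, on average over a family of
moduli of size about `log x`.
-/

namespace Pool.Agent.Lib_helper72.AS

open Finset ArithmeticFunction BoundingSieve Pool.Agent.Lib_helper72.AP
open scoped ArithmeticFunction.zeta ArithmeticFunction.Moebius

noncomputable section

variable {A : ℕ} {K : Finset ℕ} {R : ℕ} {c : ℤ}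

/-- The Selberg part. -/
lemma selberg_part (hF : Fam A K R c) {k : ℕ} (hk : k ∈ K) {x : ℕ} (hx : A ^ 5 ≤ x) :
    |∑ n ∈ Ioc 0 x, (muR * L2) n * wk k c n| ≤
      x / A * (46 / A + 16 * Real.log A ^ 2 * (5 + 16 * Real.log A)) := by
  have hA := hF.hA
  have hAn : 0 < A := by omega
  have hA0 : (0 : ℝ) < A := by exact_mod_cast hAn
  have hA1 : (1 : ℝ) ≤ A := by exact_mod_cast hAn
  have hk0 := hF.pos k hk
  have hφ : (0 : ℝ) < k.totient := by exact_mod_cast Nat.totient_pos.2 hk0
  have hlogA : 0 ≤ Real.log A := Real.log_nonneg hA1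
  have hY1 : 1 ≤ A ^ 4 := Nat.one_le_pow _ _ hAn
  have hYx : A ^ 4 ≤ x := (Nat.pow_le_pow_right hAn (by norm_num)).trans hx
  have hx0 : (0 : ℝ) ≤ x := Nat.cast_nonneg _
  have h := sum_selberg_le hk0 (hF.unit k hk) hY1 hYx
  refine h.trans ?_
  have e1 : Real.sqrt ((A ^ 4 : ℕ) : ℝ) = (A : ℝ) ^ 2 := by
    push_cast
    rw [show (A : ℝ) ^ 4 = ((A : ℝ) ^ 2) ^ 2 by ring, Real.sqrt_sq (by positivity)]
  have e2 : Real.log ((A ^ 4 : ℕ) : ℝ) = 4 * Real.log A := by
    push_cast
    rw [Real.log_pow]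
    norm_num
  rw [e1, e2]
  have h1 : 2 * (x : ℝ) / k.totient ≤ 4 * (x / A) := by
    rw [div_le_iff₀ hφ]
    have h7 : 2 * (x : ℝ) = 4 * (x / A) * (A / 2) := by field_simp; ring
    rw [h7]
    exact mul_le_mul_of_nonneg_left (hF.tot k hk) (by positivity)
  have h2 : ((A ^ 4 : ℕ) : ℝ) ≤ x / A := by
    rw [le_div_iff₀ hA0]
    have : A ^ 4 * A ≤ x := by
      calc A ^ 4 * A = A ^ 5 := by ring
        _ ≤ x := hx
    exact_mod_cast this
  calc 46 * ((x : ℝ) / (A : ℝ) ^ 2) + (4 * Real.log A) ^ 2 *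
        (2 * x / k.totient * (1 + 4 * Real.log A) + ((A ^ 4 : ℕ) : ℝ)) ≤
        46 * ((x : ℝ) / (A : ℝ) ^ 2) + (4 * Real.log A) ^ 2 *
        (4 * (x / A) * (1 + 4 * Real.log A) + x / A) := by gcongr
    _ = _ := by
      field_simp
      ring

/-- Upper bound for the class sum of `Λ log` through primes. -/
lemma class_le (k : ℕ) (c : ℤ) {X : ℕ} (hX : 1 ≤ X) :
    ∑ n ∈ Ioc X (4 * X), (if (n : ZMod k) = (c : ZMod k) then LL n else 0) ≤
      Real.log ((4 * X : ℕ) : ℝ) ^ 2 * (prC X c k).card +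
        4 * Real.sqrt X * Real.log ((4 * X : ℕ) : ℝ) ^ 2 := by
  classical
  set l := Real.log ((4 * X : ℕ) : ℝ) with hl
  have hl0 : 0 ≤ l := Real.log_natCast_nonneg _
  have hXr : (1 : ℝ) ≤ X := by exact_mod_cast hX
  have h1 : ∀ n ∈ Ioc X (4 * X), (if (n : ZMod k) = (c : ZMod k) then LL n else 0) ≤
      (if n.Prime ∧ (n : ZMod k) = (c : ZMod k) then l ^ 2 else 0) +
        l * (if ¬ n.Prime then Λ n else 0) := by
    intro n hn
    rw [mem_Ioc] at hn
    have hn0 : (0 : ℝ) < n := by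
      have : 0 < n := by omega
      exact_mod_cast this
    have hlog : Real.log n ≤ l := by
      apply Real.log_le_log hn0
      exact_mod_cast hn.2
    have hn1 : (1 : ℝ) ≤ n := by
      have : 1 ≤ n := by omega
      exact_mod_cast this
    have hlog0 : 0 ≤ Real.log n := Real.log_nonneg hn1
    have hΛ : 0 ≤ Λ n := vonMangoldt_nonneg
    by_cases h2 : (n : ZMod k) = (c : ZMod k)
    · by_cases h3 : n.Prime
      · rw [if_pos h2, if_pos ⟨h3, h2⟩, if_neg (not_not.2 h3), LL_apply,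
          vonMangoldt_apply_prime h3, mul_zero, add_zero, sq]
        exact mul_le_mul hlog hlog hlog0 hl0
      · rw [if_pos h2, if_neg (fun h => h3 h.1), if_pos h3, LL_apply, zero_add, mul_comm]
        exact mul_le_mul_of_nonneg_right hlog hΛ
    · rw [if_neg h2]
      positivity
  refine (Finset.sum_le_sum h1).trans ?_
  rw [Finset.sum_add_distrib, ← Finset.mul_sum, ← Finset.sum_filter, ← Finset.sum_filter,
    Finset.sum_const, nsmul_eq_mul, mul_comm ((Finset.card _ : ℕ) : ℝ) (l ^ 2)]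
  apply add_le_add le_rfl
  have h2 := Chebyshev.psi_sub_theta_le (x := ((4 * X : ℕ) : ℝ)) (by push_cast; linarith)
  have h3 := Chebyshev.psi_sub_theta_eq_sum_not_prime (x := ((4 * X : ℕ) : ℝ))
  rw [Nat.floor_natCast] at h3
  have h4 : ∑ n ∈ (Ioc X (4 * X)).filter (fun n => ¬ n.Prime), Λ n ≤
      ∑ n ∈ (Ioc 0 (4 * X)).filter (fun n => ¬ n.Prime), Λ n := by
    apply Finset.sum_le_sum_of_subset_of_nonneg
    · apply Finset.filter_subset_filter
      exact Finset.Ioc_subset_Ioc_left (Nat.zero_le _)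
    · intro n _ _
      exact vonMangoldt_nonneg
  rw [← h3] at h4
  have h5 : Real.sqrt ((4 * X : ℕ) : ℝ) = 2 * Real.sqrt X := by
    push_cast
    rw [Real.sqrt_mul (by norm_num), show (4 : ℝ) = 2 ^ 2 by norm_num,
      Real.sqrt_sq (by norm_num)]
  rw [h5] at h2
  calc l * ∑ n ∈ (Ioc X (4 * X)).filter (fun n => ¬ n.Prime), Λ n ≤
        l * (2 * (2 * Real.sqrt X) * l) := mul_le_mul_of_nonneg_left (h4.trans h2) hl0
    _ = 4 * Real.sqrt X * l ^ 2 := by ring

/-- Lower bound for the mean of `Λ log`. -/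
lemma mean_ge {k X : ℕ} (hkX : k ≤ X) (hk : 0 < k) (hX : 1 ≤ X)
    (h80 : 80 * Real.log ((4 * X : ℕ) : ℝ) ≤ Real.sqrt X) :
    X * Real.log X ≤ ∑ n ∈ Ioc X (4 * X), (if Nat.Coprime n k then LL n else 0) := by
  classical
  have hXr : (1 : ℝ) ≤ X := by exact_mod_cast hX
  have hlogX : 0 ≤ Real.log X := Real.log_nonneg hXr
  have hlog1 : 1 ≤ Real.log ((4 * X : ℕ) : ℝ) := by
    have h1 : Real.log 4 ≤ Real.log ((4 * X : ℕ) : ℝ) := by
      apply Real.log_le_log (by norm_num)
      push_cast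
      linarith
    have h4 : Real.log 4 = 2 * Real.log 2 := by
      rw [show (4 : ℝ) = 2 ^ 2 by norm_num, Real.log_pow]
      norm_num
    have := Real.log_two_gt_d9
    linarith
  have ht1 : 1 ≤ Real.sqrt (Real.log ((4 * X : ℕ) : ℝ)) := Real.one_le_sqrt.2 hlog1
  have hsq : Real.sqrt (Real.log ((4 * X : ℕ) : ℝ)) ^ 2 = Real.log ((4 * X : ℕ) : ℝ) :=
    Real.sq_sqrt (by linarith)
  have h1 := theta_diff_ge (X := X) hX ht1 (le_of_eq hsq.symm) (by rw [hsq]; exact h80)
  rw [← theta_sub] at h1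
  calc (X : ℝ) * Real.log X ≤ (∑ p ∈ (Ioc X (4 * X)).filter Nat.Prime, Real.log p) *
        Real.log X := mul_le_mul_of_nonneg_right h1 hlogX
    _ ≤ _ := by
      rw [Finset.sum_mul, Finset.sum_filter]
      apply Finset.sum_le_sum
      intro n hn
      rw [mem_Ioc] at hn
      have hn1 : (1 : ℝ) ≤ n := by
        have : 1 ≤ n := by omega
        exact_mod_cast this
      have hlog0 : 0 ≤ Real.log n := Real.log_nonneg hn1
      by_cases hp : n.Prime
      · have hcop : Nat.Coprime n k := by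
          rw [Nat.Prime.coprime_iff_not_dvd hp]
          intro hd
          have := Nat.le_of_dvd hk hd
          omega
        rw [if_pos hp, if_pos hcop, LL_apply, vonMangoldt_apply_prime hp]
        apply mul_le_mul_of_nonneg_left _ hlog0
        apply Real.log_le_log (by linarith)
        exact_mod_cast hn.1.le
      · rw [if_neg hp]
        split_ifs
        · rw [LL_apply]
          exact mul_nonneg vonMangoldt_nonneg hlog0
        · exact le_rfl

/-- The first moment. -/
theorem first_moment (hF : Fam A K R c) {X : ℕ} (hX : 3 * (A ^ 10) ^ 2 ≤ X)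
    (h80 : 80 * Real.log ((4 * X : ℕ) : ℝ) ≤ Real.sqrt X)
    (hC1 : 5 * (46 / A + 16 * Real.log A ^ 2 * (5 + 16 * Real.log A)) +
      5 * (336 * (Real.log (2 * (A : ℝ) ^ 10) + 6)) +
      5 * (672 * (Real.log ((4 * X : ℕ) : ℝ) + 6) / A) +
      4 * A * Real.log ((4 * X : ℕ) : ℝ) ^ 2 / Real.sqrt X ≤ Real.log X / 16)
    (hC2 : 5 * (13456 * R * (1 + Real.log ((4 * X : ℕ) : ℝ))) ≤ K.card * (Real.log X / 16)) :
    K.card * (X / A) * (Real.log X / 8) ≤
      Real.log ((4 * X : ℕ) : ℝ) ^ 2 * ∑ k ∈ K, ((prC X c k).card : ℝ) := by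
  classical
  have hA := hF.hA
  have hAn : 0 < A := by omega
  have hA0 : (0 : ℝ) < A := by exact_mod_cast hAn
  have hAT : A ^ 5 ≤ 3 * (A ^ 10) ^ 2 := by
    calc A ^ 5 ≤ A ^ 20 := Nat.pow_le_pow_right hAn (by norm_num)
      _ ≤ 3 * A ^ 20 := by omega
      _ = 3 * (A ^ 10) ^ 2 := by ring
  have hA5 : 4 * A ≤ A ^ 5 := by
    calc 4 * A ≤ A ^ 4 * A := by
          apply Nat.mul_le_mul_right
          have : A ≤ A ^ 4 := Nat.le_self_pow (by norm_num) A
          omega
      _ = A ^ 5 := by ring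
  have h4A : 4 * A ≤ X := by omega
  have hX1 : 1 ≤ X := by omega
  have hXr : (1 : ℝ) ≤ X := by exact_mod_cast hX1
  have hX0 : (0 : ℝ) < X := by linarith
  set l := Real.log ((4 * X : ℕ) : ℝ) with hl
  set P := Real.log (2 * (A : ℝ) ^ 10) + 6 with hP
  set Q := 46 / (A : ℝ) + 16 * Real.log A ^ 2 * (5 + 16 * Real.log A) with hQ
  -- the discrepancy of `Λ log`
  set D : ℕ → ℝ := fun k => ∑ n ∈ Ioc X (4 * X), LL n * wk k c n with hD
  set H : ℕ → ℕ → ℝ := fun x k =>
    ∑ n ∈ Ioc 0 x, ((Λ : ArithmeticFunction ℝ) * Λ) n * wk k c n with hH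
  set S : ℕ → ℕ → ℝ := fun x k => ∑ n ∈ Ioc 0 x, (muR * L2) n * wk k c n with hS
  have hid : ∀ n, LL n = (muR * L2) n - ((Λ : ArithmeticFunction ℝ) * Λ) n := by
    intro n
    rw [← selberg_identity, ArithmeticFunction.add_apply]
    ring
  have hDk : ∀ k, D k = (S (4 * X) k - S X k) - (H (4 * X) k - H X k) := by
    intro k
    have e1 : S (4 * X) k - S X k = ∑ n ∈ Ioc X (4 * X), (muR * L2) n * wk k c n := by
      rw [hS]
      simp only
      rw [← Finset.sum_Ioc_consecutive (fun n => (muR * L2) n * wk k c n) (Nat.zero_le X)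
        (by omega : X ≤ 4 * X)]
      ring
    have e2 : H (4 * X) k - H X k =
        ∑ n ∈ Ioc X (4 * X), ((Λ : ArithmeticFunction ℝ) * Λ) n * wk k c n := by
      rw [hH]
      simp only
      rw [← Finset.sum_Ioc_consecutive (fun n => ((Λ : ArithmeticFunction ℝ) * Λ) n * wk k c n)
        (Nat.zero_le X) (by omega : X ≤ 4 * X)]
      ring
    rw [e1, e2, ← Finset.sum_sub_distrib, hD]
    apply Finset.sum_congr rfl
    intro n _
    rw [hid n]
    ring
  have hDabs : ∀ k, |D k| ≤ |S (4 * X) k| + |S X k| + |H (4 * X) k| + |H X k| := by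
    intro k
    rw [hDk k]
    have e1 := abs_sub (S (4 * X) k - S X k) (H (4 * X) k - H X k)
    have e2 := abs_sub (S (4 * X) k) (S X k)
    have e3 := abs_sub (H (4 * X) k) (H X k)
    linarith
  -- lower bound for each modulus
  have hk1 : ∀ k ∈ K, X / A * (Real.log X / 4) - |D k| ≤
      l ^ 2 * (prC X c k).card + 4 * Real.sqrt X * l ^ 2 := by
    intro k hk
    have hk0 := hF.pos k hk
    have hφ : (0 : ℝ) < k.totient := by exact_mod_cast Nat.totient_pos.2 hk0
    have h1 := class_le k c hX1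
    have h2 := mean_ge (k := k) (X := X) ((hF.le k hk).trans h4A) hk0 hX1 h80
    have h3 : D k = ∑ n ∈ Ioc X (4 * X), (if (n : ZMod k) = (c : ZMod k) then LL n else 0) -
        (∑ n ∈ Ioc X (4 * X), (if Nat.Coprime n k then LL n else 0)) / k.totient := by
      rw [hD]
      simp only
      rw [Finset.sum_div, ← Finset.sum_sub_distrib]
      apply Finset.sum_congr rfl
      intro n _
      rw [wk]
      split_ifs <;> ring
    have h4 : X / A * (Real.log X / 4) ≤
        (∑ n ∈ Ioc X (4 * X), (if Nat.Coprime n k then LL n else 0)) / k.totient := by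
      rw [le_div_iff₀ hφ]
      refine le_trans ?_ h2
      have h5 : (k.totient : ℝ) ≤ 4 * A := by
        have := (Nat.totient_le k).trans (hF.le k hk)
        exact_mod_cast this
      have h6 : 0 ≤ Real.log X := Real.log_nonneg hXr
      calc X / A * (Real.log X / 4) * k.totient ≤ X / A * (Real.log X / 4) * (4 * A) := by
            gcongr
        _ = X * Real.log X := by field_simp
    have h5 := neg_abs_le (D k)
    linarith
  have hsum := Finset.sum_le_sum hk1
  rw [Finset.sum_sub_distrib, Finset.sum_add_distrib, Finset.sum_const, Finset.sum_const,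
    nsmul_eq_mul, nsmul_eq_mul, ← Finset.mul_sum] at hsum
  -- the total error
  have hS1 : ∀ x : ℕ, A ^ 5 ≤ x → ∑ k ∈ K, |S x k| ≤ K.card * (x / A * Q) := by
    intro x hx
    rw [← nsmul_eq_mul, ← Finset.sum_const]
    apply Finset.sum_le_sum
    intro k hk
    exact selberg_part hF hk hx
  have hsA := hS1 (4 * X) (by omega)
  have hsB := hS1 X (by omega)
  have hhA := lamlam_le hF (x := 4 * X) (by omega)
  have hhB := lamlam_le hF (x := X) hX
  have hlX : Real.log X ≤ l := by
    apply Real.log_le_log hX0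
    push_cast
    linarith
  have hDsum : ∑ k ∈ K, |D k| ≤ X / A * (K.card * (5 * Q) + (K.card * (5 * (336 * P)) +
      5 * (13456 * R * (1 + l)) + K.card * (5 * (672 * (l + 6) / A)))) := by
    have e1 : ∑ k ∈ K, |D k| ≤ ∑ k ∈ K, |S (4 * X) k| + ∑ k ∈ K, |S X k| +
        ∑ k ∈ K, |H (4 * X) k| + ∑ k ∈ K, |H X k| := by
      rw [← Finset.sum_add_distrib, ← Finset.sum_add_distrib, ← Finset.sum_add_distrib]
      exact Finset.sum_le_sum fun k _ => hDabs k
    have e2 : (X : ℝ) / A * (K.card * (336 * P) + 13456 * R * (1 + Real.log X) +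
        K.card * (672 * (Real.log X + 6) / A)) ≤
        X / A * (K.card * (336 * P) + 13456 * R * (1 + l) + K.card * (672 * (l + 6) / A)) := by
      gcongr
    have e3 : (((4 * X : ℕ)) : ℝ) = 4 * X := by push_cast; ring
    have e4 : (K.card : ℝ) * (((4 * X : ℕ) : ℝ) / A * Q) = 4 * (K.card * (X / A * Q)) := by
      rw [e3]
      ring
    have e5 : ((4 * X : ℕ) : ℝ) / A * (K.card * (336 * P) + 13456 * R * (1 + l) +
        K.card * (672 * (l + 6) / A)) = 4 * (X / A * (K.card * (336 * P) +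
        13456 * R * (1 + l) + K.card * (672 * (l + 6) / A))) := by
      rw [e3]
      ring
    rw [e4] at hsA
    rw [← hl, ← hP, e5] at hhA
    rw [← hP] at hhB
    have e6 : X / A * (K.card * (5 * Q) + (K.card * (5 * (336 * P)) +
      5 * (13456 * R * (1 + l)) + K.card * (5 * (672 * (l + 6) / A)))) =
      5 * (K.card * (X / A * Q)) + 5 * (X / A * (K.card * (336 * P) +
        13456 * R * (1 + l) + K.card * (672 * (l + 6) / A))) := by ring
    rw [e6]
    linarith
  -- conclusion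
  have hsX : 0 < Real.sqrt X := Real.sqrt_pos.2 hX0
  have hss : Real.sqrt X * Real.sqrt X = X := Real.mul_self_sqrt hX0.le
  have hcard0 : (0 : ℝ) ≤ K.card := Nat.cast_nonneg _
  have hXA0 : (0 : ℝ) ≤ X / A := by positivity
  have e1 : (K.card : ℝ) * (4 * Real.sqrt X * l ^ 2) =
      X / A * (K.card * (4 * A * l ^ 2 / Real.sqrt X)) := by
    have e2 : (X : ℝ) / Real.sqrt X = Real.sqrt X := by
      rw [div_eq_iff hsX.ne', hss]
    calc (K.card : ℝ) * (4 * Real.sqrt X * l ^ 2) = K.card * (4 * (X / Real.sqrt X) * l ^ 2) := by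
          rw [e2]
      _ = _ := by field_simp
  have e2 : X / A * (K.card * (5 * Q) + (K.card * (5 * (336 * P)) +
      5 * (13456 * R * (1 + l)) + K.card * (5 * (672 * (l + 6) / A)))) +
      X / A * (K.card * (4 * A * l ^ 2 / Real.sqrt X)) ≤
      X / A * (K.card * (Real.log X / 8)) := by
    rw [← mul_add]
    apply mul_le_mul_of_nonneg_left _ hXA0
    have e3 := mul_le_mul_of_nonneg_left hC1 hcard0
    have e4 : (K.card : ℝ) * (5 * Q) + (K.card * (5 * (336 * P)) +
      5 * (13456 * R * (1 + l)) + K.card * (5 * (672 * (l + 6) / A))) +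
      K.card * (4 * A * l ^ 2 / Real.sqrt X) =
      K.card * (5 * Q + 5 * (336 * P) + 5 * (672 * (l + 6) / A) + 4 * A * l ^ 2 / Real.sqrt X) +
      5 * (13456 * R * (1 + l)) := by ring
    rw [e4]
    linarith
  have e3 : (K.card : ℝ) * (X / A * (Real.log X / 4)) =
      K.card * (X / A) * (Real.log X / 8) + X / A * (K.card * (Real.log X / 8)) := by ring
  rw [e1] at hsum
  linarith

end

end Pool.Agent.Lib_helper72.AS
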