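import Mathlib
import Pool.Agent.Lib_helper72.AP.SecondMoment

set_option autoImplicit false

/-!
The sieve for a pair of linear forms `k n + c`, `k' n + c` with `k`, `k'` prime to `c` but not
necessarily to each other.
-/

namespace Pool.Agent.Lib_helper72.AS

open Finset Pool.Agent.Lib_helper72.AP

noncomputable section

lemma dvd_mul_iff_div_gcd {d : ℕ} (hd : 0 < d) (G : ℕ) (x : ℤ) :
    (d : ℤ) ∣ x * (G : ℤ) ↔ ((d / Nat.gcd d G : ℕ) : ℤ) ∣ x := by
  have he : 0 < Nat.gcd d G := Nat.gcd_pos_of_pos_left G hd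
  obtain ⟨d', hd'⟩ := Nat.gcd_dvd_left d G
  obtain ⟨G', hG'⟩ := Nat.gcd_dvd_right d G
  set e := Nat.gcd d G with hedef
  have hcop : Nat.Coprime d' G' := by
    have h1 := Nat.coprime_div_gcd_div_gcd (m := d) (n := G) he
    have h2 : d / Nat.gcd d G = d' := by
      rw [← hedef]
      exact Nat.div_eq_of_eq_mul_right he hd'
    have h3 : G / Nat.gcd d G = G' := by
      rw [← hedef]
      exact Nat.div_eq_of_eq_mul_right he hG'
    rwa [h2, h3] at h1
  have h2 : d / e = d' := Nat.div_eq_of_eq_mul_right he hd'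
  rw [h2, Int.natCast_dvd, Int.natCast_dvd, Int.natAbs_mul, Int.natAbs_natCast]
  conv_lhs => rw [hd', hG']
  rw [show x.natAbs * (e * G') = e * (x.natAbs * G') by ring,
    Nat.mul_dvd_mul_iff_left he]
  exact hcop.dvd_mul_right

/-- The modified form. -/
def fT (k k' : ℕ) (c : ℤ) (g t : ℕ) (n : ℕ) : ℤ :=
  twoF k k' c c n * ((Nat.gcd (n + t) g : ℕ) : ℤ)

lemma fT_cong (k k' : ℕ) (c : ℤ) (g t : ℕ) : Cong (fT k k' c g t) := by
  intro d a b hab
  rcases Nat.eq_zero_or_pos d with rfl | hd
  · have : a = b := by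
      have h := hab
      simp only [Nat.ModEq, Nat.mod_zero] at h
      exact h
    rw [this]
  have h1 : (a : ℤ) ≡ b [ZMOD d] := by exact_mod_cast hab
  have h2 : twoF k k' c c a ≡ twoF k k' c c b [ZMOD d] := by
    unfold twoF
    exact Int.ModEq.mul ((h1.mul_left _).add_right _) ((h1.mul_left _).add_right _)
  have h3 : Nat.gcd d (Nat.gcd (a + t) g) = Nat.gcd d (Nat.gcd (b + t) g) := by
    rw [← Nat.gcd_assoc, ← Nat.gcd_assoc]
    congr 1
    have h4 : a + t ≡ b + t [MOD d] := hab.add_right t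
    rw [Nat.gcd_comm d, Nat.gcd_comm d]
    exact h4.gcd_eq
  unfold fT
  have e1 : (d : ℤ) ∣ twoF k k' c c a * ((Nat.gcd (a + t) g : ℕ) : ℤ) ↔
      (d : ℤ) ∣ twoF k k' c c b * ((Nat.gcd (a + t) g : ℕ) : ℤ) :=
    (h2.mul_right _).dvd_iff
  rw [e1, dvd_mul_iff_div_gcd hd, dvd_mul_iff_div_gcd hd, h3]

section

variable {k k' : ℕ} {c : ℤ} (hk : IsCoprime (k : ℤ) c) (hk' : IsCoprime (k' : ℤ) c)

include hk in
lemma cast_ne_of_dvd {p : ℕ} (hp : p.Prime) (h : p ∣ k) : ((c : ℤ) : ZMod p) ≠ 0 := by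
  intro h0
  rw [ZMod.intCast_zmod_eq_zero_iff_dvd] at h0
  have h1 : (p : ℤ) ∣ (k : ℤ) := by exact_mod_cast h
  have h2 := hk.isUnit_of_dvd' h1 h0
  have h3 : IsUnit p := Int.ofNat_isUnit.1 h2
  exact hp.one_lt.ne' (Nat.isUnit_iff.1 h3)

include hk in
lemma cast_or' {p : ℕ} (hp : p.Prime) : (k : ZMod p) ≠ 0 ∨ ((c : ℤ) : ZMod p) ≠ 0 := by
  by_cases h : p ∣ k
  · exact Or.inr (cast_ne_of_dvd hk hp h)
  · left
    intro h0
    exact h ((ZMod.natCast_eq_zero_iff k p).1 h0)

lemma exists_root {p : ℕ} [Fact p.Prime] {u w : ZMod p} (hu : u ≠ 0) : u * (-w / u) + w = 0 := by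
  field_simp
  ring

include hk hk' in
/-- Local densities of `(k n + c) (k' n + c)`. -/
lemma rhoF_two {p : ℕ} (hp : p.Prime) (h : ¬ (p ∣ k ∧ p ∣ k')) :
    1 ≤ rhoF (twoF k k' c c) p ∧ rhoF (twoF k k' c c) p < p := by
  classical
  have : Fact p.Prime := ⟨hp⟩
  have : NeZero p := ⟨hp.ne_zero⟩
  rw [rhoF_eq_card hp (twoF k k' c c)
    (fun x => ((k : ZMod p) * x + (c : ZMod p)) * ((k' : ZMod p) * x + (c : ZMod p)))
    (fun n => twoF_cast n)]
  constructor
  · apply Finset.card_pos.2
    by_cases h1 : p ∣ k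
    · have h2 : ¬ p ∣ k' := fun h2 => h ⟨h1, h2⟩
      have h3 : (k' : ZMod p) ≠ 0 := fun h0 => h2 ((ZMod.natCast_eq_zero_iff k' p).1 h0)
      refine ⟨-(c : ZMod p) / k', ?_⟩
      rw [mem_filter]
      refine ⟨mem_univ _, ?_⟩
      rw [exists_root h3, mul_zero]
    · have h3 : (k : ZMod p) ≠ 0 := fun h0 => h1 ((ZMod.natCast_eq_zero_iff k p).1 h0)
      refine ⟨-(c : ZMod p) / k, ?_⟩
      rw [mem_filter]
      refine ⟨mem_univ _, ?_⟩
      rw [exists_root h3, zero_mul]
  · have hu : (k : ZMod p) ≠ 0 ∨ ((c : ℤ) : ZMod p) ≠ 0 := cast_or' hk hp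
    have hu' : (k' : ZMod p) ≠ 0 ∨ ((c : ℤ) : ZMod p) ≠ 0 := cast_or' hk' hp
    have hsub : (univ : Finset (ZMod p)).filter (fun x => ((k : ZMod p) * x + (c : ZMod p)) *
        ((k' : ZMod p) * x + (c : ZMod p)) = 0) ⊆
        (univ : Finset (ZMod p)).filter (fun x => (k : ZMod p) * x + (c : ZMod p) = 0) ∪
        (univ : Finset (ZMod p)).filter (fun x => (k' : ZMod p) * x + (c : ZMod p) = 0) := by
      intro x hx
      rw [mem_filter] at hx
      rw [mem_union, mem_filter, mem_filter]
      rcases mul_eq_zero.1 hx.2 with h | h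
      · exact Or.inl ⟨mem_univ _, h⟩
      · exact Or.inr ⟨mem_univ _, h⟩
    have h1 := Finset.card_le_card hsub
    have h2 := Finset.card_union_le
      ((univ : Finset (ZMod p)).filter (fun x => (k : ZMod p) * x + (c : ZMod p) = 0))
      ((univ : Finset (ZMod p)).filter (fun x => (k' : ZMod p) * x + (c : ZMod p) = 0))
    have h3 := card_root_le hu
    have h4 := card_root_le hu'
    by_cases hp2 : p = 2
    · subst hp2
      by_cases e1 : (k : ZMod 2) = 0
      · -- no root of the first form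
        have hc0 : ((c : ℤ) : ZMod 2) ≠ 0 := hu.resolve_left (fun h => h e1)
        have e3 : (univ : Finset (ZMod 2)).filter
            (fun x => (k : ZMod 2) * x + (c : ZMod 2) = 0) = ∅ := by
          rw [Finset.filter_eq_empty_iff]
          intro x _ hx
          rw [e1, zero_mul, zero_add] at hx
          exact hc0 hx
        rw [e3] at h1 h2
        rw [Finset.card_empty] at h2
        omega
      · by_cases e2 : (k' : ZMod 2) = 0
        · have hc0 : ((c : ℤ) : ZMod 2) ≠ 0 := hu'.resolve_left (fun h => h e2)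
          have e3 : (univ : Finset (ZMod 2)).filter
              (fun x => (k' : ZMod 2) * x + (c : ZMod 2) = 0) = ∅ := by
            rw [Finset.filter_eq_empty_iff]
            intro x _ hx
            rw [e2, zero_mul, zero_add] at hx
            exact hc0 hx
          rw [e3] at h1 h2
          rw [Finset.card_empty] at h2
          omega
        · have e3 : (k : ZMod 2) = 1 := zmod2_eq_one _ e1
          have e4 : (k' : ZMod 2) = 1 := zmod2_eq_one _ e2
          rw [e3, e4, Finset.union_self] at hsub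
          rw [e3] at h3
          have h5 := Finset.card_le_card hsub
          rw [e3, e4]
          omega
    · have hp3 : 3 ≤ p := by
        have := hp.two_le
        omega
      omega

/-- Two distinct roots. -/
lemma rhoF_two_ge {p : ℕ} (hp : p.Prime) (h1 : ¬ p ∣ k) (h2 : ¬ p ∣ k')
    (h3 : ¬ (p : ℤ) ∣ c) (h4 : ¬ (p : ℤ) ∣ (k : ℤ) - k') : 2 ≤ rhoF (twoF k k' c c) p := by
  apply twoF_two_le p hp
  intro h
  have hpp : Prime (p : ℤ) := Nat.prime_iff_prime_int.1 hp
  have e : (k : ℤ) * k' * (k * c - k' * c) = k * k' * (c * (k - k')) := by ring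
  rw [e] at h
  rcases hpp.dvd_or_dvd h with h5 | h5
  · rcases hpp.dvd_or_dvd h5 with h6 | h6
    · exact h1 (by exact_mod_cast h6)
    · exact h2 (by exact_mod_cast h6)
  · rcases hpp.dvd_or_dvd h5 with h6 | h6
    · exact h3 h6
    · exact h4 h6

end

lemma rhoF_fT_of_not_dvd {k k' : ℕ} {c : ℤ} {g t p : ℕ} (hp : p.Prime) (h : ¬ p ∣ g) :
    rhoF (fT k k' c g t) p = rhoF (twoF k k' c c) p := by
  rw [rhoF, rhoF]
  congr 1
  apply Finset.filter_congr
  intro n _
  unfold fT
  have hpp : Prime (p : ℤ) := Nat.prime_iff_prime_int.1 hp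
  constructor
  · intro h1
    rcases hpp.dvd_or_dvd h1 with h2 | h2
    · exact h2
    · exfalso
      apply h
      have h3 : p ∣ Nat.gcd (n + t) g := by exact_mod_cast h2
      exact h3.trans (Nat.gcd_dvd_right _ _)
  · intro h1
    exact h1.mul_right _

lemma rhoF_fT_of_dvd {k k' : ℕ} {c : ℤ} (hk : IsCoprime (k : ℤ) c) {g t p : ℕ} (hp : p.Prime)
    (h : p ∣ g) (hgk : g ∣ k) (hgk' : g ∣ k') : rhoF (fT k k' c g t) p = 1 := by
  have : NeZero p := ⟨hp.ne_zero⟩
  have hc := cast_ne_of_dvd hk hp (h.trans hgk)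
  have hpp : Prime (p : ℤ) := Nat.prime_iff_prime_int.1 hp
  have hiff : ∀ n, (p : ℤ) ∣ fT k k' c g t n ↔ p ∣ n + t := by
    intro n
    unfold fT
    constructor
    · intro h1
      rcases hpp.dvd_or_dvd h1 with h2 | h2
      · exfalso
        rw [← ZMod.intCast_zmod_eq_zero_iff_dvd, twoF_cast] at h2
        have e1 : (k : ZMod p) = 0 := (ZMod.natCast_eq_zero_iff k p).2 (h.trans hgk)
        have e2 : (k' : ZMod p) = 0 := (ZMod.natCast_eq_zero_iff k' p).2 (h.trans hgk')
        have : Fact p.Prime := ⟨hp⟩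
        rw [e1, e2, zero_mul, zero_add] at h2
        exact mul_ne_zero hc hc h2
      · have h3 : p ∣ Nat.gcd (n + t) g := by exact_mod_cast h2
        exact h3.trans (Nat.gcd_dvd_left _ _)
    · intro h1
      have h3 : p ∣ Nat.gcd (n + t) g := Nat.dvd_gcd h1 h
      have h4 : (p : ℤ) ∣ ((Nat.gcd (n + t) g : ℕ) : ℤ) := by exact_mod_cast h3
      exact h4.mul_left _
  rw [rhoF, Finset.card_eq_one]
  refine ⟨(-(t : ZMod p)).val, ?_⟩
  ext n
  rw [mem_filter, mem_range, mem_singleton, hiff]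
  constructor
  · rintro ⟨h1, h2⟩
    have h3 : ((n + t : ℕ) : ZMod p) = 0 := (ZMod.natCast_eq_zero_iff _ p).2 h2
    push_cast at h3
    have h4 : (n : ZMod p) = -(t : ZMod p) := eq_neg_of_add_eq_zero_left h3
    rw [← h4]
    exact (ZMod.val_cast_of_lt h1).symm
  · rintro rfl
    refine ⟨ZMod.val_lt _, ?_⟩
    rw [← ZMod.natCast_eq_zero_iff]
    push_cast
    rw [ZMod.natCast_zmod_val, neg_add_cancel]

/-- The number of `n` in an interval for which both `k n + c` and `k' n + c` have no small prime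
factor. -/
theorem pair_count_le {k k' : ℕ} {c : ℤ} (hk0 : 0 < k) (hk0' : 0 < k') (hc0 : c ≠ 0)
    (hk : IsCoprime (k : ℤ) c) (hk' : IsCoprime (k' : ℤ) c) (hne : k ≠ k')
    (M H y : ℕ) (hy : 1 ≤ y) :
    (Nat.gcd k k').totient * (((Ico M (M + H)).filter
      (fun n => Nat.Coprime (primorial (y * y)) (twoF k k' c c n).natAbs)).card : ℝ) ≤
      (Nat.gcd k k') * (H * cfac (2 * k * k' * c.natAbs * ((k : ℤ) - k').natAbs) /
        (∑ u ∈ Icc 1 y, (1 : ℝ) / u) ^ 2 + (y : ℝ) ^ 12) := by
  classical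
  set g := Nat.gcd k k' with hg
  have hg0 : 0 < g := Nat.gcd_pos_of_pos_left _ hk0
  set B : ℕ := 2 * k * k' * c.natAbs * ((k : ℤ) - k').natAbs with hB
  have hB0 : B ≠ 0 := by
    rw [hB]
    have h1 : c.natAbs ≠ 0 := Int.natAbs_ne_zero.2 hc0
    have h2 : ((k : ℤ) - k').natAbs ≠ 0 := by omega
    positivity
  have hbound : ∀ t, (((Ico M (M + H)).filter
      (fun n => Nat.Coprime (primorial (y * y)) (fT k k' c g t n).natAbs)).card : ℝ) ≤
      H * cfac B / (∑ u ∈ Icc 1 y, (1 : ℝ) / u) ^ 2 + (y : ℝ) ^ 12 := by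
    intro t
    apply form_count_le (fT k k' c g t) (fT_cong k k' c g t) M H _ _ hB0 _ _ y hy
    · intro p hp
      by_cases h : p ∣ g
      · rw [rhoF_fT_of_dvd hk hp h (Nat.gcd_dvd_left _ _) (Nat.gcd_dvd_right _ _)]
      · rw [rhoF_fT_of_not_dvd hp h]
        exact (rhoF_two hk hk' hp (fun h1 => h (Nat.dvd_gcd h1.1 h1.2))).1
    · intro p hp
      by_cases h : p ∣ g
      · rw [rhoF_fT_of_dvd hk hp h (Nat.gcd_dvd_left _ _) (Nat.gcd_dvd_right _ _)]
        exact hp.one_lt
      · rw [rhoF_fT_of_not_dvd hp h]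
        exact (rhoF_two hk hk' hp (fun h1 => h (Nat.dvd_gcd h1.1 h1.2))).2
    · rw [hB]
      refine ⟨k * k' * c.natAbs * ((k : ℤ) - k').natAbs, ?_⟩
      ring
    · intro p hp hpB
      have hk1 : ¬ p ∣ k := fun h => hpB (by
        rw [hB]
        exact (((h.mul_left 2).mul_right k').mul_right _).mul_right _)
      have hk2 : ¬ p ∣ k' := fun h => hpB (by
        rw [hB]
        exact (((h.mul_left (2 * k))).mul_right _).mul_right _)
      have hc1 : ¬ (p : ℤ) ∣ c := fun h => hpB (by
        rw [hB]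
        exact ((Int.natCast_dvd.1 h).mul_left _).mul_right _)
      have hd1 : ¬ (p : ℤ) ∣ (k : ℤ) - k' := fun h => hpB (by
        rw [hB]
        exact (Int.natCast_dvd.1 h).mul_left _)
      have hpg : ¬ p ∣ g := fun h => hk1 (h.trans (Nat.gcd_dvd_left _ _))
      rw [rhoF_fT_of_not_dvd hp hpg]
      exact rhoF_two_ge hp hk1 hk2 hc1 hd1
  -- averaging over t
  have havg : g.totient * ((Ico M (M + H)).filter
      (fun n => Nat.Coprime (primorial (y * y)) (twoF k k' c c n).natAbs)).card ≤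
      ∑ t ∈ range g, ((Ico M (M + H)).filter
      (fun n => Nat.Coprime (primorial (y * y)) (fT k k' c g t n).natAbs)).card := by
    have h1 : ∀ n, ((range g).filter (fun t => Nat.Coprime (n + t) g)).card = g.totient := by
      intro n
      rw [← Nat.filter_coprime_Ico_eq_totient g n]
      apply Finset.card_bij (fun t _ => n + t)
      · intro t ht
        rw [mem_filter, mem_range] at ht
        rw [mem_filter, mem_Ico]
        exact ⟨⟨by omega, by omega⟩, ht.2.symm⟩
      · intro a _ b _ hab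
        exact Nat.add_left_cancel hab
      · intro m hm
        rw [mem_filter, mem_Ico] at hm
        refine ⟨m - n, ?_, by omega⟩
        rw [mem_filter, mem_range]
        refine ⟨by omega, ?_⟩
        have : n + (m - n) = m := by omega
        rw [this]
        exact hm.2.symm
    calc g.totient * ((Ico M (M + H)).filter
          (fun n => Nat.Coprime (primorial (y * y)) (twoF k k' c c n).natAbs)).card
        = ∑ n ∈ (Ico M (M + H)).filter
          (fun n => Nat.Coprime (primorial (y * y)) (twoF k k' c c n).natAbs),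
            ((range g).filter (fun t => Nat.Coprime (n + t) g)).card := by
          rw [Finset.sum_congr rfl (fun n _ => h1 n), Finset.sum_const, smul_eq_mul, mul_comm]
      _ = ∑ n ∈ (Ico M (M + H)).filter
          (fun n => Nat.Coprime (primorial (y * y)) (twoF k k' c c n).natAbs),
            ∑ t ∈ range g, (if Nat.Coprime (n + t) g then 1 else 0) := by
          apply Finset.sum_congr rfl
          intro n _
          rw [Finset.card_filter]
      _ = ∑ t ∈ range g, ∑ n ∈ (Ico M (M + H)).filter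
          (fun n => Nat.Coprime (primorial (y * y)) (twoF k k' c c n).natAbs),
            (if Nat.Coprime (n + t) g then 1 else 0) := Finset.sum_comm
      _ ≤ _ := by
          apply Finset.sum_le_sum
          intro t _
          rw [← Finset.card_filter, Finset.filter_filter]
          apply Finset.card_le_card
          intro n hn
          rw [mem_filter] at hn ⊢
          refine ⟨hn.1, ?_⟩
          unfold fT
          have : Nat.gcd (n + t) g = 1 := hn.2.2
          rw [this]
          simpa using hn.2.1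
  have h1 : ((g.totient * ((Ico M (M + H)).filter
      (fun n => Nat.Coprime (primorial (y * y)) (twoF k k' c c n).natAbs)).card : ℕ) : ℝ) ≤
      ((∑ t ∈ range g, ((Ico M (M + H)).filter
      (fun n => Nat.Coprime (primorial (y * y)) (fT k k' c g t n).natAbs)).card : ℕ) : ℝ) := by
    exact_mod_cast havg
  push_cast at h1
  refine h1.trans ?_
  refine (Finset.sum_le_sum (fun t _ => hbound t)).trans (le_of_eq ?_)
  rw [Finset.sum_const, card_range, nsmul_eq_mul]

end

end Pool.Agent.Lib_helper72.AS
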