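import Mathlib
import Pool.Agent.Lib_helper72.AS.First
import Pool.Agent.Lib_helper72.AS.PairSieve

set_option autoImplicit false

/-!
Second moment and Cauchy–Schwarz for a family of moduli of size about `log x`.
-/

namespace Pool.Agent.Lib_helper72.AS

open Finset ArithmeticFunction BoundingSieve Pool.Agent.Lib_helper72.AP

noncomputable section

lemma totient_mul_le_mul {g m : ℕ} : (g * m).totient ≤ m * g.totient := by
  classical
  have h1 : ((range (g * m)).filter (fun n => Nat.Coprime g n)).card = m * g.totient := by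
    induction m with
    | zero => simp
    | succ m ih =>
      have e1 : range (g * (m + 1)) = Ico 0 (g * m) ∪ Ico (g * m) (g * m + g) := by
        rw [Finset.Ico_union_Ico_eq_Ico (Nat.zero_le _) (Nat.le_add_right _ _),
          Finset.range_eq_Ico]
        congr 1
      rw [e1, filter_union, card_union_of_disjoint, ← Finset.range_eq_Ico, ih,
        Nat.filter_coprime_Ico_eq_totient]
      · ring
      · apply Finset.disjoint_filter_filter
        exact Finset.Ico_disjoint_Ico_consecutive _ _ _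
  rw [← h1, Nat.totient]
  apply Finset.card_le_card
  intro n hn
  rw [mem_filter] at hn ⊢
  exact ⟨hn.1, Nat.Coprime.coprime_dvd_left (dvd_mul_right g m) hn.2⟩

lemma totient_ratio {g k : ℕ} (hk : 0 < k) (h : g ∣ k) :
    (k.totient : ℝ) * g ≤ k * g.totient := by
  obtain ⟨m, rfl⟩ := h
  have hg : 0 < g := Nat.pos_of_mul_pos_right hk
  have h1 := totient_mul_le_mul (g := g) (m := m)
  have h2 : (g * m).totient * g ≤ g * m * g.totient := by
    calc (g * m).totient * g ≤ m * g.totient * g := Nat.mul_le_mul_right g h1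
      _ = g * m * g.totient := by ring
  exact_mod_cast h2

variable {A : ℕ} {K : Finset ℕ} {R : ℕ} {c : ℤ}

lemma isCoprime_of_unit {k : ℕ} {c : ℤ} (h : IsUnit (c : ZMod k)) : IsCoprime (k : ℤ) c := by
  have h1 : IsUnit ((c : ℤ) : ZMod k) := h
  rw [ZMod.coe_int_isUnit_iff_isCoprime] at h1
  exact h1

open Classical in
/-- The correlation of two forms. -/
lemma pair_good_le' {X N : ℕ} {c : ℤ} {k k' : ℕ} (hN : 2 ≤ N) (hNX : N ≤ X) (hk0 : 0 < k)
    (hk0' : 0 < k') (hc0 : c ≠ 0) (hk : IsCoprime (k : ℤ) c) (hk' : IsCoprime (k' : ℤ) c)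
    (hne : k ≠ k') (hφ : (k : ℝ) ≤ 8 * k.totient) (hcf : cfac k ≤ 4) (hcf' : cfac k' ≤ 4) :
    (((Icc 1 N).filter (fun n => good X (fun _ => c) k n ∧ good X (fun _ => c) k' n)).card : ℝ) ≤
      4056 * N * (cfac c.natAbs * cfac ((k : ℤ) - k').natAbs) / (Real.log N) ^ 2 +
        8 * (N : ℝ) ^ (12 / 13 : ℝ) := by
  obtain ⟨y, hy1, hy2, hy3, hy4⟩ := exists_level N (by omega)
  have hNr : (2 : ℝ) ≤ N := by exact_mod_cast hN
  have hlog : 0 < Real.log N := Real.log_pos (by linarith)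
  have h1 := pair_count_le hk0 hk0' hc0 hk hk' hne 1 N y hy1
  have hsub : (Icc 1 N).filter (fun n => good X (fun _ => c) k n ∧ good X (fun _ => c) k' n) ⊆
      (Ico 1 (1 + N)).filter
      (fun n => Nat.Coprime (primorial (y * y)) (twoF k k' c c n).natAbs) := by
    intro n hn
    rw [mem_filter, mem_Icc] at hn
    obtain ⟨⟨hn1, hn2⟩, ⟨p, hp, hpX, _, hpn⟩, ⟨p', hp', hpX', _, hpn'⟩⟩ := hn
    rw [mem_filter, mem_Ico]
    refine ⟨⟨by omega, by omega⟩, ?_⟩
    have e : (twoF k k' c c n).natAbs = p * p' := by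
      unfold twoF
      simp only at hpn hpn'
      rw [← hpn, ← hpn', Int.natAbs_mul, Int.natAbs_natCast, Int.natAbs_natCast]
    rw [e]
    exact Nat.Coprime.mul_right (coprime_primorial_of_prime hp (by omega))
      (coprime_primorial_of_prime hp' (by omega))
  have h3 : (((Icc 1 N).filter
      (fun n => good X (fun _ => c) k n ∧ good X (fun _ => c) k' n)).card : ℝ) ≤
      (((Ico 1 (1 + N)).filter
      (fun n => Nat.Coprime (primorial (y * y)) (twoF k k' c c n).natAbs)).card : ℝ) := by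
    exact_mod_cast Finset.card_le_card hsub
  set Z : ℝ := (((Ico 1 (1 + N)).filter
      (fun n => Nat.Coprime (primorial (y * y)) (twoF k k' c c n).natAbs)).card : ℝ) with hZ
  set g := Nat.gcd k k' with hg
  have hg0 : 0 < g := Nat.gcd_pos_of_pos_left _ hk0
  have hgφ : (0 : ℝ) < g.totient := by exact_mod_cast Nat.totient_pos.2 hg0
  have hkφ : (0 : ℝ) < k.totient := by exact_mod_cast Nat.totient_pos.2 hk0
  have hg8 : (g : ℝ) ≤ 8 * g.totient := by
    have h4 := totient_ratio hk0 (Nat.gcd_dvd_left k k')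
    rw [← hg] at h4
    have h5 : (k : ℝ) * g.totient ≤ 8 * k.totient * g.totient :=
      mul_le_mul_of_nonneg_right hφ hgφ.le
    have h6 : (k.totient : ℝ) * g ≤ k.totient * (8 * g.totient) := by linarith
    exact le_of_mul_le_mul_left h6 hkφ
  set W : ℝ := N * cfac (2 * k * k' * c.natAbs * ((k : ℤ) - k').natAbs) /
        (∑ u ∈ Icc 1 y, (1 : ℝ) / u) ^ 2 + (y : ℝ) ^ 12 with hW
  have hcB0 := cfac_nonneg (2 * k * k' * c.natAbs * ((k : ℤ) - k').natAbs)
  have hW0 : 0 ≤ W := by positivity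
  have h4 : Z ≤ 8 * W := by
    have h5 : (g.totient : ℝ) * Z ≤ g.totient * (8 * W) := by
      calc (g.totient : ℝ) * Z ≤ g * W := h1
        _ ≤ 8 * g.totient * W := mul_le_mul_of_nonneg_right hg8 hW0
        _ = _ := by ring
    exact le_of_mul_le_mul_left h5 hgφ
  have hc : cfac (2 * k * k' * c.natAbs * ((k : ℤ) - k').natAbs) ≤
      3 * (cfac c.natAbs * cfac ((k : ℤ) - k').natAbs) := by
    have e1 := cfac_mul_le (2 * k * k' * c.natAbs) ((k : ℤ) - k').natAbs
    have e2 := cfac_mul_le (2 * k * k') c.natAbs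
    have e3 := cfac_mul_le (2 * k) k'
    have e4 := cfac_mul_le 2 k
    have e5 := cfac_prime_le Nat.prime_two
    have n1 := cfac_nonneg k
    have n2 := cfac_nonneg k'
    have n3 := cfac_nonneg c.natAbs
    have n4 := cfac_nonneg ((k : ℤ) - k').natAbs
    have e6 : cfac (2 * k) ≤ 6 := by
      calc cfac (2 * k) ≤ cfac 2 * cfac k / 2 := e4
        _ ≤ 3 * 4 / 2 := by gcongr
        _ = 6 := by norm_num
    have e7 : cfac (2 * k * k') ≤ 12 := by
      calc cfac (2 * k * k') ≤ cfac (2 * k) * cfac k' / 2 := e3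
        _ ≤ 6 * 4 / 2 := by gcongr
        _ = 12 := by norm_num
    have e8 : cfac (2 * k * k' * c.natAbs) ≤ 6 * cfac c.natAbs := by
      calc cfac (2 * k * k' * c.natAbs) ≤ cfac (2 * k * k') * cfac c.natAbs / 2 := e2
        _ ≤ 12 * cfac c.natAbs / 2 := by gcongr
        _ = _ := by ring
    calc cfac (2 * k * k' * c.natAbs * ((k : ℤ) - k').natAbs) ≤
          cfac (2 * k * k' * c.natAbs) * cfac ((k : ℤ) - k').natAbs / 2 := e1
      _ ≤ 6 * cfac c.natAbs * cfac ((k : ℤ) - k').natAbs / 2 := by gcongr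
      _ = _ := by ring
  have h5 : W ≤ 507 * N * (cfac c.natAbs * cfac ((k : ℤ) - k').natAbs) / (Real.log N) ^ 2 +
      (N : ℝ) ^ (12 / 13 : ℝ) := by
    rw [hW]
    apply add_le_add _ hy3
    have h6 : 0 < Real.log N / 13 := by positivity
    calc (N : ℝ) * cfac (2 * k * k' * c.natAbs * ((k : ℤ) - k').natAbs) /
          (∑ u ∈ Icc 1 y, (1 : ℝ) / u) ^ 2 ≤
          N * cfac (2 * k * k' * c.natAbs * ((k : ℤ) - k').natAbs) / (Real.log N / 13) ^ 2 := by
          gcongr
      _ ≤ N * (3 * (cfac c.natAbs * cfac ((k : ℤ) - k').natAbs)) / (Real.log N / 13) ^ 2 := by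
          gcongr
      _ = _ := by
          field_simp
          ring
  calc _ ≤ Z := h3
    _ ≤ 8 * W := h4
    _ ≤ 8 * (507 * N * (cfac c.natAbs * cfac ((k : ℤ) - k').natAbs) / (Real.log N) ^ 2 +
      (N : ℝ) ^ (12 / 13 : ℝ)) := by gcongr
    _ = _ := by ring

open Classical in
/-- The number of primes in a class. -/
lemma prC_card_le (hF : Fam A K R c) {k : ℕ} (hk : k ∈ K) {X : ℕ} (hX : A ^ 9 ≤ X) :
    ((prC X c k).card : ℝ) ≤ 241 * (X / A) / Real.log ((4 * X : ℕ) : ℝ) := by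
  have hA := hF.hA
  have hAn : 0 < A := by omega
  have hA0 : (0 : ℝ) < A := by exact_mod_cast hAn
  have hk0 := hF.pos k hk
  have hφ : (0 : ℝ) < k.totient := by exact_mod_cast Nat.totient_pos.2 hk0
  have hX1 : 1 ≤ X := by
    have : A ≤ A ^ 9 := Nat.le_self_pow (by norm_num) A
    omega
  have hXr : (1 : ℝ) ≤ X := by exact_mod_cast hX1
  have hiv : IvOK A (X + 1) (3 * X) := by
    apply ivOK_of_le hA (by omega)
    have : 3 * X ≤ A * (3 * X) := Nat.le_mul_of_pos_left _ hAn
    have e : 4 * A * (3 * X) = 4 * (A * (3 * X)) := by ring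
    omega
  obtain ⟨z, hz, hz16, hAz, hzN, hN1, hlogS, hlogz, herr⟩ := hiv.level hA
  have hz1 : 1 ≤ z := by omega
  have hzr : (1000 : ℝ) ≤ z := by exact_mod_cast hz
  have hS : 0 < selS (s0 z) z := selS_pos hz1
  set l := Real.log ((4 * X : ℕ) : ℝ) with hl
  have hl1 : 1 ≤ l := by
    have h1 : Real.log 4 ≤ l := by
      apply Real.log_le_log (by norm_num)
      push_cast
      linarith
    have h4 : Real.log 4 = 2 * Real.log 2 := by
      rw [show (4 : ℝ) = 2 ^ 2 by norm_num, Real.log_pow]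
      norm_num
    have := Real.log_two_gt_d9
    linarith
  have hl0 : 0 < l := by linarith
  have hll : l ≤ Real.log ((X + 1 + 3 * X : ℕ) : ℝ) := by
    apply Real.log_le_log
    · push_cast
      linarith
    · have : 4 * X ≤ X + 1 + 3 * X := by omega
      exact_mod_cast this
  -- z < X
  have hzX : z < X + 1 := by
    have h1 : z * 1000 ≤ z ^ 16 := by
      calc z * 1000 ≤ z * z := Nat.mul_le_mul_left z hz
        _ = z ^ 2 := by ring
        _ ≤ z ^ 16 := Nat.pow_le_pow_right (by omega) (by norm_num)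
    omega
  -- the residue class
  have hne : NeZero k := ⟨hk0.ne'⟩
  set r := ((c : ZMod k)).val with hr
  have hrk : r < k := ZMod.val_lt _
  have hrc : Nat.Coprime r k := by
    rw [← ZMod.isUnit_iff_coprime, hr, ZMod.natCast_zmod_val]
    exact hF.unit k hk
  have h1 := class_sum_le hz1 hk0 hrk hrc (X + 1) (3 * X)
  have h2 : ((prC X c k).card : ℝ) ≤
      ∑ n ∈ (Ico (X + 1) (X + 1 + 3 * X)).filter (fun n => n % k = r), maj z n := by
    have e1 : ((prC X c k).card : ℝ) = ∑ n ∈ prC X c k, (1 : ℝ) := by simp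
    rw [e1]
    have e2 : ∀ n ∈ prC X c k, (1 : ℝ) ≤ maj z n := by
      intro n hn
      rw [prC, mem_filter, mem_Ioc] at hn
      exact one_le_maj_of_prime hz1 hn.2.1 (by omega)
    refine (Finset.sum_le_sum e2).trans ?_
    apply Finset.sum_le_sum_of_subset_of_nonneg
    · intro n hn
      rw [prC, mem_filter, mem_Ioc] at hn
      rw [mem_filter, mem_Ico]
      refine ⟨⟨by omega, by omega⟩, ?_⟩
      rw [hr, ← hn.2.2, ZMod.val_natCast]
    · intro n _ _
      exact maj_nonneg z n hz1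
  refine h2.trans (h1.trans ?_)
  have h3 : ((3 * X : ℕ) : ℝ) / (k.totient * selS (s0 z) z) ≤ 240 * (X / A) / l := by
    have e1 : (A : ℝ) / 2 * (l / 40) ≤ k.totient * selS (s0 z) z := by
      apply mul_le_mul (hF.tot k hk) _ (by positivity) hφ.le
      rw [div_le_iff₀ (by norm_num)]
      linarith
    calc ((3 * X : ℕ) : ℝ) / (k.totient * selS (s0 z) z) ≤
          ((3 * X : ℕ) : ℝ) / ((A : ℝ) / 2 * (l / 40)) := by
          apply div_le_div_of_nonneg_left (Nat.cast_nonneg _) (by positivity) e1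
      _ = 240 * (X / A) / l := by
          push_cast
          field_simp
          ring
  have h4 : (z : ℝ) ^ 4 ≤ X / A / l := by
    rw [div_div, le_div_iff₀ (by positivity)]
    have e1 : (A : ℝ) ≤ 2 * (z : ℝ) ^ 2 := by exact_mod_cast hAz
    have e2 : l ≤ 40 * z := hll.trans hlogz
    have e3 : (z : ℝ) ^ 16 ≤ 3 * X := by exact_mod_cast hz16
    calc (z : ℝ) ^ 4 * (A * l) ≤ (z : ℝ) ^ 4 * ((2 * (z : ℝ) ^ 2) * (40 * z)) := by gcongr
      _ = 80 * (z : ℝ) ^ 7 := by ring
      _ ≤ (z : ℝ) ^ 9 / 3 * (z : ℝ) ^ 7 := by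
          apply mul_le_mul_of_nonneg_right _ (by positivity)
          have : (1000 : ℝ) ^ 9 ≤ (z : ℝ) ^ 9 := by gcongr
          norm_num at this
          linarith
      _ = (z : ℝ) ^ 16 / 3 := by ring
      _ ≤ X := by linarith
  have e : 241 * ((X : ℝ) / A) / l = 240 * (X / A) / l + X / A / l := by ring
  rw [e]
  linarith

open Classical in
/-- Each form is good at most as often as there are primes in the class. -/
lemma good_card_le {X N : ℕ} {k : ℕ} (hk : 0 < k) :
    ((Icc 1 N).filter (fun n => good X (fun _ => c) k n)).card ≤ (prC X c k).card := by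
  apply Finset.card_le_card_of_injOn (fun (n : ℕ) => ((k : ℤ) * n + c).toNat)
  · intro n hn
    rw [Finset.mem_coe, mem_filter] at hn
    obtain ⟨_, p, hp, hpX, hpX2, hpn⟩ := hn
    simp only at hpn
    rw [Finset.mem_coe, prC, mem_filter, mem_Ioc]
    simp only [← hpn, Int.toNat_natCast]
    refine ⟨⟨hpX, hpX2⟩, hp, ?_⟩
    have : ((p : ℤ) : ZMod k) = (((k : ℤ) * n + c : ℤ) : ZMod k) := by rw [hpn]
    push_cast at this
    rw [this]
    simp
  · intro n hn m hm hnm
    rw [Finset.mem_coe, mem_filter] at hn hm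
    obtain ⟨_, p, hp, hpX, hpX2, hpn⟩ := hn
    obtain ⟨_, q, hq, hqX, hqX2, hqn⟩ := hm
    simp only at hpn hqn hnm
    rw [← hpn, ← hqn, Int.toNat_natCast, Int.toNat_natCast] at hnm
    rw [hnm, hqn] at hpn
    have hk' : (k : ℤ) ≠ 0 := by exact_mod_cast hk.ne'
    have h1 : (k : ℤ) * m = k * n := by linarith
    have h2 := mul_left_cancel₀ hk' h1
    exact_mod_cast h2.symm

open Classical in
lemma second_expand' (X N : ℕ) (b : ℕ → ℤ) (P : Finset ℕ) :
    ∑ n ∈ Icc 1 N, (RR X b P n : ℝ) ^ 2 ≤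
      ∑ k ∈ P, (((Icc 1 N).filter (fun n => good X b k n)).card : ℝ) +
      ∑ q ∈ P.offDiag, (((Icc 1 N).filter (fun n => good X b q.1 n ∧ good X b q.2 n)).card : ℝ) := by
  have h1 : ∀ n, (RR X b P n : ℝ) ^ 2 =
      ∑ q ∈ P ×ˢ P, if good X b q.1 n ∧ good X b q.2 n then (1 : ℝ) else 0 := by
    intro n
    rw [RR, Finset.card_filter, Nat.cast_sum, sq, Finset.sum_mul_sum, ← Finset.sum_product']
    apply Finset.sum_congr rfl
    intro q _
    by_cases h1 : good X b q.1 n <;> by_cases h2 : good X b q.2 n <;> simp [h1, h2]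
  simp only [h1]
  rw [Finset.sum_comm, ← Finset.diag_union_offDiag, Finset.sum_union (Finset.disjoint_diag_offDiag _)]
  apply add_le_add
  · rw [Finset.sum_diag]
    apply le_of_eq
    apply Finset.sum_congr rfl
    intro k _
    rw [← Finset.sum_filter, Finset.sum_const, nsmul_eq_mul, mul_one]
    congr 2
    ext n
    simp
  · apply le_of_eq
    apply Finset.sum_congr rfl
    intro q _
    rw [← Finset.sum_filter, Finset.sum_const, nsmul_eq_mul, mul_one]

lemma alg_one {a n g e f : ℝ} (ha : 0 < a) (hg : 0 < g) :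
    49 * (a * n / g) + (4056 * n * f / g ^ 2 * (e * a ^ 2) + 8 * n / g ^ 2 * a ^ 2 * (e * f)) =
      n * a ^ 2 / g ^ 2 * (4064 * (e * f) + 49 * (g / a)) := by
  field_simp
  ring

lemma alg_two {a n g : ℝ} (hg : 0 < g) :
    (a * n / (192 * g)) ^ 2 = n / 36864 * (n * a ^ 2 / g ^ 2) := by
  field_simp
  ring

/-- Cauchy–Schwarz. -/
theorem assembly2 (hF : Fam A K R c) {X N : ℕ} {E : ℝ} (hc0 : c ≠ 0)
    (hN : 3 ≤ N) (hNX : N ≤ X) (hX9 : A ^ 9 ≤ X) (hK0 : 0 < K.card)
    (hfm : K.card * (X / A) * (Real.log X / 8) ≤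
      Real.log ((4 * X : ℕ) : ℝ) ^ 2 * ∑ k ∈ K, ((prC X c k).card : ℝ))
    (hlow : c ≤ X) (hup : ∀ k ∈ K, (4 * X : ℤ) - c ≤ k * N)
    (hcf : ∀ k ∈ K, cfac k ≤ 4) (hE1 : 1 ≤ E)
    (hE : ∑ q ∈ K.offDiag, cfac ((q.1 : ℤ) - (q.2 : ℤ)).natAbs ≤ E * (K.card : ℝ) ^ 2)
    (hNp : (N : ℝ) ^ (12 / 13 : ℝ) ≤ N / (Real.log N) ^ 2)
    (hlX : Real.log ((4 * X : ℕ) : ℝ) ≤ 2 * Real.log N)
    (hXN : (N : ℝ) * A ≤ 6 * X) (hXN2 : 5 * (X : ℝ) ≤ N * A) :
    (N : ℝ) ≤ 149815296 * (E * cfac c.natAbs + Real.log N / K.card) *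
      (goodSet X (fun _ => c) K N).card := by
  classical
  have hA := hF.hA
  have hAn : 0 < A := by omega
  have hA0 : (0 : ℝ) < A := by exact_mod_cast hAn
  have hNr : (3 : ℝ) ≤ N := by exact_mod_cast hN
  have hN0 : (0 : ℝ) < N := by linarith
  have hXr : (3 : ℝ) ≤ X := by exact_mod_cast hN.trans hNX
  have hX0 : (0 : ℝ) < X := by linarith
  have hNXr : (N : ℝ) ≤ X := by exact_mod_cast hNX
  have hlogN : 0 < Real.log N := Real.log_pos (by linarith)
  have hlogNX : Real.log N ≤ Real.log X := Real.log_le_log hN0 hNXr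
  have hK0r : (0 : ℝ) < K.card := by exact_mod_cast hK0
  set l := Real.log ((4 * X : ℕ) : ℝ) with hl
  have hlogXl : Real.log X ≤ l := by
    apply Real.log_le_log hX0
    push_cast
    linarith
  have hl0 : 0 < l := by linarith
  have hcn : c.natAbs ≠ 0 := Int.natAbs_ne_zero.2 hc0
  have hcf2 := cfac_ge_two hcn
  -- first moment
  set P1 : ℝ := ∑ k ∈ K, ((prC X c k).card : ℝ) with hP1
  have hs3 := first_le (X := X) (N := N) (b := fun _ => c) (c := c) (P := K)
    (fun k hk => hF.pos k hk) (fun _ _ => rfl) (fun _ _ => hlow) hup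
  set S1 : ℝ := ∑ n ∈ Icc 1 N, (RR X (fun _ => c) K n : ℝ) with hS1
  have hS1low : K.card * N / (192 * Real.log N) ≤ S1 := by
    have hS10 : 0 ≤ S1 := Finset.sum_nonneg (fun i _ => Nat.cast_nonneg _)
    have e1 : (N : ℝ) / 6 ≤ X / A := by
      rw [div_le_div_iff₀ (by norm_num) hA0]
      linarith
    have e2 : K.card * ((N : ℝ) / 6) * (Real.log N / 8) ≤ (2 * Real.log N) ^ 2 * S1 := by
      have f1 : K.card * ((N : ℝ) / 6) ≤ K.card * (X / A) := mul_le_mul_of_nonneg_left e1 hK0r.le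
      have f2 : K.card * ((N : ℝ) / 6) * (Real.log N / 8) ≤
          K.card * (X / A) * (Real.log X / 8) :=
        mul_le_mul f1 (by linarith) (by linarith) (mul_nonneg hK0r.le (div_nonneg hX0.le hA0.le))
      have f3 : l ^ 2 * P1 ≤ (2 * Real.log N) ^ 2 * S1 :=
        mul_le_mul (pow_le_pow_left₀ hl0.le hlX 2) hs3
          (Finset.sum_nonneg (fun i _ => Nat.cast_nonneg _)) (sq_nonneg _)
      exact f2.trans (hfm.trans f3)
    rw [div_le_iff₀ (by positivity)]
    have e3 : K.card * (N : ℝ) * Real.log N ≤ S1 * (192 * Real.log N) * Real.log N := by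
      have e4 : K.card * ((N : ℝ) / 6) * (Real.log N / 8) =
          K.card * (N : ℝ) * Real.log N / 48 := by ring
      rw [e4] at e2
      have e5 : (2 * Real.log N) ^ 2 * S1 = S1 * (192 * Real.log N) * Real.log N / 48 := by ring
      rw [e5] at e2
      linarith
    exact le_of_mul_le_mul_right e3 hlogN
  -- second moment
  set Lg := Real.log N with hLg
  have hS2 : ∑ n ∈ Icc 1 N, (RR X (fun _ => c) K n : ℝ) ^ 2 ≤
      N * (K.card : ℝ) ^ 2 / Lg ^ 2 * (4064 * (E * cfac c.natAbs) + 49 * (Lg / K.card)) := by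
    refine (second_expand' X N (fun _ => c) K).trans ?_
    have e1 : ∑ k ∈ K, (((Icc 1 N).filter (fun n => good X (fun _ => c) k n)).card : ℝ) ≤
        49 * (K.card * N / Lg) := by
      have e2 : ∀ k ∈ K, (((Icc 1 N).filter (fun n => good X (fun _ => c) k n)).card : ℝ) ≤
          49 * (N / Lg) := by
        intro k hk
        have e3 : (((Icc 1 N).filter (fun n => good X (fun _ => c) k n)).card : ℝ) ≤
            ((prC X c k).card : ℝ) := by
          exact_mod_cast good_card_le (c := c) (X := X) (N := N) (hF.pos k hk)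
        refine e3.trans ((prC_card_le hF hk hX9).trans ?_)
        have e4 : (X : ℝ) / A ≤ N / 5 := by
          rw [div_le_div_iff₀ hA0 (by norm_num)]
          linarith
        calc 241 * ((X : ℝ) / A) / l ≤ 241 * (N / 5) / Lg := by
              gcongr
              exact hlogNX.trans hlogXl
          _ ≤ 49 * (N / Lg) := by
              have : (0 : ℝ) ≤ N / Lg := by positivity
              have e5 : 241 * ((N : ℝ) / 5) / Lg = 241 / 5 * (N / Lg) := by ring
              rw [e5]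
              apply mul_le_mul_of_nonneg_right _ this
              norm_num
      refine (Finset.sum_le_sum e2).trans (le_of_eq ?_)
      rw [Finset.sum_const, nsmul_eq_mul]
      ring
    have e2 : ∑ q ∈ K.offDiag, (((Icc 1 N).filter
        (fun n => good X (fun _ => c) q.1 n ∧ good X (fun _ => c) q.2 n)).card : ℝ) ≤
        ∑ q ∈ K.offDiag, (4056 * N * cfac c.natAbs / Lg ^ 2 *
          cfac ((q.1 : ℤ) - (q.2 : ℤ)).natAbs + 8 * (N : ℝ) ^ (12 / 13 : ℝ)) := by
      apply Finset.sum_le_sum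
      intro q hq
      rw [mem_offDiag] at hq
      obtain ⟨hq1, hq2, hq3⟩ := hq
      have hk8 : ∀ k ∈ K, (k : ℝ) ≤ 8 * k.totient := by
        intro k hk
        have h1 := hF.tot k hk
        have h2 : (k : ℝ) ≤ 4 * A := by exact_mod_cast hF.le k hk
        linarith
      refine (pair_good_le' (by omega) hNX (hF.pos _ hq1) (hF.pos _ hq2) hc0
        (isCoprime_of_unit (hF.unit _ hq1)) (isCoprime_of_unit (hF.unit _ hq2)) hq3
        (hk8 _ hq1) (hcf _ hq1) (hcf _ hq2)).trans (le_of_eq ?_)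
      ring
    rw [Finset.sum_add_distrib, ← Finset.mul_sum, Finset.sum_const, nsmul_eq_mul] at e2
    have e3 : 4056 * N * cfac c.natAbs / Lg ^ 2 *
        ∑ q ∈ K.offDiag, cfac ((q.1 : ℤ) - (q.2 : ℤ)).natAbs ≤
        4056 * N * cfac c.natAbs / Lg ^ 2 * (E * (K.card : ℝ) ^ 2) := by gcongr
    have e4 : (K.offDiag.card : ℝ) * (8 * (N : ℝ) ^ (12 / 13 : ℝ)) ≤
        8 * N / Lg ^ 2 * (K.card : ℝ) ^ 2 * (E * cfac c.natAbs) := by
      have e5 : (K.offDiag.card : ℝ) ≤ (K.card : ℝ) ^ 2 := by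
        have e6 : K.offDiag.card ≤ K.card * K.card := by
          rw [Finset.offDiag_card]
          omega
        rw [sq]
        exact_mod_cast e6
      have e7 : 1 ≤ E * cfac c.natAbs := by nlinarith
      calc (K.offDiag.card : ℝ) * (8 * (N : ℝ) ^ (12 / 13 : ℝ)) ≤
            (K.card : ℝ) ^ 2 * (8 * (N / Lg ^ 2)) := by gcongr
        _ = 8 * N / Lg ^ 2 * (K.card : ℝ) ^ 2 * 1 := by ring
        _ ≤ _ := by gcongr
    calc ∑ k ∈ K, (((Icc 1 N).filter (fun n => good X (fun _ => c) k n)).card : ℝ) +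
        ∑ q ∈ K.offDiag, (((Icc 1 N).filter
        (fun n => good X (fun _ => c) q.1 n ∧ good X (fun _ => c) q.2 n)).card : ℝ) ≤
        49 * (K.card * N / Lg) + (4056 * N * cfac c.natAbs / Lg ^ 2 * (E * (K.card : ℝ) ^ 2) +
          8 * N / Lg ^ 2 * (K.card : ℝ) ^ 2 * (E * cfac c.natAbs)) := by linarith
      _ = _ := alg_one hK0r hlogN
  -- Cauchy–Schwarz
  have hCS := cauchy_step X N (fun _ => c) K
  rw [← hS1] at hCS
  set G : ℝ := ((goodSet X (fun _ => c) K N).card : ℝ) with hG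
  have hG0 : 0 ≤ G := Nat.cast_nonneg _
  set U := E * cfac c.natAbs + Lg / K.card with hU
  have hU0 : 0 ≤ U := by positivity
  have h5 : (K.card * N / (192 * Lg)) ^ 2 ≤
      G * (N * (K.card : ℝ) ^ 2 / Lg ^ 2 * (4064 * U)) := by
    calc (K.card * N / (192 * Lg)) ^ 2 ≤ S1 ^ 2 := by
          apply pow_le_pow_left₀ (by positivity) hS1low
      _ ≤ G * ∑ n ∈ Icc 1 N, (RR X (fun _ => c) K n : ℝ) ^ 2 := hCS
      _ ≤ G * (N * (K.card : ℝ) ^ 2 / Lg ^ 2 *
          (4064 * (E * cfac c.natAbs) + 49 * (Lg / K.card))) :=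
          mul_le_mul_of_nonneg_left hS2 hG0
      _ ≤ _ := by
          apply mul_le_mul_of_nonneg_left _ hG0
          apply mul_le_mul_of_nonneg_left _ (by positivity)
          rw [hU]
          have : 0 ≤ Lg / K.card := by positivity
          linarith
  have h6 : (K.card * N / (192 * Lg)) ^ 2 = N / 36864 * (N * (K.card : ℝ) ^ 2 / Lg ^ 2) :=
    alg_two hlogN
  have h7 : G * (N * (K.card : ℝ) ^ 2 / Lg ^ 2 * (4064 * U)) =
      (4064 * U * G) * (N * (K.card : ℝ) ^ 2 / Lg ^ 2) := by ring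
  rw [h6, h7] at h5
  have h8 : (0 : ℝ) < N * (K.card : ℝ) ^ 2 / Lg ^ 2 := by positivity
  have h10 := le_of_mul_le_mul_right h5 h8
  calc (N : ℝ) = 36864 * (N / 36864) := by ring
    _ ≤ 36864 * (4064 * U * G) := by linarith
    _ = 149815296 * U * G := by ring

end

end Pool.Agent.Lib_helper72.AS
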