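import Mathlib
import Pool.Agent.Lib_helper72.AS.Second

set_option autoImplicit false

/-!
Counting integers coprime to a fixed squarefree number in residue classes.
-/

namespace Pool.Agent.Lib_helper72.AS

open Finset Filter Pool.Agent.Lib_helper72.AP

noncomputable section

lemma cntAP {D e : ℕ} (hD : 0 < D) (he : Nat.Coprime e D) (a J : ℕ) : ∀ u : ℕ,
    ((Ico u (u + J)).filter (fun j => Nat.Coprime (a + e * j) D)).card ≤
      D.totient * (J / D + 1) := by
  classical
  induction J using Nat.strong_induction_on with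
  | _ J ih =>
    intro u
    by_cases hJ : J ≤ D
    · have h1 : ((Ico u (u + J)).filter (fun j => Nat.Coprime (a + e * j) D)).card ≤
          D.totient := by
        rw [← card_units_range]
        apply Finset.card_le_card_of_injOn (fun j => (a + e * j) % D)
        · intro j hj
          rw [Finset.mem_coe, mem_filter] at hj
          rw [Finset.mem_coe, mem_filter, mem_range]
          exact ⟨Nat.mod_lt _ hD, (coprime_mod_iff _ _).2 hj.2⟩
        · intro x hx y hy hxy
          rw [Finset.mem_coe, mem_filter, mem_Ico] at hx hy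
          have h1 : a + e * x ≡ a + e * y [MOD D] := hxy
          have h2 : e * x ≡ e * y [MOD D] := Nat.ModEq.add_left_cancel' a h1
          have h3 : x ≡ y [MOD D] := Nat.ModEq.cancel_left_of_coprime he.symm h2
          rcases le_total x y with h | h
          · have h4 : D ∣ y - x := (Nat.modEq_iff_dvd' h).1 h3
            rcases Nat.eq_zero_or_pos (y - x) with h5 | h5
            · omega
            · have := Nat.le_of_dvd h5 h4
              omega
          · have h4 : D ∣ x - y := (Nat.modEq_iff_dvd' h).1 h3.symm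
            rcases Nat.eq_zero_or_pos (x - y) with h5 | h5
            · omega
            · have := Nat.le_of_dvd h5 h4
              omega
      exact h1.trans (Nat.le_mul_of_pos_right _ (Nat.succ_pos _))
    · have h2 := ih (J - D) (by omega) (u + D)
      have h2' := ih D (by omega) u
      have e1 : u + D + (J - D) = u + J := by omega
      rw [e1] at h2
      have h3 : Ico u (u + J) = Ico u (u + D) ∪ Ico (u + D) (u + J) := by
        rw [Finset.Ico_union_Ico_eq_Ico (by omega) (by omega)]
      have h4 : ((Ico u (u + D)).filter (fun j => Nat.Coprime (a + e * j) D)).card ≤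
          D.totient := by
        rw [← card_units_range]
        apply Finset.card_le_card_of_injOn (fun j => (a + e * j) % D)
        · intro j hj
          rw [Finset.mem_coe, mem_filter] at hj
          rw [Finset.mem_coe, mem_filter, mem_range]
          exact ⟨Nat.mod_lt _ hD, (coprime_mod_iff _ _).2 hj.2⟩
        · intro x hx y hy hxy
          rw [Finset.mem_coe, mem_filter, mem_Ico] at hx hy
          have h1 : a + e * x ≡ a + e * y [MOD D] := hxy
          have h2 : e * x ≡ e * y [MOD D] := Nat.ModEq.add_left_cancel' a h1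
          have h3 : x ≡ y [MOD D] := Nat.ModEq.cancel_left_of_coprime he.symm h2
          rcases le_total x y with h | h
          · have h4 : D ∣ y - x := (Nat.modEq_iff_dvd' h).1 h3
            rcases Nat.eq_zero_or_pos (y - x) with h5 | h5
            · omega
            · have := Nat.le_of_dvd h5 h4
              omega
          · have h4 : D ∣ x - y := (Nat.modEq_iff_dvd' h).1 h3.symm
            rcases Nat.eq_zero_or_pos (x - y) with h5 | h5
            · omega
            · have := Nat.le_of_dvd h5 h4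
              omega
      rw [h3, filter_union]
      refine (Finset.card_union_le _ _).trans ?_
      have h5 : J / D = (J - D) / D + 1 := by
        have : J = (J - D) + D := by omega
        conv_lhs => rw [this]
        rw [Nat.add_div_right _ hD]
      rw [h5]
      calc _ ≤ D.totient + D.totient * ((J - D) / D + 1) := Nat.add_le_add h4 h2
        _ = _ := by ring

lemma cnt_core {D e : ℕ} (hD : 0 < D) (hc : Nat.Coprime e D) (he : 0 < e) (A r : ℕ) :
    (((Ioc A (2 * A)).filter (fun k => k % e = r ∧ Nat.Coprime k D)).card : ℝ) ≤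
      (D.totient : ℝ) / D * (A / e) + 3 * D := by
  classical
  have h1 : ((Ioc A (2 * A)).filter (fun k => k % e = r ∧ Nat.Coprime k D)).card ≤
      ((Ico (A / e) (A / e + (A / e + 2))).filter (fun j => Nat.Coprime (r + e * j) D)).card := by
    apply Finset.card_le_card_of_injOn (fun k => k / e)
    · intro k hk
      rw [Finset.mem_coe, mem_filter, mem_Ioc] at hk
      obtain ⟨⟨h1, h2⟩, h3, h4⟩ := hk
      rw [Finset.mem_coe, mem_filter, mem_Ico]
      refine ⟨⟨Nat.div_le_div_right h1.le, ?_⟩, ?_⟩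
      · rw [Nat.div_lt_iff_lt_mul he]
        have h5 : A < (A / e + 1) * e := by
          have := Nat.lt_div_mul_add (a := A) he
          rw [Nat.add_mul, one_mul]
          exact this
        have h6 : (A / e + (A / e + 2)) * e = 2 * ((A / e + 1) * e) := by ring
        omega
      · have h5 : r + e * (k / e) = k := by
          rw [← h3]
          exact Nat.mod_add_div k e
        rw [h5]
        exact h4
    · intro x hx y hy hxy
      rw [Finset.mem_coe, mem_filter] at hx hy
      have h1 := Nat.mod_add_div x e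
      have h2 := Nat.mod_add_div y e
      rw [hx.2.1] at h1
      rw [hy.2.1] at h2
      simp only at hxy
      rw [← h1, ← h2, hxy]
  have h2 := h1.trans (cntAP hD hc r (A / e + 2) (A / e))
  have hDr : (0 : ℝ) < D := by exact_mod_cast hD
  have her : (0 : ℝ) < e := by exact_mod_cast he
  have h3 : (((Ioc A (2 * A)).filter (fun k => k % e = r ∧ Nat.Coprime k D)).card : ℝ) ≤
      D.totient * ((((A / e + 2) / D : ℕ) : ℝ) + 1) := by exact_mod_cast h2
  have h4 : (((A / e + 2) / D : ℕ) : ℝ) ≤ (((A / e + 2 : ℕ)) : ℝ) / D := Nat.cast_div_le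
  have h5 : ((A / e : ℕ) : ℝ) ≤ A / e := Nat.cast_div_le
  have h6 : (D.totient : ℝ) ≤ D := by exact_mod_cast Nat.totient_le D
  have h7 : (1 : ℝ) ≤ D := by exact_mod_cast hD
  refine h3.trans ?_
  calc (D.totient : ℝ) * ((((A / e + 2) / D : ℕ) : ℝ) + 1) ≤
        D.totient * ((A / e + 2) / D + 1) := by
        apply mul_le_mul_of_nonneg_left _ (Nat.cast_nonneg _)
        refine add_le_add (h4.trans ?_) le_rfl
        apply div_le_div_of_nonneg_right _ hDr.le
        push_cast
        linarith
    _ = (D.totient : ℝ) / D * (A / e) + (D.totient * (2 / D) + D.totient) := by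
        field_simp
        ring
    _ ≤ (D.totient : ℝ) / D * (A / e) + (2 * D + D) := by
        apply add_le_add le_rfl
        apply add_le_add _ h6
        have h8 : (D.totient : ℝ) * (2 / D) ≤ D * (2 / D) :=
          mul_le_mul_of_nonneg_right h6 (by positivity)
        have h9 : (D : ℝ) * (2 / D) = 2 := by field_simp
        linarith
    _ = _ := by ring

lemma le_card_divisors_mul_totient {n : ℕ} (hn : 0 < n) : n ≤ n.divisors.card * n.totient := by
  conv_lhs => rw [← Nat.sum_totient n]
  rw [← smul_eq_mul, ← Finset.sum_const]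
  apply Finset.sum_le_sum
  intro d hd
  exact Nat.le_of_dvd (Nat.totient_pos.2 hn) (Nat.totient_dvd_of_dvd (Nat.dvd_of_mem_divisors hd))

lemma aux_frac (a b x y n : ℝ) : a * b / (x * y) * n = b / y * ((n * a) / x) := by
  rw [div_mul_div_comm, div_mul_eq_mul_div]
  congr 1
  · ring
  · ring

/-- Counting in a residue class. -/
lemma cnt_class {D e : ℕ} (hD : Squarefree D) (he : 0 < e) (A r : ℕ) :
    (((Ioc A (2 * A)).filter (fun k => k % e = r ∧ Nat.Coprime k D)).card : ℝ) ≤
      (D.totient : ℝ) / D * e.divisors.card * (A / e) + 3 * D := by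
  classical
  have hD0 : 0 < D := Nat.pos_of_ne_zero hD.ne_zero
  set D1 := Nat.gcd D e with hD1
  have hD10 : 0 < D1 := Nat.gcd_pos_of_pos_left _ hD0
  obtain ⟨D2, hD2⟩ := Nat.gcd_dvd_left D e
  rw [← hD1] at hD2
  have hD20 : 0 < D2 := by
    rcases Nat.eq_zero_or_pos D2 with h | h
    · rw [h, mul_zero] at hD2
      omega
    · exact h
  have hcop : Nat.Coprime D1 D2 := by
    rw [hD2] at hD
    exact Nat.coprime_of_squarefree_mul hD
  have hce : Nat.Coprime e D2 := by
    have h1 : Nat.gcd e D2 ∣ D1 := by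
      rw [hD1]
      apply Nat.dvd_gcd
      · exact (Nat.gcd_dvd_right e D2).trans ⟨D1, by rw [mul_comm]; exact hD2⟩
      · exact Nat.gcd_dvd_left e D2
    have h2 : Nat.gcd e D2 ∣ 1 := by
      have h3 := Nat.dvd_gcd h1 (Nat.gcd_dvd_right e D2)
      rwa [hcop] at h3
    exact Nat.dvd_one.1 h2
  have h1 : (((Ioc A (2 * A)).filter (fun k => k % e = r ∧ Nat.Coprime k D)).card : ℝ) ≤
      (((Ioc A (2 * A)).filter (fun k => k % e = r ∧ Nat.Coprime k D2)).card : ℝ) := by
    have : ((Ioc A (2 * A)).filter (fun k => k % e = r ∧ Nat.Coprime k D)).card ≤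
        ((Ioc A (2 * A)).filter (fun k => k % e = r ∧ Nat.Coprime k D2)).card := by
      apply Finset.card_le_card
      intro k hk
      rw [mem_filter] at hk ⊢
      refine ⟨hk.1, hk.2.1, ?_⟩
      exact Nat.Coprime.coprime_dvd_right ⟨D1, by rw [mul_comm]; exact hD2⟩ hk.2.2
    exact_mod_cast this
  have h2 := cnt_core hD20 hce he A r
  refine h1.trans (h2.trans ?_)
  have hD1r : (0 : ℝ) < D1 := by exact_mod_cast hD10
  have hD2r : (0 : ℝ) < D2 := by exact_mod_cast hD20
  have hDr : (D : ℝ) = D1 * D2 := by exact_mod_cast hD2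
  have h3 : (D2 : ℝ) ≤ D := by
    rw [hDr]
    apply le_mul_of_one_le_left hD2r.le
    exact_mod_cast hD10
  have h4 : (D.totient : ℝ) = D1.totient * D2.totient := by
    rw [hD2, Nat.totient_mul hcop]
    push_cast
    ring
  have h5 : (D1 : ℝ) ≤ e.divisors.card * D1.totient := by
    have h6 := le_card_divisors_mul_totient hD10
    have h7 : D1.divisors.card ≤ e.divisors.card := by
      apply Finset.card_le_card
      exact Nat.divisors_subset_of_dvd he.ne' (Nat.gcd_dvd_right D e)
    have h8 : D1 ≤ e.divisors.card * D1.totient := h6.trans (Nat.mul_le_mul_right _ h7)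
    exact_mod_cast h8
  have h6 : (D2.totient : ℝ) / D2 ≤ (D.totient : ℝ) / D * e.divisors.card := by
    rw [h4, hDr]
    have e1 : (D1.totient : ℝ) * D2.totient / (D1 * D2) * e.divisors.card =
        (D2.totient : ℝ) / D2 * ((e.divisors.card * D1.totient) / D1) :=
      aux_frac _ _ _ _ _
    rw [e1]
    apply le_mul_of_one_le_right (by positivity)
    rwa [one_le_div hD1r]
  have h7 : (0 : ℝ) ≤ (A : ℝ) / e := by positivity
  have h8 := mul_le_mul_of_nonneg_right h6 h7
  linarith

/-- Lower bound for the number of integers coprime to `D`. -/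
lemma cnt_lower {D : ℕ} (hD : 0 < D) (A : ℕ) :
    (D.totient : ℝ) / D * A - D ≤
      (((Ioc A (2 * A)).filter (fun k => Nat.Coprime k D)).card : ℝ) := by
  classical
  have h1 : ∀ q : ℕ, ((Ico (A + 1) (A + 1 + D * q)).filter (fun k => Nat.Coprime D k)).card =
      q * D.totient := by
    intro q
    induction q with
    | zero => simp
    | succ q ih =>
      have e : Ico (A + 1) (A + 1 + D * (q + 1)) =
          Ico (A + 1) (A + 1 + D * q) ∪ Ico (A + 1 + D * q) (A + 1 + D * q + D) := by
        rw [Finset.Ico_union_Ico_eq_Ico (by omega) (by omega)]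
        congr 1
        ring
      rw [e, filter_union, card_union_of_disjoint, ih, Nat.filter_coprime_Ico_eq_totient]
      · ring
      · apply Finset.disjoint_filter_filter
        exact Finset.Ico_disjoint_Ico_consecutive _ _ _
  have h2 : (A / D) * D.totient ≤ ((Ioc A (2 * A)).filter (fun k => Nat.Coprime k D)).card := by
    rw [← h1 (A / D)]
    apply Finset.card_le_card
    intro k hk
    rw [mem_filter, mem_Ico] at hk
    rw [mem_filter, mem_Ioc]
    have h3 : D * (A / D) ≤ A := Nat.mul_div_le A D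
    exact ⟨⟨by omega, by omega⟩, hk.2.symm⟩
  have h3 : (((A / D : ℕ) : ℝ)) * D.totient ≤
      (((Ioc A (2 * A)).filter (fun k => Nat.Coprime k D)).card : ℝ) := by exact_mod_cast h2
  refine le_trans ?_ h3
  have hDr : (0 : ℝ) < D := by exact_mod_cast hD
  have h4 : (A : ℝ) / D ≤ ((A / D : ℕ) : ℝ) + 1 := by
    rw [div_le_iff₀ hDr]
    have := Nat.lt_div_mul_add (a := A) hD
    have h5 : A ≤ (A / D + 1) * D := by
      rw [Nat.add_mul, one_mul]
      exact this.le
    exact_mod_cast h5
  have h6 : (D.totient : ℝ) ≤ D := by exact_mod_cast Nat.totient_le D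
  have h7 : (0 : ℝ) ≤ D.totient := Nat.cast_nonneg _
  have e : (D.totient : ℝ) / D * A = (A / D) * D.totient := by ring
  rw [e]
  nlinarith

/-- Sum of the reciprocals of the nontrivial divisors. -/
def sdiv (k : ℕ) : ℝ := ∑ e ∈ k.divisors.erase 1, (1 : ℝ) / e

lemma sdiv_nonneg (k : ℕ) : 0 ≤ sdiv k := Finset.sum_nonneg fun _ _ => by positivity

lemma cfac_eq_sdiv {k : ℕ} (hk : k ≠ 0) : cfac k = 2 * (1 + sdiv k) := by
  rw [cfac, sdiv, ← Finset.add_sum_erase k.divisors (fun e : ℕ => (1 : ℝ) / e)
    (Nat.one_mem_divisors.2 hk)]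
  simp

lemma weierstrass (s : Finset ℕ) (x : ℕ → ℝ) (h0 : ∀ i ∈ s, 0 ≤ x i) (h1 : ∀ i ∈ s, x i ≤ 1) :
    1 - ∑ i ∈ s, x i ≤ ∏ i ∈ s, (1 - x i) := by
  classical
  induction s using Finset.induction_on with
  | empty => simp
  | insert a s ha ih =>
    rw [Finset.sum_insert ha, Finset.prod_insert ha]
    have h2 := ih (fun i hi => h0 i (mem_insert_of_mem hi)) (fun i hi => h1 i (mem_insert_of_mem hi))
    have h3 := h0 a (mem_insert_self a s)
    have h4 := h1 a (mem_insert_self a s)
    have h5 : ∏ i ∈ s, (1 - x i) ≤ 1 := by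
      apply Finset.prod_le_one
      · intro i hi
        have := h1 i (mem_insert_of_mem hi)
        linarith
      · intro i hi
        have := h0 i (mem_insert_of_mem hi)
        linarith
    nlinarith

lemma sum_prime_inv_le_sdiv {k : ℕ} (hk : k ≠ 0) :
    ∑ p ∈ k.primeFactors, (1 : ℝ) / p ≤ sdiv k := by
  rw [sdiv]
  apply Finset.sum_le_sum_of_subset_of_nonneg
  · intro p hp
    rw [mem_erase, Nat.mem_divisors]
    have h1 := Nat.prime_of_mem_primeFactors hp
    exact ⟨h1.one_lt.ne', Nat.dvd_of_mem_primeFactors hp, hk⟩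
  · intro i _ _
    positivity

lemma totient_ge_sdiv {k : ℕ} (hk : 0 < k) : (k : ℝ) * (1 - sdiv k) ≤ k.totient := by
  have hkr : (0 : ℝ) < k := by exact_mod_cast hk
  have e1 := Nat.totient_eq_mul_prod_factors k
  have e2 : (Nat.totient k : ℝ) = k * ∏ p ∈ k.primeFactors, (1 - (p : ℝ)⁻¹) := by
    have : ((Nat.totient k : ℚ) : ℝ) = (((k : ℚ) * ∏ p ∈ k.primeFactors, (1 - (p : ℚ)⁻¹) : ℚ) : ℝ) := by
      rw [e1]
    push_cast at this
    exact this
  rw [e2]
  apply mul_le_mul_of_nonneg_left _ hkr.le
  have h1 := weierstrass k.primeFactors (fun p => (p : ℝ)⁻¹) (fun p _ => by positivity)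
    (fun p hp => by
      have h2 : (1 : ℝ) ≤ p := by exact_mod_cast (Nat.prime_of_mem_primeFactors hp).one_le
      exact inv_le_one_of_one_le₀ h2)
  have h2 := sum_prime_inv_le_sdiv hk.ne'
  have h3 : ∑ p ∈ k.primeFactors, (1 : ℝ) / p = ∑ p ∈ k.primeFactors, (p : ℝ)⁻¹ := by
    apply Finset.sum_congr rfl
    intro p _
    rw [one_div]
  rw [h3] at h2
  linarith

lemma sum_inv_sq_le_two (n : ℕ) : ∑ a ∈ Icc 1 n, (1 : ℝ) / (a : ℝ) ^ 2 ≤ 2 := by
  rcases Nat.eq_zero_or_pos n with rfl | hn
  · simp
  have h1 := sum_Ioc_inv_sq_le_sub (α := ℝ) (k := 1) (n := n) one_ne_zero hn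
  have h2 : Icc 1 n = insert 1 (Ioc 1 n) := by
    ext x
    rw [mem_insert, mem_Icc, mem_Ioc]
    omega
  rw [h2, Finset.sum_insert (by simp)]
  have h3 : ∑ a ∈ Ioc 1 n, (1 : ℝ) / (a : ℝ) ^ 2 = ∑ a ∈ Ioc 1 n, ((a : ℝ) ^ 2)⁻¹ := by
    apply Finset.sum_congr rfl
    intro a _
    rw [one_div]
  rw [h3]
  have h4 : (0 : ℝ) ≤ (n : ℝ)⁻¹ := by positivity
  norm_num at h1 ⊢
  linarith

lemma sum_divisors_div_sq_le (n : ℕ) :
    ∑ e ∈ Icc 1 n, (e.divisors.card : ℝ) / (e : ℝ) ^ 2 ≤ 4 := by
  classical
  have h1 : ∀ e ∈ Icc 1 n, (e.divisors.card : ℝ) / (e : ℝ) ^ 2 =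
      ∑ x ∈ (Icc 1 n ×ˢ Icc 1 n).filter (fun x => x.1 * x.2 = e),
        (1 / (x.1 : ℝ) ^ 2) * (1 / (x.2 : ℝ) ^ 2) := by
    intro e he
    rw [mem_Icc] at he
    have h2 : ∀ x ∈ (Icc 1 n ×ˢ Icc 1 n).filter (fun x => x.1 * x.2 = e),
        (1 / (x.1 : ℝ) ^ 2) * (1 / (x.2 : ℝ) ^ 2) = 1 / (e : ℝ) ^ 2 := by
      intro x hx
      rw [mem_filter] at hx
      rw [← hx.2]
      push_cast
      rw [mul_pow, one_div_mul_one_div]
    rw [Finset.sum_congr rfl h2, Finset.sum_const, nsmul_eq_mul]
    have h3 : ((Icc 1 n ×ˢ Icc 1 n).filter (fun x => x.1 * x.2 = e)).card = e.divisors.card := by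
      apply Finset.card_bij (fun x _ => x.1)
      · intro x hx
        rw [mem_filter] at hx
        rw [Nat.mem_divisors]
        exact ⟨⟨x.2, hx.2.symm⟩, by omega⟩
      · intro x hx y hy hxy
        rw [mem_filter, mem_product, mem_Icc, mem_Icc] at hx hy
        have h4 : x.1 * x.2 = x.1 * y.2 := by
          rw [hx.2, hxy, hy.2]
        have h5 := Nat.eq_of_mul_eq_mul_left (by omega) h4
        exact Prod.ext hxy h5
      · intro a ha
        rw [Nat.mem_divisors] at ha
        obtain ⟨⟨b, hb⟩, he0⟩ := ha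
        have ha0 : 0 < a := by
          rcases Nat.eq_zero_or_pos a with h | h
          · rw [h, zero_mul] at hb
            omega
          · exact h
        have hb0 : 0 < b := by
          rcases Nat.eq_zero_or_pos b with h | h
          · rw [h, mul_zero] at hb
            omega
          · exact h
        have ha1 : a ≤ e := by rw [hb]; exact Nat.le_mul_of_pos_right a hb0
        have hb1 : b ≤ e := by rw [hb]; exact Nat.le_mul_of_pos_left b ha0
        refine ⟨(a, b), ?_, rfl⟩
        rw [mem_filter, mem_product, mem_Icc, mem_Icc]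
        exact ⟨⟨⟨ha0, ha1.trans he.2⟩, ⟨hb0, hb1.trans he.2⟩⟩, hb.symm⟩
    rw [h3]
    ring
  rw [Finset.sum_congr rfl h1]
  have h2 : ∑ e ∈ Icc 1 n, ∑ x ∈ (Icc 1 n ×ˢ Icc 1 n).filter (fun x => x.1 * x.2 = e),
        (1 / (x.1 : ℝ) ^ 2) * (1 / (x.2 : ℝ) ^ 2) ≤
      ∑ x ∈ Icc 1 n ×ˢ Icc 1 n, (1 / (x.1 : ℝ) ^ 2) * (1 / (x.2 : ℝ) ^ 2) := by
    rw [← Finset.sum_biUnion]
    · apply Finset.sum_le_sum_of_subset_of_nonneg
      · intro x hx
        rw [mem_biUnion] at hx
        obtain ⟨e, _, hx⟩ := hx
        exact (mem_filter.1 hx).1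
      · intro x _ _
        positivity
    · intro a _ b _ hab
      rw [Function.onFun, Finset.disjoint_left]
      intro x hx hx'
      rw [mem_filter] at hx hx'
      exact hab (hx.2.symm.trans hx'.2)
  refine h2.trans ?_
  rw [Finset.sum_product]
  simp only []
  rw [← Finset.sum_mul_sum]
  have h3 := sum_inv_sq_le_two n
  have h4 : 0 ≤ ∑ a ∈ Icc 1 n, (1 : ℝ) / (a : ℝ) ^ 2 := Finset.sum_nonneg fun _ _ => by positivity
  nlinarith

end

end Pool.Agent.Lib_helper72.AS
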