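import Mathlib
import Pool.Agent.Lib_helper72.AS.PairSieve
import Pool.Agent.Lib_helper72.AS.Count

set_option autoImplicit false

/-!
The one dimensional Selberg sieve for a linear form `e n + b` and a Brun-Titchmarsh inequality.
-/

namespace Pool.Agent.Lib_helper72.AS

open Finset ArithmeticFunction BoundingSieve Pool.Agent.Lib_helper72.AP

noncomputable section

lemma inv_eq_prod {m : ℕ} (hm : m ≠ 0) :
    (1 : ℝ) / m = ∏ p ∈ m.primeFactors, (1 / (p : ℝ) ^ m.factorization p) := by
  rw [Finset.prod_div_distrib, Finset.prod_const_one]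
  congr 1
  conv_lhs => rw [← Nat.prod_factorization_pow_eq_self hm]
  rw [Finsupp.prod, Nat.support_factorization]
  push_cast
  rfl

theorem form_count_one (f : ℕ → ℤ) (hf : Cong f) (M H : ℕ) (h1 : ∀ p, p.Prime → 1 ≤ rhoF f p)
    (h2 : ∀ p, p.Prime → rhoF f p < p) (z : ℕ) (hz1 : 1 ≤ z) :
    (((Ico M (M + H)).filter
      (fun n => Nat.Coprime (primorial z) (f n).natAbs)).card : ℝ) ≤
      H / (∑ u ∈ Icc 1 z, (1 : ℝ) / u) + (z : ℝ) ^ 6 := by
  set S := formSieve f hf M H z h1 h2 with hS
  set A : ℝ := ∑ u ∈ Icc 1 z, (1 : ℝ) / u with hA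
  have hA1 : 1 ≤ A := by
    have h1 := Finset.single_le_sum (f := fun e : ℕ => (1 : ℝ) / e) (s := Icc 1 z)
      (fun i _ => by positivity) (mem_Icc.2 ⟨le_rfl, hz1⟩)
    calc (1 : ℝ) = 1 / ((1 : ℕ) : ℝ) := by norm_num
      _ ≤ A := h1
  have hset : selD S z = (Icc 1 z).filter Squarefree := by
    ext l
    rw [mem_selD, mem_filter, mem_Icc]
    show l ∣ primorial z ∧ l ≤ z ↔ _
    constructor
    · rintro ⟨h1, h2⟩
      exact ⟨⟨Nat.pos_of_ne_zero (ne_zero_of_dvd_ne_zero (primorial_ne_zero z) h1), h2⟩,
        Squarefree.squarefree_of_dvd h1 (squarefree_primorial z)⟩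
    · rintro ⟨⟨_, h2⟩, h3⟩
      exact ⟨h3.dvd_primorial.trans (primorial_dvd_primorial h2), h2⟩
  have hg : ∀ l ∈ selD S z, S.selbergTerms l =
        ∏ p ∈ l.primeFactors, (nuG f p / (1 - nuG f p)) := by
    intro l hl
    rw [selbergTerms_apply, ← prod_primeFactors_nu (mem_selD.1 hl).1, ← Finset.prod_mul_distrib]
    rfl
  have hge : A ≤ selS S z := by
    rw [selS, Finset.sum_congr rfl hg, hset]
    calc ∑ m ∈ Icc 1 z, (1 : ℝ) / m
        = ∑ m ∈ Icc 1 z, ∏ p ∈ m.primeFactors, (1 / (p : ℝ) ^ m.factorization p) := by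
          apply Finset.sum_congr rfl
          intro m hm
          rw [mem_Icc] at hm
          exact inv_eq_prod (by omega)
      _ ≤ _ := by
          apply sum_fiber_radical z (fun p a => 1 / (p : ℝ) ^ a)
          · intro p a
            positivity
          · intro p hp _
            have hp1 : (1 : ℝ) < p := by exact_mod_cast hp.one_lt
            have hlt : (rhoF f p : ℝ) < p := by exact_mod_cast h2 p hp
            have hge : (1 : ℝ) ≤ rhoF f p := by exact_mod_cast h1 p hp
            have e : nuG f p / (1 - nuG f p) = rhoF f p / (p - rhoF f p) := by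
              rw [nuG_apply]
              have h1 : (p : ℝ) ≠ 0 := by positivity
              have h2 : (p : ℝ) - rhoF f p ≠ 0 := by linarith
              have h3 : 1 - (rhoF f p : ℝ) / p ≠ 0 := by
                rw [one_sub_div h1]
                exact div_ne_zero h2 h1
              field_simp
            rw [e]
            have h5 : ∑ a ∈ Icc 1 z, 1 / (p : ℝ) ^ a ≤ 1 / ((p : ℝ) - 1) := by
              have h6 : ∀ a ∈ Icc 1 z, 1 / (p : ℝ) ^ a = ((p : ℝ)⁻¹) ^ a := by
                intro a _
                rw [inv_pow, one_div]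
              rw [Finset.sum_congr rfl h6]
              refine (sum_geom_le (by positivity) (inv_lt_one_of_one_lt₀ hp1) z).trans
                (le_of_eq ?_)
              have : (p : ℝ) ≠ 0 := by positivity
              have : (p : ℝ) - 1 ≠ 0 := by linarith
              field_simp
            refine h5.trans ?_
            rw [div_le_div_iff₀ (by linarith) (by linarith)]
            nlinarith
  have hSpos : 0 < selS S z := selS_pos hz1
  have hsel := siftedSum_le_selberg (s := S) (z := z) hz1
    (by
      intro d hd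
      have hd0 : 0 < d := Nat.pos_of_ne_zero (ne_zero_of_dvd_ne_zero prodPrimes_ne_zero hd)
      show (nuG f d)⁻¹ ≤ d
      rw [nuG_apply, inv_div]
      have h3 : (1 : ℝ) ≤ rhoF f d := by
        exact_mod_cast one_le_rhoF_of_prime_dvd f (squarefree_of_dvd_prodPrimes hd) h1 hf
      exact div_le_self (Nat.cast_nonneg _) h3)
    (by
      intro d hd
      exact formSieve_rem f hf M H z h1 h2 d
        (Nat.pos_of_ne_zero (ne_zero_of_dvd_ne_zero prodPrimes_ne_zero hd)))
  rw [hS, formSieve_sifted, ← hS] at hsel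
  have htm : S.totalMass = H := rfl
  rw [htm] at hsel
  have hmain : (H : ℝ) / selS S z ≤ H / A :=
    div_le_div_of_nonneg_left (Nat.cast_nonneg _) (by linarith) hge
  linarith

/-- One root. -/
lemma rhoF_eq_one {f : ℕ → ℤ} {p : ℕ} (hp : p.Prime) (r : ZMod p)
    (h : ∀ n : ℕ, (p : ℤ) ∣ f n ↔ (n : ZMod p) = r) : rhoF f p = 1 := by
  have : NeZero p := ⟨hp.ne_zero⟩
  rw [rhoF, Finset.card_eq_one]
  refine ⟨r.val, ?_⟩
  ext n
  rw [mem_filter, mem_range, mem_singleton, h]
  constructor
  · rintro ⟨h1, h2⟩
    rw [← h2]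
    exact (ZMod.val_cast_of_lt h1).symm
  · rintro rfl
    exact ⟨ZMod.val_lt _, ZMod.natCast_zmod_val r⟩

/-- The modified linear form. -/
def fS (e : ℕ) (b : ℤ) (t : ℕ) (n : ℕ) : ℤ :=
  ((e : ℤ) * n + b) * ((Nat.gcd (n + t) e : ℕ) : ℤ)

lemma fS_cong (e : ℕ) (c : ℤ) (t : ℕ) : Cong (fS e c t) := by
  intro d a b hab
  rcases Nat.eq_zero_or_pos d with rfl | hd
  · have : a = b := by
      have h := hab
      simp only [Nat.ModEq, Nat.mod_zero] at h
      exact h
    rw [this]
  have h1 : (a : ℤ) ≡ b [ZMOD d] := by exact_mod_cast hab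
  have h2 : (e : ℤ) * a + c ≡ (e : ℤ) * b + c [ZMOD d] := (h1.mul_left _).add_right _
  have h3 : Nat.gcd d (Nat.gcd (a + t) e) = Nat.gcd d (Nat.gcd (b + t) e) := by
    rw [← Nat.gcd_assoc, ← Nat.gcd_assoc]
    congr 1
    have h4 : a + t ≡ b + t [MOD d] := hab.add_right t
    rw [Nat.gcd_comm d, Nat.gcd_comm d]
    exact h4.gcd_eq
  unfold fS
  have e1 : (d : ℤ) ∣ ((e : ℤ) * a + c) * ((Nat.gcd (a + t) e : ℕ) : ℤ) ↔
      (d : ℤ) ∣ ((e : ℤ) * b + c) * ((Nat.gcd (a + t) e : ℕ) : ℤ) :=
    (h2.mul_right _).dvd_iff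
  rw [e1, dvd_mul_iff_div_gcd hd, dvd_mul_iff_div_gcd hd, h3]

lemma rhoF_fS {e : ℕ} {b : ℤ} (hb : IsCoprime (e : ℤ) b) (t : ℕ) {p : ℕ} (hp : p.Prime) :
    rhoF (fS e b t) p = 1 := by
  have : Fact p.Prime := ⟨hp⟩
  have : NeZero p := ⟨hp.ne_zero⟩
  have hpp : Prime (p : ℤ) := Nat.prime_iff_prime_int.1 hp
  by_cases h : p ∣ e
  · have hbp : ¬ (p : ℤ) ∣ b := by
      intro h0
      have h1 : (p : ℤ) ∣ (e : ℤ) := by exact_mod_cast h
      have h2 := hb.isUnit_of_dvd' h1 h0
      have h3 : IsUnit p := Int.ofNat_isUnit.1 h2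
      exact hp.one_lt.ne' (Nat.isUnit_iff.1 h3)
    apply rhoF_eq_one hp (-(t : ZMod p))
    intro n
    have hiff : (p : ℤ) ∣ fS e b t n ↔ p ∣ n + t := by
      unfold fS
      constructor
      · intro h1
        rcases hpp.dvd_or_dvd h1 with h2 | h2
        · exfalso
          have h3 : (p : ℤ) ∣ (e : ℤ) * n := by
            have : (p : ℤ) ∣ (e : ℤ) := by exact_mod_cast h
            exact this.mul_right _
          exact hbp ((dvd_add_right h3).1 h2)
        · have h3 : p ∣ Nat.gcd (n + t) e := by exact_mod_cast h2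
          exact h3.trans (Nat.gcd_dvd_left _ _)
      · intro h1
        have h3 : p ∣ Nat.gcd (n + t) e := Nat.dvd_gcd h1 h
        have h4 : (p : ℤ) ∣ ((Nat.gcd (n + t) e : ℕ) : ℤ) := by exact_mod_cast h3
        exact h4.mul_left _
    rw [hiff, ← ZMod.natCast_eq_zero_iff]
    push_cast
    exact ⟨eq_neg_of_add_eq_zero_left, fun h => by rw [h, neg_add_cancel]⟩
  · have he : (e : ZMod p) ≠ 0 := fun h0 => h ((ZMod.natCast_eq_zero_iff e p).1 h0)
    apply rhoF_eq_one hp (-(b : ZMod p) / e)
    intro n
    have hiff : (p : ℤ) ∣ fS e b t n ↔ (p : ℤ) ∣ (e : ℤ) * n + b := by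
      unfold fS
      constructor
      · intro h1
        rcases hpp.dvd_or_dvd h1 with h2 | h2
        · exact h2
        · exfalso
          apply h
          have h3 : p ∣ Nat.gcd (n + t) e := by exact_mod_cast h2
          exact h3.trans (Nat.gcd_dvd_right _ _)
      · intro h1
        exact h1.mul_right _
    rw [hiff, ← ZMod.intCast_zmod_eq_zero_iff_dvd]
    push_cast
    rw [eq_div_iff he]
    constructor
    · intro h1
      have := eq_neg_of_add_eq_zero_left h1
      rw [← this]
      ring
    · intro h1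
      rw [mul_comm, h1, neg_add_cancel]

/-- The linear form. -/
def fL (e : ℕ) (b : ℤ) (n : ℕ) : ℤ := (e : ℤ) * (n : ℤ) + b

theorem lin_count_le {e : ℕ} {b : ℤ} (he : 0 < e) (hb : IsCoprime (e : ℤ) b)
    (M H z : ℕ) (hz : 1 ≤ z) :
    e.totient * (((Ico M (M + H)).filter
      (fun n => Nat.Coprime (primorial z) (fL e b n).natAbs)).card : ℝ) ≤
      e * (H / (∑ u ∈ Icc 1 z, (1 : ℝ) / u) + (z : ℝ) ^ 6) := by
  classical
  have hbound : ∀ t, (((Ico M (M + H)).filter
      (fun n => Nat.Coprime (primorial z) (fS e b t n).natAbs)).card : ℝ) ≤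
      H / (∑ u ∈ Icc 1 z, (1 : ℝ) / u) + (z : ℝ) ^ 6 := by
    intro t
    apply form_count_one (fS e b t) (fS_cong e b t) M H _ _ z hz
    · intro p hp
      rw [rhoF_fS hb t hp]
    · intro p hp
      rw [rhoF_fS hb t hp]
      exact hp.one_lt
  have havg : e.totient * ((Ico M (M + H)).filter
      (fun n => Nat.Coprime (primorial z) (fL e b n).natAbs)).card ≤
      ∑ t ∈ range e, ((Ico M (M + H)).filter
      (fun n => Nat.Coprime (primorial z) (fS e b t n).natAbs)).card := by
    have h1 : ∀ n, ((range e).filter (fun t => Nat.Coprime (n + t) e)).card = e.totient := by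
      intro n
      rw [← Nat.filter_coprime_Ico_eq_totient e n]
      apply Finset.card_bij (fun t _ => n + t)
      · intro t ht
        rw [mem_filter, mem_range] at ht
        rw [mem_filter, mem_Ico]
        exact ⟨⟨by omega, by omega⟩, ht.2.symm⟩
      · intro a _ b _ hab
        exact Nat.add_left_cancel hab
      · intro m hm
        rw [mem_filter, mem_Ico] at hm
        refine ⟨m - n, ?_, by omega⟩
        rw [mem_filter, mem_range]
        refine ⟨by omega, ?_⟩
        have : n + (m - n) = m := by omega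
        rw [this]
        exact hm.2.symm
    calc e.totient * ((Ico M (M + H)).filter
          (fun n => Nat.Coprime (primorial z) (fL e b n).natAbs)).card
        = ∑ n ∈ (Ico M (M + H)).filter
          (fun n => Nat.Coprime (primorial z) (fL e b n).natAbs),
            ((range e).filter (fun t => Nat.Coprime (n + t) e)).card := by
          rw [Finset.sum_congr rfl (fun n _ => h1 n), Finset.sum_const, smul_eq_mul, mul_comm]
      _ = ∑ n ∈ (Ico M (M + H)).filter
          (fun n => Nat.Coprime (primorial z) (fL e b n).natAbs),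
            ∑ t ∈ range e, (if Nat.Coprime (n + t) e then 1 else 0) := by
          apply Finset.sum_congr rfl
          intro n _
          rw [Finset.card_filter]
      _ = ∑ t ∈ range e, ∑ n ∈ (Ico M (M + H)).filter
          (fun n => Nat.Coprime (primorial z) (fL e b n).natAbs),
            (if Nat.Coprime (n + t) e then 1 else 0) := Finset.sum_comm
      _ ≤ _ := by
          apply Finset.sum_le_sum
          intro t _
          rw [← Finset.card_filter]
          apply Finset.card_le_card
          intro n hn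
          rw [mem_filter, mem_filter] at hn
          rw [mem_filter]
          refine ⟨hn.1.1, ?_⟩
          have h2 : Nat.gcd (n + t) e = 1 := hn.2
          unfold fS
          rw [h2]
          have h3 := hn.1.2
          unfold fL at h3
          simpa using h3
  have h2 : (e.totient : ℝ) * (((Ico M (M + H)).filter
      (fun n => Nat.Coprime (primorial z) (fL e b n).natAbs)).card : ℝ) ≤
      ∑ t ∈ range e, (((Ico M (M + H)).filter
      (fun n => Nat.Coprime (primorial z) (fS e b t n).natAbs)).card : ℝ) := by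
    exact_mod_cast havg
  refine h2.trans ((Finset.sum_le_sum (fun t _ => hbound t)).trans (le_of_eq ?_))
  rw [Finset.sum_const, card_range, nsmul_eq_mul]

/-- A Brun-Titchmarsh inequality for the primes in `(x, 4x]`. -/
theorem brun_titchmarsh {x e z : ℕ} (he : 0 < e) (hex : e ≤ x) (hz : 1 ≤ z) (hzx : z ≤ x) (b : ℕ) :
    (((QQ x).filter (fun q => q % e = b)).card : ℝ) * e.totient ≤
      e * ((3 * x / e + 2) / (∑ u ∈ Icc 1 z, (1 : ℝ) / u) + (z : ℝ) ^ 6) := by
  classical
  have hA0 : (0 : ℝ) ≤ ∑ u ∈ Icc 1 z, (1 : ℝ) / u := Finset.sum_nonneg fun _ _ => by positivity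
  have her : (0 : ℝ) < e := by exact_mod_cast he
  by_cases hcop : Nat.Coprime e b
  · have hb : IsCoprime (e : ℤ) (b : ℤ) := Nat.isCoprime_iff_coprime.2 hcop
    have h1 := lin_count_le he hb (x / e) (3 * x / e + 2) z hz
    have h2 : ((QQ x).filter (fun q => q % e = b)).card ≤
        ((Ico (x / e) (x / e + (3 * x / e + 2))).filter
        (fun n => Nat.Coprime (primorial z) (fL e b n).natAbs)).card := by
      apply Finset.card_le_card_of_injOn (fun q => q / e)
      · intro q hq
        rw [Finset.mem_coe, mem_filter, QQ, mem_filter, mem_Ioc] at hq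
        obtain ⟨⟨⟨h3, h4⟩, h5⟩, h6⟩ := hq
        rw [Finset.mem_coe, mem_filter, mem_Ico]
        refine ⟨⟨Nat.div_le_div_right h3.le, ?_⟩, ?_⟩
        · rw [Nat.div_lt_iff_lt_mul he]
          have e1 := Nat.lt_div_mul_add (a := x) he
          have e2 := Nat.lt_div_mul_add (a := 3 * x) he
          have e3 : (x / e + (3 * x / e + 2)) * e = x / e * e + 3 * x / e * e + 2 * e := by ring
          rw [e3]
          omega
        · have h7 : (fL e b (q / e)).natAbs = q := by
            unfold fL
            have h8 := Nat.div_add_mod q e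
            rw [h6] at h8
            have h9 : (e : ℤ) * ((q / e : ℕ) : ℤ) + b = (q : ℤ) := by exact_mod_cast h8
            rw [h9, Int.natAbs_natCast]
          rw [h7]
          exact coprime_primorial_of_prime h5 (by omega)
      · intro q hq q' hq' hqq
        rw [Finset.mem_coe, mem_filter] at hq hq'
        have h3 := Nat.div_add_mod q e
        have h4 := Nat.div_add_mod q' e
        simp only at hqq
        rw [hq.2] at h3
        rw [hq'.2] at h4
        rw [← h3, ← h4, hqq]
    have h3 : (((QQ x).filter (fun q => q % e = b)).card : ℝ) ≤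
        (((Ico (x / e) (x / e + (3 * x / e + 2))).filter
        (fun n => Nat.Coprime (primorial z) (fL e b n).natAbs)).card : ℝ) := by
      exact_mod_cast h2
    have h4 : (((3 * x / e + 2 : ℕ)) : ℝ) ≤ 3 * x / e + 2 := by
      push_cast
      have : ((3 * x / e : ℕ) : ℝ) ≤ ((3 * x : ℕ) : ℝ) / e := Nat.cast_div_le
      push_cast at this
      linarith
    calc (((QQ x).filter (fun q => q % e = b)).card : ℝ) * e.totient ≤
          e.totient * (((Ico (x / e) (x / e + (3 * x / e + 2))).filter
            (fun n => Nat.Coprime (primorial z) (fL e b n).natAbs)).card : ℝ) := by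
          rw [mul_comm]
          exact mul_le_mul_of_nonneg_left h3 (Nat.cast_nonneg _)
      _ ≤ _ := h1
      _ ≤ _ := by gcongr
  · have h1 : (QQ x).filter (fun q => q % e = b) = ∅ := by
      rw [Finset.filter_eq_empty_iff]
      intro q hq hqb
      rw [QQ, mem_filter, mem_Ioc] at hq
      apply hcop
      have h2 : Nat.Coprime q e := by
        rw [Nat.Prime.coprime_iff_not_dvd hq.2]
        intro h3
        have := Nat.le_of_dvd he h3
        omega
      rw [← hqb]
      exact ((coprime_mod_iff q e).2 h2).symm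
    rw [h1, Finset.card_empty]
    push_cast
    rw [zero_mul]
    positivity

end

end Pool.Agent.Lib_helper72.AS
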