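import Mathlib
import Pool.Agent.Lib_helper72.AS.Sieve1

set_option autoImplicit false

/-!
Harmonic sums over integers coprime to `h` and the cofactors `q j`.
-/

namespace Pool.Agent.Lib_helper72.AS

open Finset Filter Pool.Agent.Lib_helper72.AP

noncomputable section

/-- Harmonic sum over the integers `≤ J` coprime to `h`. -/
def H0 (J h : ℕ) : ℝ := ∑ j ∈ (Icc 1 J).filter (fun j => Nat.Coprime j h), (1 : ℝ) / j

/-- The small cofactors. -/
def GJ (J h w : ℕ) : Finset ℕ :=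
  (Icc 1 J).filter (fun j => Nat.Coprime j h ∧ sdiv j ≤ 4 / w)

/-- The large primes. -/
def Qj (A : ℕ) (c : ℤ) (j : ℕ) : Finset ℕ := (QQ (A / j)).filter (fun q => ¬ ((q : ℕ) : ℤ) ∣ c)

/-- The family. -/
def KK (A J h w : ℕ) (c : ℤ) : Finset ℕ :=
  ((GJ J h w).sigma (fun j => Qj A c j)).image (fun x => x.2 * x.1)

lemma mem_GJ {J h w j : ℕ} : j ∈ GJ J h w ↔ (1 ≤ j ∧ j ≤ J) ∧ Nat.Coprime j h ∧ sdiv j ≤ 4 / w := by
  rw [GJ, mem_filter, mem_Icc]

lemma mem_Qj {A j q : ℕ} {c : ℤ} : q ∈ Qj A c j ↔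
    ((A / j < q ∧ q ≤ 4 * (A / j)) ∧ q.Prime) ∧ ¬ ((q : ℕ) : ℤ) ∣ c := by
  rw [Qj, mem_filter, QQ, mem_filter, mem_Ioc]

lemma mem_KK {A J h w k : ℕ} {c : ℤ} :
    k ∈ KK A J h w c ↔ ∃ j ∈ GJ J h w, ∃ q ∈ Qj A c j, q * j = k := by
  rw [KK, mem_image]
  constructor
  · rintro ⟨⟨j, q⟩, h1, h2⟩
    rw [mem_sigma] at h1
    exact ⟨j, h1.1, q, h1.2, h2⟩
  · rintro ⟨j, hj, q, hq, h2⟩
    exact ⟨⟨j, q⟩, mem_sigma.2 ⟨hj, hq⟩, h2⟩

lemma H0_nonneg (J h : ℕ) : 0 ≤ H0 J h := Finset.sum_nonneg fun _ _ => by positivity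

lemma one_le_H0 {J : ℕ} (hJ : 1 ≤ J) (h : ℕ) : 1 ≤ H0 J h := by
  have h1 := Finset.single_le_sum (f := fun e : ℕ => (1 : ℝ) / e)
    (s := (Icc 1 J).filter (fun j => Nat.Coprime j h))
    (fun i _ => by positivity) (mem_filter.2 ⟨mem_Icc.2 ⟨le_rfl, hJ⟩, Nat.coprime_one_left h⟩)
  calc (1 : ℝ) = 1 / ((1 : ℕ) : ℝ) := by norm_num
    _ ≤ H0 J h := h1

lemma sum_mult_le (J h : ℕ) {e : ℕ} (he : 0 < e) :
    ∑ j ∈ (Icc 1 J).filter (fun j => Nat.Coprime j h ∧ e ∣ j), (1 : ℝ) / j ≤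
      (1 / e) * H0 J h := by
  classical
  rw [H0, Finset.mul_sum]
  have h1 : ∀ j ∈ (Icc 1 J).filter (fun j => Nat.Coprime j h ∧ e ∣ j), (1 : ℝ) / j =
      (1 / e) * (1 / ((j / e : ℕ) : ℝ)) := by
    intro j hj
    rw [mem_filter] at hj
    have h2 := Nat.div_mul_cancel hj.2.2
    have h3 : (j : ℝ) = ((j / e : ℕ) : ℝ) * e := by exact_mod_cast h2.symm
    conv_lhs => rw [h3]
    rw [one_div_mul_one_div, mul_comm]
  rw [Finset.sum_congr rfl h1]
  have hinj : Set.InjOn (fun j => j / e)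
      (((Icc 1 J).filter (fun j => Nat.Coprime j h ∧ e ∣ j) : Finset ℕ) : Set ℕ) := by
    intro x hx y hy hxy
    rw [Finset.mem_coe, mem_filter] at hx hy
    rw [← Nat.div_mul_cancel hx.2.2, ← Nat.div_mul_cancel hy.2.2]
    simp only at hxy
    rw [hxy]
  rw [← Finset.sum_image (s := (Icc 1 J).filter (fun j => Nat.Coprime j h ∧ e ∣ j))
    (g := fun j => j / e) (f := fun i : ℕ => (1 : ℝ) / e * (1 / (i : ℝ))) hinj]
  apply Finset.sum_le_sum_of_subset_of_nonneg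
  · intro x hx
    rw [mem_image] at hx
    obtain ⟨j, hj, rfl⟩ := hx
    rw [mem_filter, mem_Icc] at hj
    obtain ⟨⟨h1, h2⟩, h3, h4⟩ := hj
    rw [mem_filter, mem_Icc]
    refine ⟨⟨Nat.div_pos (Nat.le_of_dvd h1 h4) he, (Nat.div_le_self _ _).trans h2⟩, ?_⟩
    exact Nat.Coprime.coprime_dvd_left ⟨e, (Nat.div_mul_cancel h4).symm⟩ h3
  · intro x _ _
    positivity

/-- Divisors of integers coprime to the small primes. -/
lemma lt_of_dvd_coprime {w h j e : ℕ} (hw : primorial w ∣ h) (hj : Nat.Coprime j h)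
    (hej : e ∣ j) (he1 : e ≠ 1) (he0 : e ≠ 0) : w < e := by
  have hp := Nat.minFac_prime he1
  have h1 : e.minFac ∣ e := Nat.minFac_dvd e
  have h2 : e.minFac ≤ e := Nat.minFac_le (Nat.pos_of_ne_zero he0)
  by_contra hlt
  have h3 : e.minFac ∣ primorial w := hp.dvd_primorial_iff.2 (h2.trans (not_lt.1 hlt))
  have h4 : e.minFac ∣ Nat.gcd j h := Nat.dvd_gcd (h1.trans hej) (h3.trans hw)
  rw [hj] at h4
  exact hp.one_lt.ne' (Nat.dvd_one.1 h4)

lemma sum_Ioc_inv_sq_le {w J : ℕ} (hw : 0 < w) :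
    ∑ e ∈ Ioc w J, (1 : ℝ) / (e : ℝ) ^ 2 ≤ 1 / w := by
  rcases Nat.lt_or_ge J w with h | h
  · rw [Finset.Ioc_eq_empty (by omega)]
    rw [Finset.sum_empty]
    positivity
  · have h1 := sum_Ioc_inv_sq_le_sub (α := ℝ) (k := w) (n := J) (by omega) h
    have h2 : ∑ a ∈ Ioc w J, (1 : ℝ) / (a : ℝ) ^ 2 = ∑ a ∈ Ioc w J, ((a : ℝ) ^ 2)⁻¹ := by
      apply Finset.sum_congr rfl
      intro a _
      rw [one_div]
    rw [h2, one_div]
    have h3 : (0 : ℝ) ≤ (J : ℝ)⁻¹ := by positivity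
    linarith

/-- First moment of `sdiv` for the logarithmic weights. -/
lemma sum_sdiv_le {w h : ℕ} (hw0 : 0 < w) (hw : primorial w ∣ h) (J : ℕ) :
    ∑ j ∈ (Icc 1 J).filter (fun j => Nat.Coprime j h), (1 : ℝ) / j * sdiv j ≤
      (1 / w) * H0 J h := by
  classical
  have h1 : ∀ j ∈ (Icc 1 J).filter (fun j => Nat.Coprime j h), (1 : ℝ) / j * sdiv j ≤
      ∑ e ∈ Ioc w J, (1 : ℝ) / e * (if e ∣ j then (1 : ℝ) / j else 0) := by
    intro j hj
    rw [mem_filter, mem_Icc] at hj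
    have h2 : sdiv j ≤ ∑ e ∈ Ioc w J, (if e ∣ j then (1 : ℝ) / e else 0) := by
      rw [sdiv, ← Finset.sum_filter]
      apply Finset.sum_le_sum_of_subset_of_nonneg
      · intro e he
        rw [mem_erase, Nat.mem_divisors] at he
        rw [mem_filter, mem_Ioc]
        have h3 : e ≠ 0 := by
          rintro rfl
          have := he.2.1
          rw [zero_dvd_iff] at this
          omega
        exact ⟨⟨lt_of_dvd_coprime hw hj.2 he.2.1 he.1 h3,
          (Nat.le_of_dvd hj.1.1 he.2.1).trans hj.1.2⟩, he.2.1⟩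
      · intro _ _ _
        positivity
    calc (1 : ℝ) / j * sdiv j ≤ (1 : ℝ) / j * ∑ e ∈ Ioc w J, (if e ∣ j then (1 : ℝ) / e else 0) :=
          mul_le_mul_of_nonneg_left h2 (by positivity)
      _ = _ := by
          rw [Finset.mul_sum]
          apply Finset.sum_congr rfl
          intro e _
          split_ifs
          · ring
          · ring
  refine (Finset.sum_le_sum h1).trans ?_
  rw [Finset.sum_comm]
  have h2 : ∀ e ∈ Ioc w J, ∑ j ∈ (Icc 1 J).filter (fun j => Nat.Coprime j h),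
      (1 : ℝ) / e * (if e ∣ j then (1 : ℝ) / j else 0) ≤ (1 / (e : ℝ) ^ 2) * H0 J h := by
    intro e he
    rw [mem_Ioc] at he
    rw [← Finset.mul_sum, ← Finset.sum_filter, Finset.filter_filter]
    have h3 := sum_mult_le J h (e := e) (by omega)
    calc (1 : ℝ) / e * ∑ j ∈ (Icc 1 J).filter (fun j => Nat.Coprime j h ∧ e ∣ j), (1 : ℝ) / j ≤
          1 / e * (1 / e * H0 J h) := mul_le_mul_of_nonneg_left h3 (by positivity)
      _ = _ := by ring
  refine (Finset.sum_le_sum h2).trans ?_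
  rw [← Finset.sum_mul]
  exact mul_le_mul_of_nonneg_right (sum_Ioc_inv_sq_le hw0) (H0_nonneg J h)

/-- Most cofactors are good. -/
lemma sum_GJ_ge {w h : ℕ} (hw0 : 0 < w) (hw : primorial w ∣ h) (J : ℕ) :
    3 / 4 * H0 J h ≤ ∑ j ∈ GJ J h w, (1 : ℝ) / j := by
  classical
  have hwr : (0 : ℝ) < w := by exact_mod_cast hw0
  have h1 := sum_sdiv_le hw0 hw J
  have h2 : H0 J h = ∑ j ∈ GJ J h w, (1 : ℝ) / j +
      ∑ j ∈ ((Icc 1 J).filter (fun j => Nat.Coprime j h)).filter (fun j => ¬ sdiv j ≤ 4 / w),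
        (1 : ℝ) / j := by
    rw [H0, GJ, ← Finset.filter_filter, Finset.sum_filter_add_sum_filter_not]
  have h3 : ∑ j ∈ ((Icc 1 J).filter (fun j => Nat.Coprime j h)).filter
      (fun j => ¬ sdiv j ≤ 4 / w), (1 : ℝ) / j ≤ w / 4 * ((1 / w) * H0 J h) := by
    calc ∑ j ∈ ((Icc 1 J).filter (fun j => Nat.Coprime j h)).filter
          (fun j => ¬ sdiv j ≤ 4 / w), (1 : ℝ) / j ≤
          ∑ j ∈ ((Icc 1 J).filter (fun j => Nat.Coprime j h)).filter
          (fun j => ¬ sdiv j ≤ 4 / w), w / 4 * ((1 : ℝ) / j * sdiv j) := by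
          apply Finset.sum_le_sum
          intro j hj
          rw [mem_filter, not_le] at hj
          have h4 : 1 ≤ w / 4 * sdiv j := by
            have h5 : (w : ℝ) / 4 * (4 / w) = 1 := by field_simp
            rw [← h5]
            exact mul_le_mul_of_nonneg_left hj.2.le (by positivity)
          calc (1 : ℝ) / j = 1 / j * 1 := by ring
            _ ≤ 1 / j * (w / 4 * sdiv j) := mul_le_mul_of_nonneg_left h4 (by positivity)
            _ = _ := by ring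
      _ ≤ ∑ j ∈ (Icc 1 J).filter (fun j => Nat.Coprime j h), w / 4 * ((1 : ℝ) / j * sdiv j) := by
          apply Finset.sum_le_sum_of_subset_of_nonneg (Finset.filter_subset _ _)
          intro j _ _
          have := sdiv_nonneg j
          positivity
      _ = w / 4 * ∑ j ∈ (Icc 1 J).filter (fun j => Nat.Coprime j h), ((1 : ℝ) / j * sdiv j) := by
          rw [Finset.mul_sum]
      _ ≤ _ := mul_le_mul_of_nonneg_left h1 (by positivity)
  have h4 : (w : ℝ) / 4 * ((1 / w) * H0 J h) = H0 J h / 4 := by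
    field_simp
  linarith

/-- The harmonic sum is large. -/
lemma H0_ge {h : ℕ} (hh : h ≠ 0) (J : ℕ) : Real.log (J + 1) ≤ cfac h * H0 J h := by
  classical
  have h1 := harmonic_le_cfac h J hh
  have h2 : ∑ v ∈ Icc 1 J, chi h v / v = H0 J h := by
    rw [H0, Finset.sum_filter]
    apply Finset.sum_congr rfl
    intro v hv
    rw [mem_Icc] at hv
    rw [chi_apply]
    by_cases h3 : Nat.Coprime v h
    · rw [if_pos ⟨by omega, h3⟩, if_pos h3]
    · rw [if_neg (fun h => h3 h.2), if_neg h3, zero_div]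
  rw [h2] at h1
  refine le_trans ?_ h1
  have h3 := log_add_one_le_harmonic J
  have h4 : ((harmonic J : ℚ) : ℝ) = ∑ m ∈ Icc 1 J, (1 : ℝ) / m := by
    rw [harmonic_eq_sum_Icc]
    push_cast
    apply Finset.sum_congr rfl
    intro i _
    rw [one_div]
  rw [h4, Nat.cast_add, Nat.cast_one] at h3
  exact h3

/-- Few large primes divide `z`. -/
lemma card_prime_dvd_le' (P : Finset ℕ) (hP : ∀ a ∈ P, a.Prime) {x : ℝ} (hx : 1 ≤ x)
    (hPx : ∀ a ∈ P, x ≤ a) {z : ℤ} (hz : z ≠ 0) :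
    ((P.filter (fun a => ((a : ℕ) : ℤ) ∣ z)).card : ℝ) * Real.log x ≤ Real.log |(z : ℝ)| := by
  classical
  set Q := P.filter (fun a => ((a : ℕ) : ℤ) ∣ z) with hQ
  have h1 : (∏ p ∈ Q, p) ∣ z.natAbs := by
    apply Finset.prod_primes_dvd
    · intro a ha
      exact (hP a (mem_filter.1 ha).1).prime
    · intro a ha
      exact Int.natCast_dvd.1 (mem_filter.1 ha).2
  have h2 : (∏ p ∈ Q, p) ≤ z.natAbs := Nat.le_of_dvd (Int.natAbs_pos.2 hz) h1
  have h3 : x ^ Q.card ≤ ((∏ p ∈ Q, p : ℕ) : ℝ) := by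
    push_cast
    rw [← Finset.prod_const]
    apply Finset.prod_le_prod
    · intro i _
      linarith
    · intro i hi
      exact hPx i (mem_filter.1 hi).1
  have h4 : x ^ Q.card ≤ |(z : ℝ)| := by
    have h5 : ((∏ p ∈ Q, p : ℕ) : ℝ) ≤ ((z.natAbs : ℕ) : ℝ) := by exact_mod_cast h2
    rw [Nat.cast_natAbs] at h5
    push_cast at h3 h5 ⊢
    linarith
  have h5 := Real.log_le_log (by positivity) h4
  rwa [Real.log_pow] at h5

end

end Pool.Agent.Lib_helper72.AS
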