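import Mathlib
import Pool.Agent.Lib_helper72.AS.Fam1
import Pool.Agent.Lib_helper72.AS.Second

set_option autoImplicit false

/-!
The family of cofactors `q j`.
-/

namespace Pool.Agent.Lib_helper72.AS

open Finset Filter Pool.Agent.Lib_helper72.AP

noncomputable section

/-- Hypotheses on the family. -/
structure FH (A J w h : ℕ) (c : ℤ) (U L₀ : ℝ) (y₀ : ℕ) : Prop where
  hA : 10 ^ 6 ≤ A
  hJ1 : 1 ≤ J
  hJ2 : J * J ≤ A
  hw : 40 ≤ w
  hwh : primorial w ∣ h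
  hch : c.natAbs ∣ h
  hc : c ≠ 0
  hh : h ≠ 0
  hU : 0 ≤ U
  hL₀ : 0 ≤ L₀
  hy₀ : 1 ≤ y₀
  hBT : ∀ j ∈ Icc 1 J, ∀ e : ℕ, 1 ≤ e → e ≤ y₀ → ∀ b : ℕ,
    (((QQ (A / j)).filter (fun q => q % e = b)).card : ℝ) ≤ U / (j * e.totient)
  hlow : ∀ j ∈ Icc 1 J, L₀ / j ≤ ((Qj A c j).card : ℝ)

section

variable {A J w h : ℕ} {c : ℤ} {U L₀ : ℝ} {y₀ : ℕ}

lemma FH.J_lt (H : FH A J w h c U L₀ y₀) {j q : ℕ} (hj : j ∈ GJ J h w) (hq : q ∈ Qj A c j) :
    J < q := by
  rw [mem_GJ] at hj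
  rw [mem_Qj] at hq
  have h1 : J ≤ A / j := by
    rw [Nat.le_div_iff_mul_le (by omega)]
    exact (Nat.mul_le_mul_left J hj.1.2).trans H.hJ2
  omega

lemma FH.not_dvd (H : FH A J w h c U L₀ y₀) {j q j' : ℕ} (hj : j ∈ GJ J h w) (hq : q ∈ Qj A c j)
    (hj' : j' ∈ GJ J h w) : ¬ q ∣ j' := by
  intro h1
  have h2 := H.J_lt hj hq
  rw [mem_GJ] at hj'
  have h3 := Nat.le_of_dvd (by omega) h1
  omega

lemma FH.eq_of_dvd (H : FH A J w h c U L₀ y₀) {j q j' q' : ℕ} (hj : j ∈ GJ J h w)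
    (hq : q ∈ Qj A c j) (hj' : j' ∈ GJ J h w) (hq' : q' ∈ Qj A c j') (hd : q ∣ q' * j') :
    q = q' := by
  have hp : q.Prime := (mem_Qj.1 hq).1.2
  have hp' : q'.Prime := (mem_Qj.1 hq').1.2
  rcases (hp.dvd_mul).1 hd with h1 | h1
  · exact (Nat.prime_dvd_prime_iff_eq hp hp').1 h1
  · exact absurd h1 (H.not_dvd hj hq hj')

lemma FH.injOn (H : FH A J w h c U L₀ y₀) : Set.InjOn (fun x : (_ : ℕ) × ℕ => x.2 * x.1)
    (((GJ J h w).sigma (fun j => Qj A c j) : Finset ((_ : ℕ) × ℕ)) : Set ((_ : ℕ) × ℕ)) := by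
  rintro ⟨j, q⟩ hx ⟨j', q'⟩ hx' hxx
  rw [Finset.mem_coe, mem_sigma] at hx hx'
  simp only at hx hx' hxx
  have h1 : q = q' := H.eq_of_dvd hx.1 hx.2 hx'.1 hx'.2 ⟨j, hxx.symm⟩
  subst h1
  have hp : q.Prime := (mem_Qj.1 hx.2).1.2
  have h2 : j = j' := Nat.eq_of_mul_eq_mul_left hp.pos hxx
  subst h2
  rfl

lemma FH.card (H : FH A J w h c U L₀ y₀) :
    (KK A J h w c).card = ∑ j ∈ GJ J h w, (Qj A c j).card := by
  rw [KK, Finset.card_image_of_injOn H.injOn, Finset.card_sigma]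

lemma FH.card_ge (H : FH A J w h c U L₀ y₀) :
    3 / 4 * L₀ * H0 J h ≤ ((KK A J h w c).card : ℝ) := by
  rw [H.card]
  push_cast
  have h1 : ∑ j ∈ GJ J h w, L₀ / j ≤ ∑ j ∈ GJ J h w, ((Qj A c j).card : ℝ) := by
    apply Finset.sum_le_sum
    intro j hj
    rw [mem_GJ] at hj
    exact H.hlow j (mem_Icc.2 hj.1)
  refine le_trans ?_ h1
  have h2 := sum_GJ_ge (w := w) (h := h) (by have := H.hw; omega) H.hwh J
  have h3 : ∑ j ∈ GJ J h w, L₀ / j = L₀ * ∑ j ∈ GJ J h w, (1 : ℝ) / j := by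
    rw [Finset.mul_sum]
    apply Finset.sum_congr rfl
    intro j _
    ring
  rw [h3]
  have h4 := mul_le_mul_of_nonneg_left h2 H.hL₀
  linarith

lemma FH.bounds (H : FH A J w h c U L₀ y₀) {k : ℕ} (hk : k ∈ KK A J h w c) :
    A < k ∧ k ≤ 4 * A := by
  rw [mem_KK] at hk
  obtain ⟨j, hj, q, hq, rfl⟩ := hk
  rw [mem_GJ] at hj
  rw [mem_Qj] at hq
  have hj0 : 0 < j := by omega
  constructor
  · exact (Nat.div_lt_iff_lt_mul hj0).1 hq.1.1.1
  · calc q * j ≤ 4 * (A / j) * j := Nat.mul_le_mul_right j hq.1.1.2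
      _ = 4 * (A / j * j) := by ring
      _ ≤ 4 * A := Nat.mul_le_mul_left 4 (Nat.div_mul_le_self A j)

lemma FH.unit (H : FH A J w h c U L₀ y₀) {k : ℕ} (hk : k ∈ KK A J h w c) :
    IsUnit (c : ZMod k) := by
  rw [mem_KK] at hk
  obtain ⟨j, hj, q, hq, rfl⟩ := hk
  rw [mem_GJ] at hj
  rw [mem_Qj] at hq
  have h1 : Nat.Coprime j c.natAbs := Nat.Coprime.coprime_dvd_right H.hch hj.2.1
  have h2 : Nat.Coprime q c.natAbs := by
    rw [Nat.Prime.coprime_iff_not_dvd hq.1.2]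
    intro h3
    exact hq.2 (Int.natCast_dvd.2 h3)
  have h3 : Nat.Coprime (q * j) c.natAbs := Nat.Coprime.mul_left h2 h1
  have h4 : IsCoprime ((q * j : ℕ) : ℤ) (c : ℤ) := by
    rw [Int.isCoprime_iff_gcd_eq_one, Int.gcd_def, Int.natAbs_natCast]
    exact h3
  exact (ZMod.coe_int_isUnit_iff_isCoprime c (q * j)).2 h4

lemma FH.tot (H : FH A J w h c U L₀ y₀) {k : ℕ} (hk : k ∈ KK A J h w c) :
    (A : ℝ) / 2 ≤ k.totient := by
  have hb := H.bounds hk
  rw [mem_KK] at hk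
  obtain ⟨j, hj, q, hq, rfl⟩ := hk
  have hJq := H.J_lt hj hq
  have hnd := H.not_dvd hj hq hj
  rw [mem_GJ] at hj
  rw [mem_Qj] at hq
  have hcop : Nat.Coprime q j := (Nat.Prime.coprime_iff_not_dvd hq.1.2).2 hnd
  rw [Nat.totient_mul hcop, Nat.totient_prime hq.1.2]
  have hj0 : 0 < j := by omega
  have h1 := totient_ge_sdiv hj0
  have hw40 : (40 : ℝ) ≤ w := by exact_mod_cast H.hw
  have h2 : (4 : ℝ) / w ≤ 1 / 10 := by
    rw [div_le_div_iff₀ (by linarith) (by norm_num)]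
    linarith
  have hjr : (0 : ℝ) < j := by exact_mod_cast hj0
  have h3 : (9 : ℝ) / 10 * j ≤ j.totient := by
    have h4 : (j : ℝ) * (9 / 10) ≤ j * (1 - sdiv j) := by
      apply mul_le_mul_of_nonneg_left _ hjr.le
      have := hj.2.2
      linarith
    linarith
  have hq10 : 10 ≤ q := by
    by_contra hlt
    have h5 : q * j ≤ 9 * 9 := Nat.mul_le_mul (by omega) (by omega)
    have := H.hA
    omega
  have h4 : (9 : ℝ) / 10 * q ≤ ((q - 1 : ℕ) : ℝ) := by
    rw [Nat.cast_sub (by omega)]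
    push_cast
    have : (10 : ℝ) ≤ q := by exact_mod_cast hq10
    linarith
  have h5 : (A : ℝ) ≤ q * j := by exact_mod_cast hb.1.le
  push_cast
  have h6 : (9 : ℝ) / 10 * q * (9 / 10 * j) ≤ ((q - 1 : ℕ) : ℝ) * j.totient :=
    mul_le_mul h4 h3 (by positivity) (Nat.cast_nonneg _)
  have h7 : (0 : ℝ) ≤ A := Nat.cast_nonneg _
  linarith

lemma FH.cfac_le (H : FH A J w h c U L₀ y₀) {k : ℕ} (hk : k ∈ KK A J h w c) :
    cfac k ≤ 4 := by
  rw [mem_KK] at hk
  obtain ⟨j, hj, q, hq, rfl⟩ := hk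
  rw [mem_GJ] at hj
  rw [mem_Qj] at hq
  have hj0 : 0 < j := by omega
  have h1 := cfac_mul_le q j
  have h2 := cfac_prime_le hq.1.2
  have hw40 : (40 : ℝ) ≤ w := by exact_mod_cast H.hw
  have h3 : (4 : ℝ) / w ≤ 1 / 10 := by
    rw [div_le_div_iff₀ (by linarith) (by norm_num)]
    linarith
  have h4 : cfac j ≤ 11 / 5 := by
    rw [cfac_eq_sdiv hj0.ne']
    have := hj.2.2
    linarith
  have h5 := cfac_nonneg j
  have h6 := cfac_nonneg q
  have h7 : cfac q * cfac j ≤ 3 * (11 / 5) := mul_le_mul h2 h4 h5 (by norm_num)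
  linarith

/-- Members of the family divisible by a small prime. -/
lemma FH.card_dvd_small (H : FH A J w h c U L₀ y₀) {p : ℕ} (hp : p.Prime) (hpJ : p ≤ J) :
    (((KK A J h w c).filter (fun k => p ∣ k)).card : ℝ) ≤ U * ((1 / p) * H0 J h) := by
  classical
  have hsub : (KK A J h w c).filter (fun k => p ∣ k) ⊆
      (((Icc 1 J).filter (fun j => Nat.Coprime j h ∧ p ∣ j)).sigma (fun j => QQ (A / j))).image
      (fun x => x.2 * x.1) := by
    intro k hk
    rw [mem_filter, mem_KK] at hk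
    obtain ⟨⟨j, hj, q, hq, rfl⟩, hpk⟩ := hk
    have hJq := H.J_lt hj hq
    rw [mem_image]
    refine ⟨⟨j, q⟩, ?_, rfl⟩
    rw [mem_sigma, mem_filter, mem_Icc]
    rw [mem_GJ] at hj
    rw [Qj, mem_filter] at hq
    refine ⟨⟨hj.1, hj.2.1, ?_⟩, hq.1⟩
    rcases (hp.dvd_mul).1 hpk with h1 | h1
    · exfalso
      have hqp : q.Prime := (mem_filter.1 hq.1).2
      have := (Nat.prime_dvd_prime_iff_eq hp hqp).1 h1
      omega
    · exact h1
  have h1 := (Finset.card_le_card hsub).trans Finset.card_image_le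
  rw [Finset.card_sigma] at h1
  have h2 : (((KK A J h w c).filter (fun k => p ∣ k)).card : ℝ) ≤
      ∑ j ∈ (Icc 1 J).filter (fun j => Nat.Coprime j h ∧ p ∣ j), ((QQ (A / j)).card : ℝ) := by
    exact_mod_cast h1
  refine h2.trans ?_
  have h3 : ∑ j ∈ (Icc 1 J).filter (fun j => Nat.Coprime j h ∧ p ∣ j), ((QQ (A / j)).card : ℝ) ≤
      ∑ j ∈ (Icc 1 J).filter (fun j => Nat.Coprime j h ∧ p ∣ j), U * ((1 : ℝ) / j) := by
    apply Finset.sum_le_sum
    intro j hj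
    rw [mem_filter] at hj
    have h4 := H.hBT j hj.1 1 le_rfl H.hy₀ 0
    simp only [Nat.mod_one, Nat.totient_one, Nat.cast_one, mul_one, Finset.filter_true] at h4
    refine h4.trans (le_of_eq ?_)
    ring
  refine h3.trans ?_
  rw [← Finset.mul_sum]
  exact mul_le_mul_of_nonneg_left (sum_mult_le J h hp.pos) H.hU

/-- The number of members not coprime to a given member. -/
lemma FH.card_not_coprime (H : FH A J w h c U L₀ y₀) {k : ℕ} (hk : k ∈ KK A J h w c) :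
    (((KK A J h w c).filter (fun k' => ¬ Nat.Coprime k k')).card : ℝ) ≤
      J + U * (4 / w * H0 J h) := by
  classical
  rw [mem_KK] at hk
  obtain ⟨j, hj, q, hq, rfl⟩ := hk
  have hJq := H.J_lt hj hq
  have hqp : q.Prime := (mem_Qj.1 hq).1.2
  have hj' := mem_GJ.1 hj
  have hj0 : j ≠ 0 := by omega
  have hsub : (KK A J h w c).filter (fun k' => ¬ Nat.Coprime (q * j) k') ⊆
      ((Icc 1 J).image (fun i => q * i)) ∪
      (j.primeFactors.biUnion (fun p => (KK A J h w c).filter (fun k => p ∣ k))) := by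
    intro k' hk'
    rw [mem_filter] at hk'
    obtain ⟨p, hp, hp1, hp2⟩ := Nat.Prime.not_coprime_iff_dvd.1 hk'.2
    rw [mem_union]
    rcases (hp.dvd_mul).1 hp1 with h1 | h1
    · left
      have h2 : p = q := (Nat.prime_dvd_prime_iff_eq hp hqp).1 h1
      subst h2
      obtain ⟨j1, hj1, q1, hq1, rfl⟩ := mem_KK.1 hk'.1
      have h3 := H.eq_of_dvd hj hq hj1 hq1 hp2
      subst h3
      rw [mem_image]
      exact ⟨j1, mem_Icc.2 (mem_GJ.1 hj1).1, rfl⟩
    · right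
      rw [mem_biUnion]
      exact ⟨p, Nat.mem_primeFactors.2 ⟨hp, h1, hj0⟩, mem_filter.2 ⟨hk'.1, hp2⟩⟩
  have h1 := Finset.card_le_card hsub
  have h2 := Finset.card_union_le ((Icc 1 J).image (fun i => q * i))
      (j.primeFactors.biUnion (fun p => (KK A J h w c).filter (fun k => p ∣ k)))
  have h3 : ((Icc 1 J).image (fun i => q * i)).card ≤ J := by
    have := Finset.card_image_le (s := Icc 1 J) (f := fun i => q * i)
    rwa [Nat.card_Icc, Nat.add_sub_cancel] at this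
  have h4 := Finset.card_biUnion_le (s := j.primeFactors)
    (t := fun p => (KK A J h w c).filter (fun k => p ∣ k))
  have h5 : (((KK A J h w c).filter (fun k' => ¬ Nat.Coprime (q * j) k')).card : ℝ) ≤
      J + ∑ p ∈ j.primeFactors, (((KK A J h w c).filter (fun k => p ∣ k)).card : ℝ) := by
    have : ((KK A J h w c).filter (fun k' => ¬ Nat.Coprime (q * j) k')).card ≤
      J + ∑ p ∈ j.primeFactors, ((KK A J h w c).filter (fun k => p ∣ k)).card := by omega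
    exact_mod_cast this
  refine h5.trans (add_le_add le_rfl ?_)
  calc ∑ p ∈ j.primeFactors, (((KK A J h w c).filter (fun k => p ∣ k)).card : ℝ) ≤
        ∑ p ∈ j.primeFactors, U * ((1 / p) * H0 J h) := by
        apply Finset.sum_le_sum
        intro p hp
        apply H.card_dvd_small (Nat.prime_of_mem_primeFactors hp)
        exact (Nat.le_of_dvd (by omega) (Nat.dvd_of_mem_primeFactors hp)).trans hj'.1.2
    _ = U * ((∑ p ∈ j.primeFactors, (1 : ℝ) / p) * H0 J h) := by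
        rw [Finset.sum_mul, Finset.mul_sum]
    _ ≤ U * (4 / w * H0 J h) := by
        apply mul_le_mul_of_nonneg_left _ H.hU
        apply mul_le_mul_of_nonneg_right _ (H0_nonneg J h)
        exact (sum_prime_inv_le_sdiv hj0).trans hj'.2.2

end

end

end Pool.Agent.Lib_helper72.AS
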