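import Mathlib
import Pool.Agent.Lib_helper72.AS.Fam2

set_option autoImplicit false

/-!
The pair sum over the family.
-/

namespace Pool.Agent.Lib_helper72.AS

open Finset Filter Pool.Agent.Lib_helper72.AP

noncomputable section

/-- The local weight of a modulus. -/
def GT (e : ℕ) : ℝ := ∑ g ∈ e.divisors, (1 : ℝ) / (g * (e / g).totient)

lemma GT_nonneg (e : ℕ) : 0 ≤ GT e := Finset.sum_nonneg fun _ _ => by positivity

lemma inv_mul_totient_le {f : ℕ} (hf : 0 < f) :
    (1 : ℝ) / (f * f.totient) ≤ f.divisors.card / (f : ℝ) ^ 2 := by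
  have h1 := le_card_divisors_mul_totient hf
  have h2 : (f : ℝ) ≤ f.divisors.card * f.totient := by exact_mod_cast h1
  have hfr : (0 : ℝ) < f := by exact_mod_cast hf
  have htr : (0 : ℝ) < f.totient := by exact_mod_cast Nat.totient_pos.2 hf
  rw [div_le_div_iff₀ (by positivity) (by positivity)]
  nlinarith

/-- The sum of the local weights converges. -/
lemma sum_GT_le (y : ℕ) : ∑ e ∈ Icc 1 y, (1 : ℝ) / e * GT e ≤ 8 := by
  classical
  have h1 : ∀ e ∈ Icc 1 y, (1 : ℝ) / e * GT e =
      ∑ x ∈ e.divisorsAntidiagonal, (1 / (x.1 : ℝ) ^ 2) * (1 / (x.2 * (x.2).totient)) := by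
    intro e he
    rw [GT, Finset.mul_sum,
      ← Nat.sum_divisorsAntidiagonal
        (f := fun g f => (1 : ℝ) / e * (1 / ((g : ℝ) * ((f).totient : ℝ))))]
    apply Finset.sum_congr rfl
    intro x hx
    rw [Nat.mem_divisorsAntidiagonal] at hx
    have h2 : (e : ℝ) = x.1 * x.2 := by exact_mod_cast hx.1.symm
    rw [h2, one_div_mul_one_div, one_div_mul_one_div]
    congr 1
    ring
  rw [Finset.sum_congr rfl h1, ← Finset.sum_biUnion]
  · have h2 : ∑ x ∈ (Icc 1 y).biUnion (fun e => e.divisorsAntidiagonal),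
        (1 / (x.1 : ℝ) ^ 2) * (1 / (x.2 * (x.2).totient)) ≤
        ∑ x ∈ Icc 1 y ×ˢ Icc 1 y, (1 / (x.1 : ℝ) ^ 2) * (1 / (x.2 * (x.2).totient)) := by
      apply Finset.sum_le_sum_of_subset_of_nonneg
      · intro x hx
        rw [mem_biUnion] at hx
        obtain ⟨e, he, hx⟩ := hx
        rw [Nat.mem_divisorsAntidiagonal] at hx
        rw [mem_Icc] at he
        rw [mem_product, mem_Icc, mem_Icc]
        have h3 : 0 < x.1 * x.2 := by omega
        have h4 := Nat.pos_of_mul_pos_left h3
        have h5 := Nat.pos_of_mul_pos_right h3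
        have h6 : x.1 ≤ x.1 * x.2 := Nat.le_mul_of_pos_right _ (by
          rcases Nat.eq_zero_or_pos x.2 with h | h
          · rw [h, mul_zero] at h3
            omega
          · exact h)
        have h7 : x.2 ≤ x.1 * x.2 := Nat.le_mul_of_pos_left _ (by
          rcases Nat.eq_zero_or_pos x.1 with h | h
          · rw [h, zero_mul] at h3
            omega
          · exact h)
        have h8 : 0 < x.1 := by
          rcases Nat.eq_zero_or_pos x.1 with h | h
          · rw [h, zero_mul] at h3
            omega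
          · exact h
        have h9 : 0 < x.2 := by
          rcases Nat.eq_zero_or_pos x.2 with h | h
          · rw [h, mul_zero] at h3
            omega
          · exact h
        exact ⟨⟨h8, by omega⟩, ⟨h9, by omega⟩⟩
      · intro x _ _
        positivity
    refine h2.trans ?_
    rw [Finset.sum_product]
    simp only []
    rw [← Finset.sum_mul_sum]
    have h3 := sum_inv_sq_le_two y
    have h4 : ∑ f ∈ Icc 1 y, (1 : ℝ) / (f * f.totient) ≤ 4 := by
      refine le_trans ?_ (sum_divisors_div_sq_le y)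
      apply Finset.sum_le_sum
      intro f hf
      rw [mem_Icc] at hf
      exact inv_mul_totient_le (by omega)
    have h5 : 0 ≤ ∑ a ∈ Icc 1 y, (1 : ℝ) / (a : ℝ) ^ 2 :=
      Finset.sum_nonneg fun _ _ => by positivity
    have h6 : 0 ≤ ∑ f ∈ Icc 1 y, (1 : ℝ) / (f * f.totient) :=
      Finset.sum_nonneg fun _ _ => by positivity
    nlinarith
  · intro a _ b _ hab
    rw [Function.onFun, Finset.disjoint_left]
    intro x hx hx'
    rw [Nat.mem_divisorsAntidiagonal] at hx hx'
    exact hab (hx.1.symm.trans hx'.1)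

section

variable {A J w h : ℕ} {c : ℤ} {U L₀ : ℝ} {y₀ : ℕ}

/-- The members of the family in a residue class with a small modulus. -/
lemma FH.class_small (H : FH A J w h c U L₀ y₀) {e : ℕ} (he1 : 1 ≤ e) (hey : e ≤ y₀) (r : ℕ) :
    (((KK A J h w c).filter (fun k => k % e = r)).card : ℝ) ≤ U * H0 J h * GT e := by
  classical
  have hsub : (KK A J h w c).filter (fun k => k % e = r) ⊆
      ((GJ J h w).sigma (fun j => (Qj A c j).filter (fun q => (q * j) % e = r))).image
      (fun x => x.2 * x.1) := by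
    intro k hk
    rw [mem_filter, mem_KK] at hk
    obtain ⟨⟨j, hj, q, hq, rfl⟩, hke⟩ := hk
    rw [mem_image]
    refine ⟨⟨j, q⟩, ?_, rfl⟩
    rw [mem_sigma, mem_filter]
    exact ⟨hj, hq, hke⟩
  have h1 := (Finset.card_le_card hsub).trans Finset.card_image_le
  rw [Finset.card_sigma] at h1
  have h2 : (((KK A J h w c).filter (fun k => k % e = r)).card : ℝ) ≤
      ∑ j ∈ GJ J h w, (((Qj A c j).filter (fun q => (q * j) % e = r)).card : ℝ) := by
    exact_mod_cast h1
  refine h2.trans ?_
  have h3 : ∀ j ∈ GJ J h w, (((Qj A c j).filter (fun q => (q * j) % e = r)).card : ℝ) ≤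
      ∑ g ∈ e.divisors, (if g ∣ j then U / (j * (e / g).totient) else 0) := by
    intro j hj
    have hj' := mem_GJ.1 hj
    have hg0 : 0 < Nat.gcd e j := Nat.gcd_pos_of_pos_left _ he1
    have hterm : ∀ g ∈ e.divisors, (0 : ℝ) ≤ (if g ∣ j then U / (j * (e / g).totient) else 0) := by
      intro g _
      have := H.hU
      split_ifs
      · positivity
      · exact le_rfl
    have h4 := Finset.single_le_sum hterm (Nat.mem_divisors.2 ⟨Nat.gcd_dvd_left e j, by omega⟩)
    refine le_trans ?_ h4
    rw [if_pos (Nat.gcd_dvd_right e j)]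
    rcases Finset.eq_empty_or_nonempty ((Qj A c j).filter (fun q => (q * j) % e = r)) with h5 | h5
    · rw [h5, Finset.card_empty]
      have := H.hU
      push_cast
      positivity
    · obtain ⟨q₀, hq₀⟩ := h5
      rw [mem_filter] at hq₀
      have hsub2 : (Qj A c j).filter (fun q => (q * j) % e = r) ⊆
          (QQ (A / j)).filter (fun q => q % (e / Nat.gcd e j) = q₀ % (e / Nat.gcd e j)) := by
        intro q hq
        rw [mem_filter] at hq
        rw [mem_filter]
        rw [Qj, mem_filter] at hq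
        refine ⟨hq.1.1, ?_⟩
        have h6 : q * j ≡ q₀ * j [MOD e] := by
          rw [Nat.ModEq, hq.2, hq₀.2]
        exact Nat.ModEq.cancel_right_div_gcd (by omega) h6
      have h6 : ((((Qj A c j).filter (fun q => (q * j) % e = r)).card : ℕ) : ℝ) ≤
          (((QQ (A / j)).filter
            (fun q => q % (e / Nat.gcd e j) = q₀ % (e / Nat.gcd e j))).card : ℝ) := by
        exact_mod_cast Finset.card_le_card hsub2
      refine h6.trans ?_
      apply H.hBT j (mem_Icc.2 hj'.1)
      · exact Nat.div_pos (Nat.gcd_le_left _ he1) hg0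
      · exact (Nat.div_le_self _ _).trans hey
  refine (Finset.sum_le_sum h3).trans ?_
  rw [Finset.sum_comm, GT, Finset.mul_sum]
  apply Finset.sum_le_sum
  intro g hg
  have hg1 : 0 < g := Nat.pos_of_mem_divisors hg
  rw [← Finset.sum_filter]
  have h4 : ∑ j ∈ (GJ J h w).filter (fun j => g ∣ j), U / ((j : ℝ) * (e / g).totient) ≤
      ∑ j ∈ (Icc 1 J).filter (fun j => Nat.Coprime j h ∧ g ∣ j),
        U / (e / g).totient * ((1 : ℝ) / j) := by
    have h5 : ∀ j ∈ (GJ J h w).filter (fun j => g ∣ j), U / ((j : ℝ) * (e / g).totient) =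
        U / (e / g).totient * ((1 : ℝ) / j) := by
      intro j _
      rw [div_mul_div_comm, mul_one, mul_comm (j : ℝ)]
    rw [Finset.sum_congr rfl h5]
    apply Finset.sum_le_sum_of_subset_of_nonneg
    · intro j hj
      rw [mem_filter, GJ, mem_filter] at hj
      rw [mem_filter]
      exact ⟨hj.1.1, hj.1.2.1, hj.2⟩
    · intro j _ _
      have := H.hU
      positivity
  refine h4.trans ?_
  rw [← Finset.mul_sum]
  have h5 := sum_mult_le J h hg1
  have h6 : (0 : ℝ) ≤ U / (e / g).totient := div_nonneg H.hU (Nat.cast_nonneg _)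
  calc U / ((e / g).totient : ℝ) *
        ∑ j ∈ (Icc 1 J).filter (fun j => Nat.Coprime j h ∧ g ∣ j), (1 : ℝ) / j ≤
        U / (e / g).totient * ((1 / g) * H0 J h) := mul_le_mul_of_nonneg_left h5 h6
    _ = U * H0 J h * (1 / (g * (e / g).totient)) := by
        rw [one_div, one_div, mul_inv, div_eq_mul_inv]
        ring

/-- The members of the family in a residue class with a large modulus. -/
lemma FH.class_large (H : FH A J w h c U L₀ y₀) {e : ℕ} (he1 : 1 ≤ e) (heA : e ≤ 3 * A) (r : ℕ) :
    (((KK A J h w c).filter (fun k => k % e = r)).card : ℝ) ≤ 9 * A / e := by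
  classical
  have her : (0 : ℝ) < e := by exact_mod_cast he1
  have h1 : ((KK A J h w c).filter (fun k => k % e = r)).card ≤
      (Icc (A / e) (4 * A / e)).card := by
    apply Finset.card_le_card_of_injOn (fun k => k / e)
    · intro k hk
      rw [Finset.mem_coe, mem_filter] at hk
      have hb := H.bounds hk.1
      rw [Finset.mem_coe, mem_Icc]
      exact ⟨Nat.div_le_div_right hb.1.le, Nat.div_le_div_right hb.2⟩
    · intro k hk k' hk' hkk
      rw [Finset.mem_coe, mem_filter] at hk hk'
      have h3 := Nat.div_add_mod k e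
      have h4 := Nat.div_add_mod k' e
      simp only at hkk
      rw [hk.2] at h3
      rw [hk'.2] at h4
      rw [← h3, ← h4, hkk]
  rw [Nat.card_Icc] at h1
  have h2 : (((KK A J h w c).filter (fun k => k % e = r)).card : ℝ) + ((A / e : ℕ) : ℝ) ≤
      ((4 * A / e : ℕ) : ℝ) + 1 := by
    have h3 : A / e ≤ 4 * A / e := Nat.div_le_div_right (by omega)
    have : ((KK A J h w c).filter (fun k => k % e = r)).card + A / e ≤ 4 * A / e + 1 := by omega
    exact_mod_cast this
  have h3 : ((4 * A / e : ℕ) : ℝ) ≤ 4 * A / e := by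
    have : ((4 * A / e : ℕ) : ℝ) ≤ ((4 * A : ℕ) : ℝ) / e := Nat.cast_div_le
    push_cast at this
    exact this
  have h4 : (A : ℝ) / e ≤ ((A / e : ℕ) : ℝ) + 1 := by
    rw [div_le_iff₀ her]
    have := Nat.lt_div_mul_add (a := A) (b := e) (by omega)
    have h5 : A ≤ (A / e + 1) * e := by
      rw [Nat.add_mul, one_mul]
      exact this.le
    exact_mod_cast h5
  have h5 : (1 : ℝ) ≤ 3 * A / e := by
    rw [one_le_div her]
    exact_mod_cast heA
  have h6 : (3 : ℝ) * A / e = 3 * (A / e) := by ring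
  have h7 : (4 : ℝ) * A / e = 4 * (A / e) := by ring
  have h8 : (9 : ℝ) * A / e = 9 * (A / e) := by ring
  rw [h6] at h5
  rw [h7] at h3
  rw [h8]
  linarith

/-- The pair sum. -/
theorem FH.pair_sum (H : FH A J w h c U L₀ y₀) :
    ∑ q ∈ (KK A J h w c).offDiag, cfac ((q.1 : ℤ) - (q.2 : ℤ)).natAbs ≤
      2 * ((KK A J h w c).card * (8 * (U * H0 J h) + 9 * A / y₀)) := by
  classical
  set K := KK A J h w c with hK
  have h1 : ∀ q ∈ K.offDiag, cfac ((q.1 : ℤ) - (q.2 : ℤ)).natAbs ≤
      2 * ∑ e ∈ Icc 1 (3 * A), (if q.2 % e = q.1 % e then (1 : ℝ) / e else 0) := by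
    intro q hq
    rw [mem_offDiag] at hq
    have hb1 := H.bounds hq.1
    have hb2 := H.bounds hq.2.1
    rw [cfac]
    apply mul_le_mul_of_nonneg_left _ (by norm_num)
    rw [← Finset.sum_filter]
    apply Finset.sum_le_sum_of_subset_of_nonneg
    · intro e he
      rw [Nat.mem_divisors] at he
      rw [mem_filter, mem_Icc]
      have h2 : 0 < e := Nat.pos_of_ne_zero (fun h0 => by
        rw [h0, zero_dvd_iff] at he
        exact he.2 he.1)
      have h3 := Nat.le_of_dvd (Nat.pos_of_ne_zero he.2) he.1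
      refine ⟨⟨h2, by omega⟩, ?_⟩
      have h4 : (e : ℤ) ∣ (q.1 : ℤ) - (q.2 : ℤ) := Int.natCast_dvd.2 he.1
      have h5 : (q.2 : ℤ) ≡ (q.1 : ℤ) [ZMOD e] := (Int.modEq_iff_dvd).2 h4
      exact (Int.natCast_modEq_iff).1 h5
    · intro _ _ _
      positivity
  refine (Finset.sum_le_sum h1).trans ?_
  rw [← Finset.mul_sum]
  apply mul_le_mul_of_nonneg_left _ (by norm_num)
  have h2 : ∑ q ∈ K.offDiag, ∑ e ∈ Icc 1 (3 * A), (if q.2 % e = q.1 % e then (1 : ℝ) / e else 0) ≤
      ∑ q ∈ K ×ˢ K, ∑ e ∈ Icc 1 (3 * A), (if q.2 % e = q.1 % e then (1 : ℝ) / e else 0) := by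
    apply Finset.sum_le_sum_of_subset_of_nonneg
    · intro q hq
      rw [mem_offDiag] at hq
      exact mem_product.2 ⟨hq.1, hq.2.1⟩
    · intro q _ _
      apply Finset.sum_nonneg
      intro e _
      split_ifs
      · positivity
      · exact le_rfl
  refine h2.trans ?_
  rw [Finset.sum_product]
  have h3 : ∀ k ∈ K, ∑ k' ∈ K, ∑ e ∈ Icc 1 (3 * A), (if k' % e = k % e then (1 : ℝ) / e else 0) ≤
      8 * (U * H0 J h) + 9 * A / y₀ := by
    intro k _
    rw [Finset.sum_comm]
    have h4 : ∀ e ∈ Icc 1 (3 * A), ∑ k' ∈ K, (if k' % e = k % e then (1 : ℝ) / e else 0) ≤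
        (if e ≤ y₀ then (U * H0 J h) * ((1 : ℝ) / e * GT e) else 0) +
        (if y₀ < e then 9 * A * ((1 : ℝ) / (e : ℝ) ^ 2) else 0) := by
      intro e he
      rw [mem_Icc] at he
      have her : (0 : ℝ) < e := by exact_mod_cast he.1
      rw [← Finset.sum_filter, Finset.sum_const, nsmul_eq_mul]
      rcases Nat.lt_or_ge y₀ e with h5 | h5
      · rw [if_neg (by omega), if_pos h5, zero_add]
        have h6 := H.class_large he.1 he.2 (k % e)
        calc ((K.filter (fun k' => k' % e = k % e)).card : ℝ) * (1 / e) ≤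
              9 * A / e * (1 / e) := mul_le_mul_of_nonneg_right h6 (by positivity)
          _ = _ := by
              field_simp
      · rw [if_pos h5, if_neg (by omega), add_zero]
        have h6 := H.class_small he.1 h5 (k % e)
        calc ((K.filter (fun k' => k' % e = k % e)).card : ℝ) * (1 / e) ≤
              U * H0 J h * GT e * (1 / e) := mul_le_mul_of_nonneg_right h6 (by positivity)
          _ = _ := by ring
    refine (Finset.sum_le_sum h4).trans ?_
    rw [Finset.sum_add_distrib]
    apply add_le_add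
    · rw [← Finset.sum_filter, ← Finset.mul_sum]
      have h5 : ∑ e ∈ (Icc 1 (3 * A)).filter (fun e => e ≤ y₀), (1 : ℝ) / e * GT e ≤ 8 := by
        refine le_trans ?_ (sum_GT_le y₀)
        apply Finset.sum_le_sum_of_subset_of_nonneg
        · intro e he
          rw [mem_filter, mem_Icc] at he
          rw [mem_Icc]
          exact ⟨he.1.1, he.2⟩
        · intro e _ _
          have := GT_nonneg e
          positivity
      have h6 : 0 ≤ U * H0 J h := mul_nonneg H.hU (H0_nonneg J h)
      nlinarith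
    · rw [← Finset.sum_filter, ← Finset.mul_sum]
      have h5 : ∑ e ∈ (Icc 1 (3 * A)).filter (fun e => y₀ < e), (1 : ℝ) / (e : ℝ) ^ 2 ≤
          1 / y₀ := by
        refine le_trans ?_ (sum_Ioc_inv_sq_le (w := y₀) (J := 3 * A) H.hy₀)
        apply Finset.sum_le_sum_of_subset_of_nonneg
        · intro e he
          rw [mem_filter, mem_Icc] at he
          rw [mem_Ioc]
          exact ⟨he.2, he.1.2⟩
        · intro e _ _
          positivity
      calc 9 * (A : ℝ) * ∑ e ∈ (Icc 1 (3 * A)).filter (fun e => y₀ < e), (1 : ℝ) / (e : ℝ) ^ 2 ≤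
            9 * A * (1 / y₀) := mul_le_mul_of_nonneg_left h5 (by positivity)
        _ = _ := by ring
  refine (Finset.sum_le_sum h3).trans ?_
  rw [Finset.sum_const, nsmul_eq_mul]

end

end

end Pool.Agent.Lib_helper72.AS
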