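import Mathlib
import Pool.Agent.Lib_helper72.AS.Fam3
import Pool.Agent.Lib_helper72.AS.Primes
import Pool.Agent.Lib_helper72.AP.Assembly

set_option autoImplicit false

/-!
Existence of good families of cofactors.
-/

namespace Pool.Agent.Lib_helper72.AS

open Finset Filter Pool.Agent.Lib_helper72.AP

noncomputable section

lemma log_le_sum_inv (z : ℕ) : Real.log (z + 1) ≤ ∑ u ∈ Icc 1 z, (1 : ℝ) / u := by
  have h3 := log_add_one_le_harmonic z
  have h4 : ((harmonic z : ℚ) : ℝ) = ∑ m ∈ Icc 1 z, (1 : ℝ) / m := by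
    rw [harmonic_eq_sum_Icc]
    push_cast
    apply Finset.sum_congr rfl
    intro i _
    rw [one_div]
  rw [h4, Nat.cast_add, Nat.cast_one] at h3
  exact h3

lemma log_le_of_root {A z : ℕ} (hA : 1 ≤ A) (hz : A < (z + 1) ^ 16) :
    Real.log A ≤ 16 * Real.log (z + 1) := by
  have h1 : (A : ℝ) ≤ ((z : ℝ) + 1) ^ 16 := by exact_mod_cast hz.le
  have h2 := Real.log_le_log (by exact_mod_cast hA) h1
  rw [Real.log_pow] at h2
  exact_mod_cast h2

lemma four_le_of_root {A z : ℕ} (hz : 10 ≤ z) (hz1 : z ^ 16 ≤ A) : (4 : ℝ) ≤ A := by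
  have h1 : 10 ^ 16 ≤ A := (Nat.pow_le_pow_left hz 16).trans hz1
  have h2 : (4 : ℕ) ≤ A := le_trans (by norm_num) h1
  exact_mod_cast h2

lemma succ_sq_le_cube {z : ℕ} (hz : 10 ≤ z) : (z + 1) ^ 2 ≤ z ^ 3 := by
  calc (z + 1) ^ 2 ≤ (2 * z) ^ 2 := Nat.pow_le_pow_left (by omega) 2
    _ = 4 * z ^ 2 := by ring
    _ ≤ z * z ^ 2 := Nat.mul_le_mul_right _ (by omega)
    _ = z ^ 3 := by ring

lemma exists_root_ge {A : ℕ} (hA : 10 ^ 16 ≤ A) :
    ∃ z : ℕ, 10 ≤ z ∧ z ^ 16 ≤ A ∧ A < (z + 1) ^ 16 := by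
  obtain ⟨z, hz1, hz2⟩ := exists_root16 A
  refine ⟨z, ?_, hz1, hz2⟩
  by_contra hlt
  have h1 : (z + 1) ^ 16 ≤ 10 ^ 16 := Nat.pow_le_pow_left (by omega) 16
  omega

/-- The Brun-Titchmarsh bound for the family. -/
lemma bt_family {A J z : ℕ} (hz5 : 10 ≤ z) (hz1 : z ^ 16 ≤ A) (hz2 : A < (z + 1) ^ 16)
    (hJ : J ^ 4 ≤ A) {j : ℕ} (hj : j ∈ Icc 1 J) {e : ℕ} (he1 : 1 ≤ e) (hez : e ≤ z) (b : ℕ) :
    (((QQ (A / j)).filter (fun q => q % e = b)).card : ℝ) ≤
      81 * (A / Real.log A) / (j * e.totient) := by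
  rw [mem_Icc] at hj
  have hA1 : 1 ≤ A := le_trans (Nat.one_le_pow _ _ (by omega)) hz1
  have hz0 : 0 < z := by omega
  have hj0 : 0 < j := by omega
  -- x ≥ z^12
  have hx : z ^ 12 ≤ A / j := by
    rw [Nat.le_div_iff_mul_le hj0]
    have h1 : (z ^ 12 * j) ^ 4 ≤ A ^ 4 := by
      calc (z ^ 12 * j) ^ 4 = (z ^ 16) ^ 3 * j ^ 4 := by ring
        _ ≤ A ^ 3 * A := Nat.mul_le_mul (Nat.pow_le_pow_left hz1 3)
            ((Nat.pow_le_pow_left hj.2 4).trans hJ)
        _ = A ^ 4 := by ring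
    exact (Nat.pow_le_pow_iff_left (by norm_num)).1 h1
  have hzx : z ≤ A / j := by
    refine le_trans ?_ hx
    calc z = z ^ 1 := (pow_one z).symm
      _ ≤ z ^ 12 := Nat.pow_le_pow_right hz0 (by norm_num)
  have hbt := brun_titchmarsh (x := A / j) (e := e) (z := z) he1 (hez.trans hzx) hz0 hzx b
  have h4 : ((A / j : ℕ) : ℝ) ≤ A / j := Nat.cast_div_le
  have hA3 : (4 : ℝ) ≤ A := four_le_of_root hz5 hz1
  have hlog1 : Real.log A ≤ 16 * Real.log (z + 1) := log_le_of_root hA1 hz2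
  generalize A / j = x at hx hzx hbt h4 ⊢
  have hxr : (z : ℝ) ^ 12 ≤ x := by exact_mod_cast hx
  clear hz1 hz2 hJ hx
  have her : (0 : ℝ) < e := by exact_mod_cast he1
  have hjr : (0 : ℝ) < j := by exact_mod_cast hj0
  have hzr : (10 : ℝ) ≤ z := by exact_mod_cast hz5
  have hphi : (0 : ℝ) < e.totient := by exact_mod_cast Nat.totient_pos.2 he1
  have hlogA : 0 < Real.log A := Real.log_pos (by linarith)
  have hlog2 : Real.log (z + 1) ≤ z := by
    have := Real.log_le_sub_one_of_pos (show (0 : ℝ) < z + 1 by positivity)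
    linarith
  have hS : Real.log A / 16 ≤ ∑ u ∈ Icc 1 z, (1 : ℝ) / u := by
    have := log_le_sum_inv z
    linarith
  have hS0 : 0 < ∑ u ∈ Icc 1 z, (1 : ℝ) / u := by linarith [div_pos hlogA (show (0 : ℝ) < 16 by norm_num)]
  have hex : (e : ℝ) ≤ x := by exact_mod_cast hez.trans hzx
  have h1 : (3 * (x : ℝ) / e + 2) / (∑ u ∈ Icc 1 z, (1 : ℝ) / u) ≤
      (5 * x / e) / (Real.log A / 16) := by
    apply div_le_div₀ (by positivity) _ (by positivity) hS
    have h2 : (1 : ℝ) ≤ x / e := by rwa [one_le_div her]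
    have e1 : 3 * (x : ℝ) / e = 3 * (x / e) := by ring
    have e2 : 5 * (x : ℝ) / e = 5 * (x / e) := by ring
    rw [e1, e2]
    linarith
  have h2 : (e : ℝ) * (z : ℝ) ^ 6 ≤ x / Real.log A := by
    rw [le_div_iff₀ hlogA]
    have h3 : Real.log A ≤ (z : ℝ) ^ 5 := by
      have h4 : (16 : ℝ) * z ≤ z ^ 5 := by
        have h5 : (16 : ℝ) ≤ z ^ 4 := by
          calc (16 : ℝ) ≤ 10 ^ 4 := by norm_num
            _ ≤ z ^ 4 := by gcongr
        calc (16 : ℝ) * z ≤ z ^ 4 * z := by gcongr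
          _ = z ^ 5 := by ring
      linarith
    have h4 : (e : ℝ) ≤ z := by exact_mod_cast hez
    calc (e : ℝ) * (z : ℝ) ^ 6 * Real.log A ≤ z * (z : ℝ) ^ 6 * z ^ 5 := by gcongr
      _ = (z : ℝ) ^ 12 := by ring
      _ ≤ x := hxr
  have h3 : (((QQ x).filter (fun q => q % e = b)).card : ℝ) * e.totient ≤
      81 * (x / Real.log A) := by
    calc (((QQ x).filter (fun q => q % e = b)).card : ℝ) * e.totient ≤
          e * ((3 * x / e + 2) / (∑ u ∈ Icc 1 z, (1 : ℝ) / u) + (z : ℝ) ^ 6) := hbt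
      _ ≤ e * ((5 * x / e) / (Real.log A / 16) + (z : ℝ) ^ 6) := by gcongr
      _ = 80 * (x / Real.log A) + e * (z : ℝ) ^ 6 := by
          field_simp
          ring
      _ ≤ 80 * (x / Real.log A) + x / Real.log A := by linarith
      _ = _ := by ring
  rw [le_div_iff₀ (by positivity)]
  calc (((QQ x).filter (fun q => q % e = b)).card : ℝ) * (j * e.totient) =
        ((((QQ x).filter (fun q => q % e = b)).card : ℝ) * e.totient) * j := by ring
    _ ≤ 81 * (x / Real.log A) * j := by gcongr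
    _ ≤ 81 * (A / j / Real.log A) * j := by gcongr
    _ = _ := by
        field_simp

/-- The lower bound for the number of primes in the family. -/
lemma low_family {A J z : ℕ} (hz5 : 10 ≤ z) (hz1 : z ^ 16 ≤ A) (hz2 : A < (z + 1) ^ 16)
    (hJ : J ^ 4 ≤ A) {c : ℤ} (hc : c ≠ 0) (hcA : 16 * J * Real.log |(c : ℝ)| ≤ A)
    {j : ℕ} (hj : j ∈ Icc 1 J) :
    (A / (8 * Real.log A)) / j ≤ ((Qj A c j).card : ℝ) := by
  classical
  rw [mem_Icc] at hj
  have hA1 : 1 ≤ A := le_trans (Nat.one_le_pow _ _ (by omega)) hz1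
  have hz0 : 0 < z := by omega
  have hj0 : 0 < j := by omega
  have hx : z ^ 12 ≤ A / j := by
    rw [Nat.le_div_iff_mul_le hj0]
    have h1 : (z ^ 12 * j) ^ 4 ≤ A ^ 4 := by
      calc (z ^ 12 * j) ^ 4 = (z ^ 16) ^ 3 * j ^ 4 := by ring
        _ ≤ A ^ 3 * A := Nat.mul_le_mul (Nat.pow_le_pow_left hz1 3)
            ((Nat.pow_le_pow_left hj.2 4).trans hJ)
        _ = A ^ 4 := by ring
    exact (Nat.pow_le_pow_iff_left (by norm_num)).1 h1
  have hxA : A / j ≤ A := Nat.div_le_self A j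
  have hxAj : A < (A / j + 1) * j := by
    rw [Nat.add_mul, one_mul]
    exact Nat.lt_div_mul_add hj0
  have hQj : Qj A c j = (QQ (A / j)).filter (fun q => ¬ ((q : ℕ) : ℤ) ∣ c) := rfl
  rw [hQj]
  generalize A / j = x at hx hxA hxAj ⊢
  clear hQj
  have hjr : (0 : ℝ) < j := by exact_mod_cast hj0
  have hzr : (10 : ℝ) ≤ z := by exact_mod_cast hz5
  have hA4 : (4 : ℝ) ≤ A := four_le_of_root hz5 hz1
  have hlogA : 0 < Real.log A := Real.log_pos (by linarith)
  have hlog1 : Real.log A ≤ 16 * Real.log (z + 1) := log_le_of_root hA1 hz2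
  have hx1 : 1 ≤ x := le_trans (Nat.one_le_pow _ _ hz0) hx
  have hAx2 : (A : ℝ) ≤ (x : ℝ) ^ 2 := by
    have h1 : A ≤ x ^ 2 := by
      have h2 : (z + 1) ^ 2 ≤ z ^ 3 := succ_sq_le_cube hz5
      calc A ≤ (z + 1) ^ 16 := hz2.le
        _ = ((z + 1) ^ 2) ^ 8 := by ring
        _ ≤ (z ^ 3) ^ 8 := Nat.pow_le_pow_left h2 8
        _ = (z ^ 12) ^ 2 := by ring
        _ ≤ x ^ 2 := Nat.pow_le_pow_left hx 2
    exact_mod_cast h1
  have hxr : (z : ℝ) ^ 12 ≤ x := by exact_mod_cast hx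
  clear hz1 hz2 hJ hx
  have hlog2 : Real.log (z + 1) ≤ z := by
    have := Real.log_le_sub_one_of_pos (show (0 : ℝ) < z + 1 by positivity)
    linarith
  have hx0r : (0 : ℝ) < x := by exact_mod_cast hx1
  have h4x : Real.log ((4 * x : ℕ) : ℝ) ≤ 2 * Real.log A := by
    have e1 : ((4 * x : ℕ) : ℝ) ≤ (A : ℝ) ^ 2 := by
      have h2 : (x : ℝ) ≤ A := by exact_mod_cast hxA
      push_cast
      nlinarith
    have e2 := Real.log_le_log (by push_cast; positivity) e1
    rw [Real.log_pow] at e2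
    exact_mod_cast e2
  have h80 : 80 * Real.log ((4 * x : ℕ) : ℝ) ≤ Real.sqrt x := by
    have h1 : (z : ℝ) ^ 6 ≤ Real.sqrt x := by
      apply Real.le_sqrt_of_sq_le
      have : ((z : ℝ) ^ 6) ^ 2 = (z : ℝ) ^ 12 := by ring
      rw [this]
      exact hxr
    refine le_trans ?_ h1
    have h5 : (2560 : ℝ) ≤ z ^ 5 := by
      calc (2560 : ℝ) ≤ 10 ^ 5 := by norm_num
        _ ≤ z ^ 5 := by gcongr
    calc 80 * Real.log ((4 * x : ℕ) : ℝ) ≤ 2560 * z := by linarith
      _ ≤ (z : ℝ) ^ 5 * z := by gcongr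
      _ = z ^ 6 := by ring
  have hcard := QQ_card_ge hx1 h80
  have hx2 : A / (2 * (j : ℝ)) ≤ x := by
    have h2 : A ≤ 2 * x * j := by nlinarith
    rw [div_le_iff₀ (by positivity)]
    have h3 : (A : ℝ) ≤ 2 * x * j := by exact_mod_cast h2
    linarith
  have hlogx : Real.log A / 2 ≤ Real.log x := by
    have h3 := Real.log_le_log (by linarith) hAx2
    rw [Real.log_pow] at h3
    push_cast at h3
    linarith
  have hdiv := card_prime_dvd_le' (QQ x) (fun a ha => (mem_filter.1 ha).2) (x := (x : ℝ))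
    (by exact_mod_cast hx1) (by
      intro a ha
      rw [QQ, mem_filter, mem_Ioc] at ha
      exact_mod_cast ha.1.1.le) hc
  have hsplit : (QQ x).card = ((QQ x).filter (fun q => ((q : ℕ) : ℤ) ∣ c)).card +
      ((QQ x).filter (fun q => ¬ ((q : ℕ) : ℤ) ∣ c)).card := by
    rw [Finset.card_filter_add_card_filter_not]
  have hsplit' : ((QQ x).card : ℝ) = (((QQ x).filter (fun q => ((q : ℕ) : ℤ) ∣ c)).card : ℝ) +
      (((QQ x).filter (fun q => ¬ ((q : ℕ) : ℤ) ∣ c)).card : ℝ) := by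
    exact_mod_cast hsplit
  have hu0 : (0 : ℝ) ≤ (((QQ x).filter (fun q => ((q : ℕ) : ℤ) ∣ c)).card : ℝ) :=
    Nat.cast_nonneg _
  generalize (((QQ x).filter (fun q => ((q : ℕ) : ℤ) ∣ c)).card : ℝ) = u at hsplit' hu0 hdiv
  have h1 : u * (Real.log A / 2) ≤ Real.log |(c : ℝ)| := by
    refine le_trans ?_ hdiv
    gcongr
  have hcl : 0 ≤ Real.log |(c : ℝ)| := by
    apply Real.log_nonneg
    have : (1 : ℤ) ≤ |c| := Int.one_le_abs hc
    exact_mod_cast this
  have h2 : 16 * (j : ℝ) * Real.log |(c : ℝ)| ≤ A := by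
    have : (j : ℝ) ≤ J := by exact_mod_cast hj.2
    refine le_trans ?_ hcA
    gcongr
  have h3 : u * (8 * Real.log A * j) ≤ A := by
    calc u * (8 * Real.log A * j) = 16 * j * (u * (Real.log A / 2)) := by ring
      _ ≤ 16 * j * Real.log |(c : ℝ)| := by gcongr
      _ ≤ A := h2
  have h4 : (A : ℝ) ≤ (QQ x).card * (4 * Real.log A * j) := by
    have h5 : (A : ℝ) ≤ x * (2 * j) := by
      rwa [div_le_iff₀ (by positivity)] at hx2
    calc (A : ℝ) ≤ x * (2 * j) := h5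
      _ ≤ ((QQ x).card * Real.log ((4 * x : ℕ) : ℝ)) * (2 * j) := by gcongr
      _ ≤ ((QQ x).card * (2 * Real.log A)) * (2 * j) := by gcongr
      _ = _ := by ring
  rw [hsplit'] at h4
  rw [div_div, div_le_iff₀ (by positivity)]
  nlinarith

/-- Good families of cofactors. -/
theorem family : ∃ κ : ℝ, 0 < κ ∧ ∃ A₀ : ℕ, ∀ A : ℕ, A₀ ≤ A → ∀ J : ℕ, 1 ≤ J → J ^ 4 ≤ A →
    ∀ c : ℤ, c ≠ 0 → 16 * J * Real.log |(c : ℝ)| ≤ A →
    ∃ (K : Finset ℕ) (R : ℕ), Fam A K R c ∧ 3229440 * (R : ℝ) ≤ K.card ∧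
      (∀ k ∈ K, cfac k ≤ 4) ∧
      ∑ q ∈ K.offDiag, cfac ((q.1 : ℤ) - (q.2 : ℤ)).natAbs ≤ 17000 * (K.card : ℝ) ^ 2 ∧
      A * Real.log (J + 1) ≤ κ * (Real.log A * cfac c.natAbs * K.card) := by
  classical
  obtain ⟨w, hw⟩ := exists_nat_ge (4 * 10 ^ 10 : ℝ)
  have hW0 : primorial w ≠ 0 := primorial_ne_zero w
  have hcW := cfac_pos hW0
  refine ⟨6 * cfac (primorial w), by positivity, 10 ^ 16, ?_⟩
  intro A hA J hJ1 hJ c hc hcA
  have hA1 : 1 ≤ A := le_trans (by norm_num) hA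
  have hA6 : 10 ^ 6 ≤ A := le_trans (by norm_num) hA
  obtain ⟨z, hz10, hz1, hz2⟩ := exists_root_ge hA
  clear hA
  have hzr : (10 : ℝ) ≤ z := by exact_mod_cast hz10
  have hA4 : (4 : ℝ) ≤ A := four_le_of_root hz10 hz1
  have hlogA : 0 < Real.log A := Real.log_pos (by linarith)
  have hlog1 : Real.log A ≤ 16 * Real.log (z + 1) := log_le_of_root hA1 hz2
  have hlog2 : Real.log (z + 1) ≤ z := by
    have := Real.log_le_sub_one_of_pos (show (0 : ℝ) < z + 1 by positivity)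
    linarith
  have hlog3 : Real.log A ≤ 16 * z := by linarith
  have hcn : c.natAbs ≠ 0 := Int.natAbs_ne_zero.2 hc
  set h := primorial w * c.natAbs with hh
  set U : ℝ := 81 * (A / Real.log A) with hU
  set L₀ : ℝ := A / (8 * Real.log A) with hL₀
  have hUL : U = 648 * L₀ := by
    rw [hU, hL₀]
    field_simp
    ring
  have hL0pos : 0 < L₀ := by positivity
  have hwN : 40 ≤ w := by
    have : (40 : ℝ) ≤ w := by linarith
    exact_mod_cast this
  have H : FH A J w h c U L₀ z := by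
    refine ⟨hA6, hJ1, ?_, hwN, dvd_mul_right _ _, dvd_mul_left _ _, hc,
      Nat.mul_ne_zero hW0 hcn, by positivity, hL0pos.le, by omega, ?_, ?_⟩
    · refine le_trans ?_ hJ
      calc J * J = J ^ 2 := by ring
        _ ≤ J ^ 4 := Nat.pow_le_pow_right hJ1 (by norm_num)
    · intro j hj e he1 hez b
      exact bt_family hz10 hz1 hz2 hJ hj he1 hez b
    · intro j hj
      exact low_family hz10 hz1 hz2 hJ hc hcA hj
  set K := KK A J h w c with hK
  have hcard := H.card_ge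
  rw [← hK] at hcard
  have hH1 := one_le_H0 hJ1 h
  set H₀ := H0 J h with hH₀
  have hH0 : 0 < H₀ := by linarith
  have hLH : 0 < L₀ * H₀ := by positivity
  have hwr : (0 : ℝ) < w := by linarith
  have hJz : (J : ℝ) ≤ (z + 1) ^ 4 := by
    have h5 : J ^ 4 ≤ ((z + 1) ^ 4) ^ 4 := by
      calc J ^ 4 ≤ A := hJ
        _ ≤ (z + 1) ^ 16 := hz2.le
        _ = ((z + 1) ^ 4) ^ 4 := by ring
    exact_mod_cast (Nat.pow_le_pow_iff_left (by norm_num)).1 h5
  have h7 : (z : ℝ) ^ 16 ≤ A := by exact_mod_cast hz1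
  clear hz1 hz2 hJ
  obtain ⟨R, hR⟩ : ∃ R : ℕ, R = ⌊(J : ℝ) + U * (4 / w * H₀)⌋₊ := ⟨_, rfl⟩
  have hRle : (R : ℝ) ≤ J + U * (4 / w * H₀) := by
    rw [hR]
    exact Nat.floor_le (by positivity)
  have hR1 : 1 ≤ R := by
    rw [hR, Nat.one_le_floor_iff]
    have h1 : (1 : ℝ) ≤ J := by exact_mod_cast hJ1
    have h2 : 0 ≤ U * (4 / w * H₀) := by positivity
    linarith
  -- the bound for R
  have hRK : 3229440 * (R : ℝ) ≤ K.card := by
    have h1 : U * (4 / w * H₀) * 3229440 ≤ 1 / 4 * (L₀ * H₀) := by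
      rw [hUL]
      have h2 : 4 / (w : ℝ) ≤ 1 / (10 ^ 10) := by
        rw [div_le_div_iff₀ hwr (by norm_num)]
        linarith
      calc 648 * L₀ * (4 / w * H₀) * 3229440 = (648 * 3229440 * (4 / w)) * (L₀ * H₀) := by ring
        _ ≤ (648 * 3229440 * (1 / (10 ^ 10))) * (L₀ * H₀) := by gcongr
        _ ≤ 1 / 4 * (L₀ * H₀) := by
            apply mul_le_mul_of_nonneg_right _ hLH.le
            norm_num
    have h2 : 3229440 * (J : ℝ) ≤ 1 / 2 * (L₀ * H₀) := by
      have h3 : 3229440 * (J : ℝ) ≤ 1 / 2 * L₀ := by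
        rw [hL₀]
        have h5 : (J : ℝ) ≤ (z + 1) ^ 4 := hJz
        have h6 : ((z : ℝ) + 1) ^ 4 ≤ (2 * z) ^ 4 := by
          gcongr
          linarith
        have h8 : (10 : ℝ) ^ 11 ≤ (z : ℝ) ^ 11 := by gcongr
        have e9 : 1 / 2 * ((A : ℝ) / (8 * Real.log A)) = A / (16 * Real.log A) := by
          rw [one_div_mul_eq_div, div_div]
          congr 1
          ring
        rw [e9, le_div_iff₀ (by positivity)]
        calc 3229440 * (J : ℝ) * (16 * Real.log A) ≤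
              3229440 * (2 * z) ^ 4 * (16 * (16 * z)) := by
              gcongr
              linarith
          _ = (3229440 * 16 * 256) * (z : ℝ) ^ 5 := by ring
          _ ≤ (z : ℝ) ^ 11 * (z : ℝ) ^ 5 := by
              gcongr
              linarith
          _ = (z : ℝ) ^ 16 := by ring
          _ ≤ A := h7
      calc 3229440 * (J : ℝ) ≤ 1 / 2 * L₀ := h3
        _ = 1 / 2 * (L₀ * 1) := by ring
        _ ≤ 1 / 2 * (L₀ * H₀) := by gcongr
    linarith
  have hKcard : (K.card : ℝ) ≤ 3 * A := by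
    have hsub : K ⊆ Ioc A (4 * A) := by
      intro k hk
      rw [mem_Ioc]
      exact H.bounds hk
    have h1 := Finset.card_le_card hsub
    rw [Nat.card_Ioc] at h1
    have h2 : K.card ≤ 3 * A := by omega
    exact_mod_cast h2
  refine ⟨K, R, ⟨hA6, fun k hk => (H.bounds hk).1,
    fun k hk => (H.bounds hk).2, fun k hk => H.tot hk, hR1, ?_, ?_, fun k hk => H.unit hk⟩,
    hRK, fun k hk => H.cfac_le hk, ?_, ?_⟩
  · have h1 : (R : ℝ) ≤ 3 * A := by
      have : (0 : ℝ) ≤ R := Nat.cast_nonneg _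
      linarith
    exact_mod_cast h1
  · intro k hk
    rw [hR]
    apply Nat.le_floor
    exact H.card_not_coprime hk
  · have h1 := H.pair_sum
    rw [← hK, ← hH₀] at h1
    refine h1.trans ?_
    have h2 : 9 * (A : ℝ) / z ≤ 1152 * (L₀ * H₀) := by
      have h3 : 9 * (A : ℝ) / z ≤ 1152 * L₀ := by
        rw [hL₀, ← mul_div_assoc, div_le_div_iff₀ (by positivity) (by positivity)]
        have h4 : 0 ≤ (A : ℝ) := by linarith
        nlinarith
      calc 9 * (A : ℝ) / z ≤ 1152 * L₀ := h3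
        _ = 1152 * (L₀ * 1) := by ring
        _ ≤ 1152 * (L₀ * H₀) := by gcongr
    have h3 : 8 * (U * H₀) + 9 * A / z ≤ 8448 * K.card := by
      rw [hUL]
      linarith
    have h4 : (0 : ℝ) ≤ K.card := Nat.cast_nonneg _
    calc 2 * ((K.card : ℝ) * (8 * (U * H₀) + 9 * A / z)) ≤
          2 * ((K.card : ℝ) * (8448 * K.card)) := by gcongr
      _ ≤ _ := by nlinarith
  · have h1 := H0_ge (h := h) (Nat.mul_ne_zero hW0 hcn) J
    rw [← hH₀] at h1
    have h2 : cfac h ≤ cfac (primorial w) * cfac c.natAbs / 2 := cfac_mul_le _ _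
    have h3 : Real.log (J + 1) ≤ cfac (primorial w) * cfac c.natAbs / 2 * H₀ :=
      h1.trans (by gcongr)
    have hcp := cfac_pos hcn
    have h4 : (A : ℝ) * H₀ = 8 * Real.log A * (L₀ * H₀) := by
      rw [hL₀]
      field_simp
    have h5 : L₀ * H₀ ≤ 4 / 3 * K.card := by linarith
    calc A * Real.log (J + 1) ≤ A * (cfac (primorial w) * cfac c.natAbs / 2 * H₀) := by gcongr
      _ = cfac (primorial w) * cfac c.natAbs / 2 * (A * H₀) := by ring
      _ = cfac (primorial w) * cfac c.natAbs / 2 * (8 * Real.log A * (L₀ * H₀)) := by rw [h4]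
      _ ≤ cfac (primorial w) * cfac c.natAbs / 2 * (8 * Real.log A * (4 / 3 * K.card)) := by
          gcongr
      _ ≤ 6 * cfac (primorial w) * (Real.log A * cfac c.natAbs * K.card) := by
          have h6 : 0 ≤ cfac (primorial w) * cfac c.natAbs * Real.log A * K.card := by positivity
          nlinarith

end

end Pool.Agent.Lib_helper72.AS
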