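import Mathlib
import Pool.Agent.Lib_helper72.AS.Fam4

set_option autoImplicit false

/-!
Lower bounds for the number of integers free of a given sparse set of primes: definitions and
statements of the modules.
-/

namespace Pool.Agent.Lib_helper72.AS

open Finset Filter Pool.Agent.Lib_helper72.AP

noncomputable section

/-- The primes in `(x, y]`. -/
def PI (x y : ℝ) : Finset ℕ := (Ioc ⌊x⌋₊ ⌊y⌋₊).filter Nat.Prime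

lemma mem_PI {x y : ℝ} (hx : 0 ≤ x) {p : ℕ} :
    p ∈ PI x y ↔ p.Prime ∧ x < p ∧ (p : ℝ) ≤ y := by
  rw [PI, mem_filter, mem_Ioc, Nat.floor_lt hx]
  constructor
  · rintro ⟨⟨h1, h2⟩, h3⟩
    exact ⟨h3, h1, (Nat.le_floor_iff' h3.ne_zero).1 h2⟩
  · rintro ⟨h1, h2, h3⟩
    exact ⟨⟨h2, (Nat.le_floor_iff' h1.ne_zero).2 h3⟩, h1⟩

/-- The sum of `1 / p` over the primes dividing `n` in `(x, y]`. -/
def mE (n : ℕ) (x y : ℝ) : ℝ := ∑ p ∈ (PI x y).filter (fun p => p ∣ n), (1 : ℝ) / p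

/-- The sum of `1 / p` over the primes not dividing `n` in `(x, y]`. -/
def mU (n : ℕ) (x y : ℝ) : ℝ := ∑ p ∈ (PI x y).filter (fun p => ¬ p ∣ n), (1 : ℝ) / p

/-- The integers in `(x, 4x]` all of whose prime factors exceed `D` and do not divide `n`. -/
def NN (D : ℝ) (n : ℕ) (x : ℝ) : Finset ℕ := by
  classical
  exact (Ioc ⌊x⌋₊ ⌊4 * x⌋₊).filter (fun m => ∀ p : ℕ, p.Prime → p ∣ m → D < p ∧ ¬ p ∣ n)

lemma mem_NN {D x : ℝ} (hx : 0 ≤ x) {n m : ℕ} :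
    m ∈ NN D n x ↔ (x < m ∧ (m : ℝ) ≤ 4 * x) ∧
      ∀ p : ℕ, p.Prime → p ∣ m → D < p ∧ ¬ p ∣ n := by
  classical
  rw [NN, mem_filter, mem_Ioc, Nat.floor_lt hx]
  constructor
  · rintro ⟨⟨h1, h2⟩, h3⟩
    have hm : m ≠ 0 := by
      rintro rfl
      simp only [Nat.cast_zero] at h1
      linarith
    exact ⟨⟨h1, (Nat.le_floor_iff' hm).1 h2⟩, h3⟩
  · rintro ⟨⟨h1, h2⟩, h3⟩
    have hm : m ≠ 0 := by
      rintro rfl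
      simp only [Nat.cast_zero] at h1
      linarith
    exact ⟨⟨h1, (Nat.le_floor_iff' hm).2 h2⟩, h3⟩

/-- The integers `≤ y` all of whose prime factors exceed `D` and do not divide `n`. -/
def FF (D : ℝ) (n : ℕ) (y : ℝ) : Finset ℕ := by
  classical
  exact (Icc 1 ⌊y⌋₊).filter (fun m => ∀ p : ℕ, p.Prime → p ∣ m → D < p ∧ ¬ p ∣ n)

lemma mem_FF {D y : ℝ} {n m : ℕ} :
    m ∈ FF D n y ↔ (1 ≤ m ∧ (m : ℝ) ≤ y) ∧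
      ∀ p : ℕ, p.Prime → p ∣ m → D < p ∧ ¬ p ∣ n := by
  classical
  rw [FF, mem_filter, mem_Icc]
  constructor
  · rintro ⟨⟨h1, h2⟩, h3⟩
    exact ⟨⟨h1, (Nat.le_floor_iff' (by omega)).1 h2⟩, h3⟩
  · rintro ⟨⟨h1, h2⟩, h3⟩
    exact ⟨⟨h1, (Nat.le_floor_iff' (by omega)).2 h2⟩, h3⟩

/-- M0: Mertens. -/
def StmtMertens : Prop := ∃ C : ℝ, 0 < C ∧ ∀ x y : ℝ, 2 ≤ x → x ≤ y →
  |∑ p ∈ PI x y, (1 : ℝ) / p - (Real.log (Real.log y) - Real.log (Real.log x))| ≤ C / Real.log x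

/-- M1: Chebyshev. -/
def StmtCheb : Prop := ∃ c C x₀ : ℝ, 0 < c ∧ 0 < C ∧ 4 ≤ x₀ ∧ ∀ x : ℝ, x₀ ≤ x →
  c * (x / Real.log x) ≤ ((PI x (4 * x)).card : ℝ) ∧
  (((Icc 1 ⌊4 * x⌋₊).filter Nat.Prime).card : ℝ) ≤ C * (x / Real.log x)

/-- M2: climbing by the primes in `(e^b, e^b']`. -/
def StmtClimb : Prop := ∀ (D : ℝ) (n : ℕ) (σ s b b' φ : ℝ), 0 < b → 0 < σ → b' ≤ s - σ →
  D ≤ Real.exp b → 0 ≤ φ →
  (∀ x : ℝ, 0 < x → σ ≤ Real.log x → Real.log x ≤ s → φ * x ≤ ((NN D n x).card : ℝ)) →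
  ∀ x : ℝ, 0 < x → s ≤ Real.log x → Real.log x ≤ s + b →
    (b * mU n (Real.exp b) (Real.exp b') / (s + b + 2) * φ) * x ≤ ((NN D n x).card : ℝ)

/-- M3: the base of the climb, from a scale where `n` has few primes. -/
def StmtBase : Prop := ∃ ε c t₁ : ℝ, 0 < ε ∧ 0 < c ∧ 1 ≤ t₁ ∧ ∀ (D : ℝ) (n : ℕ) (t : ℝ),
  t₁ ≤ t → D ≤ Real.exp t → mE n (Real.exp t) (Real.exp (8 * t)) ≤ ε →
  ∀ x : ℝ, 0 < x → 16 / 5 * t ≤ Real.log x → Real.log x ≤ 8 * t →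
    (c / t * ∑ m ∈ FF D n (Real.exp t), (1 : ℝ) / m) * x ≤ ((NN D n x).card : ℝ)

/-- M4: logarithmic density. -/
def StmtFlow : Prop := ∃ c K : ℝ, 0 < c ∧ 1 ≤ K ∧ ∀ (D : ℝ) (n : ℕ) (t : ℝ),
  K ≤ Real.log D → K * Real.log D ≤ t →
  c * (t / Real.log D) * Real.exp (-mE n D (Real.exp t)) ≤ ∑ m ∈ FF D n (Real.exp t), (1 : ℝ) / m

/-- M5: integers free of the primes dividing `n`. -/
def StmtStar : Prop := ∃ δ a₀ : ℝ, 0 < δ ∧ 1 ≤ a₀ ∧ ∀ (a : ℝ) (n : ℕ), a₀ ≤ a → n ≠ 0 →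
  (∀ y : ℝ, mE n (Real.exp (a ^ (1 / 4 : ℝ))) y ≤
    Real.log (δ * (Real.log a / Real.log (Real.log a)))) →
  ∀ x : ℝ, 0 < x → a / 2 ≤ Real.log x → Real.log x ≤ a →
    a ^ (-(2 / 5) : ℝ) * x ≤ ((NN (Real.exp (a ^ (1 / 4 : ℝ))) n x).card : ℝ)

/-- M6: a scale where `n` has few primes. -/
def StmtScale : Prop := ∀ κ : ℝ, 0 < κ → ∃ a₀ : ℝ, 1 ≤ a₀ ∧ ∀ (a : ℝ) (n : ℕ), a₀ ≤ a →
  (∀ y : ℝ, mE n (a ^ (32 : ℝ)) y ≤ Real.log (Real.log a)) →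
  ∃ X : ℝ, a ^ (33 : ℝ) ≤ X ∧ 16 * X ≤ Real.exp (a ^ (1 / 4 : ℝ)) ∧
    (((PI (X / 8) (4 * X)).filter (fun p => p ∣ n)).card : ℝ) ≤ κ * (X / Real.log X)

/-- M7: the family of cofactors when `n` has few primes beyond `a ^ 32`. -/
def StmtFam2 : Prop := ∃ E δ : ℝ, 1 ≤ E ∧ 0 < δ ∧ ∃ A₀ : ℕ, ∀ (A : ℕ) (c : ℤ), A₀ ≤ A → c ≠ 0 →
  Real.log |(c : ℝ)| ≤ A →
  (∀ y : ℝ, mE c.natAbs ((Real.log A) ^ (32 : ℝ)) y ≤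
    Real.log (δ * (Real.log (Real.log A) / Real.log (Real.log (Real.log A))))) →
  ∃ (K : Finset ℕ) (R : ℕ), Fam A K R c ∧ 3229440 * (R : ℝ) ≤ K.card ∧
    (∀ k ∈ K, cfac k ≤ 4) ∧
    ∑ q ∈ K.offDiag, cfac ((q.1 : ℤ) - (q.2 : ℤ)).natAbs ≤ E * (K.card : ℝ) ^ 2 ∧
    A * (Real.log A) ^ (-(4 / 5) : ℝ) ≤ (K.card : ℝ)

/-- M8: the old family of cofactors, when `n` has many primes beyond `J`. -/
def StmtFam1 : Prop := ∃ κ : ℝ, 0 < κ ∧ ∃ A₀ : ℕ, ∀ A : ℕ, A₀ ≤ A → ∀ J : ℕ, 1 ≤ J → J ^ 4 ≤ A →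
    ∀ c : ℤ, c ≠ 0 → 16 * J * Real.log |(c : ℝ)| ≤ A → ∀ y : ℝ,
    ∃ (K : Finset ℕ) (R : ℕ), Fam A K R c ∧ 3229440 * (R : ℝ) ≤ K.card ∧
      (∀ k ∈ K, cfac k ≤ 4) ∧
      ∑ q ∈ K.offDiag, cfac ((q.1 : ℤ) - (q.2 : ℤ)).natAbs ≤ 17000 * (K.card : ℝ) ^ 2 ∧
      A * Real.log (J + 1) * Real.exp (mE c.natAbs J y) ≤
        κ * (Real.log A * cfac c.natAbs * K.card)

end

end Pool.Agent.Lib_helper72.AS
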