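import Mathlib
import Pool.Agent.Lib_helper92.BlockSieve.Mertens

set_option autoImplicit false

/-!
Sums over smooth numbers (Rankin's method).
-/

namespace Pool.Agent.Lib_helper72.AS

open Finset Filter BlockSieve

noncomputable section

/-- `n ↦ n ^ (-s)` as a multiplicative map. -/
def rp (s : ℝ) : ℕ →* ℝ where
  toFun n := (n : ℝ) ^ (-s)
  map_one' := by simp
  map_mul' a b := by
    push_cast
    exact Real.mul_rpow (Nat.cast_nonneg _) (Nat.cast_nonneg _)

lemma rp_apply (s : ℝ) (n : ℕ) : rp s n = (n : ℝ) ^ (-s) := rfl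

lemma rp_nonneg (s : ℝ) (n : ℕ) : 0 ≤ rp s n := by
  rw [rp_apply]
  positivity

lemma rp_lt_one {s : ℝ} (hs : 0 < s) {p : ℕ} (hp : p.Prime) : rp s p < 1 := by
  rw [rp_apply]
  apply Real.rpow_lt_one_of_one_lt_of_neg
  · exact_mod_cast hp.one_lt
  · linarith

lemma primesBelow_succ_eq (z : ℕ) : (z + 1).primesBelow = pr z := by
  ext p
  rw [Nat.mem_primesBelow, mem_pr]
  constructor
  · rintro ⟨h1, h2⟩
    exact ⟨h2, by omega⟩
  · rintro ⟨h1, h2⟩
    exact ⟨by omega, h1⟩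

/-- Sum over a finite set of smooth numbers. -/
lemma smooth_sum_le {s : ℝ} (hs : 0 < s) (z : ℕ) (S : Finset ℕ)
    (hS : ∀ n ∈ S, n ∈ Nat.smoothNumbers (z + 1)) :
    ∑ n ∈ S, (n : ℝ) ^ (-s) ≤ ∏ p ∈ pr z, (1 - (p : ℝ) ^ (-s))⁻¹ := by
  have h := EulerProduct.summable_and_hasSum_smoothNumbers_prod_primesBelow_geometric
    (f := rp s) (fun {p} hp => by
      rw [Real.norm_of_nonneg (rp_nonneg _ _)]
      exact rp_lt_one hs hp) (z + 1)
  rw [primesBelow_succ_eq] at h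
  have h2 := h.2
  have h3 : ∑ n ∈ S.subtype (fun n => n ∈ Nat.smoothNumbers (z + 1)), rp s n ≤
      ∏ p ∈ pr z, (1 - rp s p)⁻¹ := by
    apply sum_le_hasSum _ _ h2
    intro i _
    exact rp_nonneg _ _
  have h4 : ∑ n ∈ S.subtype (fun n => n ∈ Nat.smoothNumbers (z + 1)), rp s n =
      ∑ n ∈ S, rp s n := by
    rw [Finset.sum_subtype_of_mem (fun n => rp s n) hS]
  rw [h4] at h3
  exact h3

/-- Mertens product, lower bound. -/
lemma log_le_prod (z : ℕ) : Real.log ((z : ℝ) + 1) ≤ ∏ p ∈ pr z, (1 - (1 : ℝ) / p)⁻¹ := by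
  have h := smooth_sum_le (s := 1) one_pos z (Icc 1 z) (by
    intro n hn
    rw [mem_Icc] at hn
    rw [Nat.mem_smoothNumbers']
    intro p _ hd
    have := Nat.le_of_dvd (by omega) hd
    omega)
  have e1 : ∀ n : ℕ, (n : ℝ) ^ (-(1 : ℝ)) = 1 / (n : ℝ) := by
    intro n
    rw [Real.rpow_neg_one, one_div]
  simp only [e1] at h
  refine le_trans ?_ h
  have h2 := log_add_one_le_harmonic z
  rw [harmonic_eq_sum_Icc] at h2
  push_cast at h2
  simp only [one_div]
  exact h2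

end

end Pool.Agent.Lib_helper72.AS
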