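import Mathlib
import Pool.Agent.Lib_helper72.AS.LB1

set_option autoImplicit false

/-!
Rankin's upper bound for the number of smooth numbers.
-/

namespace Pool.Agent.Lib_helper72.AS

open Finset Filter BlockSieve

noncomputable section

/-- The sum of `n ^ (-3/2)`. -/
def zth : ℝ := ∑' n : ℕ, ((n : ℝ) ^ (3 / 2 : ℝ))⁻¹

lemma sum_pr_le_zth (z : ℕ) : ∑ p ∈ pr z, ((p : ℝ) ^ (3 / 2 : ℝ))⁻¹ ≤ zth := by
  unfold zth
  apply Summable.sum_le_tsum
  · intro i _
    positivity
  · exact Real.summable_nat_rpow_inv.2 (by norm_num)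

lemma inv_one_sub_le {x : ℝ} (h0 : 0 ≤ x) (h1 : x ≤ 3 / 5) :
    (1 - x)⁻¹ ≤ Real.exp (x + 5 / 2 * x ^ 2) := by
  have h2 : 0 < 1 - x := by linarith
  have e1 : (1 - x)⁻¹ = x / (1 - x) + 1 := by
    field_simp
    ring
  rw [e1]
  refine (Real.add_one_le_exp _).trans ?_
  apply Real.exp_le_exp.2
  rw [div_le_iff₀ h2]
  nlinarith [mul_nonneg h0 h0, mul_nonneg (mul_nonneg h0 h0) (show 0 ≤ 3 / 5 - x by linarith)]

lemma two_rpow_le : (2 : ℝ) ^ (-(3 / 4) : ℝ) ≤ 3 / 5 := by
  rw [Real.rpow_neg (by norm_num), inv_le_comm₀ (by positivity) (by norm_num)]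
  have h1 : ((5 / 3 : ℝ)) ^ (4 : ℝ) ≤ ((2 : ℝ) ^ (3 / 4 : ℝ)) ^ (4 : ℝ) := by
    rw [← Real.rpow_mul (by norm_num)]
    norm_num
  have h2 : (0 : ℝ) ≤ (2 : ℝ) ^ (3 / 4 : ℝ) := by positivity
  have h3 := (Real.rpow_le_rpow_iff (by norm_num) h2 (by norm_num : (0 : ℝ) < 4)).1 h1
  norm_num at h3 ⊢
  exact h3

/-- Euler factor bound for a prime. -/
lemma factor_le {L u : ℝ} {p z : ℕ} (hp : p ∈ pr z) (hz : Real.log z ≤ L) (hL : 0 < L)
    (hu : 1 ≤ u) (huL : Real.log u ≤ L / 4) :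
    (1 - (p : ℝ) ^ (-(1 - Real.log u / L)))⁻¹ ≤
      Real.exp (1 / p + (u - 1) / L * (Real.log p / p) + 5 / 2 * ((p : ℝ) ^ (3 / 2 : ℝ))⁻¹) := by
  have hpp := (mem_pr.1 hp).1
  have hpz := (mem_pr.1 hp).2
  have hp2 : (2 : ℝ) ≤ p := by exact_mod_cast hpp.two_le
  have hp0 : (0 : ℝ) < p := by linarith
  have hlogu : 0 ≤ Real.log u := Real.log_nonneg hu
  have hlogp : 0 ≤ Real.log p := Real.log_nonneg (by linarith)
  have hlogpz : Real.log p ≤ L :=
    (Real.log_le_log hp0 (by exact_mod_cast hpz)).trans hz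
  set θ := Real.log u / L with hθ
  have hθ0 : 0 ≤ θ := by positivity
  have hθ1 : θ ≤ 1 / 4 := by
    rw [hθ, div_le_iff₀ hL]
    linarith
  -- the size of `x`
  set x := (p : ℝ) ^ (-(1 - θ)) with hx
  have hx0 : 0 ≤ x := by positivity
  have hx34 : x ≤ (p : ℝ) ^ (-(3 / 4) : ℝ) := by
    apply Real.rpow_le_rpow_of_exponent_le (by linarith)
    linarith
  have hx35 : x ≤ 3 / 5 := by
    refine hx34.trans ((Real.rpow_le_rpow_of_nonpos (by norm_num) hp2 (by norm_num)).trans ?_)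
    exact two_rpow_le
  refine (inv_one_sub_le hx0 hx35).trans ?_
  apply Real.exp_le_exp.2
  have h1 : x ≤ 1 / p + (u - 1) / L * (Real.log p / p) := by
    have e1 : x = (p : ℝ) ^ θ / p := by
      rw [hx, show -(1 - θ) = θ - 1 by ring, Real.rpow_sub hp0, Real.rpow_one]
    have e2 : (p : ℝ) ^ θ = u ^ (Real.log p / L) := by
      rw [Real.rpow_def_of_pos hp0, Real.rpow_def_of_pos (by linarith), hθ]
      congr 1
      ring
    have h2 : u ^ (Real.log p / L) ≤ 1 + (Real.log p / L) * (u - 1) := by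
      have h3 := rpow_one_add_le_one_add_mul_self (s := u - 1) (p := Real.log p / L)
        (by linarith) (by positivity) (by rw [div_le_one hL]; exact hlogpz)
      rw [show 1 + (u - 1) = u by ring] at h3
      exact h3
    rw [e1, e2]
    calc u ^ (Real.log p / L) / p ≤ (1 + (Real.log p / L) * (u - 1)) / p := by gcongr
      _ = _ := by ring
  have h2 : x ^ 2 ≤ ((p : ℝ) ^ (3 / 2 : ℝ))⁻¹ := by
    have h3 : x ^ 2 ≤ ((p : ℝ) ^ (-(3 / 4) : ℝ)) ^ 2 := by gcongr
    refine h3.trans (le_of_eq ?_)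
    rw [← Real.rpow_natCast, ← Real.rpow_mul hp0.le, ← Real.rpow_neg hp0.le]
    norm_num
  linarith

lemma prod_factor_le {L u : ℝ} {z : ℕ} (hz2 : 2 ≤ z) (hz : Real.log z ≤ L)
    (hL4 : Real.log 4 ≤ L) (hu : 1 ≤ u) (huL : Real.log u ≤ L / 4) :
    ∏ p ∈ pr z, (1 - (p : ℝ) ^ (-(1 - Real.log u / L)))⁻¹ ≤
      L * Real.exp (2 * u + (4 + 5 / 2 * zth)) := by
  have hlog4 : 0 < Real.log 4 := Real.log_pos (by norm_num)
  have hL : 0 < L := by linarith
  have hlogz : 0 < Real.log z := Real.log_pos (by exact_mod_cast (by omega : 1 < z))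
  calc ∏ p ∈ pr z, (1 - (p : ℝ) ^ (-(1 - Real.log u / L)))⁻¹ ≤
        ∏ p ∈ pr z, Real.exp (1 / p + (u - 1) / L * (Real.log p / p) +
          5 / 2 * ((p : ℝ) ^ (3 / 2 : ℝ))⁻¹) := by
        apply Finset.prod_le_prod
        · intro p hp
          have hpp := (mem_pr.1 hp).1
          have h1 : (p : ℝ) ^ (-(1 - Real.log u / L)) ≤ 1 := by
            apply (Real.rpow_lt_one_of_one_lt_of_neg _ _).le
            · exact_mod_cast hpp.one_lt
            · have : Real.log u / L ≤ 1 / 4 := by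
                rw [div_le_iff₀ hL]
                linarith
              linarith
          rw [inv_nonneg]
          linarith
        · intro p hp
          exact factor_le hp hz hL hu huL
    _ = Real.exp (∑ p ∈ pr z, (1 / (p : ℝ) + (u - 1) / L * (Real.log p / p) +
          5 / 2 * ((p : ℝ) ^ (3 / 2 : ℝ))⁻¹)) := by rw [Real.exp_sum]
    _ ≤ Real.exp (Real.log L + (2 * u + (4 + 5 / 2 * zth))) := by
        apply Real.exp_le_exp.2
        rw [Finset.sum_add_distrib, Finset.sum_add_distrib, ← Finset.mul_sum, ← Finset.mul_sum]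
        have h1 := sum_inv_le hz2
        have h2 := sum_log_div_le (n := z) (by omega)
        have h3 := sum_pr_le_zth z
        have h4 : Real.log (Real.log z) ≤ Real.log L := Real.log_le_log hlogz hz
        have h5 : (u - 1) / L * ∑ p ∈ pr z, Real.log p / p ≤ (u - 1) / L * (2 * L) := by
          apply mul_le_mul_of_nonneg_left _ (div_nonneg (by linarith) hL.le)
          linarith
        have h6 : (u - 1) / L * (2 * L) = 2 * (u - 1) := by field_simp
        linarith
    _ = _ := by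
        rw [Real.exp_add, Real.exp_log hL]

/-- Rankin's bound. -/
theorem rankin {L u : ℝ} {z T : ℕ} (hz2 : 2 ≤ z) (hz : Real.log z ≤ L)
    (hL4 : Real.log 4 ≤ L) (hu : 1 ≤ u) (huL : Real.log u ≤ L / 4)
    (hT : u * L ≤ Real.log T) (S : Finset ℕ)
    (hS : ∀ k ∈ S, k ∈ Nat.smoothNumbers (z + 1) ∧ 1 ≤ k ∧ k ≤ T) :
    (S.card : ℝ) ≤
      T * (L * Real.exp (2 * u + (4 + 5 / 2 * zth) - u * Real.log u)) := by
  have hlog4 : 0 < Real.log 4 := Real.log_pos (by norm_num)
  have hL : 0 < L := by linarith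
  have hlogu : 0 ≤ Real.log u := Real.log_nonneg hu
  have hlogT : 0 < Real.log T := lt_of_lt_of_le (by positivity) hT
  have hT1 : (0 : ℝ) < T := by
    rcases Nat.eq_zero_or_pos T with h | h
    · rw [h] at hlogT
      simp at hlogT
    · exact_mod_cast h
  set θ := Real.log u / L with hθ
  have hθ1 : θ ≤ 1 / 4 := by
    rw [hθ, div_le_iff₀ hL]
    linarith
  have h1 := smooth_sum_le (s := 1 - θ) (by linarith) z S (fun n hn => (hS n hn).1)
  have h2 := prod_factor_le hz2 hz hL4 hu huL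
  rw [← hθ] at h2
  have h3 : (S.card : ℝ) ≤ (T : ℝ) ^ (1 - θ) * ∑ n ∈ S, (n : ℝ) ^ (-(1 - θ)) := by
    rw [Finset.mul_sum, Finset.card_eq_sum_ones]
    push_cast
    apply Finset.sum_le_sum
    intro k hk
    obtain ⟨_, hk1, hk2⟩ := hS k hk
    have hk0 : (0 : ℝ) < k := by exact_mod_cast hk1
    rw [Real.rpow_neg hk0.le, ← div_eq_mul_inv, ← Real.div_rpow hT1.le hk0.le]
    apply Real.one_le_rpow
    · rw [one_le_div hk0]
      exact_mod_cast hk2
    · linarith
  have h4 : (T : ℝ) ^ (1 - θ) ≤ T * Real.exp (-(u * Real.log u)) := by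
    rw [Real.rpow_sub hT1, Real.rpow_one, div_eq_mul_inv, ← Real.rpow_neg hT1.le]
    apply mul_le_mul_of_nonneg_left _ hT1.le
    rw [Real.rpow_def_of_pos hT1]
    apply Real.exp_le_exp.2
    have h5 : u * Real.log u ≤ Real.log T * θ := by
      rw [hθ]
      calc u * Real.log u = (u * L) * (Real.log u / L) := by field_simp
        _ ≤ Real.log T * (Real.log u / L) := by gcongr
    linarith
  calc (S.card : ℝ) ≤ (T : ℝ) ^ (1 - θ) * ∑ n ∈ S, (n : ℝ) ^ (-(1 - θ)) := h3
    _ ≤ (T * Real.exp (-(u * Real.log u))) * (L * Real.exp (2 * u + (4 + 5 / 2 * zth))) := by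
        apply mul_le_mul h4 (h1.trans h2)
        · apply Finset.sum_nonneg
          intro n _
          positivity
        · positivity
    _ = _ := by
        have e : Real.exp (2 * u + (4 + 5 / 2 * zth) - u * Real.log u) =
            Real.exp (-(u * Real.log u)) * Real.exp (2 * u + (4 + 5 / 2 * zth)) := by
          rw [← Real.exp_add]
          congr 1
          ring
        rw [e]
        ring

end

end Pool.Agent.Lib_helper72.AS
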