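import Mathlib
import Pool.Agent.Lib_helper72.AS.Sieve1

set_option autoImplicit false

/-!
The average of `k / φ(k)` over integers `k` coprime to `n`.
-/

namespace Pool.Agent.Lib_helper72.AS

open Finset Filter Pool.Agent.Lib_helper72.AP

noncomputable section

/-- The inverse of the totient. -/
def invPhi : ArithmeticFunction ℝ := ⟨fun n => 1 / (n.totient : ℝ), by simp⟩

lemma invPhi_apply (n : ℕ) : invPhi n = 1 / (n.totient : ℝ) := rfl

lemma invPhi_mult : invPhi.IsMultiplicative := by
  constructor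
  · simp [invPhi_apply]
  · intro m n hmn
    rw [invPhi_apply, invPhi_apply, invPhi_apply, Nat.totient_mul hmn]
    push_cast
    rw [one_div_mul_one_div]

lemma ratio_eq_prod {k : ℕ} (hk : 0 < k) :
    (k : ℝ) / k.totient = ∏ p ∈ k.primeFactors, (1 + invPhi p) := by
  have hkr : (0 : ℝ) < k := by exact_mod_cast hk
  have e1 := Nat.totient_eq_mul_prod_factors k
  have e2 : (Nat.totient k : ℝ) = k * ∏ p ∈ k.primeFactors, (1 - (p : ℝ)⁻¹) := by
    have : ((Nat.totient k : ℚ) : ℝ) = (((k : ℚ) * ∏ p ∈ k.primeFactors, (1 - (p : ℚ)⁻¹) : ℚ) : ℝ) := by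
      rw [e1]
    push_cast at this
    exact this
  rw [e2, div_mul_eq_div_div, div_self hkr.ne', one_div, ← Finset.prod_inv_distrib]
  apply Finset.prod_congr rfl
  intro p hp
  have hpp := Nat.prime_of_mem_primeFactors hp
  have hp1 : (1 : ℝ) < p := by exact_mod_cast hpp.one_lt
  rw [invPhi_apply, Nat.totient_prime hpp, Nat.cast_sub hpp.one_le, Nat.cast_one]
  have h1 : (p : ℝ) ≠ 0 := by linarith
  have h2 : (p : ℝ) - 1 ≠ 0 := by linarith
  have h3 : (1 : ℝ) - (p : ℝ)⁻¹ ≠ 0 := by
    rw [← one_div, one_sub_div h1]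
    exact div_ne_zero h2 h1
  field_simp
  ring

lemma ratio_le {k : ℕ} (hk : 0 < k) :
    (k : ℝ) / k.totient ≤ ∑ e ∈ k.divisors, (e.divisors.card : ℝ) / e := by
  set r := ∏ p ∈ k.primeFactors, p with hr
  have hrk : r ∣ k := Nat.prod_primeFactors_dvd k
  have hrf : r.primeFactors = k.primeFactors := by
    rw [hr, Nat.primeFactors_prod]
    intro p hp
    exact Nat.prime_of_mem_primeFactors hp
  have hsq : Squarefree r := by
    rw [hr]
    apply Finset.squarefree_prod_of_pairwise_isCoprime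
    · intro p hp q hq hpq
      rw [Function.onFun, ← Nat.coprime_iff_isRelPrime]
      exact (Nat.coprime_primes (Nat.prime_of_mem_primeFactors hp)
        (Nat.prime_of_mem_primeFactors hq)).2 hpq
    · intro p hp
      exact (Nat.prime_of_mem_primeFactors hp).prime.squarefree
  rw [ratio_eq_prod hk, ← hrf, invPhi_mult.prodPrimeFactors_one_add_of_squarefree hsq]
  calc ∑ d ∈ r.divisors, invPhi d ≤ ∑ d ∈ k.divisors, invPhi d := by
        apply Finset.sum_le_sum_of_subset_of_nonneg
        · exact Nat.divisors_subset_of_dvd hk.ne' hrk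
        · intro i _ _
          rw [invPhi_apply]
          positivity
    _ ≤ _ := by
        apply Finset.sum_le_sum
        intro e he
        have he0 : 0 < e := Nat.pos_of_mem_divisors he
        have h1 := le_card_divisors_mul_totient he0
        have h2 : (e : ℝ) ≤ e.divisors.card * e.totient := by exact_mod_cast h1
        have her : (0 : ℝ) < e := by exact_mod_cast he0
        have htr : (0 : ℝ) < e.totient := by exact_mod_cast Nat.totient_pos.2 he0
        rw [invPhi_apply, div_le_div_iff₀ htr her]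
        linarith

/-- The count of multiples of `e` coprime to `n`. -/
lemma count_mult_le {n e : ℕ} (hn : 0 < n) (he : 0 < e) (T : ℕ) :
    (((Icc 1 T).filter (fun k => Nat.Coprime k n ∧ e ∣ k)).card : ℝ) ≤
      (n.totient : ℝ) / n * (T / e) + n.totient := by
  classical
  have h1 : ((Icc 1 T).filter (fun k => Nat.Coprime k n ∧ e ∣ k)).card ≤
      ((Ico 1 (1 + T / e)).filter (fun j => Nat.Coprime (0 + 1 * j) n)).card := by
    apply Finset.card_le_card_of_injOn (fun k => k / e)
    · intro k hk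
      rw [Finset.mem_coe, mem_filter, mem_Icc] at hk
      obtain ⟨⟨h1, h2⟩, h3, h4⟩ := hk
      rw [Finset.mem_coe, mem_filter, mem_Ico, zero_add, one_mul]
      refine ⟨⟨Nat.div_pos (Nat.le_of_dvd h1 h4) he, ?_⟩, ?_⟩
      · show k / e < 1 + T / e
        have := Nat.div_le_div_right (c := e) h2
        omega
      · exact Nat.Coprime.coprime_dvd_left ⟨e, (Nat.div_mul_cancel h4).symm⟩ h3
    · intro x hx y hy hxy
      rw [Finset.mem_coe, mem_filter] at hx hy
      rw [← Nat.div_mul_cancel hx.2.2, ← Nat.div_mul_cancel hy.2.2]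
      simp only at hxy
      rw [hxy]
  have h2 := h1.trans (cntAP hn (Nat.coprime_one_left n) 0 (T / e) 1)
  have h3 : (((Icc 1 T).filter (fun k => Nat.Coprime k n ∧ e ∣ k)).card : ℝ) ≤
      n.totient * ((((T / e) / n : ℕ) : ℝ) + 1) := by exact_mod_cast h2
  have h4 : (((T / e) / n : ℕ) : ℝ) ≤ ((T / e : ℕ) : ℝ) / n := Nat.cast_div_le
  have h5 : ((T / e : ℕ) : ℝ) ≤ T / e := Nat.cast_div_le
  have hnr : (0 : ℝ) < n := by exact_mod_cast hn
  have h6 : (((T / e) / n : ℕ) : ℝ) ≤ (T / e) / n := h4.trans (by gcongr)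
  refine h3.trans ?_
  calc (n.totient : ℝ) * ((((T / e) / n : ℕ) : ℝ) + 1) ≤ n.totient * ((T / e) / n + 1) := by
        gcongr
    _ = _ := by ring

lemma sum_divisors_div_le (n : ℕ) :
    ∑ e ∈ Icc 1 n, (e.divisors.card : ℝ) / (e : ℝ) ≤ (∑ a ∈ Icc 1 n, (1 : ℝ) / a) ^ 2 := by
  classical
  have h1 : ∀ e ∈ Icc 1 n, (e.divisors.card : ℝ) / (e : ℝ) =
      ∑ x ∈ (Icc 1 n ×ˢ Icc 1 n).filter (fun x => x.1 * x.2 = e),
        (1 / (x.1 : ℝ)) * (1 / (x.2 : ℝ)) := by
    intro e he
    rw [mem_Icc] at he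
    have h2 : ∀ x ∈ (Icc 1 n ×ˢ Icc 1 n).filter (fun x => x.1 * x.2 = e),
        (1 / (x.1 : ℝ)) * (1 / (x.2 : ℝ)) = 1 / (e : ℝ) := by
      intro x hx
      rw [mem_filter] at hx
      rw [← hx.2]
      push_cast
      rw [one_div_mul_one_div]
    rw [Finset.sum_congr rfl h2, Finset.sum_const, nsmul_eq_mul]
    have h3 : ((Icc 1 n ×ˢ Icc 1 n).filter (fun x => x.1 * x.2 = e)).card = e.divisors.card := by
      apply Finset.card_bij (fun x _ => x.1)
      · intro x hx
        rw [mem_filter] at hx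
        rw [Nat.mem_divisors]
        exact ⟨⟨x.2, hx.2.symm⟩, by omega⟩
      · intro x hx y hy hxy
        rw [mem_filter, mem_product, mem_Icc, mem_Icc] at hx hy
        have h4 : x.1 * x.2 = x.1 * y.2 := by
          rw [hx.2, hxy, hy.2]
        have h5 := Nat.eq_of_mul_eq_mul_left (by omega) h4
        exact Prod.ext hxy h5
      · intro a ha
        rw [Nat.mem_divisors] at ha
        obtain ⟨⟨b, hb⟩, he0⟩ := ha
        have ha0 : 0 < a := by
          rcases Nat.eq_zero_or_pos a with h | h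
          · rw [h, zero_mul] at hb
            omega
          · exact h
        have hb0 : 0 < b := by
          rcases Nat.eq_zero_or_pos b with h | h
          · rw [h, mul_zero] at hb
            omega
          · exact h
        have ha1 : a ≤ e := by rw [hb]; exact Nat.le_mul_of_pos_right a hb0
        have hb1 : b ≤ e := by rw [hb]; exact Nat.le_mul_of_pos_left b ha0
        refine ⟨(a, b), ?_, rfl⟩
        rw [mem_filter, mem_product, mem_Icc, mem_Icc]
        exact ⟨⟨⟨ha0, ha1.trans he.2⟩, ⟨hb0, hb1.trans he.2⟩⟩, hb.symm⟩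
    rw [h3]
    ring
  rw [Finset.sum_congr rfl h1]
  have h2 : ∑ e ∈ Icc 1 n, ∑ x ∈ (Icc 1 n ×ˢ Icc 1 n).filter (fun x => x.1 * x.2 = e),
        (1 / (x.1 : ℝ)) * (1 / (x.2 : ℝ)) ≤
      ∑ x ∈ Icc 1 n ×ˢ Icc 1 n, (1 / (x.1 : ℝ)) * (1 / (x.2 : ℝ)) := by
    rw [← Finset.sum_biUnion]
    · apply Finset.sum_le_sum_of_subset_of_nonneg
      · intro x hx
        rw [mem_biUnion] at hx
        obtain ⟨e, _, hx⟩ := hx
        exact (mem_filter.1 hx).1
      · intro x _ _
        positivity
    · intro a _ b _ hab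
      rw [Function.onFun, Finset.disjoint_left]
      intro x hx hx'
      rw [mem_filter] at hx hx'
      exact hab (hx.2.symm.trans hx'.2)
  refine h2.trans ?_
  rw [Finset.sum_product]
  simp only []
  rw [← Finset.sum_mul_sum, sq]

/-- The sum of `k / φ(k)` over the integers `k ≤ T` coprime to `n`. -/
theorem sum_ratio_le {n : ℕ} (hn : 0 < n) (T : ℕ) :
    ∑ k ∈ (Icc 1 T).filter (fun k => Nat.Coprime k n), (k : ℝ) / k.totient ≤
      4 * ((n.totient : ℝ) / n) * T + n.totient * (∑ a ∈ Icc 1 T, (1 : ℝ) / a) ^ 2 := by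
  classical
  have h1 : ∀ k ∈ (Icc 1 T).filter (fun k => Nat.Coprime k n), (k : ℝ) / k.totient ≤
      ∑ e ∈ Icc 1 T, (if e ∣ k then (e.divisors.card : ℝ) / e else 0) := by
    intro k hk
    rw [mem_filter, mem_Icc] at hk
    refine (ratio_le (by omega)).trans ?_
    rw [← Finset.sum_filter]
    apply Finset.sum_le_sum_of_subset_of_nonneg
    · intro e he
      rw [Nat.mem_divisors] at he
      rw [mem_filter, mem_Icc]
      have h2 : 0 < e := Nat.pos_of_ne_zero (fun h0 => by
        rw [h0, zero_dvd_iff] at he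
        exact he.2 he.1)
      have h3 := Nat.le_of_dvd (Nat.pos_of_ne_zero he.2) he.1
      exact ⟨⟨h2, by omega⟩, he.1⟩
    · intro _ _ _
      positivity
  refine (Finset.sum_le_sum h1).trans ?_
  rw [Finset.sum_comm]
  have h2 : ∀ e ∈ Icc 1 T, ∑ k ∈ (Icc 1 T).filter (fun k => Nat.Coprime k n),
      (if e ∣ k then (e.divisors.card : ℝ) / e else 0) ≤
      (n.totient : ℝ) / n * T * ((e.divisors.card : ℝ) / (e : ℝ) ^ 2) +
        n.totient * ((e.divisors.card : ℝ) / e) := by
    intro e he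
    rw [mem_Icc] at he
    have her : (0 : ℝ) < e := by exact_mod_cast he.1
    rw [← Finset.sum_filter, Finset.filter_filter, Finset.sum_const, nsmul_eq_mul]
    have h3 := count_mult_le hn (e := e) (by omega) T
    calc (((Icc 1 T).filter (fun k => Nat.Coprime k n ∧ e ∣ k)).card : ℝ) *
          ((e.divisors.card : ℝ) / e) ≤
          ((n.totient : ℝ) / n * (T / e) + n.totient) * ((e.divisors.card : ℝ) / e) := by
          gcongr
      _ = _ := by
          field_simp
  refine (Finset.sum_le_sum h2).trans ?_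
  rw [Finset.sum_add_distrib, ← Finset.mul_sum, ← Finset.mul_sum]
  have h3 := sum_divisors_div_sq_le T
  have h4 := sum_divisors_div_le T
  have h5 : (0 : ℝ) ≤ (n.totient : ℝ) / n * T := by positivity
  have h6 : (0 : ℝ) ≤ n.totient := Nat.cast_nonneg _
  have h7 := mul_le_mul_of_nonneg_left h3 h5
  have h8 := mul_le_mul_of_nonneg_left h4 h6
  linarith

end

end Pool.Agent.Lib_helper72.AS
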